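import Pool.Agent.Lib.MP_ab497f_al.Spec

/-!
# MP_ab497f_al : module AMP (1.5)
-/

set_option autoImplicit false

namespace MPab

namespace AMP

/-! ## Paths -/

section Paths

variable {α G : Type} [Group G] (f : α → G)

/-- composition of paths -/
def comp (v w : List α × List α) : List α × List α := (v.1 ++ w.1, w.2 ++ v.2)

/-- the inverse path -/
def pinv (v : List α × List α) : List α × List α := (v.2, v.1)

/-- powers of a path -/
def ppow (v : List α × List α) (n : ℕ) : List α × List α := (rep n v.1, rep n v.2)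

theorem val_append (u v : List α) : val f (u ++ v) = val f u * val f v := by
  simp [val]

theorem val_rep (n : ℕ) (u : List α) : val f (rep n u) = val f u ^ n := by
  induction n with
  | zero => simp [rep, val]
  | succ n ih =>
    have : rep (n + 1) u = u ++ rep n u := by simp [rep, List.replicate_succ]
    rw [this, val_append, ih, pow_succ']

theorem length_rep (n : ℕ) (u : List α) : (rep n u).length = n * u.length := by
  induction n with
  | zero => simp [rep]
  | succ n ih =>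
    have : rep (n + 1) u = u ++ rep n u := by simp [rep, List.replicate_succ]
    rw [this, List.length_append, ih]
    ring

variable {f}

theorem path_snd {v : List α × List α} (h : IsPath f v) : val f v.2 = (val f v.1)⁻¹ :=
  eq_inv_of_mul_eq_one_right h

theorem isPath_comp {v w : List α × List α} (hv : IsPath f v) (hw : IsPath f w) :
    IsPath f (comp v w) := by
  unfold IsPath comp
  rw [val_append, val_append, path_snd hv, path_snd hw]
  group

theorem isPath_pinv {v : List α × List α} (hv : IsPath f v) : IsPath f (pinv v) := by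
  unfold IsPath pinv
  rw [path_snd hv]
  group

theorem isPath_ppow {v : List α × List α} (hv : IsPath f v) (n : ℕ) : IsPath f (ppow v n) := by
  unfold IsPath ppow
  rw [val_rep, val_rep, path_snd hv, inv_pow, mul_inv_cancel]

theorem val_comp (v w : List α × List α) : val f (comp v w).1 = val f v.1 * val f w.1 :=
  val_append f _ _

theorem val_pinv {v : List α × List α} (hv : IsPath f v) : val f (pinv v).1 = (val f v.1)⁻¹ :=
  path_snd hv

theorem val_ppow (v : List α × List α) (n : ℕ) : val f (ppow v n).1 = val f v.1 ^ n :=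
  val_rep f _ _

theorem length_epos (v : List α × List α) :
    (epos f v).length = v.1.length + v.2.length + 2 := by
  simp only [epos, List.length_append, List.length_map, List.length_inits]
  omega

theorem mem_epos {v : List α × List α} {x : G} :
    x ∈ epos f v ↔ (∃ p, p <+: v.1 ∧ val f p = x) ∨
      (∃ p, p <+: v.2 ∧ val f v.1 * val f p = x) := by
  simp only [epos, List.mem_append, List.mem_map, List.mem_inits]

theorem prefix_append_cases {p a b : List α} (h : p <+: a ++ b) :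
    p <+: a ∨ ∃ q, q <+: b ∧ p = a ++ q := by
  obtain ⟨q, hq⟩ := h
  rw [List.append_eq_append_iff] at hq
  rcases hq with ⟨a', h1, h2⟩ | ⟨c', h1, h2⟩
  · exact Or.inl ⟨a', h1.symm⟩
  · exact Or.inr ⟨c', ⟨q, h2.symm⟩, h1⟩

theorem mem_epos_comp {v w : List α × List α} (hw : IsPath f w) {x : G}
    (hx : x ∈ epos f (comp v w)) : x ∈ epos f v ∨ ∃ y ∈ epos f w, x = val f v.1 * y := by
  rw [mem_epos] at hx
  rcases hx with ⟨p, hp, rfl⟩ | ⟨p, hp, rfl⟩
  · rcases prefix_append_cases hp with h | ⟨q, h, rfl⟩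
    · exact Or.inl (mem_epos.2 (Or.inl ⟨p, h, rfl⟩))
    · exact Or.inr ⟨val f q, mem_epos.2 (Or.inl ⟨q, h, rfl⟩), val_append f _ _⟩
  · rcases prefix_append_cases hp with h | ⟨q, h, rfl⟩
    · refine Or.inr ⟨val f w.1 * val f p, mem_epos.2 (Or.inr ⟨p, h, rfl⟩), ?_⟩
      rw [val_comp, mul_assoc]
    · refine Or.inl (mem_epos.2 (Or.inr ⟨q, h, ?_⟩))
      rw [val_comp, val_append, path_snd hw]
      group

theorem mem_epos_pinv {v : List α × List α} (hv : IsPath f v) {x : G}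
    (hx : x ∈ epos f (pinv v)) : ∃ y ∈ epos f v, x = (val f v.1)⁻¹ * y := by
  rw [mem_epos] at hx
  rcases hx with ⟨p, hp, rfl⟩ | ⟨p, hp, rfl⟩
  · exact ⟨val f v.1 * val f p, mem_epos.2 (Or.inr ⟨p, hp, rfl⟩), by group⟩
  · exact ⟨val f p, mem_epos.2 (Or.inl ⟨p, hp, rfl⟩), by rw [val_pinv hv]⟩

theorem length_comp (v w : List α × List α) :
    (epos f (comp v w)).length + 2 = (epos f v).length + (epos f w).length := by
  simp only [length_epos, comp, List.length_append]
  omega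

theorem length_pinv (v : List α × List α) : (epos f (pinv v)).length = (epos f v).length := by
  simp only [length_epos, pinv]
  omega

theorem length_ppow (v : List α × List α) (n : ℕ) :
    (epos f (ppow v n)).length = n * (v.1.length + v.2.length) + 2 := by
  simp only [length_epos, ppow, length_rep]
  ring

end Paths

/-! ## The noise of a commutator -/

section Noise

variable {α G : Type} [Group G] {f : α → G}

/-- the six positions -/
def Z (U V : G) : Fin 6 → G
  | 0 => 1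
  | 1 => U
  | 2 => U * V
  | 3 => U * V * U⁻¹
  | 4 => U * V * U⁻¹ * V⁻¹
  | 5 => V

/-- the path of `U V U⁻¹ V⁻¹` -/
def pcomm (pU pV : List α × List α) : List α × List α :=
  comp (comp (comp pU pV) (pinv pU)) (pinv pV)

/-- the noise `++_z z W` -/
def Om (pU pV : List α × List α) (W : Noise α) : Noise α :=
  .app W (.app (.tr pU W) (.app (.tr (comp pU pV) W)
    (.app (.tr (comp (comp pU pV) (pinv pU)) W) (.app (.tr (pcomm pU pV) W) (.tr pV W)))))

theorem isPath_pcomm {pU pV : List α × List α} (hU : IsPath f pU) (hV : IsPath f pV) :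
    IsPath f (pcomm pU pV) :=
  isPath_comp (isPath_comp (isPath_comp hU hV) (isPath_pinv hU)) (isPath_pinv hV)

theorem val_pcomm {pU pV : List α × List α} (hU : IsPath f pU) (hV : IsPath f pV) :
    val f (pcomm pU pV).1 =
      val f pU.1 * val f pV.1 * (val f pU.1)⁻¹ * (val f pV.1)⁻¹ := by
  rw [pcomm, val_comp, val_comp, val_comp, val_pinv hU, val_pinv hV]

theorem Om_ok {pU pV : List α × List α} {W : Noise α} (hU : IsPath f pU) (hV : IsPath f pV)
    (hW : W.Ok f) : (Om pU pV W).Ok f :=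
  ⟨hW, ⟨hU, hW⟩, ⟨isPath_comp hU hV, hW⟩,
    ⟨isPath_comp (isPath_comp hU hV) (isPath_pinv hU), hW⟩, ⟨isPath_pcomm hU hV, hW⟩, hV, hW⟩

theorem Om_good {T : Type} {K : Finset G} {P0 : List G} {A : T → Subgroup G}
    {pU pV : List α × List α} {W : Noise α} (hU : IsPath f pU) (hV : IsPath f pV)
    {B : Subgroup G} (h : Good f K P0 A B (Om pU pV W)) (a : Fin 6) :
    Good f K P0 A (cj (Z (val f pU.1) (val f pV.1) a)⁻¹ B) W := by
  obtain ⟨h0, h1, h2, h3, h4, h5⟩ := h
  have e2 : val f (comp pU pV).1 = val f pU.1 * val f pV.1 := val_comp _ _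
  have e3 : val f (comp (comp pU pV) (pinv pU)).1 =
      val f pU.1 * val f pV.1 * (val f pU.1)⁻¹ := by
    rw [val_comp, val_comp, val_pinv hU]
  have e4 := val_pcomm hU hV
  fin_cases a
  · change Good f K P0 A (cj (1 : G)⁻¹ B) W
    rw [inv_one, cj_one]
    exact h0
  · exact h1
  · change Good f K P0 A (cj (val f pU.1 * val f pV.1)⁻¹ B) W
    rw [← e2]
    exact h2
  · change Good f K P0 A (cj (val f pU.1 * val f pV.1 * (val f pU.1)⁻¹)⁻¹ B) W
    rw [← e3]
    exact h3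
  · change Good f K P0 A (cj (val f pU.1 * val f pV.1 * (val f pU.1)⁻¹ * (val f pV.1)⁻¹)⁻¹ B) W
    rw [← e4]
    exact h4
  · exact h5

theorem length_posL_tr {P0 : List G} (v : List α × List α) (W : Noise α) :
    (posL f P0 (.tr v W)).length = (epos f v).length + (posL f P0 W).length := by
  simp [posL]

theorem length_posL_app {P0 : List G} (W₁ W₂ : Noise α) :
    (posL f P0 (.app W₁ W₂)).length = (posL f P0 W₁).length + (posL f P0 W₂).length := by
  simp [posL]

theorem length_Om {P0 : List G} (pU pV : List α × List α) (W : Noise α) :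
    (posL f P0 (Om pU pV W)).length + (epos f (pcomm pU pV)).length ≤
      6 * (posL f P0 W).length + 8 * ((epos f pU).length + (epos f pV).length) := by
  unfold Om pcomm
  simp only [length_posL_app, length_posL_tr]
  have h1 := length_comp (f := f) pU pV
  have h2 := length_comp (f := f) (comp pU pV) (pinv pU)
  have h3 := length_comp (f := f) (comp (comp pU pV) (pinv pU)) (pinv pV)
  have h4 := length_pinv (f := f) pU
  have h5 := length_pinv (f := f) pV
  omega

end Noise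

/-! ## Counting -/

theorem ncard_prod_le {I J : Type} [Fintype I] [Fintype J] (P : I → Prop) (Q : I → J → Prop)
    (a b : ℚ) (hb : 0 ≤ b) (hP : ({i : I | P i}.ncard : ℚ) ≤ a)
    (hQ : ∀ i, P i → ({j : J | Q i j}.ncard : ℚ) ≤ b) :
    ({x : I × J | P x.1 ∧ Q x.1 x.2}.ncard : ℚ) ≤ a * b := by
  classical
  have e1 : {x : I × J | P x.1 ∧ Q x.1 x.2}.ncard =
      ∑ i : I, (if P i then {j : J | Q i j}.ncard else 0) := by
    have e : {x : I × J | P x.1 ∧ Q x.1 x.2}.ncard =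
        (Finset.univ.filter fun x : I × J => P x.1 ∧ Q x.1 x.2).card := by
      rw [Set.ncard_eq_toFinset_card']
      congr 1
      ext x
      simp
    rw [e, Finset.card_filter, ← Finset.univ_product_univ, Finset.sum_product]
    refine Finset.sum_congr rfl fun i _ => ?_
    split_ifs with h
    · rw [Set.ncard_eq_toFinset_card', ← Finset.card_filter]
      congr 1
      ext j
      simp [h]
    · simp [h]
  rw [e1, Nat.cast_sum]
  have e2 : ({i : I | P i}.ncard : ℚ) = ∑ i : I, (if P i then (1 : ℚ) else 0) := by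
    rw [Set.ncard_eq_toFinset_card', Finset.sum_boole]
    congr 2
    ext x
    simp
  calc ∑ i : I, ((if P i then ({j : J | Q i j}.ncard) else 0 : ℕ) : ℚ)
      ≤ ∑ i : I, (if P i then (1 : ℚ) else 0) * b := by
        refine Finset.sum_le_sum fun i _ => ?_
        split_ifs with h
        · rw [one_mul]
          exact hQ i h
        · simp
    _ = ({i : I | P i}.ncard : ℚ) * b := by rw [← Finset.sum_mul, e2]
    _ ≤ a * b := mul_le_mul_of_nonneg_right hP hb

theorem ncard_swap {I J : Type} [Fintype I] [Fintype J] (S : I × J → Prop) :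
    {x : I × J | S x}.ncard = {x : J × I | S (x.2, x.1)}.ncard := by
  rw [← Set.ncard_image_of_injective {x : J × I | S (x.2, x.1)}
    (f := fun x : J × I => (x.2, x.1)) (fun x y h => by
      rw [Prod.mk.injEq] at h
      exact Prod.ext h.2 h.1)]
  congr 1
  ext ⟨i, j⟩
  simp only [Set.mem_ofPred_eq, Set.mem_image, Prod.exists, Prod.mk.injEq]
  constructor
  · intro h
    exact ⟨j, i, h, rfl, rfl⟩
  · rintro ⟨j', i', h, rfl, rfl⟩
    exact h

/-- the shift of the second noise and the second path -/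
def W2 {α : Type} (pL : List α × List α) (Ω₁ Ω₂ : Noise α) : Noise α := .app Ω₁ (.tr pL Ω₂)

end AMP

open AMP in
theorem specAMP : SpecAMP := by
  intro α G T _ f K P0 A ι c Pr hS
  obtain ⟨wc, hwc⟩ := hS.surj c
  obtain ⟨wc', hwc'⟩ := hS.surj c⁻¹
  set pc : List α × List α := (wc, wc') with hpc
  have hc : IsPath f pc := by
    unfold IsPath
    rw [hpc]
    change val f wc * val f wc' = 1
    rw [hwc, hwc', mul_inv_cancel]
  set k : ℕ := wc.length + wc'.length with hk
  refine ⟨100 * (k + 1), ?_⟩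
  intro ε L S hε ⟨I, hI, hIne, u, Ω, v, h1, h2⟩
  set pL : List α × List α := ppow pc L with hpL
  have hpLp : IsPath f pL := isPath_ppow hc L
  have hpLv : val f pL.1 = c ^ L := by rw [hpL, val_ppow, hpc]; rw [← hwc]
  have hpLlen : (epos f pL).length = L * k + 2 := by rw [hpL, length_ppow]
  set pV : I → List α × List α := fun j => comp (comp pL (v j)) (pinv pL) with hpV
  have hpVp : ∀ j, IsPath f (pV j) := fun j =>
    isPath_comp (isPath_comp hpLp (h1 j).2.2.1) (isPath_pinv hpLp)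
  have hpVv : ∀ j, val f (pV j).1 = c ^ L * u j * (c ^ L)⁻¹ := by
    intro j
    rw [hpV]
    rw [val_comp, val_comp, val_pinv hpLp, hpLv, (h1 j).2.2.2.1]
  have hpVlen : ∀ j, (epos f (pV j)).length ≤ S + 2 * (L * k) := by
    intro j
    have e1 := length_comp (f := f) (comp pL (v j)) (pinv pL)
    have e2 := length_comp (f := f) pL (v j)
    have e3 := length_pinv (f := f) pL
    have e4 := (h1 j).2.2.2.2
    have e5 : (epos f (pV j)).length = (epos f (comp (comp pL (v j)) (pinv pL))).length := rfl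
    omega
  set W : I × I → Noise α := fun x => W2 pL (Ω x.1) (Ω x.2) with hW
  refine ⟨I × I, inferInstance, inferInstance,
    fun x => u x.1 * (c ^ L * u x.2 * (c ^ L)⁻¹) * (u x.1)⁻¹ * (c ^ L * u x.2 * (c ^ L)⁻¹)⁻¹,
    fun x => Om (v x.1) (pV x.2) (W x), fun x => pcomm (v x.1) (pV x.2), ?_, ?_⟩
  · intro x
    obtain ⟨a1, a2, a3, a4, a5⟩ := h1 x.1
    obtain ⟨b1, b2, b3, b4, b5⟩ := h1 x.2
    refine ⟨hS.free.comm L _ _ a1 b1, Om_ok a3 (hpVp _) ⟨a2, hpLp, b2⟩,
      isPath_pcomm a3 (hpVp _), ?_, ?_⟩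
    · rw [val_pcomm a3 (hpVp _), a4, hpVv]
    · refine (length_Om _ _ _).trans ?_
      have e1 : (posL f P0 (W x)).length =
          (posL f P0 (Ω x.1)).length + ((L * k + 2) + (posL f P0 (Ω x.2)).length) := by
        rw [hW]
        simp only [W2]
        rw [length_posL_app, length_posL_tr, hpLlen]
      have e2 := hpVlen x.2
      have e3 : 100 * (k + 1) * (S + L + 1) =
          100 * (k * S) + 100 * (L * k) + 100 * k + 100 * S + 100 * L + 100 := by ring
      rw [e1, e3]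
      have e4 : 0 ≤ k * S := Nat.zero_le _
      omega
  · intro B
    -- the three kinds of failure
    have hfail : ∀ x : I × I, (Good f K P0 A B (Om (v x.1) (pV x.2) (W x)) ∧
        u x.1 * (c ^ L * u x.2 * (c ^ L)⁻¹) * (u x.1)⁻¹ * (c ^ L * u x.2 * (c ^ L)⁻¹)⁻¹ ∉ B) →
        ((Good f K P0 A B (Ω x.1) ∧ u x.1 ∉ B) ∧
          (Good f K P0 A (cj (c ^ L)⁻¹ B) (Ω x.2) ∧ u x.2 ∉ cj (c ^ L)⁻¹ B)) ∨
        ((Good f K P0 A B (Ω x.1) ∧ u x.1 ∉ B) ∧
          (Good f K P0 A (cj (c ^ L)⁻¹ (cj (u x.1)⁻¹ B)) (Ω x.2) ∧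
            u x.2 ∉ cj (c ^ L)⁻¹ (cj (u x.1)⁻¹ B))) ∨
        ((Good f K P0 A (cj (c ^ L)⁻¹ B) (Ω x.2) ∧ u x.2 ∉ cj (c ^ L)⁻¹ B) ∧
          (Good f K P0 A (cj (c ^ L * u x.2 * (c ^ L)⁻¹)⁻¹ B) (Ω x.1) ∧
            u x.1 ∉ cj (c ^ L * u x.2 * (c ^ L)⁻¹)⁻¹ B)) := by
      rintro x ⟨hg, hu⟩
      obtain ⟨a1, a2, a3, a4, a5⟩ := h1 x.1
      have hg0 := Om_good a3 (hpVp _) hg 0
      have hg1 := Om_good a3 (hpVp _) hg 1
      have hg5 := Om_good a3 (hpVp _) hg 5
      simp only [Z, a4, hpVv, inv_one, cj_one] at hg0 hg1 hg5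
      have g0 : Good f K P0 A B (Ω x.1) := hg0.1
      have g0' : Good f K P0 A (cj (c ^ L)⁻¹ B) (Ω x.2) := by
        have := hg0.2
        rw [← hpLv]
        exact this
      have g1' : Good f K P0 A (cj (c ^ L)⁻¹ (cj (u x.1)⁻¹ B)) (Ω x.2) := by
        have := hg1.2
        rw [← hpLv]
        exact this
      have g5 : Good f K P0 A (cj (c ^ L * u x.2 * (c ^ L)⁻¹)⁻¹ B) (Ω x.1) := hg5.1
      set U := u x.1 with hU
      set V := c ^ L * u x.2 * (c ^ L)⁻¹ with hV
      have m1 : u x.2 ∈ cj (c ^ L)⁻¹ B ↔ V ∈ B := by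
        rw [mem_cj, hV, inv_inv]
      have m2 : u x.2 ∈ cj (c ^ L)⁻¹ (cj U⁻¹ B) ↔ U * V * U⁻¹ ∈ B := by
        rw [mem_cj, mem_cj, hV, inv_inv, inv_inv]
      have m3 : U ∈ cj V⁻¹ B ↔ V * U * V⁻¹ ∈ B := by
        rw [mem_cj, inv_inv]
      rw [m1, m2, m3]
      have n1 : V ∈ B → U * V * U⁻¹ ∈ B → False := fun p q => hu (by
        exact B.mul_mem q (B.inv_mem p))
      have n2 : U ∈ B → V * U * V⁻¹ ∈ B → False := fun p q => hu (by
        have := B.mul_mem p (B.inv_mem q)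
        have e : U * (V * U * V⁻¹)⁻¹ = U * V * U⁻¹ * V⁻¹ := by group
        rwa [e] at this)
      by_cases hUB : U ∈ B
      · have hVUV := fun q => n2 hUB q
        by_cases hVB : V ∈ B
        · exact absurd (B.mul_mem (B.mul_mem hVB hUB) (B.inv_mem hVB)) hVUV
        · exact Or.inr (Or.inr ⟨⟨g0', hVB⟩, g5, hVUV⟩)
      · by_cases hVB : V ∈ B
        · exact Or.inr (Or.inl ⟨⟨g0, hUB⟩, g1', fun q => n1 hVB q⟩)
        · exact Or.inl ⟨⟨g0, hUB⟩, g0', hVB⟩
    set a : ℚ := ε * Fintype.card I with ha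
    have ha0 : 0 ≤ a := by positivity
    have c1 := ncard_prod_le (fun i : I => Good f K P0 A B (Ω i) ∧ u i ∉ B)
      (fun _ j : I => Good f K P0 A (cj (c ^ L)⁻¹ B) (Ω j) ∧ u j ∉ cj (c ^ L)⁻¹ B) a a ha0 (h2 B)
      (fun i _ => h2 _)
    have c2 := ncard_prod_le (fun i : I => Good f K P0 A B (Ω i) ∧ u i ∉ B)
      (fun i j : I => Good f K P0 A (cj (c ^ L)⁻¹ (cj (u i)⁻¹ B)) (Ω j) ∧
        u j ∉ cj (c ^ L)⁻¹ (cj (u i)⁻¹ B)) a a ha0 (h2 B) (fun i _ => h2 _)
    have c3 := ncard_prod_le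
      (fun j : I => Good f K P0 A (cj (c ^ L)⁻¹ B) (Ω j) ∧ u j ∉ cj (c ^ L)⁻¹ B)
      (fun j i : I => Good f K P0 A (cj (c ^ L * u j * (c ^ L)⁻¹)⁻¹ B) (Ω i) ∧
        u i ∉ cj (c ^ L * u j * (c ^ L)⁻¹)⁻¹ B) a a ha0 (h2 _) (fun i _ => h2 _)
    have c3' := ncard_swap (fun x : I × I =>
      (Good f K P0 A (cj (c ^ L)⁻¹ B) (Ω x.2) ∧ u x.2 ∉ cj (c ^ L)⁻¹ B) ∧
          (Good f K P0 A (cj (c ^ L * u x.2 * (c ^ L)⁻¹)⁻¹ B) (Ω x.1) ∧
            u x.1 ∉ cj (c ^ L * u x.2 * (c ^ L)⁻¹)⁻¹ B))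
    have hsub : {x : I × I | Good f K P0 A B (Om (v x.1) (pV x.2) (W x)) ∧
        u x.1 * (c ^ L * u x.2 * (c ^ L)⁻¹) * (u x.1)⁻¹ * (c ^ L * u x.2 * (c ^ L)⁻¹)⁻¹ ∉ B} ⊆
        {x : I × I | (Good f K P0 A B (Ω x.1) ∧ u x.1 ∉ B) ∧
          (Good f K P0 A (cj (c ^ L)⁻¹ B) (Ω x.2) ∧ u x.2 ∉ cj (c ^ L)⁻¹ B)} ∪
        ({x : I × I | (Good f K P0 A B (Ω x.1) ∧ u x.1 ∉ B) ∧
          (Good f K P0 A (cj (c ^ L)⁻¹ (cj (u x.1)⁻¹ B)) (Ω x.2) ∧
            u x.2 ∉ cj (c ^ L)⁻¹ (cj (u x.1)⁻¹ B))} ∪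
        {x : I × I | (Good f K P0 A (cj (c ^ L)⁻¹ B) (Ω x.2) ∧ u x.2 ∉ cj (c ^ L)⁻¹ B) ∧
          (Good f K P0 A (cj (c ^ L * u x.2 * (c ^ L)⁻¹)⁻¹ B) (Ω x.1) ∧
            u x.1 ∉ cj (c ^ L * u x.2 * (c ^ L)⁻¹)⁻¹ B)}) := fun x hx => hfail x hx
    have hle := (Set.ncard_le_ncard hsub (Set.toFinite _)).trans (Set.ncard_union_le _ _)
    have hle2 := Set.ncard_union_le {x : I × I | (Good f K P0 A B (Ω x.1) ∧ u x.1 ∉ B) ∧
          (Good f K P0 A (cj (c ^ L)⁻¹ (cj (u x.1)⁻¹ B)) (Ω x.2) ∧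
            u x.2 ∉ cj (c ^ L)⁻¹ (cj (u x.1)⁻¹ B))}
        {x : I × I | (Good f K P0 A (cj (c ^ L)⁻¹ B) (Ω x.2) ∧ u x.2 ∉ cj (c ^ L)⁻¹ B) ∧
          (Good f K P0 A (cj (c ^ L * u x.2 * (c ^ L)⁻¹)⁻¹ B) (Ω x.1) ∧
            u x.1 ∉ cj (c ^ L * u x.2 * (c ^ L)⁻¹)⁻¹ B)}
    rw [← c3'] at c3
    have hle' : ({x : I × I | Good f K P0 A B (Om (v x.1) (pV x.2) (W x)) ∧
        u x.1 * (c ^ L * u x.2 * (c ^ L)⁻¹) * (u x.1)⁻¹ *
          (c ^ L * u x.2 * (c ^ L)⁻¹)⁻¹ ∉ B}.ncard : ℚ) ≤ a * a + (a * a + a * a) := by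
      refine le_trans ?_ (add_le_add c1 (add_le_add c2 c3))
      exact_mod_cast hle.trans (Nat.add_le_add_left hle2 _)
    refine hle'.trans (le_of_eq ?_)
    rw [ha, Fintype.card_prod]
    push_cast
    ring

end MPab
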