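import Mathlib

/-!
# MP_ab497f_al : `Z^2 * Z` is not co-context-free.  Definitions

Paper proof: `/team-store/MP_ab497f_al_H16_PROOF.md` (helper16).
-/

set_option autoImplicit false

namespace MPab

/-- the group `Z^2`, written multiplicatively -/
abbrev Z2 : Type := Multiplicative (ℤ × ℤ)

/-- the group `Z^2 * Z` of the frozen statement -/
abbrev GG : Type := Monoid.Coprod (Multiplicative (ℤ × ℤ)) (Multiplicative ℤ)

section Basic

variable {α G : Type} [Group G]

/-- value of a word -/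
abbrev val (f : α → G) (w : List α) : G := (w.map f).prod

/-- `n`-th power of a word -/
def rep (n : ℕ) (w : List α) : List α := (List.replicate n w).flatten

/-- the conjugate subgroup `g A g⁻¹` -/
def cj (g : G) (A : Subgroup G) : Subgroup G where
  carrier := {x | g⁻¹ * x * g ∈ A}
  one_mem' := by simp
  mul_mem' := by
    intro a b ha hb
    have h := A.mul_mem ha hb
    have e : g⁻¹ * a * g * (g⁻¹ * b * g) = g⁻¹ * (a * b) * g := by group
    rw [e] at h
    exact h
  inv_mem' := by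
    intro a ha
    have h := A.inv_mem ha
    have e : (g⁻¹ * a * g)⁻¹ = g⁻¹ * a⁻¹ * g := by group
    rw [e] at h
    exact h

theorem mem_cj {g x : G} {A : Subgroup G} : x ∈ cj g A ↔ g⁻¹ * x * g ∈ A := Iff.rfl

theorem cj_mul (g h : G) (A : Subgroup G) : cj (g * h) A = cj g (cj h A) := by
  ext x
  simp only [mem_cj]
  have e : (g * h)⁻¹ * x * (g * h) = h⁻¹ * (g⁻¹ * x * g) * h := by group
  rw [e]

theorem cj_one (A : Subgroup G) : cj 1 A = A := by
  ext x
  simp [mem_cj]

theorem cj_mono {g : G} {A B : Subgroup G} (h : A ≤ B) : cj g A ≤ cj g B := fun _ hx => h hx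

/-! ## Paths and noise -/

/-- A path is a pair of words with inverse values. Its value is `val f v.1`. -/
def IsPath (f : α → G) (v : List α × List α) : Prop := val f v.1 * val f v.2 = 1

/-- the positions visited on a path and on the way back -/
def epos (f : α → G) (v : List α × List α) : List G :=
  (v.1.inits.map fun p => val f p) ++ (v.2.inits.map fun p => val f v.1 * val f p)

/-- Noise (non-empty by construction): a blob, a repeated noise, the concatenation of two noises, or a noise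
at the end of a path. -/
inductive Noise (α : Type) : Type
  | blob : Noise α
  | sub (W : Noise α) : Noise α
  | app (W₁ W₂ : Noise α) : Noise α
  | tr (v : List α × List α) (W : Noise α) : Noise α

/-- all paths are paths -/
def Noise.Ok (f : α → G) : Noise α → Prop
  | .blob => True
  | .sub W => W.Ok f
  | .app W₁ W₂ => W₁.Ok f ∧ W₂.Ok f
  | .tr v W => IsPath f v ∧ W.Ok f

/-- the positions visited by a noise; `P0` are the positions visited inside a blob -/
def posL (f : α → G) (P0 : List G) : Noise α → List G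
  | .blob => P0
  | .sub W => posL f P0 W
  | .app W₁ W₂ => posL f P0 W₁ ++ posL f P0 W₂
  | .tr v W => epos f v ++ (posL f P0 W).map fun p => val f v.1 * p

/-- `Good f K P0 A B Ω`: the subgroup `B` is good for the noise `Ω`, with respect to the finite set `K`
and the finite family `A` of subgroups. -/
def Good {T : Type} (f : α → G) (K : Finset G) (P0 : List G) (A : T → Subgroup G) :
    Subgroup G → Noise α → Prop
  | B, .blob => ∃ k ∈ K, k ∈ B
  | B, .sub W => ∃ τ : T, ∃ r ∈ posL f P0 W, cj r (A τ) ≤ B ∧ Good f K P0 A (cj r (A τ)) W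
  | B, .app W₁ W₂ => Good f K P0 A B W₁ ∧ Good f K P0 A B W₂
  | B, .tr v W => Good f K P0 A (cj (val f v.1)⁻¹ B) W

end Basic

/-! ## Grammars, trees -/

section Grammar

variable {α Q G : Type} [Group G]

/-- semantic Chomsky normal form of a family of languages -/
def IsCNF (L : Q → Set (List α)) : Prop :=
  (∀ q, [] ∉ L q) ∧
  ∀ q, ∀ w ∈ L q, 2 ≤ w.length → ∃ w₁ w₂ : List α, w = w₁ ++ w₂ ∧
    ∃ q₁ q₂ : Q, w₁ ∈ L q₁ ∧ w₂ ∈ L q₂ ∧ ∀ u₁ ∈ L q₁, ∀ u₂ ∈ L q₂, u₁ ++ u₂ ∈ L q

/-- values of the contexts which preserve `L q` -/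
def Ctx (f : α → G) (L : Q → Set (List α)) (q : Q) : Set (G × G) :=
  {p | ∃ y z : List α, val f y = p.1 ∧ val f z = p.2 ∧ ∀ w ∈ L q, y ++ w ++ z ∈ L q}

theorem Ctx.one (f : α → G) (L : Q → Set (List α)) (q : Q) : ((1, 1) : G × G) ∈ Ctx f L q :=
  ⟨[], [], by simp [val], by simp [val], fun w hw => by simpa using hw⟩

theorem Ctx.mul {f : α → G} {L : Q → Set (List α)} {q : Q} {a b a' b' : G}
    (h : (a, b) ∈ Ctx f L q) (h' : (a', b') ∈ Ctx f L q) : (a * a', b' * b) ∈ Ctx f L q := by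
  obtain ⟨y, z, hy, hz, H⟩ := h
  obtain ⟨y', z', hy', hz', H'⟩ := h'
  refine ⟨y ++ y', z' ++ z, ?_, ?_, ?_⟩
  · simp only [val, List.map_append, List.prod_append] at *
    rw [hy, hy']
  · simp only [val, List.map_append, List.prod_append] at *
    rw [hz, hz']
  · intro w hw
    have h1 := H _ (H' w hw)
    simpa only [List.append_assoc] using h1

/-- `A^L_q` -/
def AL (f : α → G) (L : Q → Set (List α)) (q : Q) : Subgroup G where
  carrier := {h | (h, 1) ∈ Ctx f L q ∧ (h⁻¹, 1) ∈ Ctx f L q}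
  one_mem' := by
    refine ⟨Ctx.one f L q, ?_⟩
    rw [inv_one]
    exact Ctx.one f L q
  mul_mem' := by
    rintro a b ⟨ha, ha'⟩ ⟨hb, hb'⟩
    refine ⟨?_, ?_⟩
    · have := Ctx.mul ha hb
      rwa [mul_one] at this
    · have := Ctx.mul hb' ha'
      rwa [mul_one, ← mul_inv_rev] at this
  inv_mem' := by
    rintro a ⟨ha, ha'⟩
    refine ⟨ha', ?_⟩
    rw [inv_inv]
    exact ha

/-- `A^R_q` -/
def AR (f : α → G) (L : Q → Set (List α)) (q : Q) : Subgroup G where
  carrier := {h | (1, h) ∈ Ctx f L q ∧ (1, h⁻¹) ∈ Ctx f L q}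
  one_mem' := by
    refine ⟨Ctx.one f L q, ?_⟩
    rw [inv_one]
    exact Ctx.one f L q
  mul_mem' := by
    rintro a b ⟨ha, ha'⟩ ⟨hb, hb'⟩
    refine ⟨?_, ?_⟩
    · have := Ctx.mul hb ha
      rwa [mul_one] at this
    · have := Ctx.mul ha' hb'
      rwa [mul_one, ← mul_inv_rev] at this
  inv_mem' := by
    rintro a ⟨ha, ha'⟩
    refine ⟨ha', ?_⟩
    rw [inv_inv]
    exact ha

/-- the finite family of subgroups of a grammar -/
def AA (f : α → G) (L : Q → Set (List α)) : Q × Bool → Subgroup G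
  | (q, false) => AL f L q
  | (q, true) => AR f L q

/-- binary trees with labels in `Q` and letters at the leaves -/
inductive Tr (Q α : Type) : Type
  | leaf (q : Q) (a : α) : Tr Q α
  | node (q : Q) (l r : Tr Q α) : Tr Q α

/-- label of the root -/
def Tr.lab : Tr Q α → Q
  | .leaf q _ => q
  | .node q _ _ => q

/-- the yield -/
def Tr.yd : Tr Q α → List α
  | .leaf _ a => [a]
  | .node _ l r => l.yd ++ r.yd

/-- valid trees -/
def Tr.Valid (L : Q → Set (List α)) : Tr Q α → Prop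
  | .leaf q a => [a] ∈ L q
  | .node q l r => (∀ u₁ ∈ L l.lab, ∀ u₂ ∈ L r.lab, u₁ ++ u₂ ∈ L q) ∧ l.Valid L ∧ r.Valid L

/-- a node of a tree: start position and subtree -/
structure Nd (Q α : Type) where
  st : ℕ
  tr : Tr Q α

/-- end position -/
def Nd.en (E : Nd Q α) : ℕ := E.st + E.tr.yd.length

/-- label -/
def Nd.lab (E : Nd Q α) : Q := E.tr.lab

/-- the child relation of nodes -/
inductive Child : Nd Q α → Nd Q α → Prop
  | left (i : ℕ) (q : Q) (l r : Tr Q α) : Child ⟨i, .node q l r⟩ ⟨i, l⟩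
  | right (i : ℕ) (q : Q) (l r : Tr Q α) : Child ⟨i, .node q l r⟩ ⟨i + l.yd.length, r⟩

/-- `Below E F`: `F` is a descendant of `E` or `F = E` -/
def Below (E F : Nd Q α) : Prop := Relation.ReflTransGen Child E F

/-- the position (group element) before the `i`-th letter of `W` -/
def pos (f : α → G) (W : List α) (i : ℕ) : G := val f (W.take i)

/-- the left group of a node -/
def LG (f : α → G) (L : Q → Set (List α)) (W : List α) (E : Nd Q α) : Subgroup G :=
  cj (pos f W E.st) (AL f L E.lab)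

/-- the right group of a node -/
def RG (f : α → G) (L : Q → Set (List α)) (W : List α) (E : Nd Q α) : Subgroup G :=
  cj (pos f W E.en) (AR f L E.lab)

/-- a recursion -/
def Rec (f : α → G) (W : List α) (O I : Nd Q α) : Prop :=
  Below O I ∧ O.lab = I.lab ∧ pos f W O.st = pos f W I.st ∧ pos f W O.en = pos f W I.en

/-- the yield of `E` can be replaced by words of the same label so that everything behind it is shifted by
`d` and by `d⁻¹` -/
def ShiftBy (f : α → G) (L : Q → Set (List α)) (W : List α) (E : Nd Q α) (d : G) : Prop :=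
  (∃ w ∈ L E.lab, val f w = (pos f W E.st)⁻¹ * d * pos f W E.en) ∧
  (∃ w ∈ L E.lab, val f w = (pos f W E.st)⁻¹ * d⁻¹ * pos f W E.en)

/-- the word `F` occurs in `W` at position `i` -/
def At (W : List α) (i : ℕ) (F : List α) : Prop := ∃ W₁ W₂ : List α, W = W₁ ++ F ++ W₂ ∧ W₁.length = i

/-! ## Arms -/

/-- a descending chain of nodes -/
def Chain (c : ℕ → Nd Q α) (t : ℕ) : Prop := ∀ i < t, Child (c i) (c (i + 1))

/-- an `R`-arm over `[f₀, f₁)` -/
def RArm (c : ℕ → Nd Q α) (t f₀ f₁ : ℕ) : Prop :=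
  Chain c t ∧ f₀ ≤ (c 0).st ∧ (c t).st ≤ f₁ ∧ f₁ ≤ (c t).en

/-- an `L`-arm over `[f₀, f₁)` -/
def LArm (c : ℕ → Nd Q α) (t f₀ f₁ : ℕ) : Prop :=
  Chain c t ∧ (c t).st ≤ f₀ ∧ f₀ ≤ (c t).en ∧ (c 0).en ≤ f₁

end Grammar

/-! ## Planar words and segmentations -/

section Planar

variable {α G : Type} [Group G]

/-- planar data: ten directions and words for them -/
structure PD (f : α → G) (ι : Z2 →* G) where
  d : ZMod 10 → ℤ × ℤ
  s : ZMod 10 → List α
  opp : ∀ k, d (k + 5) = - d k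
  ne : ∀ k, s k ≠ []
  val_s : ∀ k, val f (s k) = ι (Multiplicative.ofAdd (d k))
  nonpar : ∀ k k' : ZMod 10, k' ≠ k → k' ≠ k + 5 → (d k).1 * (d k').2 - (d k).2 * (d k').1 ≠ 0
  star : ∀ (σ k : ZMod 10) (a b c e : ℤ),
    (∀ i : Fin 5, (a * (d (k + (i : ℕ))).1 + b * (d (k + (i : ℕ))).2) * (d (σ - (k + (i : ℕ)))).2
      - (c * (d (k + (i : ℕ))).1 + e * (d (k + (i : ℕ))).2) * (d (σ - (k + (i : ℕ)))).1 = 0) →
    a = 0 ∧ b = 0 ∧ c = 0 ∧ e = 0

/-- the word `s_0^x s_1^x ... s_9^x` -/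
def PiW (s : ZMod 10 → List α) (x : ℕ) : List α :=
  (List.range 10).flatMap fun k => rep x (s (k : ZMod 10))

/-- `ell = |s_0| + ... + |s_9|` -/
def ell (len : ZMod 10 → ℕ) : ℕ := ∑ k : ZMod 10, len k

/-- start of the run number `m` in `Π^∞` -/
def rs (len : ZMod 10 → ℕ) (x m : ℕ) : ℕ := ∑ i ∈ Finset.range m, x * len (i : ZMod 10)

/-- `i = rs m + a |s_m| + φ` : the letter number `i` of `Π^∞` lies in run `m`, in the `a`-th word of it,
and has phase `φ` in this word -/
def Loc (len : ZMod 10 → ℕ) (x i m a φ : ℕ) : Prop :=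
  a < x ∧ φ < len (m : ZMod 10) ∧ i = rs len x m + a * len (m : ZMod 10) + φ

/-- the planar position of the `a`-th word of run `m` -/
def pl (d : ZMod 10 → ℤ × ℤ) (x m a : ℕ) : ℤ × ℤ :=
  (∑ i ∈ Finset.range m, (x : ℤ) • d (i : ZMod 10)) + (a : ℤ) • d (m : ZMod 10)

/-- segmentation of `W`: consecutive boundaries bound one letter or a power of `P` -/
def Segm (P W : List α) (B : Finset ℕ) : Prop :=
  0 ∈ B ∧ W.length ∈ B ∧ (∀ b ∈ B, b ≤ W.length) ∧
  ∀ b ∈ B, ∀ b' ∈ B, b < b' → (∀ c ∈ B, ¬ (b < c ∧ c < b')) →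
    b' = b + 1 ∨ ∃ m : ℕ, b' = b + m * P.length ∧ At W b (rep m P)

/-- number of boundaries in `[i,j]` -/
def nb (B : Finset ℕ) (i j : ℕ) : ℕ := (B.filter fun b => i ≤ b ∧ b ≤ j).card

/-- `NW P Big S Ω u`: `u` is a noise word of the noise `Ω` -/
inductive NW (P : List α) (Big : ℕ) : ℕ → Noise α → List α → Prop
  | blob (S n : ℕ) (h1 : S ≤ n * P.length) (h2 : n * P.length ≤ 2 * S)
      (h3 : Big * P.length ≤ S) : NW P Big S .blob (rep n P)
  | sub (S n : ℕ) (W : Noise α) (S' : ℕ) (u : List α) (h0 : NW P Big S' W u)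
      (h1 : S ≤ n * u.length) (h2 : n * u.length ≤ 2 * S) (h3 : Big * u.length ≤ S) :
      NW P Big S (.sub W) (rep n u)
  | app (S : ℕ) (W₁ W₂ : Noise α) (u₁ u₂ : List α)
      (h1 : NW P Big S W₁ u₁) (h2 : NW P Big S W₂ u₂) : NW P Big S (.app W₁ W₂) (u₁ ++ u₂)
  | tr (S : ℕ) (v : List α × List α) (W : Noise α) (u : List α) (h : NW P Big S W u) :
      NW P Big S (.tr v W) (v.1 ++ u ++ v.2)

end Planar

end MPab
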