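import Mathlib

/-!
Problem MP_ab497f_al, module FREE: the facts on the free product `ℤ² * ℤ` used in the proof.
No normal forms: the group is mapped to `F ⋊ ℤ`, `F` the free product of copies of `ℤ²` indexed by
`ℤ`, and `F` is mapped to a wreath product.
-/

set_option autoImplicit false

open Set

namespace MPab.Free

/-- `ℤ²`, written multiplicatively -/
abbrev A : Type := Multiplicative (ℤ × ℤ)

/-- free product of the conjugates of `ℤ²` -/
abbrev F : Type := Monoid.CoprodI (fun _ : ℤ => A)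

/-- the inclusions -/
def of (i : ℤ) : A →* F := Monoid.CoprodI.of (M := fun _ : ℤ => A) (i := i)

theorem of_inj (i : ℤ) : Function.Injective (of i) :=
  Monoid.CoprodI.of_injective (M := fun _ : ℤ => A) i

/-- the hom out of `F` -/
def lft {H : Type} [Group H] (f : ℤ → A →* H) : F →* H :=
  Monoid.CoprodI.lift (M := fun _ : ℤ => A) f

@[simp] theorem lft_of {H : Type} [Group H] (f : ℤ → A →* H) (i : ℤ) (a : A) :
    lft f (of i a) = f i a := Monoid.CoprodI.lift_of (M := fun _ : ℤ => A) f a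

theorem hext {H : Type} [Group H] {f g : F →* H} (h : ∀ i a, f (of i a) = g (of i a)) : f = g :=
  Monoid.CoprodI.ext_hom (M := fun _ : ℤ => A) f g fun i => MonoidHom.ext fun a => h i a

/-- the shift -/
def sft : MulAut F where
  toFun := lft fun i => of (i + 1)
  invFun := lft fun i => of (i - 1)
  left_inv x := by
    have : (lft fun i => of (i - 1)).comp (lft fun i => of (i + 1)) = MonoidHom.id F :=
      hext fun i a => by simp
    exact DFunLike.congr_fun this x
  right_inv x := by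
    have : (lft fun i => of (i + 1)).comp (lft fun i => of (i - 1)) = MonoidHom.id F :=
      hext fun i a => by simp
    exact DFunLike.congr_fun this x
  map_mul' := map_mul _

theorem sft_of (i : ℤ) (a : A) : sft (of i a) = of (i + 1) a :=
  lft_of (fun i => of (i + 1)) i a

theorem sft_inv_of (i : ℤ) (a : A) : sft⁻¹ (of i a) = of (i - 1) a :=
  lft_of (fun i => of (i - 1)) i a

theorem sft_zpow_of (k i : ℤ) (a : A) : (sft ^ k) (of i a) = of (i + k) a := by
  induction k using Int.induction_on generalizing i with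
  | zero => simp
  | succ n ih =>
    rw [zpow_add_one, MulAut.mul_apply, sft_of, ih,
      show i + 1 + (n : ℤ) = i + ((n : ℤ) + 1) by ring]
  | pred n ih =>
    rw [zpow_sub_one, MulAut.mul_apply, sft_inv_of, ih,
      show i - 1 + -(n : ℤ) = i + (-(n : ℤ) - 1) by ring]

/-- the action of `ℤ` -/
def act : Multiplicative ℤ →* MulAut F := zpowersHom (MulAut F) sft

theorem act_of (k i : ℤ) (a : A) : act (Multiplicative.ofAdd k) (of i a) = of (i + k) a := by
  rw [act, zpowersHom_apply, toAdd_ofAdd, sft_zpow_of]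

/-- the subgroup generated by the copies with index in `s` -/
def Sub (s : Set ℤ) : Subgroup F := Subgroup.closure {x | ∃ i ∈ s, ∃ a, x = of i a}

theorem of_mem {s : Set ℤ} {i : ℤ} (h : i ∈ s) (a : A) : of i a ∈ Sub s :=
  Subgroup.subset_closure ⟨i, h, a, rfl⟩

theorem Sub_mono {s t : Set ℤ} (h : s ⊆ t) : Sub s ≤ Sub t :=
  Subgroup.closure_mono fun _ ⟨i, hi, a, hx⟩ => ⟨i, h hi, a, hx⟩

theorem act_mem {s t : Set ℤ} {k : ℤ} (h : ∀ i ∈ s, i + k ∈ t) {x : F} (hx : x ∈ Sub s) :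
    act (Multiplicative.ofAdd k) x ∈ Sub t := by
  have : Sub s ≤ (Sub t).comap (act (Multiplicative.ofAdd k)).toMonoidHom := by
    refine (Subgroup.closure_le _).2 ?_
    rintro _ ⟨i, hi, a, rfl⟩
    show act (Multiplicative.ofAdd k) (of i a) ∈ Sub t
    rw [act_of]
    exact of_mem (h i hi) a
  exact this hx

open Classical in
/-- the wreath product hom -/
noncomputable def wr (s : Set ℤ) : F →* RegularWreathProduct F F :=
  lft fun i => if i ∈ s then
    { toFun := fun a => ⟨Pi.mulSingle 1 (of i a), 1⟩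
      map_one' := by ext <;> simp
      map_mul' := fun a b => by
        ext x
        · simp only [RegularWreathProduct.mul_left, Pi.mul_apply, inv_one, one_mul, map_mul,
            Pi.mulSingle_mul]
        · simp }
    else RegularWreathProduct.inl.comp (of i)

theorem wr_of_mem {s : Set ℤ} {i : ℤ} (h : i ∈ s) (a : A) :
    wr s (of i a) = ⟨Pi.mulSingle 1 (of i a), 1⟩ := by
  rw [wr, lft_of, if_pos h]
  rfl

theorem wr_of_not_mem {s : Set ℤ} {i : ℤ} (h : i ∉ s) (a : A) :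
    wr s (of i a) = ⟨1, of i a⟩ := by
  rw [wr, lft_of, if_neg h]
  rfl

theorem wr_left {s : Set ℤ} {x : F} (hx : x ∈ Sub s) : wr s x = ⟨Pi.mulSingle 1 x, 1⟩ := by
  induction hx using Subgroup.closure_induction with
  | mem x hx =>
    obtain ⟨i, hi, a, rfl⟩ := hx
    exact wr_of_mem hi a
  | one =>
    rw [map_one]
    ext <;> simp
  | mul x y _ _ hx hy =>
    rw [map_mul, hx, hy]
    ext z
    · simp only [RegularWreathProduct.mul_left, Pi.mul_apply, inv_one, one_mul, Pi.mulSingle_mul]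
    · simp
  | inv x _ hx =>
    rw [map_inv, hx]
    ext z
    · simp only [RegularWreathProduct.inv_left, Pi.inv_apply, one_mul, Pi.mulSingle_inv]
    · simp

theorem wr_right {s t : Set ℤ} (hst : Disjoint s t) {y : F} (hy : y ∈ Sub t) :
    wr s y = ⟨1, y⟩ := by
  induction hy using Subgroup.closure_induction with
  | mem x hx =>
    obtain ⟨i, hi, a, rfl⟩ := hx
    exact wr_of_not_mem (fun h => (Set.disjoint_left.1 hst) h hi) a
  | one =>
    rw [map_one]
    rfl
  | mul x y _ _ hx hy =>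
    rw [map_mul, hx, hy]
    ext z <;> simp
  | inv x _ hx =>
    rw [map_inv, hx]
    ext z <;> simp

/-- the key fact: the powers of a commutator of two elements with disjoint supports -/
theorem comm_pow {s t : Set ℤ} (hst : Disjoint s t) {x y : F} (hx : x ∈ Sub s) (hy : y ∈ Sub t)
    (hy1 : y ≠ 1) (n : ℕ) (hn : x ^ n ≠ 1) : (x * y * x⁻¹ * y⁻¹) ^ n ≠ 1 := by
  intro h
  have hr : ∀ m : ℕ, (wr s (x * y * x⁻¹ * y⁻¹) ^ m).right = 1 ∧
      (wr s (x * y * x⁻¹ * y⁻¹) ^ m).left 1 = x ^ m := by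
    intro m
    induction m with
    | zero => simp
    | succ m ih =>
      rw [pow_succ]
      have e1 : wr s (x * y * x⁻¹ * y⁻¹) =
          ⟨fun z => Pi.mulSingle (M := fun _ : F => F) 1 x z *
            (Pi.mulSingle (M := fun _ : F => F) 1 x (y⁻¹ * z))⁻¹, 1⟩ := by
        rw [map_mul, map_mul, map_mul, map_inv, map_inv, wr_left hx, wr_right hst hy]
        ext z
        · simp
        · simp
      constructor
      · rw [RegularWreathProduct.mul_right, ih.1, e1]
        simp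
      · rw [RegularWreathProduct.mul_left, Pi.mul_apply, ih.1, ih.2, e1]
        have hy2 : y⁻¹ ≠ 1 := fun h => hy1 (inv_eq_one.1 h)
        simp [Pi.mulSingle_eq_of_ne hy2, pow_succ]
  have := (hr n).2
  rw [← map_pow, h, map_one] at this
  exact hn this.symm

/-! ### the group -/

/-- `ℤ² * ℤ` -/
abbrev G : Type := Monoid.Coprod (Multiplicative (ℤ × ℤ)) (Multiplicative ℤ)

/-- the inclusion of `ℤ²` -/
def io : A →* G := Monoid.Coprod.inl

/-- the generator of the second factor -/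
def c : G := Monoid.Coprod.inr (Multiplicative.ofAdd 1)

/-- the hom to the semidirect product -/
def psi : G →* F ⋊[act] Multiplicative ℤ :=
  Monoid.Coprod.lift (SemidirectProduct.inl.comp (of 0)) SemidirectProduct.inr

theorem psi_io (a : A) : psi (io a) = SemidirectProduct.inl (of 0 a) :=
  Monoid.Coprod.lift_apply_inl _ _ _

theorem psi_c : psi c = SemidirectProduct.inr (Multiplicative.ofAdd 1) :=
  Monoid.Coprod.lift_apply_inr _ _ _

theorem psi_conj_c (k : ℕ) {u : G} {x : F} (h : psi u = SemidirectProduct.inl x) :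
    psi (c ^ k * u * (c ^ k)⁻¹) = SemidirectProduct.inl (act (Multiplicative.ofAdd (k : ℤ)) x) := by
  rw [map_mul, map_mul, map_inv, map_pow, psi_c, h, ← map_pow, ← ofAdd_nsmul,
    SemidirectProduct.inl_aut]
  simp

/-- the predicate carried by the families -/
def P (L : ℕ) (u : G) : Prop :=
  ∃ x ∈ Sub (Ico 0 (L : ℤ)), psi u = SemidirectProduct.inl x ∧ ∀ n : ℕ, 1 ≤ n → x ^ n ≠ 1

theorem P_ne {L : ℕ} {u : G} (h : P L u) : u ≠ 1 := by
  rintro rfl
  obtain ⟨x, _, hx, hn⟩ := h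
  rw [map_one] at hx
  have : x = 1 := SemidirectProduct.inl_injective (hx.symm.trans (map_one _).symm)
  exact hn 1 le_rfl (by simp [this])

theorem of_pow_ne {i : ℤ} {a : A} (ha : a ≠ 1) {n : ℕ} (hn : 1 ≤ n) : (of i a) ^ n ≠ 1 := by
  intro h
  rw [← map_pow, ← map_one (of i)] at h
  have h1 := of_inj i h
  have h2 : (n : ℤ) • Multiplicative.toAdd a = 0 := by
    have := congrArg Multiplicative.toAdd h1
    simpa using this
  have h3 : (n : ℤ) ≠ 0 := by exact_mod_cast (by omega : n ≠ 0)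
  rcases smul_eq_zero.1 h2 with h4 | h4
  · exact h3 h4
  · exact ha h4

theorem P_io {a : A} (ha : a ≠ 1) : P 1 (io a) :=
  ⟨of 0 a, of_mem (by simp) a, psi_io a, fun _ hn => of_pow_ne ha hn⟩

theorem act_pow_ne {k : ℤ} {x : F} {n : ℕ} (h : x ^ n ≠ 1) :
    (act (Multiplicative.ofAdd k) x) ^ n ≠ 1 := by
  intro h'
  rw [← map_pow] at h'
  exact h ((MulEquiv.map_eq_one_iff _).1 h')

/-- the boost step -/
theorem P_boost {L : ℕ} {u : G} (h : P L u) (v : A) {a : A} (ha : a ≠ 1) {n₁ n₂ : ℕ}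
    (hn : n₁ < n₂) :
    P (L + 1) (((io v * (c * u * c⁻¹) * (io v)⁻¹) ^ n₂ * io a *
        ((io v * (c * u * c⁻¹) * (io v)⁻¹) ^ n₂)⁻¹) *
      ((io v * (c * u * c⁻¹) * (io v)⁻¹) ^ n₁ * (io a)⁻¹ *
        ((io v * (c * u * c⁻¹) * (io v)⁻¹) ^ n₁)⁻¹)) := by
  obtain ⟨x, hx, hu, hp⟩ := h
  set y := act (Multiplicative.ofAdd (1 : ℤ)) x with hy
  have hy1 : y ∈ Sub (Ico 1 ((L : ℤ) + 1)) := act_mem (fun i hi => by
    rw [mem_Ico] at hi ⊢
    constructor <;> linarith [hi.1, hi.2]) hx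
  have hpsi : psi (c * u * c⁻¹) = SemidirectProduct.inl y := by
    have := psi_conj_c 1 hu
    rw [pow_one] at this
    rw [this, hy]
    simp
  obtain ⟨n, hn1, hn2⟩ : ∃ n, 1 ≤ n ∧ n₂ = n₁ + n := ⟨n₂ - n₁, by omega, by omega⟩
  set E := of 0 v with hE
  set k := of 0 a with hk
  have hcomm : E * k = k * E := by
    rw [hE, hk, ← map_mul, ← map_mul, mul_comm]
  refine ⟨(E * y ^ n₁) * (y ^ n * k * (y ^ n)⁻¹ * k⁻¹) * (E * y ^ n₁)⁻¹, ?_, ?_, ?_⟩
  · have m0 : (0 : ℤ) ∈ Ico (0 : ℤ) ((L + 1 : ℕ) : ℤ) := by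
      rw [mem_Ico]
      constructor
      · exact le_rfl
      · exact_mod_cast Nat.succ_pos L
    have h1 : y ∈ Sub (Ico 0 ((L + 1 : ℕ) : ℤ)) := by
      refine Sub_mono ?_ hy1
      intro i hi
      rw [mem_Ico] at hi ⊢
      push_cast
      constructor <;> linarith [hi.1, hi.2]
    have h2 : E ∈ Sub (Ico 0 ((L + 1 : ℕ) : ℤ)) := of_mem m0 v
    have h3 : k ∈ Sub (Ico 0 ((L + 1 : ℕ) : ℤ)) := of_mem m0 a
    have h4 := mul_mem h2 (pow_mem h1 n₁)
    exact mul_mem (mul_mem h4 (mul_mem (mul_mem (mul_mem (pow_mem h1 n) h3)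
      (inv_mem (pow_mem h1 n))) (inv_mem h3))) (inv_mem h4)
  · have hall : psi (((io v * (c * u * c⁻¹) * (io v)⁻¹) ^ n₂ * io a *
          ((io v * (c * u * c⁻¹) * (io v)⁻¹) ^ n₂)⁻¹) *
        ((io v * (c * u * c⁻¹) * (io v)⁻¹) ^ n₁ * (io a)⁻¹ *
          ((io v * (c * u * c⁻¹) * (io v)⁻¹) ^ n₁)⁻¹)) =
        SemidirectProduct.inl ((E * y * E⁻¹) ^ n₂ * k * ((E * y * E⁻¹) ^ n₂)⁻¹ *
          ((E * y * E⁻¹) ^ n₁ * k⁻¹ * ((E * y * E⁻¹) ^ n₁)⁻¹)) := by
      generalize c * u * c⁻¹ = w at hpsi ⊢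
      simp only [map_mul, map_inv, map_pow, hpsi, psi_io, hE, hk]
    rw [hall]
    congr 1
    rw [conj_pow, conj_pow, hn2, pow_add]
    have hc2 : E⁻¹ * k = k * E⁻¹ := by
      rw [inv_mul_eq_iff_eq_mul, ← mul_assoc, hcomm, mul_assoc, mul_inv_cancel, mul_one]
    have hc3 : E⁻¹ * k⁻¹ = k⁻¹ * E⁻¹ := by
      rw [← mul_inv_rev, ← mul_inv_rev, hcomm]
    calc E * (y ^ n₁ * y ^ n) * E⁻¹ * k * (E * (y ^ n₁ * y ^ n) * E⁻¹)⁻¹ *
          (E * y ^ n₁ * E⁻¹ * k⁻¹ * (E * y ^ n₁ * E⁻¹)⁻¹)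
        = E * (y ^ n₁ * y ^ n) * (E⁻¹ * k) * E * (y ^ n)⁻¹ * ((E⁻¹ * k⁻¹) * E) *
          (y ^ n₁)⁻¹ * E⁻¹ := by group
      _ = E * y ^ n₁ * (y ^ n * k * (y ^ n)⁻¹ * k⁻¹) * (E * y ^ n₁)⁻¹ := by
          rw [hc2, hc3]
          group
  · intro m hm
    rw [conj_pow]
    intro h
    have h' : (y ^ n * k * (y ^ n)⁻¹ * k⁻¹) ^ m = 1 := by
      rwa [mul_inv_eq_one, mul_eq_left] at h
    refine comm_pow (s := Ico 1 ((L : ℤ) + 1)) (t := {0}) ?_ (pow_mem hy1 n)
      (of_mem (mem_singleton 0) a) ?_ m ?_ h'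
    · rw [Set.disjoint_singleton_right, mem_Ico]
      rintro ⟨h1, _⟩
      exact absurd h1 (by norm_num)
    · have := of_pow_ne (i := 0) ha (n := 1) le_rfl
      simpa using this
    · rw [← pow_mul]
      exact act_pow_ne (hp _ (Nat.mul_pos hn1 hm))

/-- the commutator step -/
theorem P_comm {L : ℕ} {u u' : G} (h : P L u) (h' : P L u') :
    P (2 * L) (u * (c ^ L * u' * (c ^ L)⁻¹) * u⁻¹ * (c ^ L * u' * (c ^ L)⁻¹)⁻¹) := by
  obtain ⟨x, hx, hu, hp⟩ := h
  obtain ⟨x', hx', hu', hp'⟩ := h'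
  set y := act (Multiplicative.ofAdd (L : ℤ)) x' with hy
  have hy1 : y ∈ Sub (Ico (L : ℤ) (2 * L)) := act_mem (fun i hi => by
    rw [mem_Ico] at hi ⊢
    constructor <;> linarith [hi.1, hi.2]) hx'
  have hpsi : psi (c ^ L * u' * (c ^ L)⁻¹) = SemidirectProduct.inl y := psi_conj_c L hu'
  refine ⟨x * y * x⁻¹ * y⁻¹, ?_, ?_, ?_⟩
  · have h1 : x ∈ Sub (Ico 0 ((2 * L : ℕ) : ℤ)) := by
      refine Sub_mono ?_ hx
      intro i hi
      rw [mem_Ico] at hi ⊢
      push_cast
      constructor <;> linarith [hi.1, hi.2]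
    have h2 : y ∈ Sub (Ico 0 ((2 * L : ℕ) : ℤ)) := by
      refine Sub_mono ?_ hy1
      intro i hi
      rw [mem_Ico] at hi ⊢
      push_cast
      constructor <;> linarith [hi.1, hi.2, Int.natCast_nonneg L]
    exact mul_mem (mul_mem (mul_mem h1 h2) (inv_mem h1)) (inv_mem h2)
  · rw [map_mul psi, map_mul psi, map_mul psi, map_inv psi, map_inv psi, hpsi, hu, ← map_inv,
      ← map_inv, ← map_mul, ← map_mul, ← map_mul]
  · intro m hm
    refine comm_pow (s := Ico 0 (L : ℤ)) (t := Ico (L : ℤ) (2 * L)) ?_ hx hy1 ?_ m (hp m hm)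
    · rw [Set.disjoint_left]
      intro i hi hi'
      rw [mem_Ico] at hi hi'
      linarith [hi.2, hi'.1]
    · have := act_pow_ne (k := (L : ℤ)) (hp' 1 le_rfl)
      rwa [pow_one] at this

end MPab.Free
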