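import Pool.Agent.Lib.MP_ab497f_al.Defs

/-!
# MP_ab497f_al : specifications of all modules

Every module proves its `SpecXxx` (file `Pool/Agent/Lib/MP_ab497f_al/Xxx.lean`,
`theorem specXxx : SpecXxx`), possibly with other Specs as hypotheses (see the docstrings).
Numbers like (1.1) refer to `/team-store/MP_ab497f_al_H16_PROOF.md`.
-/

set_option autoImplicit false

namespace MPab

/-! ## Part GT -/

/-- The facts on the free product `Z^2 * Z` which (GT) needs; `Pr L u` stands for: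
`u` lies in `N_L` and all its powers are non-trivial. -/
structure FreeAx {G : Type} [Group G] (ι : Z2 →* G) (c : G) (Pr : ℕ → G → Prop) : Prop where
  base : ∀ z : Z2, z ≠ 1 → Pr 1 (ι z)
  boost : ∀ (L : ℕ) (u : G), Pr L u → ∀ z : Z2, z ≠ 1 → ∀ (y : Z2) (n₁ n₂ : ℕ), n₁ < n₂ →
    Pr (L + 1) ((ι y * c * u * c⁻¹ * (ι y)⁻¹) ^ n₂ * ι z * ((ι y * c * u * c⁻¹ * (ι y)⁻¹) ^ n₂)⁻¹ *
      ((ι y * c * u * c⁻¹ * (ι y)⁻¹) ^ n₁ * (ι z)⁻¹ * ((ι y * c * u * c⁻¹ * (ι y)⁻¹) ^ n₁)⁻¹))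
  comm : ∀ (L : ℕ) (u v : G), Pr L u → Pr L v →
    Pr (2 * L) (u * (c ^ L * v * (c ^ L)⁻¹) * u⁻¹ * (c ^ L * v * (c ^ L)⁻¹)⁻¹)
  ne : ∀ (L : ℕ) (u : G), Pr L u → u ≠ 1

/-- module FREE -/
def SpecFREE : Prop :=
  ∃ Pr : ℕ → GG → Prop,
    FreeAx (Monoid.Coprod.inl : Multiplicative (ℤ × ℤ) →* GG)
      ((Monoid.Coprod.inr : Multiplicative ℤ →* GG) (Multiplicative.ofAdd 1)) Pr

/-- standing assumptions of (GT) -/
structure GTSetup {α G T : Type} [Group G] (f : α → G) (K : Finset G) (A : T → Subgroup G)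
    (ι : Z2 →* G) (c : G) (Pr : ℕ → G → Prop) : Prop where
  surj : ∀ g : G, ∃ w : List α, val f w = g
  finT : Finite T
  hK : ∀ k ∈ K, ∃ z : Z2, z ≠ 1 ∧ ι z = k
  hKne : K.Nonempty
  free : FreeAx ι c Pr

/-- `Fam(p, L)` -/
def Fam {α G T : Type} [Group G] (f : α → G) (K : Finset G) (P0 : List G) (A : T → Subgroup G)
    (Pr : ℕ → G → Prop) (p : ℚ) (L : ℕ) : Prop :=
  ∃ (I : Type) (_ : Fintype I) (_ : Nonempty I) (u : I → G) (Ω : Noise α),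
    Ω.Ok f ∧ (∀ i, Pr L (u i)) ∧
    ∀ B : Subgroup G, Good f K P0 A B Ω → p * (Fintype.card I : ℚ) ≤ ({i : I | u i ∈ B}.ncard : ℚ)

/-- `Amp(ε, L)` with `S` a bound for the number of positions (1.5) -/
def Amp {α G T : Type} [Group G] (f : α → G) (K : Finset G) (P0 : List G) (A : T → Subgroup G)
    (Pr : ℕ → G → Prop) (ε : ℚ) (L S : ℕ) : Prop :=
  ∃ (I : Type) (_ : Fintype I) (_ : Nonempty I) (u : I → G) (Ω : I → Noise α)
    (v : I → List α × List α),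
    (∀ i, Pr L (u i) ∧ (Ω i).Ok f ∧ IsPath f (v i) ∧ val f (v i).1 = u i ∧
      (posL f P0 (Ω i)).length + (epos f (v i)).length ≤ S) ∧
    ∀ B : Subgroup G,
      ({i : I | Good f K P0 A B (Ω i) ∧ u i ∉ B}.ncard : ℚ) ≤ ε * (Fintype.card I : ℚ)

/-- conclusion of (GT) -/
def GTConcl {α G T : Type} [Group G] (f : α → G) (K : Finset G) (P0 : List G)
    (A : T → Subgroup G) : Prop :=
  ∃ Ω : Noise α, Ω.Ok f ∧ ∃ g : G, g ≠ 1 ∧
    ∀ τ : T, ∀ r ∈ posL f P0 Ω, Good f K P0 A (cj r (A τ)) Ω → g ∈ cj r (A τ)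

/-- module NP1: (1.1), the cluster lemma. Note that `Good` is monotone in `B`, so that for `l` beyond
`k_j` one subtracts multiples of `m`. -/
def SpecNP1 : Prop :=
  ∀ {α G T : Type} [Group G] [Finite T] (f : α → G) (K : Finset G) (P0 : List G)
    (A : T → Subgroup G) (pe pc : List α × List α) (Ω : Noise α),
    IsPath f pe → IsPath f pc → Ω.Ok f →
    ∃ (Θ : Noise α) (M₁ : ℕ), Θ.Ok f ∧ 0 < M₁ ∧
      ∀ B : Subgroup G, Good f K P0 A B Θ →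
        ∃ C : Subgroup G, C ≤ B ∧ ∃ k₀ m : ℤ, 0 ≤ k₀ ∧ k₀ < M₁ ∧ m ≠ 0 ∧ |m| < M₁ ∧
          cj (val f pe.1 ^ m) C ≤ C ∧
          ∀ l : ℤ, 0 ≤ (l - k₀) * m → Good f K P0 A (cj (val f pe.1 ^ l * val f pc.1)⁻¹ C) Ω

/-- module NP2: (1.2), the line lemma (uses `SpecNP1`). The element `y` is `e`, with
`det(κ, e) ≠ 0` for all `κ ∈ K`. -/
def SpecNP2 : Prop :=
  ∀ {α G T : Type} [Group G] (f : α → G) (K : Finset G) (P0 : List G) (A : T → Subgroup G)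
    (ι : Z2 →* G) (c : G) (Pr : ℕ → G → Prop), GTSetup f K A ι c Pr →
    ∀ (I : Type) [Fintype I] [Nonempty I] (u : I → G) (Ω : Noise α) (p : ℚ), Ω.Ok f →
    (∀ B : Subgroup G, Good f K P0 A B Ω →
      p * (Fintype.card I : ℚ) ≤ ({i : I | u i ∈ B}.ncard : ℚ)) →
    ∀ ε : ℚ, 0 < ε → ∃ (y : Z2) (N J : ℕ) (Λ : Noise α), 0 < N ∧ 0 < J ∧ Λ.Ok f ∧
      ∀ B : Subgroup G, Good f K P0 A B Λ →
        (p - ε) * ((N : ℚ) * (Fintype.card I : ℚ)) ≤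
          ({x : Fin N × I |
            (ι (y ^ (x.1 : ℕ)) * c * u x.2 * c⁻¹ * (ι (y ^ (x.1 : ℕ)))⁻¹) ∈ B ∧
            ∀ κ ∈ K, κ ^ J * (ι (y ^ (x.1 : ℕ)) * c * u x.2 * c⁻¹ * (ι (y ^ (x.1 : ℕ)))⁻¹) *
              (κ ^ J)⁻¹ ∈ B}.ncard : ℚ)

/-- module BOOST: (1.3) (uses `SpecNP2`) -/
def SpecBOOST : Prop :=
  ∀ {α G T : Type} [Group G] (f : α → G) (K : Finset G) (P0 : List G) (A : T → Subgroup G)
    (ι : Z2 →* G) (c : G) (Pr : ℕ → G → Prop), GTSetup f K A ι c Pr →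
    ∀ (p : ℚ) (L : ℕ), p < 1 → Fam f K P0 A Pr p L →
      Fam f K P0 A Pr (p + (1 - p) / (2 * (K.card : ℚ) ^ 3)) (L + 1)

/-- module ITER: (1.0) and (1.4) (uses `SpecBOOST`) -/
def SpecITER : Prop :=
  ∀ {α G T : Type} [Group G] (f : α → G) (K : Finset G) (P0 : List G) (A : T → Subgroup G)
    (ι : Z2 →* G) (c : G) (Pr : ℕ → G → Prop), GTSetup f K A ι c Pr →
    ∃ L : ℕ, Fam f K P0 A Pr (23 / 24) L

/-- module AMP: (1.5) -/
def SpecAMP : Prop :=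
  ∀ {α G T : Type} [Group G] (f : α → G) (K : Finset G) (P0 : List G) (A : T → Subgroup G)
    (ι : Z2 →* G) (c : G) (Pr : ℕ → G → Prop), GTSetup f K A ι c Pr →
    ∃ c₀ : ℕ, ∀ (ε : ℚ) (L S : ℕ), 0 ≤ ε → Amp f K P0 A Pr ε L S →
      Amp f K P0 A Pr (3 * ε ^ 2) (2 * L) (c₀ * (S + L + 1))

/-- module END: (1.6), the union bound -/
def SpecEND : Prop :=
  ∀ {α G T : Type} [Group G] (f : α → G) (K : Finset G) (P0 : List G) (A : T → Subgroup G)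
    (ι : Z2 →* G) (c : G) (Pr : ℕ → G → Prop), GTSetup f K A ι c Pr →
    ∃ c₀ : ℕ, ∀ (ε : ℚ) (L S : ℕ), 0 ≤ ε → Amp f K P0 A Pr ε L S →
      (c₀ : ℚ) * ((S : ℚ) + L + 1) * ε < 1 → GTConcl f K P0 A

/-- module GTALL: (GT) (uses `SpecITER`, `SpecAMP`, `SpecEND`). The case `K = ∅` is trivial. -/
def SpecGT : Prop :=
  ∀ {α G T : Type} [Group G] [Finite T] (f : α → G) (K : Finset G) (P0 : List G)
    (A : T → Subgroup G) (ι : Z2 →* G) (c : G) (Pr : ℕ → G → Prop),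
    (∀ g : G, ∃ w : List α, val f w = g) → (∀ k ∈ K, ∃ z : Z2, z ≠ 1 ∧ ι z = k) →
    FreeAx ι c Pr → GTConcl f K P0 A

/-! ## Part CF -/

/-- module CNF: (2.1). Labels: singletons and suffixes of right hand sides of rules. -/
def SpecCNF : Prop :=
  ∀ {α : Type} (M : Language α), M.IsContextFree → [] ∉ M →
    ∃ (Q : Type) (_ : Finite Q) (L : Q → Set (List α)), IsCNF L ∧
      ∃ q₀ : Q, ∀ w : List α, w ∈ L q₀ ↔ w ∈ M

/-- module TREE: every word of `L q` is the yield of a valid tree, and the yield of a valid tree is in the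
language of its label. -/
def SpecTREE : Prop :=
  (∀ {α Q : Type} (L : Q → Set (List α)), IsCNF L → ∀ (q : Q), ∀ w ∈ L q,
    ∃ T : Tr Q α, T.Valid L ∧ T.lab = q ∧ T.yd = w) ∧
  (∀ {α Q : Type} (L : Q → Set (List α)) (T : Tr Q α), T.Valid L → T.yd ∈ L T.lab)

/-- module CONT: the containments (2.2), (2.3) and the pump rule of (5c) -/
def SpecCONT : Prop :=
  ∀ {α Q G : Type} [Group G] (f : α → G) (L : Q → Set (List α)) (T : Tr Q α), T.Valid L →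
  ∀ (O I E : Nd Q α), Below ⟨0, T⟩ O → Rec f T.yd O I →
    -- `E` between `O` and `I`
    (Below O E → Below E I → LG f L T.yd E ≤ LG f L T.yd O ∧ RG f L T.yd E ≤ RG f L T.yd O) ∧
    -- `E` on the left
    (Below O E → E.en ≤ I.st → LG f L T.yd E ≤ LG f L T.yd O ∧ RG f L T.yd E ≤ LG f L T.yd O ∧
      ∀ d : G, ShiftBy f L T.yd E d → d ∈ LG f L T.yd O) ∧
    -- `E` on the right
    (Below O E → I.en ≤ E.st → LG f L T.yd E ≤ RG f L T.yd O ∧ RG f L T.yd E ≤ RG f L T.yd O ∧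
      ∀ d : G, ShiftBy f L T.yd E d → d ∈ RG f L T.yd O) ∧
    -- two nodes `E`, `F` with the same label between `O` and `I`
    (∀ F : Nd Q α, Below O E → Below E F → Below F I → E.lab = F.lab →
      ((pos f T.yd O.st)⁻¹ * (pos f T.yd F.st * (pos f T.yd E.st)⁻¹) * pos f T.yd O.st,
        (pos f T.yd O.en)⁻¹ * (pos f T.yd E.en * (pos f T.yd F.en)⁻¹) * pos f T.yd O.en)
          ∈ Ctx f L O.lab ∧
      ((pos f T.yd O.st)⁻¹ * (pos f T.yd F.st * (pos f T.yd E.st)⁻¹)⁻¹ * pos f T.yd O.st,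
        (pos f T.yd O.en)⁻¹ * (pos f T.yd E.en * (pos f T.yd F.en)⁻¹)⁻¹ * pos f T.yd O.en)
          ∈ Ctx f L O.lab)

/-- module SOUND: (2.3). -/
def SpecSOUND : Prop :=
  ∀ {α Q G : Type} [Group G] (f : α → G) (L : Q → Set (List α)) (T : Tr Q α), T.Valid L →
  (∀ w ∈ L T.lab, val f w ≠ 1) → ∀ E : Nd Q α, Below ⟨0, T⟩ E →
    val f T.yd ∉ LG f L T.yd E ∧ val f T.yd ∉ RG f L T.yd E

/-- module LL: the class lemma for arms. `N = card Q * (card X)^2`. -/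
def SpecLL : Prop :=
  ∀ {α Q X : Type} [Finite Q] [Finite X] (col : ℕ → X) (c : ℕ → Nd Q α) (t f₀ f₁ m C : ℕ),
    C = Nat.card Q * Nat.card X ^ 2 → 1 ≤ m →
    (RArm c t f₀ f₁ → (2 * C + 2) * (4 ^ (C + 1) * m + 1) ≤ (c t).st - (c 0).st →
      ∃ O I : Nd Q α, Below (c 0) O ∧ Below O I ∧ O.lab = I.lab ∧ col O.st = col I.st ∧
        col O.en = col I.en ∧
        ((∃ i j, i < j ∧ j ≤ t ∧ O = c i ∧ I = c j ∧ m ≤ I.st - O.st ∧
            (c t).st - (c 0).st ≤ 4 * (C + 1) * (I.st - O.st)) ∨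
         (O.en ≤ (c t).st ∧ ((m ≤ I.st - O.st ∧ O.en - I.en ≤ I.st - O.st) ∨
            (m ≤ O.en - I.en ∧ I.st - O.st ≤ O.en - I.en))))) ∧
    (LArm c t f₀ f₁ → (2 * C + 2) * (4 ^ (C + 1) * m + 1) ≤ (c 0).en - (c t).en →
      ∃ O I : Nd Q α, Below (c 0) O ∧ Below O I ∧ O.lab = I.lab ∧ col O.st = col I.st ∧
        col O.en = col I.en ∧
        ((∃ i j, i < j ∧ j ≤ t ∧ O = c i ∧ I = c j ∧ m ≤ O.en - I.en ∧
            (c 0).en - (c t).en ≤ 4 * (C + 1) * (O.en - I.en)) ∨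
         ((c t).en ≤ O.st ∧ ((m ≤ I.st - O.st ∧ O.en - I.en ≤ I.st - O.st) ∨
            (m ≤ O.en - I.en ∧ I.st - O.st ≤ O.en - I.en)))))

/-- module LOCL: the localization lemma, left version. The copies are
`[f + a P + φ, f + a P + φ + len)`. -/
def SpecLOCL : Prop :=
  ∀ {α Q : Type} (O I : Nd Q α) (f P φ len θ : ℕ), Below O I → f ≤ O.st →
    3 * P ≤ I.st - O.st → O.en - I.en ≤ θ * (I.st - O.st) → φ + len ≤ P → 12 ≤ len →
    ∃ a : ℕ, O.st ≤ f + a * P + φ ∧ f + a * P + φ + len ≤ I.st ∧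
      ∃ (c : ℕ → Nd Q α) (t : ℕ), Below O (c 0) ∧
        ((RArm c t (f + a * P + φ) (f + a * P + φ + len) ∧ len ≤ 4 * ((c t).st - (c 0).st) ∧
            (c 0).en - (c t).en ≤ (4 + 3 * θ) * P ∧ (Below (c t) I ∨ (c 0).en ≤ I.st)) ∨
         (LArm c t (f + a * P + φ) (f + a * P + φ + len) ∧ len ≤ 4 * ((c 0).en - (c t).en) ∧
            (c t).st - (c 0).st ≤ (4 + 3 * θ) * P ∧ (c 0).en ≤ I.st))

/-- module LOCR: the mirror image of `SpecLOCL`. The copies are again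
`[f + a P + φ, f + a P + φ + len)`. -/
def SpecLOCR : Prop :=
  ∀ {α Q : Type} (O I : Nd Q α) (f P φ len θ : ℕ), Below O I → f ≤ I.en →
    3 * P ≤ O.en - I.en → I.st - O.st ≤ θ * (O.en - I.en) → φ + len ≤ P → 12 ≤ len →
    ∃ a : ℕ, I.en ≤ f + a * P + φ ∧ f + a * P + φ + len ≤ O.en ∧
      ∃ (c : ℕ → Nd Q α) (t : ℕ), Below O (c 0) ∧
        ((LArm c t (f + a * P + φ) (f + a * P + φ + len) ∧ len ≤ 4 * ((c 0).en - (c t).en) ∧
            (c t).st - (c 0).st ≤ (4 + 3 * θ) * P ∧ (Below (c t) I ∨ I.en ≤ (c 0).st)) ∨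
         (RArm c t (f + a * P + φ) (f + a * P + φ + len) ∧ len ≤ 4 * ((c t).st - (c 0).st) ∧
            (c 0).en - (c t).en ≤ (4 + 3 * θ) * P ∧ I.en ≤ (c 0).st))

/-! ### planar words and the blob lemma -/

/-- module DIRS: there is planar data as soon as all values are values of words. Directions
`(1,0),(0,1),(1,-1),(1,1),(1,2)` and their negatives. -/
def SpecDIRS : Prop :=
  ∀ {α G : Type} [Group G] (f : α → G) (ι : Z2 →* G), Function.Injective ι →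
    (∀ g : G, ∃ w : List α, val f w = g) → Nonempty (PD f ι)

/-- module PLAN: facts on planar words -/
def SpecPLAN : Prop :=
  ∀ {α G : Type} [Group G] (f : α → G) (ι : Z2 →* G) (D : PD f ι) (x : ℕ), 0 < x →
    (PiW D.s x).length = x * ell (fun k => (D.s k).length) ∧
    val f (PiW D.s x) = 1 ∧
    -- every letter has a unique location
    (∀ i : ℕ, ∃ m a φ : ℕ, Loc (fun k => (D.s k).length) x i m a φ) ∧
    (∀ i m a φ m' a' φ' : ℕ, Loc (fun k => (D.s k).length) x i m a φ →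
      Loc (fun k => (D.s k).length) x i m' a' φ' → m = m' ∧ a = a' ∧ φ = φ') ∧
    -- values of prefixes
    (∀ n i m a φ : ℕ, i ≤ n * (PiW D.s x).length → Loc (fun k => (D.s k).length) x i m a φ →
      val f ((rep n (PiW D.s x)).take i) =
        ι (Multiplicative.ofAdd (pl D.d x m a)) * val f ((D.s (m : ZMod 10)).take φ)) ∧
    (∀ n i m a φ : ℕ, i < n * (PiW D.s x).length → Loc (fun k => (D.s k).length) x i m a φ →
      val f ((rep n (PiW D.s x)).take (i + 1)) =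
        ι (Multiplicative.ofAdd (pl D.d x m a)) * val f ((D.s (m : ZMod 10)).take (φ + 1)))

/-- the number `C₁ = N ell²` of classes -/
noncomputable def C1 (Q : Type) (len : ZMod 10 → ℕ) : ℕ := Nat.card Q * ell len ^ 2

/-- the bound `h = 2^(C₁+1)` -/
noncomputable def hh (Q : Type) (len : ZMod 10 → ℕ) : ℕ := 2 ^ (C1 Q len + 1)

/-- module PUMPINT: internal pumps (5a) (may use `SpecPLAN`, `SpecTREE`, `SpecCONT`). The bound `M`
depends only on `D` and `Q`. -/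
def SpecPUMPINT : Prop :=
  ∀ {α Q G : Type} [Group G] [Finite Q] (f : α → G) (ι : Z2 →* G) (D : PD f ι)
    (L : Q → Set (List α)), ∃ M : ℤ, ∀ x : ℕ, 2 * hh Q (fun k => (D.s k).length) ≤ x →
    ∀ T : Tr Q α, T.Valid L → ∀ (E : Nd Q α) (b m : ℕ), Below ⟨0, T⟩ E →
      At T.yd b (rep m (PiW D.s x)) → b ≤ E.st → E.en ≤ b + m * (PiW D.s x).length →
      hh Q (fun k => (D.s k).length) ≤ E.en - E.st →
      ∃ e : ℤ × ℤ, e ≠ 0 ∧ |e.1| ≤ M ∧ |e.2| ≤ M ∧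
        ShiftBy f L T.yd E (pos f T.yd b * ι (Multiplicative.ofAdd e) * (pos f T.yd b)⁻¹)

/-- module PORT: choice of two arm nodes (5b). Purely combinatorial. -/
def SpecPORT : Prop :=
  ∀ {α Q : Type} [Finite Q] (P W : List α) (B : Finset ℕ) (c : ℕ → Nd Q α) (t f₀ h : ℕ),
    P ≠ [] → h ≤ P.length → Segm P W B → (c 0).en ≤ W.length → Chain c t →
    (∀ i < t, (c (i + 1)).st < (c i).st + h) → f₀ ≤ (c 0).st →
    (nb B (c t).en (c 0).en + 2) * (3 * P.length * (Nat.card Q * P.length ^ 2 + 2)) ≤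
      (c t).st - (c 0).st →
    ∃ i j : ℕ, i < j ∧ j ≤ t ∧ (c i).lab = (c j).lab ∧ 2 * P.length ≤ (c j).st - (c i).st ∧
      ((c i).st - f₀) % P.length = ((c j).st - f₀) % P.length ∧
      ((c i).en = (c j).en ∨
        ∃ b m : ℕ, At W b (rep m P) ∧ b < (c j).en ∧ (c i).en ≤ b + m * P.length ∧
          ((c i).en - 1 - b) % P.length = ((c j).en - 1 - b) % P.length)

/-- module STAIR0: the case of a constant end (5d) -/
def SpecSTAIR0 : Prop :=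
  ∀ {Q : Type} [Finite Q] [Nonempty Q] (d : ZMod 10 → ℤ × ℤ) (len : ZMod 10 → ℕ) (x t : ℕ)
    (sg : ℕ → ℕ) (lb : ℕ → Q) (U : AddSubgroup ((ℤ × ℤ) × (ℤ × ℤ))),
    (∀ k, 1 ≤ len k) → (∀ k, d k ≠ 0) → hh Q len * (3 * C1 Q len + 4) ≤ x →
    (∀ i < t, sg i ≤ sg (i + 1) ∧ sg (i + 1) < sg i + hh Q len) →
    sg 0 + 2 * (x * ell len) ≤ sg t →
    (∀ i j : ℕ, i < j → j ≤ t → lb i = lb j → ∀ m a φ m' a' : ℕ, Loc len x (sg i) m a φ →
      Loc len x (sg j) m' a' φ → (m : ZMod 10) = (m' : ZMod 10) →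
      (pl d x m' a' - pl d x m a, (0 : ℤ × ℤ)) ∈ U) →
    ∃ l : ℤ × ℤ, l ≠ 0 ∧ (l, (0 : ℤ × ℤ)) ∈ U

/-- module STAIR: the staircase (5d) -/
def SpecSTAIR : Prop :=
  ∀ {Q : Type} [Finite Q] [Nonempty Q] {α G : Type} [Group G] (f : α → G) (ι : Z2 →* G)
    (D : PD f ι) (len : ZMod 10 → ℕ) (x t : ℕ)
    (sg ep : ℕ → ℕ) (lb : ℕ → Q) (U : AddSubgroup ((ℤ × ℤ) × (ℤ × ℤ))),
    (∀ k, 1 ≤ len k) → hh Q len * (3 * C1 Q len + 4) ≤ x →
    (∀ i < t, sg i ≤ sg (i + 1) ∧ sg (i + 1) < sg i + hh Q len) →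
    (∀ i < t, ep (i + 1) ≤ ep i) →
    (∀ i < t, ep i < ep (i + 1) + hh Q len ∨ ∃ e : ℤ × ℤ, e ≠ 0 ∧ ((0 : ℤ × ℤ), e) ∈ U) →
    sg 0 + 2 * (x * ell len) ≤ sg t →
    (∀ i j : ℕ, i < j → j ≤ t → lb i = lb j → ∀ m a φ m' a' n b ψ n' b' : ℕ,
      Loc len x (sg i) m a φ → Loc len x (sg j) m' a' φ → (m : ZMod 10) = (m' : ZMod 10) →
      Loc len x (ep i) n b ψ → Loc len x (ep j) n' b' ψ → (n : ZMod 10) = (n' : ZMod 10) →
      (pl D.d x m' a' - pl D.d x m a, pl D.d x n b - pl D.d x n' b') ∈ U) →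
    ∃ l : ℤ × ℤ, l ≠ 0 ∧ (l, (0 : ℤ × ℤ)) ∈ U

/-- the blob lemma for `R`-arms, as a property of `(P, K, C)` -/
def BLRprop {α Q G : Type} [Group G] (f : α → G) (L : Q → Set (List α)) (P : List α)
    (K : Finset G) (C : ℕ) : Prop :=
  ∀ T : Tr Q α, T.Valid L → ∀ B : Finset ℕ, Segm P T.yd B →
  ∀ (c : ℕ → Nd Q α) (t f₀ n : ℕ), Below ⟨0, T⟩ (c 0) → At T.yd f₀ (rep n P) →
    RArm c t f₀ (f₀ + n * P.length) →
    (nb B (c t).en (c 0).en + 2) * C ≤ (c t).st - (c 0).st →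
    ∃ k ∈ K, (∃ i ≤ t, pos f T.yd f₀ * k * (pos f T.yd f₀)⁻¹ ∈ LG f L T.yd (c i)) ∨
      (∃ E : Nd Q α, Below (c 0) E ∧ E.en ≤ (c t).st ∧
        ShiftBy f L T.yd E (pos f T.yd f₀ * k * (pos f T.yd f₀)⁻¹))

/-- the blob lemma for `L`-arms -/
def BLLprop {α Q G : Type} [Group G] (f : α → G) (L : Q → Set (List α)) (P : List α)
    (K : Finset G) (C : ℕ) : Prop :=
  ∀ T : Tr Q α, T.Valid L → ∀ B : Finset ℕ, Segm P T.yd B →
  ∀ (c : ℕ → Nd Q α) (t f₀ n : ℕ), Below ⟨0, T⟩ (c 0) → At T.yd f₀ (rep n P) →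
    LArm c t f₀ (f₀ + n * P.length) →
    (nb B (c 0).st (c t).st + 2) * C ≤ (c 0).en - (c t).en →
    ∃ k ∈ K, (∃ i ≤ t, pos f T.yd f₀ * k * (pos f T.yd f₀)⁻¹ ∈ RG f L T.yd (c i)) ∨
      (∃ E : Nd Q α, Below (c 0) E ∧ (c t).en ≤ E.st ∧
        ShiftBy f L T.yd E (pos f T.yd f₀ * k * (pos f T.yd f₀)⁻¹))

/-- module BLR: the blob lemma for `R`-arms, (5b)-(5d) (uses PLAN, PUMPINT, PORT, STAIR0, STAIR, CONT). Take
`C = 3 |P| (N |P|² + 2)`, `K = K_int ∪ K_L`, `x₀ = h (3 C₁ + 4)`. -/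
def SpecBLR : Prop :=
  ∀ {α Q G : Type} [Group G] [Finite Q] (f : α → G) (ι : Z2 →* G), Function.Injective ι →
    ∀ (D : PD f ι) (L : Q → Set (List α)), ∃ x₀ : ℕ, ∀ x ≥ x₀, ∃ (K : Finset G) (C : ℕ),
      (∀ k ∈ K, ∃ z : Z2, z ≠ 1 ∧ ι z = k) ∧ BLRprop f L (PiW D.s x) K C

/-- module MIRROR: the blob lemma for `L`-arms (uses `SpecBLR` for the mirror data
`f' = f⁻¹`, `d'_k = d_{4-k}`, `s'_k = (s_{9-k}).reverse`, `L'_q = {w.reverse}`) -/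
def SpecBLL : Prop :=
  ∀ {α Q G : Type} [Group G] [Finite Q] (f : α → G) (ι : Z2 →* G), Function.Injective ι →
    ∀ (D : PD f ι) (L : Q → Set (List α)), ∃ x₀ : ℕ, ∀ x ≥ x₀, ∃ (K : Finset G) (C : ℕ),
      (∀ k ∈ K, ∃ z : Z2, z ≠ 1 ∧ ι z = k) ∧ BLLprop f L (PiW D.s x) K C

/-! ### noise words -/

/-- module NWLEN -/
def SpecNWLEN : Prop :=
  ∀ {α : Type} (Ω : Noise α), ∃ mc : ℕ, ∀ (P : List α) (Big S : ℕ) (u : List α),
    P ≠ [] → 1 ≤ Big → NW P Big S Ω u → u.length ≤ mc * S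

/-- module NWEX: noise words exist, and they are long -/
def SpecNWEX : Prop :=
  ∀ {α : Type} (P : List α) (Big : ℕ) (Ω : Noise α), P ≠ [] → 1 ≤ Big →
    (∃ S₀ : ℕ, ∀ S ≥ S₀, ∃ u : List α, NW P Big S Ω u) ∧
    (∀ (S : ℕ) (u : List α), NW P Big S Ω u → Big ≤ S ∧ S ≤ u.length)

/-- module NWPOS: values and positions of noise words -/
def SpecNWPOS : Prop :=
  ∀ {α G : Type} [Group G] (f : α → G) (P : List α) (P0 : List G) (Big : ℕ) (Ω : Noise α)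
    (S : ℕ) (u : List α), val f P = 1 → (∀ i : ℕ, val f (P.take i) ∈ P0) → Ω.Ok f →
    NW P Big S Ω u → val f u = 1 ∧ ∀ i : ℕ, val f (u.take i) ∈ posL f P0 Ω

/-- module COST: segmentations with few boundaries -/
def SpecCOST : Prop :=
  ∀ {α : Type} (P : List α) (Ω : Noise α) (wg : List α), P ≠ [] → ∃ c₁ c₂ : ℕ,
    ∀ (Big S n : ℕ) (u : List α), 1 ≤ Big → NW P Big S Ω u →
    ∃ B : Finset ℕ, Segm P (rep n u ++ wg) B ∧
      ∀ i j : ℕ, i ≤ j → nb B i j * Big ≤ c₁ * (j - i) + c₂ * Big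

/-! ### the main lemma -/

/-- The Main Lemma for the noise `Ω` (both versions): `u = u₁ u₂ u₃`, `u₂` is a noise word of `Ω`,
`u^n` is a block of `W = T.yd` at position `b`. `mc` is a bound for `|u| / S`. -/
def MainProp {α Q G : Type} [Group G] (f : α → G) (L : Q → Set (List α)) (P : List α)
    (K : Finset G) (P0 : List G) (Ω : Noise α) : Prop :=
  ∀ mc θ Np c₁ c₂ : ℕ, ∃ Big₀ : ℕ, ∀ Big ≥ Big₀, ∀ T : Tr Q α, T.Valid L →
    ∀ Ps : Finset G, Ps.card ≤ Np → (∀ i : ℕ, pos f T.yd i ∈ Ps) →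
    ∀ B : Finset ℕ, Segm P T.yd B →
      (∀ i j : ℕ, i ≤ j → nb B i j * Big ≤ c₁ * (j - i) + c₂ * Big) →
    ∀ (b n S : ℕ) (u₁ u₂ u₃ : List α), At T.yd b (rep n (u₁ ++ u₂ ++ u₃)) →
      val f (u₁ ++ u₂ ++ u₃) = 1 → NW P Big S Ω u₂ → (u₁ ++ u₂ ++ u₃).length ≤ mc * S →
    ∀ O I : Nd Q α, Below ⟨0, T⟩ O → Rec f T.yd O I →
      (b ≤ O.st → I.st ≤ b + n * (u₁ ++ u₂ ++ u₃).length →
        3 * (u₁ ++ u₂ ++ u₃).length ≤ I.st - O.st → O.en - I.en ≤ θ * (I.st - O.st) →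
        Good f K P0 (AA f L) (cj (pos f T.yd b * val f u₁)⁻¹ (LG f L T.yd O)) Ω) ∧
      (b ≤ I.en → O.en ≤ b + n * (u₁ ++ u₂ ++ u₃).length →
        3 * (u₁ ++ u₂ ++ u₃).length ≤ O.en - I.en → I.st - O.st ≤ θ * (O.en - I.en) →
        Good f K P0 (AA f L) (cj (pos f T.yd b * val f u₁)⁻¹ (RG f L T.yd O)) Ω)

/-- module MAINBLOB (uses LOCL, LOCR, CONT, NWEX) -/
def SpecMAINBLOB : Prop :=
  ∀ {α Q G : Type} [Group G] [Finite Q] (f : α → G) (L : Q → Set (List α)) (P : List α)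
    (K : Finset G) (C : ℕ) (P0 : List G), P ≠ [] → val f P = 1 →
    (∀ i : ℕ, val f (P.take i) ∈ P0) → BLRprop f L P K C → BLLprop f L P K C →
    MainProp f L P K P0 .blob

/-- module MAINSUB (uses LOCL, LOCR, LL, CONT, NWEX, NWLEN, NWPOS) -/
def SpecMAINSUB : Prop :=
  ∀ {α Q G : Type} [Group G] [Finite Q] (f : α → G) (L : Q → Set (List α)) (P : List α)
    (K : Finset G) (P0 : List G), P ≠ [] → val f P = 1 →
    (∀ i : ℕ, val f (P.take i) ∈ P0) →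
    ∀ W : Noise α, W.Ok f → MainProp f L P K P0 W → MainProp f L P K P0 (.sub W)

/-- module MAIN (uses MAINBLOB, MAINSUB; the cases `app` and `tr` are immediate) -/
def SpecMAIN : Prop :=
  ∀ {α Q G : Type} [Group G] [Finite Q] (f : α → G) (L : Q → Set (List α)) (P : List α)
    (K : Finset G) (C : ℕ) (P0 : List G), P ≠ [] → val f P = 1 →
    (∀ i : ℕ, val f (P.take i) ∈ P0) → BLRprop f L P K C → BLLprop f L P K C →
    ∀ Ω : Noise α, Ω.Ok f → MainProp f L P K P0 Ω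

/-- module TOP (uses everything of the CF part) -/
def SpecCF : Prop :=
  ∀ {α G : Type} [Group G] [Finite α] (f : α → G) (ι : Z2 →* G), Function.Injective ι →
    (∀ g : G, ∃ w : List α, val f w = g) →
    Language.IsContextFree ({w : List α | (w.map f).prod ≠ 1} : Language α) →
    ∃ (T : Type) (_ : Finite T) (A : T → Subgroup G) (K : Finset G) (P0 : List G),
      (∀ k ∈ K, ∃ z : Z2, z ≠ 1 ∧ ι z = k) ∧
      ∀ Ω : Noise α, Ω.Ok f → ∀ g : G, g ≠ 1 →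
        ∃ τ : T, ∃ r ∈ posL f P0 Ω, Good f K P0 A (cj r (A τ)) Ω ∧ g ∉ cj r (A τ)

end MPab
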