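import Pool.Agent.Lib.MP_ab497f_al.Free
import Pool.Agent.Lib.MP_ab497f_al.Spec

/-!
# MP_ab497f_al, module FREE
-/

set_option autoImplicit false

namespace MPab

/-- module FREE -/
theorem specFREE : SpecFREE := by
  refine ⟨Free.P, ?_, ?_, ?_, ?_⟩
  · intro z hz
    exact Free.P_io hz
  · intro L u hu z hz y n₁ n₂ hn
    have h := Free.P_boost hu y hz hn
    simp only [← mul_assoc] at h ⊢
    exact h
  · intro L u v hu hv
    exact Free.P_comm hu hv
  · intro L u hu
    exact Free.P_ne hu

end MPab
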