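import Pool.Agent.Lib.MP_ab497f_al.Amp

section
/-!
# MP_ab497f_al : module END (1.6)
-/
set_option autoImplicit false

namespace MPab

namespace END

open AMP

section Pos

variable {α G : Type} [Group G] {f : α → G}

theorem mem_posL_tr {P0 : List G} {v : List α × List α} {W : Noise α} {x : G}
    (h : x ∈ posL f P0 (.tr v W)) : x ∈ epos f v ∨ ∃ p ∈ posL f P0 W, x = val f v.1 * p := by
  rw [posL, List.mem_append, List.mem_map] at h
  rcases h with h | ⟨p, hp, rfl⟩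
  · exact Or.inl h
  · exact Or.inr ⟨p, hp, rfl⟩

theorem mem_posL_app {P0 : List G} {W₁ W₂ : Noise α} {x : G}
    (h : x ∈ posL f P0 (.app W₁ W₂)) : x ∈ posL f P0 W₁ ∨ x ∈ posL f P0 W₂ := by
  rwa [posL, List.mem_append] at h

/-- the positions of the noise of a commutator -/
theorem mem_Om {P0 : List G} {pU pV : List α × List α} {W : Noise α} (hU : IsPath f pU)
    (hV : IsPath f pV) {x : G} (h : x ∈ posL f P0 (Om pU pV W)) :
    ∃ a : Fin 6, ∃ w : G, (w ∈ posL f P0 W ∨ w ∈ epos f pU ∨ w ∈ epos f pV) ∧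
      x = Z (val f pU.1) (val f pV.1) a * w := by
  set U := val f pU.1 with hUe
  set V := val f pV.1 with hVe
  -- positions on the paths
  have q1 : ∀ y, y ∈ epos f pU → ∃ a : Fin 6, ∃ w : G,
      (w ∈ posL f P0 W ∨ w ∈ epos f pU ∨ w ∈ epos f pV) ∧ y = Z U V a * w := fun y hy =>
    ⟨0, y, Or.inr (Or.inl hy), by simp [Z]⟩
  have q2 : ∀ y, y ∈ epos f (comp pU pV) → ∃ a : Fin 6, ∃ w : G,
      (w ∈ posL f P0 W ∨ w ∈ epos f pU ∨ w ∈ epos f pV) ∧ y = Z U V a * w := by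
    intro y hy
    rcases mem_epos_comp hV hy with h | ⟨z, hz, rfl⟩
    · exact q1 y h
    · exact ⟨1, z, Or.inr (Or.inr hz), rfl⟩
  have q3 : ∀ y, y ∈ epos f (comp (comp pU pV) (pinv pU)) → ∃ a : Fin 6, ∃ w : G,
      (w ∈ posL f P0 W ∨ w ∈ epos f pU ∨ w ∈ epos f pV) ∧ y = Z U V a * w := by
    intro y hy
    rcases mem_epos_comp (isPath_pinv hU) hy with h | ⟨z, hz, rfl⟩
    · exact q2 y h
    · obtain ⟨z', hz', rfl⟩ := mem_epos_pinv hU hz
      refine ⟨3, z', Or.inr (Or.inl hz'), ?_⟩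
      rw [val_comp, ← mul_assoc]
      rfl
  have q4 : ∀ y, y ∈ epos f (pcomm pU pV) → ∃ a : Fin 6, ∃ w : G,
      (w ∈ posL f P0 W ∨ w ∈ epos f pU ∨ w ∈ epos f pV) ∧ y = Z U V a * w := by
    intro y hy
    rcases mem_epos_comp (isPath_pinv hV) hy with h | ⟨z, hz, rfl⟩
    · exact q3 y h
    · obtain ⟨z', hz', rfl⟩ := mem_epos_pinv hV hz
      refine ⟨4, z', Or.inr (Or.inr hz'), ?_⟩
      rw [val_comp, val_comp, val_pinv hU, ← mul_assoc]
      rfl
  rcases mem_posL_app h with h | h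
  · exact ⟨0, x, Or.inl h, by simp [Z]⟩
  rcases mem_posL_app h with h | h
  · rcases mem_posL_tr h with h | ⟨p, hp, rfl⟩
    · exact q1 x h
    · exact ⟨1, p, Or.inl hp, rfl⟩
  rcases mem_posL_app h with h | h
  · rcases mem_posL_tr h with h | ⟨p, hp, rfl⟩
    · exact q2 x h
    · exact ⟨2, p, Or.inl hp, by rw [val_comp]; rfl⟩
  rcases mem_posL_app h with h | h
  · rcases mem_posL_tr h with h | ⟨p, hp, rfl⟩
    · exact q3 x h
    · exact ⟨3, p, Or.inl hp, by rw [val_comp, val_comp, val_pinv hU]; rfl⟩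
  rcases mem_posL_app h with h | h
  · rcases mem_posL_tr h with h | ⟨p, hp, rfl⟩
    · exact q4 x h
    · exact ⟨4, p, Or.inl hp, by rw [val_pcomm hU hV]; rfl⟩
  · rcases mem_posL_tr h with h | ⟨p, hp, rfl⟩
    · exact ⟨0, x, Or.inr (Or.inr h), by simp [Z]⟩
    · exact ⟨5, p, Or.inl hp, rfl⟩

end Pos

section Alg

variable {G : Type} [Group G]

theorem cj_self {V : G} {C : Subgroup G} (h : V ∈ C) : cj V C = C := by
  ext x
  rw [mem_cj, C.mul_mem_cancel_right h, C.mul_mem_cancel_left (C.inv_mem h)]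

theorem cj_self' {V : G} {C : Subgroup G} (h : V ∈ C) : cj V⁻¹ C = C := cj_self (C.inv_mem h)

theorem cj_inv_cj (g h : G) (C : Subgroup G) : cj g⁻¹ (cj h C) = cj (g⁻¹ * h) C :=
  (cj_mul _ _ _).symm

/-- the subgroup depends on the first index only -/
theorem alg1 (U : G) (C : Subgroup G) (a : Fin 6) : ∃ B₂ : Subgroup G, ∀ V : G, V ∈ C →
    (∃ a' : Fin 6, cj (Z U V a')⁻¹ (cj (Z U V a) C) = B₂) ∧
    (V ∈ B₂ → U * V * U⁻¹ * V⁻¹ ∈ cj (Z U V a) C) := by
  fin_cases a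
  · refine ⟨cj U⁻¹ C, fun V hV => ⟨⟨1, ?_⟩, fun h => ?_⟩⟩
    · change cj U⁻¹ (cj 1 C) = _
      rw [cj_one]
    · rw [mem_cj, inv_inv] at h
      change _ ∈ cj 1 C
      rw [cj_one]
      exact C.mul_mem h (C.inv_mem hV)
  · refine ⟨cj U C, fun V hV => ⟨⟨0, ?_⟩, fun h => ?_⟩⟩
    · change cj (1 : G)⁻¹ (cj U C) = _
      rw [inv_one, cj_one]
    · rw [mem_cj] at h
      change _ ∈ cj U C
      rw [mem_cj]
      have := C.mul_mem hV (C.inv_mem h)
      convert this using 1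
      group
  · refine ⟨cj U C, fun V hV => ⟨⟨3, ?_⟩, fun h => ?_⟩⟩
    · change cj (U * V * U⁻¹)⁻¹ (cj (U * V) C) = _
      rw [cj_inv_cj]
      congr 1
      group
    · rw [mem_cj] at h
      change _ ∈ cj (U * V) C
      rw [mem_cj]
      have := C.mul_mem (C.inv_mem h) hV
      convert this using 1
      group
  · refine ⟨cj U⁻¹ C, fun V hV => ⟨⟨2, ?_⟩, fun h => ?_⟩⟩
    · change cj (U * V)⁻¹ (cj (U * V * U⁻¹) C) = _
      rw [cj_inv_cj]
      congr 1
      group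
    · rw [mem_cj, inv_inv] at h
      change _ ∈ cj (U * V * U⁻¹) C
      rw [mem_cj]
      have := C.mul_mem (C.inv_mem hV) h
      convert this using 1
      group
  · refine ⟨cj U⁻¹ C, fun V hV => ⟨⟨2, ?_⟩, fun h => ?_⟩⟩
    · change cj (U * V)⁻¹ (cj (U * V * U⁻¹ * V⁻¹) C) = _
      rw [cj_inv_cj]
      have e : (U * V)⁻¹ * (U * V * U⁻¹ * V⁻¹) = U⁻¹ * V⁻¹ := by group
      rw [e, cj_mul, cj_self' hV]
    · rw [mem_cj, inv_inv] at h
      change _ ∈ cj (U * V * U⁻¹ * V⁻¹) C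
      rw [mem_cj]
      have := C.mul_mem h (C.inv_mem hV)
      convert this using 1
      group
  · refine ⟨cj U⁻¹ C, fun V hV => ⟨⟨1, ?_⟩, fun h => ?_⟩⟩
    · change cj U⁻¹ (cj V C) = _
      rw [cj_self hV]
    · rw [mem_cj, inv_inv] at h
      change _ ∈ cj V C
      rw [mem_cj]
      have := C.mul_mem (C.inv_mem hV) h
      convert this using 1
      group

/-- the subgroup depends on the second index only -/
theorem alg2 (V : G) (C : Subgroup G) (a : Fin 6) : ∃ B₂ : Subgroup G, ∀ U : G, U ∈ C →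
    (∃ a' : Fin 6, cj (Z U V a')⁻¹ (cj (Z U V a) C) = B₂) ∧
    (U ∈ B₂ → U * V * U⁻¹ * V⁻¹ ∈ cj (Z U V a) C) := by
  fin_cases a
  · refine ⟨cj V⁻¹ C, fun U hU => ⟨⟨5, ?_⟩, fun h => ?_⟩⟩
    · change cj V⁻¹ (cj 1 C) = _
      rw [cj_one]
    · rw [mem_cj, inv_inv] at h
      change _ ∈ cj 1 C
      rw [cj_one]
      have := C.mul_mem hU (C.inv_mem h)
      convert this using 1
      group
  · refine ⟨cj V⁻¹ C, fun U hU => ⟨⟨2, ?_⟩, fun h => ?_⟩⟩
    · change cj (U * V)⁻¹ (cj U C) = _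
      rw [cj_inv_cj]
      congr 1
      group
    · rw [mem_cj, inv_inv] at h
      change _ ∈ cj U C
      rw [mem_cj]
      have := C.mul_mem (C.inv_mem h) hU
      convert this using 1
      group
  · refine ⟨cj V C, fun U hU => ⟨⟨1, ?_⟩, fun h => ?_⟩⟩
    · change cj U⁻¹ (cj (U * V) C) = _
      rw [cj_inv_cj]
      congr 1
      group
    · rw [mem_cj] at h
      change _ ∈ cj (U * V) C
      rw [mem_cj]
      have := C.mul_mem (C.inv_mem hU) h
      convert this using 1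
      group
  · refine ⟨cj V C, fun U hU => ⟨⟨4, ?_⟩, fun h => ?_⟩⟩
    · change cj (U * V * U⁻¹ * V⁻¹)⁻¹ (cj (U * V * U⁻¹) C) = _
      rw [cj_inv_cj]
      congr 1
      group
    · rw [mem_cj] at h
      change _ ∈ cj (U * V * U⁻¹) C
      rw [mem_cj]
      have := C.mul_mem h (C.inv_mem hU)
      convert this using 1
      group
  · refine ⟨cj V⁻¹ C, fun U hU => ⟨⟨3, ?_⟩, fun h => ?_⟩⟩
    · change cj (U * V * U⁻¹)⁻¹ (cj (U * V * U⁻¹ * V⁻¹) C) = _
      rw [cj_inv_cj]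
      congr 1
      group
    · rw [mem_cj, inv_inv] at h
      change _ ∈ cj (U * V * U⁻¹ * V⁻¹) C
      rw [mem_cj]
      have := C.mul_mem hU (C.inv_mem h)
      convert this using 1
      group
  · refine ⟨cj V C, fun U hU => ⟨⟨0, ?_⟩, fun h => ?_⟩⟩
    · change cj (1 : G)⁻¹ (cj V C) = _
      rw [inv_one, cj_one]
    · rw [mem_cj] at h
      change _ ∈ cj V C
      rw [mem_cj]
      have := C.mul_mem h (C.inv_mem hU)
      convert this using 1
      group

end Alg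

section Count

theorem union_fin {X J : Type} [Finite X] [Fintype J] (P : X → J → Prop) (b : ℚ)
    (h : ∀ x, ({j : J | P x j}.ncard : ℚ) ≤ b) :
    ({j : J | ∃ x, P x j}.ncard : ℚ) ≤ (Nat.card X : ℚ) * b := by
  classical
  have : Fintype X := Fintype.ofFinite X
  have e1 : {j : J | ∃ x, P x j}.ncard ≤ ∑ x : X, {j : J | P x j}.ncard := by
    have e2 : {j : J | ∃ x, P x j} = ((Finset.univ : Finset X).biUnion fun x =>
        (Set.toFinset {j : J | P x j}) : Finset J) := by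
      ext j
      simp
    rw [e2, Set.ncard_coe_finset]
    refine Finset.card_biUnion_le.trans (le_of_eq ?_)
    refine Finset.sum_congr rfl fun x _ => ?_
    rw [Set.ncard_eq_toFinset_card']
  calc ({j : J | ∃ x, P x j}.ncard : ℚ) ≤ ((∑ x : X, {j : J | P x j}.ncard : ℕ) : ℚ) := by
        exact_mod_cast e1
    _ = ∑ x : X, ({j : J | P x j}.ncard : ℚ) := by push_cast; rfl
    _ ≤ ∑ _x : X, b := Finset.sum_le_sum fun x _ => h x
    _ = (Nat.card X : ℚ) * b := by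
        rw [Finset.sum_const, Finset.card_univ, nsmul_eq_mul, Nat.card_eq_fintype_card]

/-- union over `τ`, the six positions and a list -/
theorem union_list {T G J : Type} [Finite T] [Fintype J] (P : T → Fin 6 → G → J → Prop) (b : ℚ)
    (hb : 0 ≤ b) (h : ∀ τ a w, ({j : J | P τ a w j}.ncard : ℚ) ≤ b) (E : List G) (S : ℚ)
    (hE : (E.length : ℚ) ≤ S) :
    ({j : J | ∃ τ a, ∃ w ∈ E, P τ a w j}.ncard : ℚ) ≤ (Nat.card T * (6 * S) : ℚ) * b := by
  have h1 := union_fin (X := T × Fin 6 × Fin E.length)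
    (fun x j => P x.1 x.2.1 (E.get x.2.2) j) b (fun x => h _ _ _)
  have h2 : {j : J | ∃ τ a, ∃ w ∈ E, P τ a w j} ⊆
      {j : J | ∃ x : T × Fin 6 × Fin E.length, P x.1 x.2.1 (E.get x.2.2) j} := by
    rintro j ⟨τ, a, w, hw, hP⟩
    obtain ⟨n, hn⟩ := List.get_of_mem hw
    refine ⟨(τ, a, n), ?_⟩
    simp only [hn]
    exact hP
  have h3 : ({j : J | ∃ τ a, ∃ w ∈ E, P τ a w j}.ncard : ℚ) ≤
      ({j : J | ∃ x : T × Fin 6 × Fin E.length, P x.1 x.2.1 (E.get x.2.2) j}.ncard : ℚ) := by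
    exact_mod_cast Set.ncard_le_ncard h2 (Set.toFinite _)
  refine (h3.trans h1).trans (mul_le_mul_of_nonneg_right ?_ hb)
  rw [Nat.card_prod, Nat.card_prod, Nat.card_eq_fintype_card (α := Fin 6),
    Nat.card_eq_fintype_card (α := Fin E.length), Fintype.card_fin, Fintype.card_fin]
  push_cast
  gcongr

theorem two_sets {J : Type} [Fintype J] (P Q R : J → Prop) (b : ℚ) (h : ∀ j, P j → Q j ∨ R j)
    (hQ : ({j : J | Q j}.ncard : ℚ) ≤ b) (hR : ({j : J | R j}.ncard : ℚ) ≤ b) :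
    ({j : J | P j}.ncard : ℚ) ≤ 2 * b := by
  have hsub : {j : J | P j} ⊆ {j : J | Q j} ∪ {j : J | R j} := fun j hj => h j hj
  have hle := (Set.ncard_le_ncard hsub (Set.toFinite _)).trans (Set.ncard_union_le _ _)
  have : ({j : J | P j}.ncard : ℚ) ≤ ({j : J | Q j}.ncard : ℚ) + ({j : J | R j}.ncard : ℚ) := by
    exact_mod_cast hle
  linarith

end Count

end END

open AMP END in
theorem specEND : SpecEND := by
  intro α G T _ f K P0 A ι c Pr hS
  have hT := hS.finT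
  obtain ⟨wc, hwc⟩ := hS.surj c
  obtain ⟨wc', hwc'⟩ := hS.surj c⁻¹
  set pc : List α × List α := (wc, wc') with hpc
  have hc : IsPath f pc := by
    unfold IsPath
    rw [hpc]
    change val f wc * val f wc' = 1
    rw [hwc, hwc', mul_inv_cancel]
  set k : ℕ := wc.length + wc'.length with hk
  refine ⟨36 * Nat.card T * (k + 1), ?_⟩
  intro ε L S hε ⟨I, hI, hIne, u, Ω, v, h1, h2⟩ hsmall
  set pL : List α × List α := ppow pc L with hpL
  have hpLp : IsPath f pL := isPath_ppow hc L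
  have hpLv : val f pL.1 = c ^ L := by rw [hpL, val_ppow, hpc]; rw [← hwc]
  have hpLlen : (epos f pL).length = L * k + 2 := by rw [hpL, length_ppow]
  set pV : I → List α × List α := fun j => comp (comp pL (v j)) (pinv pL) with hpV
  have hpVp : ∀ j, IsPath f (pV j) := fun j =>
    isPath_comp (isPath_comp hpLp (h1 j).2.2.1) (isPath_pinv hpLp)
  have hpVv : ∀ j, val f (pV j).1 = c ^ L * u j * (c ^ L)⁻¹ := by
    intro j
    rw [hpV]
    rw [val_comp, val_comp, val_pinv hpLp, hpLv, (h1 j).2.2.2.1]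
  have hpVlen : ∀ j, (epos f (pV j)).length + (posL f P0 (Ω j)).length ≤ S + 2 * (L * k) := by
    intro j
    have e1 := length_comp (f := f) (comp pL (v j)) (pinv pL)
    have e2 := length_comp (f := f) pL (v j)
    have e3 := length_pinv (f := f) pL
    have e4 := (h1 j).2.2.2.2
    have e5 : (epos f (pV j)).length = (epos f (comp (comp pL (v j)) (pinv pL))).length := rfl
    omega
  set W : I × I → Noise α := fun x => W2 pL (Ω x.1) (Ω x.2) with hW
  set V : I → G := fun j => c ^ L * u j * (c ^ L)⁻¹ with hV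
  set Om' : I × I → Noise α := fun x => Om (v x.1) (pV x.2) (W x) with hOm
  have hok : ∀ x, (Om' x).Ok f := fun x =>
    Om_ok (h1 x.1).2.2.1 (hpVp _) ⟨(h1 x.1).2.1, hpLp, (h1 x.2).2.1⟩
  have hne : ∀ x : I × I, u x.1 * V x.2 * (u x.1)⁻¹ * (V x.2)⁻¹ ≠ 1 := fun x =>
    hS.free.ne _ _ (hS.free.comm L _ _ (h1 x.1).1 (h1 x.2).1)
  -- the windows
  have hwin : ∀ (x : I × I) (B : Subgroup G), Good f K P0 A B (Om' x) → ∀ a : Fin 6,
      Good f K P0 A (cj (Z (u x.1) (V x.2) a)⁻¹ B) (Ω x.1) ∧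
      Good f K P0 A (cj (c ^ L)⁻¹ (cj (Z (u x.1) (V x.2) a)⁻¹ B)) (Ω x.2) := by
    intro x B hB a
    have h := Om_good (h1 x.1).2.2.1 (hpVp _) hB a
    rw [(h1 x.1).2.2.2.1, hpVv] at h
    refine ⟨h.1, ?_⟩
    rw [← hpLv]
    exact h.2
  have hVm : ∀ (j : I) (B : Subgroup G), u j ∈ cj (c ^ L)⁻¹ B ↔ V j ∈ B := by
    intro j B
    rw [mem_cj, inv_inv]
  have hcancel : ∀ (g : G) (B : Subgroup G), cj g⁻¹ (cj g B) = B := by
    intro g B
    rw [cj_inv_cj, inv_mul_cancel, cj_one]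
  set b : ℚ := 2 * (ε * Fintype.card I) with hb
  have hb0 : 0 ≤ b := by positivity
  -- first kind
  have k1 : ∀ (i : I) (C : Subgroup G) (a : Fin 6),
      ({j : I | Good f K P0 A (cj (Z (u i) (V j) a) C) (Om' (i, j)) ∧
        u i * V j * (u i)⁻¹ * (V j)⁻¹ ∉ cj (Z (u i) (V j) a) C}.ncard : ℚ) ≤ b := by
    intro i C a
    obtain ⟨B₂, hB₂⟩ := alg1 (u i) C a
    refine two_sets _ _ _ _ ?_ (h2 (cj (c ^ L)⁻¹ C)) (h2 (cj (c ^ L)⁻¹ B₂))
    rintro j ⟨hg, hu⟩
    have w1 := (hwin (i, j) _ hg a).2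
    rw [hcancel] at w1
    by_cases hVC : V j ∈ C
    · obtain ⟨⟨a', ha'⟩, h3⟩ := hB₂ (V j) hVC
      have w2 := (hwin (i, j) _ hg a').2
      rw [ha'] at w2
      refine Or.inr ⟨w2, ?_⟩
      rw [hVm]
      exact fun h => hu (h3 h)
    · refine Or.inl ⟨w1, ?_⟩
      rw [hVm]
      exact hVC
  -- second kind
  have k2 : ∀ (j : I) (C : Subgroup G) (a : Fin 6),
      ({i : I | Good f K P0 A (cj (Z (u i) (V j) a) C) (Om' (i, j)) ∧
        u i * V j * (u i)⁻¹ * (V j)⁻¹ ∉ cj (Z (u i) (V j) a) C}.ncard : ℚ) ≤ b := by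
    intro j C a
    obtain ⟨B₂, hB₂⟩ := alg2 (V j) C a
    refine two_sets _ _ _ _ ?_ (h2 C) (h2 B₂)
    rintro i ⟨hg, hu⟩
    have w1 := (hwin (i, j) _ hg a).1
    rw [hcancel] at w1
    by_cases hUC : u i ∈ C
    · obtain ⟨⟨a', ha'⟩, h3⟩ := hB₂ (u i) hUC
      have w2 := (hwin (i, j) _ hg a').1
      rw [ha'] at w2
      exact Or.inr ⟨w2, fun h => hu (h3 h)⟩
    · exact Or.inl ⟨w1, hUC⟩
  by_contra hcon
  have hcon' : ∀ x : I × I, ∃ τ : T, ∃ r ∈ posL f P0 (Om' x), Good f K P0 A (cj r (A τ)) (Om' x) ∧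
      u x.1 * V x.2 * (u x.1)⁻¹ * (V x.2)⁻¹ ∉ cj r (A τ) := by
    intro x
    by_contra hx
    push Not at hx
    exact hcon ⟨Om' x, hok x, _, hne x, hx⟩
  obtain ⟨E₁, hE₁⟩ : ∃ E₁ : I → List G, E₁ = fun i => posL f P0 (Ω i) ++ epos f (v i) :=
    ⟨_, rfl⟩
  obtain ⟨E₂, hE₂⟩ : ∃ E₂ : I → List G, E₂ = fun j => epos f pL ++
    ((posL f P0 (Ω j)).map fun p => c ^ L * p) ++ epos f (pV j) := ⟨_, rfl⟩
  have hE₁len : ∀ i, ((E₁ i).length : ℚ) ≤ S := by
    intro i
    have h3 := (h1 i).2.2.2.2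
    have h4 : (E₁ i).length ≤ S := by
      rw [hE₁]
      simp only [List.length_append]
      exact h3
    exact_mod_cast h4
  have hE₂len : ∀ j, ((E₂ j).length : ℚ) ≤ S + 3 * (L * k) + 2 := by
    intro j
    have h3 := hpVlen j
    have h4 : (E₂ j).length ≤ S + 3 * (L * k) + 2 := by
      rw [hE₂]
      simp only [List.length_append, List.length_map]
      omega
    exact_mod_cast h4
  -- the failing pairs
  obtain ⟨R, hR⟩ : ∃ R : I → I → T → Fin 6 → G → Prop, R = fun i j τ a w =>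
    Good f K P0 A (cj (Z (u i) (V j) a) (cj w (A τ))) (Om' (i, j)) ∧
        u i * V j * (u i)⁻¹ * (V j)⁻¹ ∉ cj (Z (u i) (V j) a) (cj w (A τ)) := ⟨_, rfl⟩
  have hR1 : ∀ i τ a w, ({j : I | R i j τ a w}.ncard : ℚ) ≤ b := by
    intro i τ a w
    rw [hR]
    exact k1 i (cj w (A τ)) a
  have hR2 : ∀ j τ a w, ({i : I | R i j τ a w}.ncard : ℚ) ≤ b := by
    intro j τ a w
    rw [hR]
    exact k2 j (cj w (A τ)) a
  obtain ⟨Q₁, hQ₁e⟩ : ∃ Q₁ : I → I → Prop, Q₁ = fun i j => ∃ τ a, ∃ w ∈ E₁ i, R i j τ a w :=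
    ⟨_, rfl⟩
  obtain ⟨Q₂, hQ₂e⟩ : ∃ Q₂ : I → I → Prop, Q₂ = fun j i => ∃ τ a, ∃ w ∈ E₂ j, R i j τ a w :=
    ⟨_, rfl⟩
  have hQ₁ : ∀ i, ({j : I | Q₁ i j}.ncard : ℚ) ≤ (Nat.card T * (6 * S) : ℚ) * b := by
    intro i
    rw [hQ₁e]
    exact union_list (fun τ a w j => R i j τ a w) b hb0 (hR1 i) (E₁ i) S (hE₁len i)
  have hQ₂ : ∀ j, ({i : I | Q₂ j i}.ncard : ℚ) ≤
      (Nat.card T * (6 * (S + 3 * (L * k) + 2)) : ℚ) * b := by
    intro j
    rw [hQ₂e]
    exact union_list (fun τ a w i => R i j τ a w) b hb0 (hR2 j) (E₂ j) _ (hE₂len j)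
  have hall : ∀ x : I × I, Q₁ x.1 x.2 ∨ Q₂ x.2 x.1 := by
    rintro ⟨i, j⟩
    obtain ⟨τ, r, hr, hg, hu⟩ := hcon' (i, j)
    obtain ⟨a, w, hw, hrw⟩ := mem_Om (h1 i).2.2.1 (hpVp j) hr
    rw [(h1 i).2.2.2.1, hpVv] at hrw
    rw [hrw, cj_mul] at hg hu
    have hRR : R i j τ a w := by
      rw [hR]
      exact ⟨hg, hu⟩
    have hw' : w ∈ E₁ i ∨ w ∈ E₂ j := by
      simp only [hE₁, hE₂, List.mem_append]
      rcases hw with hw | hw | hw
      · rcases mem_posL_app hw with hw | hw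
        · exact Or.inl (Or.inl hw)
        · rcases mem_posL_tr hw with hw | ⟨p, hp, hw⟩
          · exact Or.inr (Or.inl (Or.inl hw))
          · refine Or.inr (Or.inl (Or.inr ?_))
            rw [hw, hpLv]
            exact List.mem_map_of_mem hp
      · exact Or.inl (Or.inr hw)
      · exact Or.inr (Or.inr hw)
    rw [hQ₁e, hQ₂e]
    rcases hw' with hw' | hw'
    · exact Or.inl ⟨τ, a, w, hw', hRR⟩
    · exact Or.inr ⟨τ, a, w, hw', hRR⟩
  have hcard0 : (0 : ℚ) ≤ Fintype.card I := by positivity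
  have d1 : ({x : I × I | True ∧ Q₁ x.1 x.2}.ncard : ℚ) ≤
      (Fintype.card I : ℚ) * ((Nat.card T * (6 * S) : ℚ) * b) := by
    refine ncard_prod_le (fun _ => True) Q₁ _ _ (by positivity) ?_ fun i _ => hQ₁ i
    rw [show {i : I | True} = Set.univ from Set.eq_univ_of_forall fun _ => trivial,
      Set.ncard_univ, Nat.card_eq_fintype_card]
  have d2 : ({x : I × I | True ∧ Q₂ x.1 x.2}.ncard : ℚ) ≤
      (Fintype.card I : ℚ) * ((Nat.card T * (6 * (S + 3 * (L * k) + 2)) : ℚ) * b) := by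
    refine ncard_prod_le (fun _ => True) Q₂ _ _ (by positivity) ?_ fun i _ => hQ₂ i
    rw [show {i : I | True} = Set.univ from Set.eq_univ_of_forall fun _ => trivial,
      Set.ncard_univ, Nat.card_eq_fintype_card]
  have d2' := ncard_swap (fun x : I × I => True ∧ Q₂ x.1 x.2)
  rw [d2'] at d2
  have hsub : (Set.univ : Set (I × I)) ⊆ {x : I × I | True ∧ Q₁ x.1 x.2} ∪
      {x : I × I | True ∧ Q₂ x.2 x.1} := by
    intro x _
    rcases hall x with h | h
    · exact Or.inl ⟨trivial, h⟩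
    · exact Or.inr ⟨trivial, h⟩
  have hle := (Set.ncard_le_ncard hsub (Set.toFinite _)).trans (Set.ncard_union_le _ _)
  rw [Set.ncard_univ, Nat.card_eq_fintype_card, Fintype.card_prod] at hle
  have hle' : (Fintype.card I : ℚ) * Fintype.card I ≤
      (Fintype.card I : ℚ) * ((Nat.card T * (6 * S) : ℚ) * b) +
        (Fintype.card I : ℚ) * ((Nat.card T * (6 * (S + 3 * (L * k) + 2)) : ℚ) * b) := by
    refine le_trans ?_ (add_le_add d1 d2)
    exact_mod_cast hle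
  have hpos : (0 : ℚ) < Fintype.card I := by
    have : 0 < Fintype.card I := Fintype.card_pos
    exact_mod_cast this
  have hfin : (Fintype.card I : ℚ) * ((Nat.card T * (6 * S) : ℚ) * b) +
        (Fintype.card I : ℚ) * ((Nat.card T * (6 * (S + 3 * (L * k) + 2)) : ℚ) * b) ≤
      (((36 * Nat.card T * (k + 1) : ℕ) : ℚ) * ((S : ℚ) + L + 1) * ε) *
        ((Fintype.card I : ℚ) * Fintype.card I) := by
    rw [hb]
    push_cast
    have e : (((36 : ℚ) * Nat.card T * (k + 1)) * ((S : ℚ) + L + 1) * ε) *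
        ((Fintype.card I : ℚ) * Fintype.card I) -
        ((Fintype.card I : ℚ) * ((Nat.card T * (6 * S) : ℚ) * (2 * (ε * Fintype.card I))) +
        (Fintype.card I : ℚ) * ((Nat.card T * (6 * (S + 3 * (L * k) + 2)) : ℚ) *
          (2 * (ε * Fintype.card I)))) =
        (Nat.card T : ℚ) * ε * ((Fintype.card I : ℚ) * Fintype.card I) *
          (12 * S + 36 * k * S + 36 * k + 36 * L + 12) := by ring
    have e2 : (0 : ℚ) ≤ (Nat.card T : ℚ) * ε * ((Fintype.card I : ℚ) * Fintype.card I) *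
          (12 * S + 36 * k * S + 36 * k + 36 * L + 12) := by positivity
    linarith
  have : (((36 * Nat.card T * (k + 1) : ℕ) : ℚ) * ((S : ℚ) + L + 1) * ε) *
        ((Fintype.card I : ℚ) * Fintype.card I) < 1 * ((Fintype.card I : ℚ) * Fintype.card I) :=
    mul_lt_mul_of_pos_right hsmall (by positivity)
  linarith

end MPab
end

section
/-!
# MP_ab497f_al : module GTALL, the theorem (GT)
-/
set_option autoImplicit false

namespace MPab

namespace GTALL

open AMP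

theorem sq_le_two_pow (n : ℕ) (hn : 4 ≤ n) : n * n ≤ 2 ^ n := by
  induction n, hn using Nat.le_induction with
  | base => norm_num
  | succ n hn ih =>
    rw [pow_succ]
    nlinarith

/-- from `Fam` to `Amp` -/
theorem amp_of_fam {α G T : Type} [Group G] {f : α → G} {K : Finset G} {P0 : List G}
    {A : T → Subgroup G} {Pr : ℕ → G → Prop} {L : ℕ} (hsurj : ∀ g : G, ∃ w : List α, val f w = g)
    (h : Fam f K P0 A Pr (23 / 24) L) : ∃ S, Amp f K P0 A Pr (1 / 24) L S := by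
  obtain ⟨I, hI, hne, u, Ω, hok, hu, hB⟩ := h
  choose w hw using hsurj
  refine ⟨∑ i : I, ((posL f P0 Ω).length + (epos f (w (u i), w (u i)⁻¹)).length),
    I, hI, hne, u, fun _ => Ω, fun i => (w (u i), w (u i)⁻¹), ?_, ?_⟩
  · intro i
    refine ⟨hu i, hok, ?_, hw _, ?_⟩
    · unfold IsPath
      change val f (w (u i)) * val f (w (u i)⁻¹) = 1
      rw [hw, hw, mul_inv_cancel]
    · exact Finset.single_le_sum
        (f := fun i : I => (posL f P0 Ω).length + (epos f (w (u i), w (u i)⁻¹)).length)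
        (fun _ _ => Nat.zero_le _) (Finset.mem_univ i)
  · intro B
    by_cases hg : Good f K P0 A B Ω
    · have h1 := hB B hg
      have h2 : {i : I | u i ∈ B}.ncard + {i : I | Good f K P0 A B Ω ∧ u i ∉ B}.ncard =
          Fintype.card I := by
        have e : {i : I | Good f K P0 A B Ω ∧ u i ∉ B} = {i : I | u i ∈ B}ᶜ := by
          ext i
          simp [hg]
        rw [e, Set.ncard_add_ncard_compl, Nat.card_eq_fintype_card]
      have h3 : ({i : I | u i ∈ B}.ncard : ℚ) +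
          ({i : I | Good f K P0 A B Ω ∧ u i ∉ B}.ncard : ℚ) = Fintype.card I := by
        exact_mod_cast h2
      linarith
    · have e : {i : I | Good f K P0 A B Ω ∧ u i ∉ B} = ∅ := by
        ext i
        simp [hg]
      rw [e, Set.ncard_empty]
      positivity

end GTALL

open GTALL in
theorem specGT (hIter : SpecITER) (hAmp : SpecAMP) (hEnd : SpecEND) : SpecGT := by
  intro α G T _ _ f K P0 A ι c Pr hsurj hK hfree
  by_cases hKe : K.Nonempty
  · have hS : GTSetup f K A ι c Pr := ⟨hsurj, inferInstance, hK, hKe, hfree⟩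
    obtain ⟨L₀, hF⟩ := hIter f K P0 A ι c Pr hS
    obtain ⟨S₀, hA0⟩ := amp_of_fam hsurj hF
    obtain ⟨c₁, hc₁⟩ := hAmp f K P0 A ι c Pr hS
    obtain ⟨c₀, hc₀⟩ := hEnd f K P0 A ι c Pr hS
    set q : ℕ := c₁ + 2 with hq
    set X : ℕ := S₀ + L₀ + 1 with hX
    have key : ∀ n : ℕ, ∃ L S : ℕ, Amp f K P0 A Pr ((1 / 3) * (1 / 8) ^ (2 ^ n)) L S ∧
        S + L + 1 ≤ q ^ n * X := by
      intro n
      induction n with
      | zero =>
        refine ⟨L₀, S₀, ?_, ?_⟩
        · have e : ((1 : ℚ) / 3) * (1 / 8) ^ (2 ^ 0) = 1 / 24 := by norm_num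
          rw [e]
          exact hA0
        · rw [pow_zero, one_mul]
      | succ n ih =>
        obtain ⟨L, S, h1, h2⟩ := ih
        refine ⟨2 * L, c₁ * (S + L + 1), ?_, ?_⟩
        · have e : ((1 : ℚ) / 3) * (1 / 8) ^ (2 ^ (n + 1)) =
              3 * ((1 / 3) * (1 / 8) ^ (2 ^ n)) ^ 2 := by
            rw [pow_succ 2 n, pow_mul]
            ring
          rw [e]
          exact hc₁ _ _ _ (by positivity) h1
        · calc c₁ * (S + L + 1) + 2 * L + 1 ≤ q * (S + L + 1) := by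
                rw [hq]
                ring_nf
                omega
            _ ≤ q * (q ^ n * X) := Nat.mul_le_mul_left _ h2
            _ = q ^ (n + 1) * X := by ring
    set n : ℕ := q + 4 + c₀ * X with hn
    obtain ⟨L, S, h1, h2⟩ := key n
    refine hc₀ _ L S (by positivity) h1 ?_
    -- the numerical estimate
    have e1 : c₀ * X ≤ 8 ^ n :=
      (show c₀ * X ≤ n by omega).trans (Nat.lt_pow_self (by norm_num)).le
    have e2 : q ^ n ≤ 8 ^ (q * n) := by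
      rw [pow_mul]
      exact Nat.pow_le_pow_left (Nat.lt_pow_self (by norm_num)).le _
    have e3 : (q + 1) * n ≤ 2 ^ n :=
      (Nat.mul_le_mul_right n (show q + 1 ≤ n by omega)).trans (sq_le_two_pow n (by omega))
    have e4 : c₀ * (S + L + 1) ≤ 8 ^ (2 ^ n) := by
      calc c₀ * (S + L + 1) ≤ c₀ * (q ^ n * X) := Nat.mul_le_mul_left _ h2
        _ = (c₀ * X) * q ^ n := by ring
        _ ≤ 8 ^ n * 8 ^ (q * n) := Nat.mul_le_mul e1 e2
        _ = 8 ^ ((q + 1) * n) := by rw [← pow_add]; congr 1; ring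
        _ ≤ 8 ^ (2 ^ n) := Nat.pow_le_pow_right (by norm_num) e3
    have e5 : (c₀ : ℚ) * ((S : ℚ) + L + 1) ≤ 8 ^ (2 ^ n) := by exact_mod_cast e4
    have e6 : (0 : ℚ) < (1 / 8) ^ (2 ^ n) := by positivity
    calc (c₀ : ℚ) * ((S : ℚ) + L + 1) * ((1 / 3) * (1 / 8) ^ (2 ^ n))
        ≤ 8 ^ (2 ^ n) * ((1 / 3) * (1 / 8) ^ (2 ^ n)) :=
          mul_le_mul_of_nonneg_right e5 (by positivity)
      _ = (1 / 3) * (8 * (1 / 8)) ^ (2 ^ n) := by rw [mul_pow]; ring
      _ = 1 / 3 := by norm_num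
      _ < 1 := by norm_num
  · rw [Finset.not_nonempty_iff_eq_empty] at hKe
    subst hKe
    have hz : (Multiplicative.ofAdd ((1, 0) : ℤ × ℤ) : Z2) ≠ 1 := by
      intro h
      have h2 : ((1, 0) : ℤ × ℤ) = 0 := by
        rw [← ofAdd_zero] at h
        exact Multiplicative.ofAdd.injective h
      exact absurd (congrArg Prod.fst h2) (by norm_num)
    refine ⟨.blob, trivial, ι (Multiplicative.ofAdd ((1, 0) : ℤ × ℤ)),
      hfree.ne 1 _ (hfree.base _ hz), ?_⟩
    rintro τ r _ ⟨k, hk, _⟩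
    exact absurd hk (by simp)

end MPab
end
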