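import Pool.Agent.Lib.MP_ab497f_al.Tree

/-!
# MP_ab497f_al, module NP2: the line lemma (1.2) of helper16's proof
-/

set_option autoImplicit false

namespace MPab

namespace NP2M

open NoiseM

/-! ### arithmetic -/

/-- determinant -/
def det (x y : Z2) : ℤ :=
  (Multiplicative.toAdd x).1 * (Multiplicative.toAdd y).2 -
    (Multiplicative.toAdd x).2 * (Multiplicative.toAdd y).1

theorem decomp (k e x : Z2) : x ^ det k e = k ^ det x e * e ^ det k x := by
  apply Multiplicative.toAdd.injective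
  rw [toAdd_mul, toAdd_zpow, toAdd_zpow, toAdd_zpow]
  ext
  · simp only [det, Prod.smul_fst, Prod.fst_add, smul_eq_mul]
    ring
  · simp only [det, Prod.smul_snd, Prod.snd_add, smul_eq_mul]
    ring

/-- a vector which is not parallel to finitely many given ones -/
theorem exists_e {κ : Type} (K : Finset κ) (z : κ → Z2) (hz : ∀ k ∈ K, z k ≠ 1) :
    ∃ e : Z2, ∀ k ∈ K, det (z k) e ≠ 0 := by
  classical
  set t : ℤ := 1 + ∑ k ∈ K, |(Multiplicative.toAdd (z k)).2| with ht
  refine ⟨Multiplicative.ofAdd (1, t), ?_⟩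
  intro k hk h
  have h1 : (Multiplicative.toAdd (z k)).1 * t = (Multiplicative.toAdd (z k)).2 := by
    have : (Multiplicative.toAdd (z k)).1 * t - (Multiplicative.toAdd (z k)).2 * 1 = 0 := h
    linarith
  have h2 : |(Multiplicative.toAdd (z k)).2| < t := by
    have := Finset.single_le_sum (f := fun k => |(Multiplicative.toAdd (z k)).2|)
      (fun i _ => abs_nonneg _) hk
    have h2' : |(Multiplicative.toAdd (z k)).2| ≤ ∑ k ∈ K, |(Multiplicative.toAdd (z k)).2| := this
    linarith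
  have h0 : (0 : ℤ) < t := lt_of_le_of_lt (abs_nonneg _) h2
  by_cases h3 : (Multiplicative.toAdd (z k)).1 = 0
  · have h4 : (Multiplicative.toAdd (z k)).2 = 0 := by rw [← h1, h3, zero_mul]
    exact hz k hk (Multiplicative.toAdd.injective (Prod.ext h3 h4))
  · have h5 : 1 ≤ |(Multiplicative.toAdd (z k)).1| := Int.one_le_abs h3
    have h6 : |(Multiplicative.toAdd (z k)).2| = |(Multiplicative.toAdd (z k)).1| * t := by
      rw [← h1, abs_mul, abs_of_pos h0]
    have h7 : t ≤ |(Multiplicative.toAdd (z k)).1| * t := by nlinarith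
    linarith

/-- the exponent `J` and the shifts `b` -/
theorem exists_J {κ : Type} (K : Finset κ) (z : κ → Z2) (e : Z2) (he : ∀ k ∈ K, det (z k) e ≠ 0)
    (M : ℕ) : ∃ J : ℕ, 0 < J ∧ ∃ a b : κ → κ → ℤ, ∀ k ∈ K, ∀ s ∈ K,
      z s ^ J = z k ^ a k s * e ^ b k s ∧ ((M.factorial : ℕ) : ℤ) ∣ b k s := by
  classical
  set D : ℕ := ∏ k ∈ K, (det (z k) e).natAbs with hD
  refine ⟨D * M.factorial, ?_, ?_⟩
  · refine Nat.mul_pos (Finset.prod_pos fun k hk => ?_) (Nat.factorial_pos M)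
    exact Int.natAbs_pos.2 (he k hk)
  have hq : ∀ k : κ, ∃ q : ℤ, k ∈ K → (D : ℤ) = det (z k) e * q := by
    intro k
    by_cases hk : k ∈ K
    · have h1 : (det (z k) e).natAbs ∣ D := Finset.dvd_prod_of_mem _ hk
      have h2 : det (z k) e ∣ (D : ℤ) := Int.natAbs_dvd.1 (Int.natCast_dvd_natCast.2 h1)
      obtain ⟨q, hq⟩ := h2
      exact ⟨q, fun _ => hq⟩
    · exact ⟨0, fun h => absurd h hk⟩
  choose q hq using hq
  refine ⟨fun k s => det (z s) e * (q k * M.factorial),
    fun k s => det (z k) (z s) * (q k * M.factorial), ?_⟩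
  intro k hk s _
  refine ⟨?_, ⟨det (z k) (z s) * q k, by ring⟩⟩
  show z s ^ (D * M.factorial) = z k ^ (det (z s) e * (q k * M.factorial)) *
    e ^ (det (z k) (z s) * (q k * M.factorial))
  rw [zpow_mul (z k), zpow_mul e, ← mul_zpow, ← decomp, ← zpow_mul, ← zpow_natCast]
  congr 1
  push_cast
  rw [hq k hk]
  ring

theorem closed_iter {X : ℤ → Prop} {m : ℤ} (hX : ∀ l, X l → X (l + m)) (t : ℕ) (l : ℤ)
    (h : X l) : X (l + m * t) := by
  induction t with
  | zero => simpa using h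
  | succ t ih =>
    have := hX _ ih
    have e1 : l + m * (t : ℤ) + m = l + m * ((t + 1 : ℕ) : ℤ) := by push_cast; ring
    rwa [e1] at this

/-- a set closed under `+ m` changes little under a shift by a multiple of `m` -/
theorem closed_count (X : ℤ → Prop) [DecidablePred X] (m b : ℤ) (hX : ∀ l, X l → X (l + m))
    (hb : m ∣ b) (R : Finset ℕ) :
    (R.filter fun l : ℕ => X (l : ℤ) ∧ ¬ X ((l : ℤ) + b)).card ≤ b.natAbs := by
  obtain ⟨t, rfl⟩ := hb
  by_cases hb0 : m * t = 0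
  · rw [hb0]
    simp
  by_cases ht : 0 ≤ t
  · have : (R.filter fun l : ℕ => X (l : ℤ) ∧ ¬ X ((l : ℤ) + m * t)) = ∅ := by
      rw [Finset.filter_eq_empty_iff]
      rintro l _ ⟨h1, h2⟩
      refine h2 ?_
      have := closed_iter hX t.toNat l h1
      rwa [Int.toNat_of_nonneg ht] at this
    rw [this]
    simp
  push Not at ht
  set b := m * t with hb
  have hpos : 0 < b.natAbs := Int.natAbs_pos.2 hb0
  -- moving in the direction of `m`
  have hmove : ∀ (s : ℕ) (l : ℤ), X l → X (l - b * s) := by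
    intro s l hl
    have := closed_iter hX ((-t).toNat * s) l hl
    have e1 : l + m * (((-t).toNat * s : ℕ) : ℤ) = l - b * s := by
      push_cast
      rw [Int.toNat_of_nonneg (by linarith), hb]
      ring
    rwa [e1] at this
  have key : ∀ l l' : ℕ, (X l ∧ ¬ X (l + b)) → (X l' ∧ ¬ X (l' + b)) → l < l' →
      l % b.natAbs ≠ l' % b.natAbs := by
    intro l l' h h' hlt hmod
    obtain ⟨s, hs⟩ : b.natAbs ∣ l' - l := (Nat.modEq_iff_dvd' hlt.le).1 hmod
    have hs1 : 1 ≤ s := by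
      rcases Nat.eq_zero_or_pos s with h0 | h0
      · rw [h0, mul_zero] at hs
        omega
      · exact h0
    obtain ⟨s', rfl⟩ : ∃ s', s = s' + 1 := ⟨s - 1, by omega⟩
    have hs2 : (l' : ℤ) = l + b.natAbs * (s' + 1) := by
      have : l' = l + b.natAbs * (s' + 1) := by omega
      rw [this]
      push_cast
      ring
    rcases lt_or_gt_of_ne hb0 with hneg | hpos'
    · have e2 : ((b.natAbs : ℕ) : ℤ) = -b := Int.ofNat_natAbs_of_nonpos hneg.le
      refine h'.2 ?_
      have := hmove s' l h.1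
      have e3 : (l : ℤ) - b * s' = l' + b := by
        rw [hs2, e2]
        ring
      rwa [e3] at this
    · have e2 : ((b.natAbs : ℕ) : ℤ) = b := Int.natAbs_of_nonneg hpos'.le
      refine h.2 ?_
      have := hmove s' l' h'.1
      have e3 : (l' : ℤ) - b * s' = l + b := by
        rw [hs2, e2]
        ring
      rwa [e3] at this
  have := Finset.card_le_card_of_injOn (s := R.filter fun l : ℕ => X (l : ℤ) ∧ ¬ X ((l : ℤ) + b))
    (t := Finset.range b.natAbs) (fun l => l % b.natAbs)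
    (fun l _ => by
      rw [Finset.coe_range, Set.mem_Iio]
      exact Nat.mod_lt _ hpos)
    (by
      intro l hl l' hl' heq
      rw [Finset.mem_coe, Finset.mem_filter] at hl hl'
      rcases lt_trichotomy l l' with h | h | h
      · exact absurd heq (key l l' hl.2 hl'.2 h)
      · exact h
      · exact absurd heq.symm (key l' l hl'.2 hl.2 h))
  rwa [Finset.card_range] at this

theorem ncard_eq {I : Type} [Fintype I] (P : I → Prop) [DecidablePred P] :
    {i | P i}.ncard = (Finset.univ.filter P).card := by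
  rw [Set.ncard_eq_toFinset_card']
  congr 1
  ext
  simp

theorem sum_card_comm {I : Type} [Fintype I] (R : Finset ℕ) (Q : ℕ → I → Prop)
    [∀ l, DecidablePred (Q l)] :
    ∑ l ∈ R, (Finset.univ.filter (Q l)).card = ∑ i, (R.filter fun l => Q l i).card := by
  simp only [Finset.card_filter]
  exact Finset.sum_comm

section
variable {α G T : Type} [Group G] {f : α → G} {K : Finset G} {P0 : List G} {A : T → Subgroup G}

/-- the elements `f_{l,i}` -/
def fl {I : Type} (E c : G) (u : I → G) (l : ℤ) (i : I) : G :=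
  E ^ l * c * u i * c⁻¹ * (E ^ l)⁻¹

open Classical in
/-- number of good indices at a site -/
noncomputable def gc {I : Type} [Fintype I] (K : Finset G) (E c : G) (u : I → G) (J : ℕ)
    (B : Subgroup G) (l : ℤ) : ℕ :=
  (Finset.univ.filter fun i => fl E c u l i ∈ B ∧
    ∀ s ∈ K, s ^ J * fl E c u l i * (s ^ J)⁻¹ ∈ B).card

/-- a set of sites which is controlled by one group `C` -/
def Nice (f : α → G) (K : Finset G) (P0 : List G) (A : T → Subgroup G) (W : Noise α) (E c : G)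
    (M : ℕ) (B : Subgroup G) (R : Finset ℕ) : Prop :=
  R = ∅ ∨ ∃ C : Subgroup G, C ≤ B ∧ ∃ m : ℤ, m ∣ ((M.factorial : ℕ) : ℤ) ∧ cj (E ^ m) C ≤ C ∧
    ∀ l ∈ R, Good f K P0 A (cj (E ^ (l : ℤ) * c)⁻¹ C) W

theorem bound_R {I : Type} [Fintype I] (W : Noise α) (E c : G) (u : I → G) (p : ℚ) (M J : ℕ)
    (hW : ∀ B : Subgroup G, Good f K P0 A B W →
      p * (Fintype.card I : ℚ) ≤ ({i : I | u i ∈ B}.ncard : ℚ))
    (B : Subgroup G) (k : G) (hkB : k ∈ B) (a b : G → ℤ)
    (hs : ∀ s ∈ K, s ^ J = k ^ a s * E ^ b s ∧ ((M.factorial : ℕ) : ℤ) ∣ b s) (R : Finset ℕ)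
    (hR : Nice f K P0 A W E c M B R) :
    p * (Fintype.card I : ℚ) * (R.card : ℚ) ≤
      ((∑ l ∈ R, gc K E c u J B l : ℕ) : ℚ) + (Fintype.card I : ℚ) *
        ((∑ s ∈ K, (b s).natAbs : ℕ) : ℚ) := by
  classical
  rcases hR with rfl | ⟨C, hCB, m, hm, hcl, hgood⟩
  · simp only [Finset.card_empty, Finset.sum_empty, Nat.cast_zero, mul_zero, zero_add]
    positivity
  have hclX : ∀ i : I, ∀ l : ℤ, fl E c u l i ∈ C → fl E c u (l + m) i ∈ C := by
    intro i l hl
    have h1 := hcl ((mem_cj (g := E ^ m) (x := E ^ m * fl E c u l i * (E ^ m)⁻¹) (A := C)).2 (by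
      have : (E ^ m)⁻¹ * (E ^ m * fl E c u l i * (E ^ m)⁻¹) * E ^ m = fl E c u l i := by group
      rw [this]
      exact hl))
    have h2 : E ^ m * fl E c u l i * (E ^ m)⁻¹ = fl E c u (l + m) i := by
      unfold fl
      rw [add_comm l m, zpow_add]
      group
    rwa [h2] at h1
  have h1 : ∀ l ∈ R, p * (Fintype.card I : ℚ) ≤
      ((Finset.univ.filter fun i => fl E c u l i ∈ C).card : ℚ) := by
    intro l hl
    refine (hW _ (hgood l hl)).trans (le_of_eq ?_)
    rw [← ncard_eq]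
    congr 3
    ext i
    rw [mem_cj, inv_inv]
    have : E ^ (l : ℤ) * c * u i * (E ^ (l : ℤ) * c)⁻¹ = fl E c u l i := by
      unfold fl
      group
    rw [this]
  have h2 : ∀ l ∈ R, (Finset.univ.filter fun i => fl E c u l i ∈ C).card ≤
      gc K E c u J B l + ∑ s ∈ K, (Finset.univ.filter fun i : I =>
        fl E c u l i ∈ C ∧ ¬ fl E c u (l + b s) i ∈ C).card := by
    intro l _
    have hsub : (Finset.univ.filter fun i => fl E c u l i ∈ C) ⊆
        (Finset.univ.filter fun i => fl E c u l i ∈ B ∧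
          ∀ s ∈ K, s ^ J * fl E c u l i * (s ^ J)⁻¹ ∈ B) ∪
        K.biUnion fun s => Finset.univ.filter fun i : I =>
          fl E c u l i ∈ C ∧ ¬ fl E c u (l + b s) i ∈ C := by
      intro i hi
      rw [Finset.mem_filter] at hi
      rw [Finset.mem_union, Finset.mem_filter, Finset.mem_biUnion]
      by_cases hall : ∀ s ∈ K, fl E c u (l + b s) i ∈ C
      · refine Or.inl ⟨Finset.mem_univ _, hCB hi.2, fun s hsK => ?_⟩
        rw [(hs s hsK).1]
        have e1 : k ^ a s * E ^ b s * fl E c u l i * (k ^ a s * E ^ b s)⁻¹ =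
            k ^ a s * fl E c u (l + b s) i * (k ^ a s)⁻¹ := by
          unfold fl
          rw [add_comm (l : ℤ) (b s), zpow_add]
          group
        rw [e1]
        exact mul_mem (mul_mem (zpow_mem hkB _) (hCB (hall s hsK))) (inv_mem (zpow_mem hkB _))
      · push Not at hall
        obtain ⟨s, hsK, hns⟩ := hall
        exact Or.inr ⟨s, hsK, Finset.mem_filter.2 ⟨Finset.mem_univ _, hi.2, hns⟩⟩
    refine (Finset.card_le_card hsub).trans ((Finset.card_union_le _ _).trans ?_)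
    exact Nat.add_le_add_left Finset.card_biUnion_le _
  have h3 : ∑ l ∈ R, (Finset.univ.filter fun i => fl E c u l i ∈ C).card ≤
      ∑ l ∈ R, gc K E c u J B l + Fintype.card I * ∑ s ∈ K, (b s).natAbs := by
    refine (Finset.sum_le_sum h2).trans ?_
    rw [Finset.sum_add_distrib]
    refine Nat.add_le_add_left ?_ _
    rw [Finset.sum_comm, Finset.mul_sum]
    refine Finset.sum_le_sum fun s hsK => ?_
    rw [sum_card_comm R fun l i => fl E c u l i ∈ C ∧ ¬ fl E c u (l + b s) i ∈ C]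
    calc ∑ i, (R.filter fun l : ℕ => fl E c u l i ∈ C ∧ ¬ fl E c u (l + b s) i ∈ C).card
        ≤ ∑ _i : I, (b s).natAbs := Finset.sum_le_sum fun i _ =>
          closed_count (fun l => fl E c u l i ∈ C) m (b s) (hclX i)
            (hm.trans (hs s hsK).2) R
      _ = Fintype.card I * (b s).natAbs := by simp
  have h4 : (R.card : ℚ) * (p * (Fintype.card I : ℚ)) ≤
      ((∑ l ∈ R, (Finset.univ.filter fun i => fl E c u l i ∈ C).card : ℕ) : ℚ) := by
    push_cast
    rw [← nsmul_eq_mul]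
    exact Finset.card_nsmul_le_sum _ _ _ h1
  have h5 : ((∑ l ∈ R, (Finset.univ.filter fun i => fl E c u l i ∈ C).card : ℕ) : ℚ) ≤
      ((∑ l ∈ R, gc K E c u J B l : ℕ) : ℚ) + (Fintype.card I : ℚ) *
        ((∑ s ∈ K, (b s).natAbs : ℕ) : ℚ) := by exact_mod_cast h3
  linarith

end

end NP2M

open NoiseM NP2M in
/-- NP2 -/
theorem specNP2 (hNP1 : SpecNP1) : SpecNP2 := by
  classical
  intro α G T _ f K P0 A ι c Pr hS I _ _ u W p hWok hW ε hε
  have hfinT : Finite T := hS.finT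
  choose! z hz using hS.hK
  obtain ⟨e, he⟩ := exists_e K z fun k hk => (hz k hk).1
  obtain ⟨pe, hpe, hpev⟩ := exists_path hS.surj (ι e)
  obtain ⟨pc, hpc, hpcv⟩ := exists_path hS.surj c
  obtain ⟨Θ, M, hΘok, hM, hΘ⟩ := hNP1 f K P0 A pe pc W hpe hpc hWok
  obtain ⟨J, hJ, a, b, hab⟩ := exists_J K z e he M
  set E := ι e with hE
  set bs : ℕ := ∑ k ∈ K, ∑ s ∈ K, (b k s).natAbs with hbs
  obtain ⟨n, hn⟩ := exists_nat_ge ((2 * M * p + 2 * bs) / (ε * M))
  have hMq : (0 : ℚ) < M := by exact_mod_cast hM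
  have hn1 : 2 * (M : ℚ) * p + 2 * bs ≤ ε * (((n + 1) * M : ℕ) : ℚ) := by
    rw [div_le_iff₀ (by positivity)] at hn
    push_cast
    nlinarith [mul_pos hε hMq]
  refine ⟨e, (n + 1) * M, J,
    appL .blob ((List.range (n + 1)).map fun j => .tr (ppow pe (j * M)) Θ),
    Nat.mul_pos (Nat.succ_pos n) hM, hJ, ?_, ?_⟩
  · refine ok_appL trivial ?_
    intro V hV
    obtain ⟨j, _, rfl⟩ := List.mem_map.1 hV
    exact ⟨isPath_ppow hpe _, hΘok⟩
  intro B hB
  rw [good_appL] at hB
  obtain ⟨⟨k, hk, hkB⟩, hB⟩ := hB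
  set N := (n + 1) * M with hN
  -- the clusters
  have hsites : ∀ j ≤ n,
      (∃ C : Subgroup G, C ≤ B ∧ ∃ m : ℤ, m ∣ ((M.factorial : ℕ) : ℤ) ∧ cj (E ^ m) C ≤ C ∧
        ∀ l : ℤ, ((j : ℤ) + 1) * M ≤ l → Good f K P0 A (cj (E ^ l * c)⁻¹ C) W) ∨
      (∃ C : Subgroup G, C ≤ B ∧ ∃ m : ℤ, m ∣ ((M.factorial : ℕ) : ℤ) ∧ cj (E ^ m) C ≤ C ∧
        ∀ l : ℤ, l ≤ (j : ℤ) * M → Good f K P0 A (cj (E ^ l * c)⁻¹ C) W) := by
    intro j hj
    have h1 := hB _ (List.mem_map.2 ⟨j, List.mem_range.2 (by omega), rfl⟩)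
    rw [Good, val_ppow, hpev] at h1
    obtain ⟨C, hC, k0, m, hk0, hk0M, hm0, hmM, hcl, hg⟩ := hΘ _ h1
    rw [hpev] at hcl hg
    rw [hpcv] at hg
    have hCB : cj (E ^ (j * M)) C ≤ B := by
      have := cj_mono (g := E ^ (j * M)) hC
      rwa [← cj_mul, mul_inv_cancel, cj_one] at this
    have hcl' : cj (E ^ m) (cj (E ^ (j * M)) C) ≤ cj (E ^ (j * M)) C := by
      rw [← cj_mul, ← zpow_natCast E, ← zpow_add, add_comm, zpow_add, cj_mul]
      exact cj_mono hcl
    have hg' : ∀ l : ℤ, 0 ≤ (l - (j * M : ℕ) - k0) * m →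
        Good f K P0 A (cj (E ^ l * c)⁻¹ (cj (E ^ (j * M)) C)) W := by
      intro l hl
      have := hg _ hl
      rw [← cj_mul]
      have e1 : (E ^ l * c)⁻¹ * E ^ (j * M) = (E ^ (l - (j * M : ℕ)) * c)⁻¹ := by
        rw [zpow_sub, zpow_natCast]
        group
      rwa [e1]
    have hdvd : m ∣ ((M.factorial : ℕ) : ℤ) := by
      rw [← Int.natAbs_dvd, Int.natCast_dvd_natCast]
      refine Nat.dvd_factorial (Int.natAbs_pos.2 hm0) ?_
      have : ((m.natAbs : ℕ) : ℤ) < M := by rwa [Int.natCast_natAbs]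
      omega
    rcases lt_or_gt_of_ne hm0 with hneg | hpos
    · refine Or.inr ⟨_, hCB, m, hdvd, hcl', fun l hl => hg' l ?_⟩
      refine mul_nonneg_of_nonpos_of_nonpos ?_ hneg.le
      push_cast
      linarith
    · refine Or.inl ⟨_, hCB, m, hdvd, hcl', fun l hl => hg' l ?_⟩
      refine mul_nonneg ?_ hpos.le
      push_cast
      linarith
  -- the two ranges
  obtain ⟨R1, R2, hR1, hR2, hd, hsub, hcard⟩ : ∃ R1 R2 : Finset ℕ,
      Nice f K P0 A W E c M B R1 ∧ Nice f K P0 A W E c M B R2 ∧ Disjoint R1 R2 ∧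
      R1 ∪ R2 ⊆ Finset.range N ∧ N ≤ R1.card + R2.card + 2 * M := by
    by_cases hex : ∃ j, j ≤ n ∧ ∃ C : Subgroup G, C ≤ B ∧ ∃ m : ℤ, m ∣ ((M.factorial : ℕ) : ℤ) ∧
        cj (E ^ m) C ≤ C ∧ ∀ l : ℤ, ((j : ℤ) + 1) * M ≤ l →
          Good f K P0 A (cj (E ^ l * c)⁻¹ C) W
    · obtain ⟨hj0, C, hC, m, hm, hcl, hg⟩ := Nat.find_spec hex
      set j0 := Nat.find hex with hj0def
      have hle : (j0 + 1) * M ≤ N := Nat.mul_le_mul_right M (by omega)
      have hR1 : Nice f K P0 A W E c M B (Finset.Ico ((j0 + 1) * M) N) := by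
        refine Or.inr ⟨C, hC, m, hm, hcl, fun l hl => hg l ?_⟩
        rw [Finset.mem_Ico] at hl
        exact_mod_cast hl.1
      rcases Nat.eq_zero_or_pos j0 with h0 | h0
      · refine ⟨Finset.Ico ((j0 + 1) * M) N, ∅, hR1, Or.inl rfl, Finset.disjoint_empty_right _,
          ?_, ?_⟩
        · intro l hl
          rw [Finset.union_empty, Finset.mem_Ico] at hl
          exact Finset.mem_range.2 hl.2
        · rw [Nat.card_Ico, h0]
          simp only [zero_add, one_mul, Finset.card_empty, add_zero]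
          omega
      · obtain ⟨j1, hj1⟩ : ∃ j1, j0 = j1 + 1 := ⟨j0 - 1, by omega⟩
        have hnot := Nat.find_min hex (m := j1) (by omega)
        have hneg : ∃ C : Subgroup G, C ≤ B ∧ ∃ m : ℤ, m ∣ ((M.factorial : ℕ) : ℤ) ∧
            cj (E ^ m) C ≤ C ∧ ∀ l : ℤ, l ≤ (j1 : ℤ) * M →
              Good f K P0 A (cj (E ^ l * c)⁻¹ C) W := by
          rcases hsites j1 (by omega) with h | h
          · exact absurd ⟨by omega, h⟩ hnot
          · exact h
        obtain ⟨C', hC', m', hm', hcl', hg'⟩ := hneg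
        have e1 : (j0 + 1) * M = j1 * M + 2 * M := by rw [hj1]; ring
        refine ⟨Finset.Ico ((j0 + 1) * M) N, Finset.range (j1 * M), hR1,
          Or.inr ⟨C', hC', m', hm', hcl', fun l hl => hg' l ?_⟩, ?_, ?_, ?_⟩
        · rw [Finset.mem_range] at hl
          exact_mod_cast hl.le
        · rw [Finset.disjoint_left]
          intro l hl hl'
          rw [Finset.mem_Ico] at hl
          rw [Finset.mem_range] at hl'
          omega
        · intro l hl
          rw [Finset.mem_union, Finset.mem_Ico, Finset.mem_range] at hl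
          rw [Finset.mem_range]
          rcases hl with h | h
          · exact h.2
          · omega
        · rw [Nat.card_Ico, Finset.card_range]
          omega
    · have hneg : ∃ C : Subgroup G, C ≤ B ∧ ∃ m : ℤ, m ∣ ((M.factorial : ℕ) : ℤ) ∧
          cj (E ^ m) C ≤ C ∧ ∀ l : ℤ, l ≤ (n : ℤ) * M →
            Good f K P0 A (cj (E ^ l * c)⁻¹ C) W := by
        rcases hsites n le_rfl with h | h
        · exact absurd ⟨n, le_rfl, h⟩ hex
        · exact h
      obtain ⟨C', hC', m', hm', hcl', hg'⟩ := hneg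
      have e1 : N = n * M + M := by rw [hN]; ring
      refine ⟨∅, Finset.range (n * M), Or.inl rfl,
        Or.inr ⟨C', hC', m', hm', hcl', fun l hl => hg' l ?_⟩, Finset.disjoint_empty_left _,
        ?_, ?_⟩
      · rw [Finset.mem_range] at hl
        exact_mod_cast hl.le
      · intro l hl
        rw [Finset.empty_union, Finset.mem_range] at hl
        rw [Finset.mem_range]
        omega
      · rw [Finset.card_range, Finset.card_empty]
        omega
  have hsK : ∀ s ∈ K, s ^ J = k ^ a k s * E ^ b k s ∧ ((M.factorial : ℕ) : ℤ) ∣ b k s := by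
    intro s hs
    refine ⟨?_, (hab k hk s hs).2⟩
    have := congrArg ι (hab k hk s hs).1
    rw [map_pow, map_mul, map_zpow, map_zpow, (hz s hs).2, (hz k hk).2] at this
    exact this
  have hb1 := bound_R W E c u p M J hW B k hkB (a k) (b k) hsK R1 hR1
  have hb2 := bound_R W E c u p M J hW B k hkB (a k) (b k) hsK R2 hR2
  have hbk : ((∑ s ∈ K, (b k s).natAbs : ℕ) : ℚ) ≤ (bs : ℚ) := by
    have : ∑ s ∈ K, (b k s).natAbs ≤ bs :=
      Finset.single_le_sum (f := fun k => ∑ s ∈ K, (b k s).natAbs) (fun _ _ => Nat.zero_le _) hk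
    exact_mod_cast this
  have hsum : ∑ l ∈ R1, gc K E c u J B l + ∑ l ∈ R2, gc K E c u J B l ≤
      ∑ l ∈ Finset.range N, gc K E c u J B l := by
    rw [← Finset.sum_union hd]
    exact Finset.sum_le_sum_of_subset hsub
  have hfin : ({x : Fin N × I |
      (ι (e ^ (x.1 : ℕ)) * c * u x.2 * c⁻¹ * (ι (e ^ (x.1 : ℕ)))⁻¹) ∈ B ∧
      ∀ κ ∈ K, κ ^ J * (ι (e ^ (x.1 : ℕ)) * c * u x.2 * c⁻¹ * (ι (e ^ (x.1 : ℕ)))⁻¹) *
        (κ ^ J)⁻¹ ∈ B}.ncard) = ∑ l ∈ Finset.range N, gc K E c u J B l := by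
    rw [ncard_eq, Finset.card_filter, Fintype.sum_prod_type, ← Fin.sum_univ_eq_sum_range
      (fun l : ℕ => gc K E c u J B l)]
    refine Finset.sum_congr rfl fun l _ => ?_
    rw [gc, Finset.card_filter]
    refine Finset.sum_congr rfl fun i _ => ?_
    simp only [fl, map_pow, zpow_natCast]
    rfl
  rw [hfin]
  have hI : (0 : ℚ) < (Fintype.card I : ℚ) := by exact_mod_cast Fintype.card_pos
  have hcq : (N : ℚ) ≤ R1.card + R2.card + 2 * M := by exact_mod_cast hcard
  have hsq : ((∑ l ∈ R1, gc K E c u J B l : ℕ) : ℚ) + ((∑ l ∈ R2, gc K E c u J B l : ℕ) : ℚ) ≤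
      ((∑ l ∈ Finset.range N, gc K E c u J B l : ℕ) : ℚ) := by exact_mod_cast hsum
  rcases lt_or_ge p 0 with hp | hp
  · have h0 : (0 : ℚ) ≤ ((∑ l ∈ Finset.range N, gc K E c u J B l : ℕ) : ℚ) := Nat.cast_nonneg _
    have h1 : (p - ε) * ((N : ℚ) * (Fintype.card I : ℚ)) ≤ 0 :=
      mul_nonpos_of_nonpos_of_nonneg (by linarith) (by positivity)
    linarith
  · have h1 : p * (Fintype.card I : ℚ) * ((N : ℚ) - 2 * M) ≤
        p * (Fintype.card I : ℚ) * (R1.card + R2.card) :=
      mul_le_mul_of_nonneg_left (by linarith) (by positivity)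
    have h2 : (Fintype.card I : ℚ) * ((∑ s ∈ K, (b k s).natAbs : ℕ) : ℚ) ≤
        (Fintype.card I : ℚ) * bs := mul_le_mul_of_nonneg_left hbk hI.le
    have h3 : (Fintype.card I : ℚ) * (2 * (M : ℚ) * p + 2 * bs) ≤
        (Fintype.card I : ℚ) * (ε * (N : ℚ)) := mul_le_mul_of_nonneg_left hn1 hI.le
    nlinarith

end MPab
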