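import Pool.Agent.Lib.MP_ab497f_al.Tree

section
/-!
# MP_ab497f_al : module LOCL, the localization lemma (left version)

The section `LOC` is shared with module LOCR.
-/
set_option autoImplicit false

namespace MPab

namespace LOC

variable {α Q : Type}

/-! ### copies in intervals -/

/-- the first copy behind `x` -/
theorem first_copy (f P φ len x : ℕ) (hf : f ≤ x) (hP : φ + len ≤ P) (hlen : 1 ≤ len) :
    ∃ a : ℕ, x ≤ f + a * P + φ ∧ f + a * P + φ < x + P := by
  classical
  have hex : ∃ a : ℕ, x ≤ f + a * P + φ := by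
    refine ⟨x, ?_⟩
    have : x * 1 ≤ x * P := Nat.mul_le_mul_left x (by omega)
    omega
  refine ⟨Nat.find hex, Nat.find_spec hex, ?_⟩
  rcases Nat.eq_zero_or_pos (Nat.find hex) with h | h
  · rw [h, Nat.zero_mul]
    omega
  · obtain ⟨b, hb⟩ : ∃ b, Nat.find hex = b + 1 := ⟨Nat.find hex - 1, by omega⟩
    have h1 := Nat.find_min hex (show b < Nat.find hex by omega)
    rw [hb]
    have h2 : (b + 1) * P = b * P + P := by ring
    omega

/-- an interval of length `≥ 2P` contains a copy -/
theorem copy_of_long (f P φ len x y : ℕ) (hf : f ≤ x) (hP : φ + len ≤ P) (hlen : 1 ≤ len)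
    (hxy : x + 2 * P ≤ y) : ∃ a : ℕ, x ≤ f + a * P + φ ∧ f + a * P + φ + len ≤ y := by
  obtain ⟨a, h1, h2⟩ := first_copy f P φ len x hf hP hlen
  exact ⟨a, h1, by omega⟩

/-! ### arms in a node -/

theorem larm_in (D : Nd Q α) (f₀ f₁ : ℕ) (h1 : D.st ≤ f₀) (h2 : f₀ < D.en) (h3 : D.en ≤ f₁) :
    ∃ (c : ℕ → Nd Q α) (t : ℕ), c 0 = D ∧ LArm c t f₀ f₁ ∧ (c t).st = f₀ ∧
      (c t).en = f₀ + 1 := by
  obtain ⟨c, t, hc, h0, hs, he⟩ := exists_chain_to_letter D f₀ h1 h2
  refine ⟨c, t, h0, ⟨hc, hs.le, by omega, by rw [h0]; exact h3⟩, hs, he⟩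

theorem rarm_in (D : Nd Q α) (f₀ f₁ : ℕ) (h1 : f₀ ≤ D.st) (h2 : D.st < f₁) (h3 : f₁ ≤ D.en) :
    ∃ (c : ℕ → Nd Q α) (t : ℕ), c 0 = D ∧ RArm c t f₀ f₁ ∧ (c t).st = f₁ - 1 ∧
      (c t).en = f₁ := by
  obtain ⟨c, t, hc, h0, hs, he⟩ := exists_chain_to_letter D (f₁ - 1) (by omega) (by omega)
  refine ⟨c, t, h0, ⟨hc, by rw [h0]; exact h1, by omega, by omega⟩, hs, by omega⟩

/-! ### a minimal node containing a copy -/

theorem exists_min (f P φ len : ℕ) (hP : φ + len ≤ P) (hlen : 12 ≤ len) (s : ℕ) :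
    ∀ E : Nd Q α, E.en - E.st = s → f ≤ E.st →
      (∃ a : ℕ, E.st ≤ f + a * P + φ ∧ f + a * P + φ + len ≤ E.en) →
      ∃ (D l r : Nd Q α) (a : ℕ), Below E D ∧ Child D l ∧ Child D r ∧ l.st = D.st ∧
        l.en = r.st ∧ r.en = D.en ∧ D.st ≤ f + a * P + φ ∧ f + a * P + φ < l.en ∧
        l.en < f + a * P + φ + len ∧ f + a * P + φ + len ≤ D.en ∧ D.en < D.st + 4 * P := by
  induction s using Nat.strong_induction_on with
  | _ s ih =>
    intro E hs hf ha
    obtain ⟨l, r, hl, hr, h1, h2, h3⟩ : ∃ l r : Nd Q α, Child E l ∧ Child E r ∧ l.st = E.st ∧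
        l.en = r.st ∧ r.en = E.en := by
      obtain ⟨a, ha1, ha2⟩ := ha
      obtain ⟨i, T⟩ := E
      cases T with
      | leaf q b =>
        simp only [Nd.en_mk, Tr.yd, List.length_singleton] at ha1 ha2
        omega
      | node q l r =>
        refine ⟨_, _, Child.left i q l r, Child.right i q l r, rfl, rfl, ?_⟩
        simp only [Nd.en_mk, Tr.yd, List.length_append]
        omega
    have hlr := l.st_lt_en
    have hrr := r.st_lt_en
    by_cases hcl : ∃ a : ℕ, l.st ≤ f + a * P + φ ∧ f + a * P + φ + len ≤ l.en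
    · obtain ⟨D, l', r', a, h4, h5⟩ := ih (l.en - l.st) (by omega) l rfl (by omega) hcl
      exact ⟨D, l', r', a, hl.below.trans h4, h5⟩
    · by_cases hcr : ∃ a : ℕ, r.st ≤ f + a * P + φ ∧ f + a * P + φ + len ≤ r.en
      · obtain ⟨D, l', r', a, h4, h5⟩ := ih (r.en - r.st) (by omega) r rfl (by omega) hcr
        exact ⟨D, l', r', a, hr.below.trans h4, h5⟩
      · have h6 : l.en < l.st + 2 * P := by
          by_contra hcon
          exact hcl (copy_of_long f P φ len l.st l.en (by omega) hP (by omega) (by omega))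
        have h7 : r.en < r.st + 2 * P := by
          by_contra hcon
          exact hcr (copy_of_long f P φ len r.st r.en (by omega) hP (by omega) (by omega))
        obtain ⟨a, ha1, ha2⟩ := ha
        refine ⟨E, l, r, a, Below.refl E, hl, hr, h1, h2, h3, ha1, ?_, ?_, ha2, by omega⟩
        · by_contra hcon
          exact hcr ⟨a, by omega, by omega⟩
        · by_contra hcon
          exact hcl ⟨a, by omega, by omega⟩

/-- arms inside a node which contains a copy -/
theorem arms_inside (f P φ len : ℕ) (hP : φ + len ≤ P) (hlen : 12 ≤ len) (E : Nd Q α)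
    (hf : f ≤ E.st) (ha : ∃ a : ℕ, E.st ≤ f + a * P + φ ∧ f + a * P + φ + len ≤ E.en) :
    ∃ a : ℕ, E.st ≤ f + a * P + φ ∧ f + a * P + φ + len ≤ E.en ∧
      ∃ (c : ℕ → Nd Q α) (t : ℕ), Below E (c 0) ∧
        ((RArm c t (f + a * P + φ) (f + a * P + φ + len) ∧ len ≤ 4 * ((c t).st - (c 0).st) ∧
            (c 0).en - (c t).en ≤ 4 * P) ∨
         (LArm c t (f + a * P + φ) (f + a * P + φ + len) ∧ len ≤ 4 * ((c 0).en - (c t).en) ∧
            (c t).st - (c 0).st ≤ 4 * P)) := by
  obtain ⟨D, l, r, a, h1, hl, hr, h2, h3, h4, h5, h6, h7, h8, h9⟩ :=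
    exists_min f P φ len hP hlen _ E rfl hf ha
  have hs := h1.st_le
  have he := h1.en_le
  refine ⟨a, by omega, by omega, ?_⟩
  rcases Nat.lt_or_ge (2 * (l.en - (f + a * P + φ))) len with hc | hc
  · obtain ⟨c, t, h0, hR, hcs, hce⟩ := rarm_in r (f + a * P + φ) (f + a * P + φ + len)
      (by omega) (by omega) (by omega)
    refine ⟨c, t, by rw [h0]; exact h1.trans hr.below, Or.inl ⟨hR, ?_, ?_⟩⟩
    · rw [hcs, h0]; omega
    · rw [hce, h0]; omega
  · obtain ⟨c, t, h0, hL, hcs, hce⟩ := larm_in l (f + a * P + φ) (f + a * P + φ + len)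
      (by omega) (by omega) (by omega)
    refine ⟨c, t, by rw [h0]; exact h1.trans hl.below, Or.inr ⟨hL, ?_, ?_⟩⟩
    · rw [hce, h0]; omega
    · rw [hcs, h0]; omega

/-! ### the choice of a copy with small transversal movement -/

theorem mono_of_step (x : ℕ → ℤ) (n : ℕ) (hx : ∀ i < n, x i ≤ x (i + 1)) {i j : ℕ}
    (hij : i ≤ j) (hj : j ≤ n) : x i ≤ x j := by
  induction j, hij using Nat.le_induction with
  | base => exact le_rfl
  | succ j hij ih => exact (ih (by omega)).trans (hx j (by omega))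

theorem exists_piece (x : ℕ → ℤ) (n : ℕ) (v : ℤ) (h0 : x 0 ≤ v) (hn : v < x n) :
    ∃ i < n, x i ≤ v ∧ v < x (i + 1) := by
  classical
  have hex : ∃ i, v < x i := ⟨n, hn⟩
  have h1 := Nat.find_spec hex
  have h2 : Nat.find hex ≤ n := Nat.find_min' hex hn
  rcases Nat.eq_zero_or_pos (Nat.find hex) with h | h
  · rw [h] at h1
    omega
  · have h3 := Nat.find_min hex (show Nat.find hex - 1 < Nat.find hex by omega)
    refine ⟨Nat.find hex - 1, by omega, by omega, ?_⟩
    rw [show Nat.find hex - 1 + 1 = Nat.find hex by omega]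
    exact h1

theorem exists_good_copy (x y u : ℕ → ℤ) (n N : ℕ) (B len : ℤ)
    (hx : ∀ i < n, x i ≤ x (i + 1)) (hy : ∀ i < n, y i ≤ y (i + 1)) (hN : 1 ≤ N)
    (hlen : 1 ≤ len) (hu0 : x 0 ≤ u 0) (hu : ∀ k, k + 1 < N → u k + len ≤ u (k + 1))
    (hun : u (N - 1) + len ≤ x n)
    (hno : ∀ i < n, ∀ k < N, ¬ (x i ≤ u k ∧ u k + len ≤ x (i + 1)))
    (hyn : y n ≤ y 0 + N * B) :
    ∃ k < N, ∃ i j, i < j ∧ j < n ∧ x i ≤ u k ∧ u k < x (i + 1) ∧ x j < u k + len ∧
      u k + len ≤ x (j + 1) ∧ y j ≤ y (i + 1) + B := by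
  have humono : ∀ k k', k ≤ k' → k' < N → u k ≤ u k' := by
    intro k k' h
    induction k', h using Nat.le_induction with
    | base => intro _; exact le_rfl
    | succ k' h ih =>
      intro h'
      have := hu k' h'
      have := ih (by omega)
      omega
  have hpieces : ∀ k < N, ∃ i j, i < j ∧ j < n ∧ x i ≤ u k ∧ u k < x (i + 1) ∧
      x j < u k + len ∧ u k + len ≤ x (j + 1) := by
    intro k hk
    have h1 : x 0 ≤ u k := hu0.trans (humono 0 k (by omega) hk)
    have h2 : u k + len ≤ x n := by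
      have := humono k (N - 1) (by omega) (by omega)
      omega
    obtain ⟨i, hi, h3, h4⟩ := exists_piece x n (u k) h1 (by omega)
    obtain ⟨j, hj, h5, h6⟩ := exists_piece x n (u k + len - 1) (by omega) (by omega)
    refine ⟨i, j, ?_, hj, h3, h4, by omega, by omega⟩
    by_contra hcon
    rcases Nat.lt_or_ge j i with h7 | h7
    · have := mono_of_step x n hx (show j + 1 ≤ i by omega) (by omega)
      omega
    · have h8 : i = j := by omega
      subst h8
      exact hno i hi k hk ⟨h3, by omega⟩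
  by_contra hcon
  push Not at hcon
  have claim : ∀ k < N, ∀ j ≤ n, u k + len ≤ x j → y 0 + (k + 1) * (B + 1) ≤ y j := by
    intro k
    induction k with
    | zero =>
      intro hk j hj hxj
      obtain ⟨i₁, j₁, h1, h2, h3, h4, h5, h6⟩ := hpieces 0 hk
      have h7 := hcon 0 hk i₁ j₁ h1 h2 h3 h4 h5 h6
      have h8 := mono_of_step y n hy (show 0 ≤ i₁ + 1 by omega) (by omega)
      have h9 : j₁ ≤ j := by
        by_contra h9
        have := mono_of_step x n hx (show j ≤ j₁ by omega) (by omega)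
        omega
      have h10 := mono_of_step y n hy h9 hj
      push_cast
      linarith
    | succ k ih =>
      intro hk j hj hxj
      obtain ⟨i₁, j₁, h1, h2, h3, h4, h5, h6⟩ := hpieces (k + 1) hk
      have h7 := hcon (k + 1) hk i₁ j₁ h1 h2 h3 h4 h5 h6
      have h8 := ih (by omega) (i₁ + 1) (by omega) (by have := hu k hk; omega)
      have h9 : j₁ ≤ j := by
        by_contra h9
        have := mono_of_step x n hx (show j ≤ j₁ by omega) (by omega)
        omega
      have h10 := mono_of_step y n hy h9 hj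
      push_cast
      linarith
  have h1 := claim (N - 1) (by omega) n le_rfl hun
  have h2 : ((N - 1 : ℕ) : ℤ) + 1 = N := by omega
  rw [h2] at h1
  have h3 : (1 : ℤ) ≤ N := by exact_mod_cast hN
  linarith

end LOC

open LOC in
theorem specLOCL : SpecLOCL := by
  intro α Q O I f P φ len θ hOI hf hPs hθ hP hlen
  by_cases hA : ∃ E : Nd Q α, Below O E ∧ E.en ≤ I.st ∧
      ∃ a : ℕ, E.st ≤ f + a * P + φ ∧ f + a * P + φ + len ≤ E.en
  · obtain ⟨E, hE, hEI, ha⟩ := hA
    obtain ⟨a, h1, h2, c, t, h3, h4⟩ :=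
      arms_inside f P φ len hP hlen E (hf.trans hE.st_le) ha
    have hs := hE.st_le
    have he := h3.en_le
    have hP4 : 4 * P ≤ (4 + 3 * θ) * P := Nat.mul_le_mul_right P (by omega)
    refine ⟨a, by omega, by omega, c, t, hE.trans h3, ?_⟩
    rcases h4 with ⟨h5, h6, h7⟩ | ⟨h5, h6, h7⟩
    · exact Or.inl ⟨h5, h6, by omega, Or.inr (by omega)⟩
    · exact Or.inr ⟨h5, h6, by omega, by omega⟩
  · push Not at hA
    have hsmall : ∀ E : Nd Q α, Below O E → E.en ≤ I.st → E.en < E.st + 2 * P := by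
      intro E hE hEI
      by_contra hcon
      obtain ⟨a, h1, h2⟩ := copy_of_long f P φ len E.st E.en (hf.trans hE.st_le) hP (by omega)
        (by omega)
      have := hA E hE hEI a h1
      omega
    obtain ⟨c, n, hc, hc0, hcn⟩ := hOI.exists_chain
    obtain ⟨a₀, ha1, ha2⟩ := first_copy f P φ len O.st hf hP (by omega)
    -- the number of copies
    obtain ⟨N, hN1, hN2, hN3⟩ : ∃ N : ℕ, 2 ≤ N ∧ (N + 1) * P ≤ I.st - O.st ∧
        I.st - O.st < (N + 2) * P := by
      have hPpos : 0 < P := by omega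
      have h3 : 3 ≤ (I.st - O.st) / P := (Nat.le_div_iff_mul_le hPpos).2 hPs
      refine ⟨(I.st - O.st) / P - 1, by omega, ?_, ?_⟩
      · rw [show (I.st - O.st) / P - 1 + 1 = (I.st - O.st) / P by omega]
        exact Nat.div_mul_le_self _ _
      · rw [show (I.st - O.st) / P - 1 + 2 = (I.st - O.st) / P + 1 by omega]
        have := Nat.lt_mul_div_succ (I.st - O.st) hPpos
        rw [Nat.mul_comm] at this
        exact this
    have hst : ∀ i ≤ n, O.st ≤ (c i).st ∧ (c i).st ≤ I.st ∧ I.en ≤ (c i).en ∧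
        (c i).en ≤ O.en := by
      intro i hi
      have h1 := hc.below (Nat.zero_le i) hi
      have h2 := hc.below hi le_rfl
      rw [hc0] at h1
      rw [hcn] at h2
      exact ⟨h1.st_le, h2.st_le, h2.en_le, h1.en_le⟩
    -- the pieces
    have hpiece : ∀ i < n, (c i).st < (c (i + 1)).st → ∃ D : Nd Q α, Below O D ∧
        D.st = (c i).st ∧ D.en = (c (i + 1)).st := by
      intro i hi hlt
      have h1 := hc.below (Nat.zero_le i) hi.le
      rw [hc0] at h1
      rcases (hc i hi).cases' with ⟨h2, _⟩ | ⟨_, _, D, hD, hD1, hD2⟩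
      · omega
      · exact ⟨D, h1.trans hD.below, hD1, hD2⟩
    obtain ⟨k, hk, i, j, hij, hj, h1, h2, h3, h4, h5⟩ := exists_good_copy
      (fun i => ((c i).st : ℤ)) (fun i => -((c i).en : ℤ))
      (fun k => ((f + (a₀ + k) * P + φ : ℕ) : ℤ)) n N (((4 + 3 * θ) * P : ℕ) : ℤ) (len : ℤ)
      (fun i hi => by exact_mod_cast (hc i hi).st_le)
      (fun i hi => by
        have := (hc i hi).en_le
        omega)
      (by omega) (by omega)
      (by
        simp only [Nat.add_zero]
        rw [hc0]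
        exact_mod_cast ha1)
      (by
        intro k hk
        have : (a₀ + (k + 1)) * P = (a₀ + k) * P + P := by ring
        omega)
      (by
        have e1 : (a₀ + (N - 1)) * P + P = a₀ * P + N * P := by
          obtain ⟨M, rfl⟩ : ∃ M, N = M + 1 := ⟨N - 1, by omega⟩
          rw [Nat.add_sub_cancel]
          ring
        have e2 : (N + 1) * P = N * P + P := by ring
        rw [hcn]
        omega)
      (by
        rintro i hi k hk ⟨h1, h2⟩
        obtain ⟨D, hD, hD1, hD2⟩ := hpiece i hi (by omega)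
        have h3 := (hst (i + 1) (by omega)).2.1
        have := hA D hD (by omega) (a₀ + k) (by omega)
        omega)
      (by
        rw [hc0, hcn]
        have h1 : O.en - I.en ≤ θ * ((N + 2) * P) := hθ.trans (Nat.mul_le_mul_left θ hN3.le)
        have h2 : θ * ((N + 2) * P) ≤ N * ((4 + 3 * θ) * P) := by
          have h3 : N + 2 ≤ 3 * N := by omega
          calc θ * ((N + 2) * P) ≤ θ * ((3 * N) * P) :=
                Nat.mul_le_mul_left _ (Nat.mul_le_mul_right _ h3)
            _ = N * (3 * θ * P) := by ring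
            _ ≤ N * ((4 + 3 * θ) * P) := Nat.mul_le_mul_left _ (Nat.mul_le_mul_right _ (by omega))
        have h3 : ((N * ((4 + 3 * θ) * P) : ℕ) : ℤ) = (N : ℤ) * (((4 + 3 * θ) * P : ℕ) : ℤ) := by
          push_cast; ring
        rw [← h3]
        omega)
    have hik := hst (i + 1) (by omega)
    have hjk := hst j (by omega)
    have hjk1 := hst (j + 1) (by omega)
    have hij1 := (hc.below (show i + 1 ≤ j by omega) (by omega)).st_le
    have hP4 : 4 * P ≤ (4 + 3 * θ) * P := Nat.mul_le_mul_right P (by omega)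
    have hii := (hst i (by omega))
    refine ⟨a₀ + k, by omega, by omega, ?_⟩
    by_cases hc1 : len ≤ 3 * ((c (i + 1)).st - (f + (a₀ + k) * P + φ))
    · -- the piece with the first letter
      obtain ⟨D, hD, hD1, hD2⟩ := hpiece i (by omega) (by omega)
      have hDs := hsmall D hD (by omega)
      obtain ⟨c', t, h0, hL, hcs, hce⟩ := larm_in D (f + (a₀ + k) * P + φ)
        (f + (a₀ + k) * P + φ + len) (by omega) (by omega) (by omega)
      refine ⟨c', t, by rw [h0]; exact hD, Or.inr ⟨hL, ?_, ?_, ?_⟩⟩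
      · rw [hce, h0]; omega
      · rw [hcs, h0]; omega
      · rw [h0]; omega
    · by_cases hc2 : len ≤ 3 * ((f + (a₀ + k) * P + φ + len) - (c j).st)
      · obtain ⟨D, hD, hD1, hD2⟩ := hpiece j hj (by omega)
        have hDs := hsmall D hD (by omega)
        obtain ⟨c', t, h0, hR, hcs, hce⟩ := rarm_in D (f + (a₀ + k) * P + φ)
          (f + (a₀ + k) * P + φ + len) (by omega) (by omega) (by omega)
        refine ⟨c', t, by rw [h0]; exact hD, Or.inl ⟨hR, ?_, ?_, Or.inr ?_⟩⟩
        · rw [hcs, h0]; omega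
        · rw [hce, h0]; omega
        · rw [h0]; omega
      · have e1 : i + 1 + (j - (i + 1)) = j := by omega
        have hb : Below O (c (i + 1)) := by
          have := hc.below (Nat.zero_le (i + 1)) (by omega)
          rwa [hc0] at this
        have hbj : Below (c j) I := by
          have := hc.below hj.le le_rfl
          rwa [hcn] at this
        refine ⟨fun l => c (i + 1 + l), j - (i + 1), hb, Or.inl ⟨⟨?_, ?_, ?_, ?_⟩, ?_, ?_, ?_⟩⟩
        · intro l hl
          exact hc (i + 1 + l) (by omega)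
        · show f + (a₀ + k) * P + φ ≤ (c (i + 1 + 0)).st
          rw [Nat.add_zero]; omega
        · show (c (i + 1 + (j - (i + 1)))).st ≤ _
          rw [e1]; omega
        · show _ ≤ (c (i + 1 + (j - (i + 1)))).en
          rw [e1]
          have := I.st_lt_en
          omega
        · show len ≤ 4 * ((c (i + 1 + (j - (i + 1)))).st - (c (i + 1 + 0)).st)
          rw [e1, Nat.add_zero]
          omega
        · show (c (i + 1 + 0)).en - (c (i + 1 + (j - (i + 1)))).en ≤ _
          rw [e1, Nat.add_zero]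
          omega
        · left
          show Below (c (i + 1 + (j - (i + 1)))) I
          rw [e1]
          exact hbj

end MPab
end

section
/-!
# MP_ab497f_al : module LOCR, the localization lemma (right version)
-/
set_option autoImplicit false

namespace MPab

namespace LOC

/-- the last copy before `y` -/
theorem last_copy (f P φ len y : ℕ) (hf : f + P ≤ y) (hP : φ + len ≤ P) (hlen : 1 ≤ len) :
    ∃ a : ℕ, f + a * P + φ + len ≤ y ∧ y < f + a * P + φ + len + P := by
  have hPpos : 0 < P := by omega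
  refine ⟨(y - (f + φ + len)) / P, ?_, ?_⟩
  · have := Nat.div_mul_le_self (y - (f + φ + len)) P
    omega
  · have := Nat.lt_mul_div_succ (y - (f + φ + len)) hPpos
    rw [Nat.mul_add, Nat.mul_one, Nat.mul_comm P] at this
    omega

end LOC

open LOC in
theorem specLOCR : SpecLOCR := by
  intro α Q O I f P φ len θ hOI hf hPs hθ hP hlen
  have hIlt := I.st_lt_en
  by_cases hA : ∃ E : Nd Q α, Below O E ∧ I.en ≤ E.st ∧
      ∃ a : ℕ, E.st ≤ f + a * P + φ ∧ f + a * P + φ + len ≤ E.en
  · obtain ⟨E, hE, hEI, ha⟩ := hA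
    obtain ⟨a, h1, h2, c, t, h3, h4⟩ :=
      arms_inside f P φ len hP hlen E (hf.trans hEI) ha
    have hs := h3.st_le
    have he := hE.en_le
    have hP4 : 4 * P ≤ (4 + 3 * θ) * P := Nat.mul_le_mul_right P (by omega)
    refine ⟨a, by omega, by omega, c, t, hE.trans h3, ?_⟩
    rcases h4 with ⟨h5, h6, h7⟩ | ⟨h5, h6, h7⟩
    · exact Or.inr ⟨h5, h6, by omega, by omega⟩
    · exact Or.inl ⟨h5, h6, by omega, Or.inr (by omega)⟩
  · push Not at hA
    have hsmall : ∀ E : Nd Q α, Below O E → I.en ≤ E.st → E.en < E.st + 2 * P := by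
      intro E hE hEI
      by_contra hcon
      obtain ⟨a, h1, h2⟩ := copy_of_long f P φ len E.st E.en (hf.trans hEI) hP (by omega)
        (by omega)
      have := hA E hE hEI a h1
      omega
    obtain ⟨c, n, hc, hc0, hcn⟩ := hOI.exists_chain
    obtain ⟨a₁, ha1, ha2⟩ := last_copy f P φ len O.en (by omega) hP (by omega)
    -- the number of copies
    obtain ⟨N, hN1, hN2, hN3⟩ : ∃ N : ℕ, 2 ≤ N ∧ (N + 1) * P ≤ O.en - I.en ∧
        O.en - I.en < (N + 2) * P := by
      have hPpos : 0 < P := by omega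
      have h3 : 3 ≤ (O.en - I.en) / P := (Nat.le_div_iff_mul_le hPpos).2 hPs
      refine ⟨(O.en - I.en) / P - 1, by omega, ?_, ?_⟩
      · rw [show (O.en - I.en) / P - 1 + 1 = (O.en - I.en) / P by omega]
        exact Nat.div_mul_le_self _ _
      · rw [show (O.en - I.en) / P - 1 + 2 = (O.en - I.en) / P + 1 by omega]
        have := Nat.lt_mul_div_succ (O.en - I.en) hPpos
        rw [Nat.mul_comm] at this
        exact this
    have hNa : N ≤ a₁ := by
      by_contra hcon
      have h1 : a₁ * P ≤ (N - 1) * P := Nat.mul_le_mul_right P (by omega)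
      have h2 : (N + 1) * P = (N - 1) * P + 2 * P := by
        obtain ⟨M, rfl⟩ : ∃ M, N = M + 1 := ⟨N - 1, by omega⟩
        rw [Nat.add_sub_cancel]
        ring
      omega
    have hst : ∀ i ≤ n, O.st ≤ (c i).st ∧ (c i).st ≤ I.st ∧ I.en ≤ (c i).en ∧
        (c i).en ≤ O.en := by
      intro i hi
      have h1 := hc.below (Nat.zero_le i) hi
      have h2 := hc.below hi le_rfl
      rw [hc0] at h1
      rw [hcn] at h2
      exact ⟨h1.st_le, h2.st_le, h2.en_le, h1.en_le⟩
    -- the pieces
    have hpiece : ∀ i < n, (c (i + 1)).en < (c i).en → ∃ D : Nd Q α, Below O D ∧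
        D.st = (c (i + 1)).en ∧ D.en = (c i).en := by
      intro i hi hlt
      have h1 := hc.below (Nat.zero_le i) hi.le
      rw [hc0] at h1
      rcases (hc i hi).cases' with ⟨_, _, D, hD, hD1, hD2⟩ | ⟨h2, _⟩
      · exact ⟨D, h1.trans hD.below, hD1, hD2⟩
      · omega
    obtain ⟨k, hk, i, j, hij, hj, h1, h2, h3, h4, h5⟩ := exists_good_copy
      (fun i => -((c i).en : ℤ)) (fun i => ((c i).st : ℤ))
      (fun k => -((f + (a₁ - k) * P + φ + len : ℕ) : ℤ)) n N (((4 + 3 * θ) * P : ℕ) : ℤ)
      (len : ℤ)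
      (fun i hi => by
        have := (hc i hi).en_le
        omega)
      (fun i hi => by exact_mod_cast (hc i hi).st_le)
      (by omega) (by omega)
      (by
        rw [hc0, Nat.sub_zero]
        omega)
      (by
        intro k hk
        have : (a₁ - k) * P = (a₁ - (k + 1)) * P + P := by
          obtain ⟨b, hb⟩ : ∃ b, a₁ - k = b + 1 := ⟨a₁ - k - 1, by omega⟩
          rw [show a₁ - (k + 1) = b by omega, hb]
          ring
        omega)
      (by
        have e1 : (a₁ - (N - 1)) * P + N * P = a₁ * P + P := by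
          obtain ⟨b, hb⟩ : ∃ b, a₁ = b + N := ⟨a₁ - N, by omega⟩
          rw [show a₁ - (N - 1) = b + 1 by omega, hb]
          ring
        have e2 : (N + 1) * P = N * P + P := by ring
        rw [hcn]
        omega)
      (by
        rintro i hi k hk ⟨h1, h2⟩
        obtain ⟨D, hD, hD1, hD2⟩ := hpiece i hi (by omega)
        have h3 := (hst (i + 1) (by omega)).2.2.1
        have := hA D hD (by omega) (a₁ - k) (by omega)
        omega)
      (by
        rw [hc0, hcn]
        have h1 : I.st - O.st ≤ θ * ((N + 2) * P) := hθ.trans (Nat.mul_le_mul_left θ hN3.le)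
        have h2 : θ * ((N + 2) * P) ≤ N * ((4 + 3 * θ) * P) := by
          have h3 : N + 2 ≤ 3 * N := by omega
          calc θ * ((N + 2) * P) ≤ θ * ((3 * N) * P) :=
                Nat.mul_le_mul_left _ (Nat.mul_le_mul_right _ h3)
            _ = N * (3 * θ * P) := by ring
            _ ≤ N * ((4 + 3 * θ) * P) := Nat.mul_le_mul_left _ (Nat.mul_le_mul_right _ (by omega))
        have h3 : ((N * ((4 + 3 * θ) * P) : ℕ) : ℤ) = (N : ℤ) * (((4 + 3 * θ) * P : ℕ) : ℤ) := by
          push_cast; ring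
        rw [← h3]
        omega)
    have hik := hst (i + 1) (by omega)
    have hjk := hst j (by omega)
    have hjk1 := hst (j + 1) (by omega)
    have hij1 := (hc.below (show i + 1 ≤ j by omega) (by omega)).en_le
    have hP4 : 4 * P ≤ (4 + 3 * θ) * P := Nat.mul_le_mul_right P (by omega)
    have hii := (hst i (by omega))
    refine ⟨a₁ - k, by omega, by omega, ?_⟩
    by_cases hc1 : len ≤ 3 * ((f + (a₁ - k) * P + φ + len) - (c (i + 1)).en)
    · -- the piece with the last letter
      obtain ⟨D, hD, hD1, hD2⟩ := hpiece i (by omega) (by omega)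
      have hDs := hsmall D hD (by omega)
      obtain ⟨c', t, h0, hR, hcs, hce⟩ := rarm_in D (f + (a₁ - k) * P + φ)
        (f + (a₁ - k) * P + φ + len) (by omega) (by omega) (by omega)
      refine ⟨c', t, by rw [h0]; exact hD, Or.inr ⟨hR, ?_, ?_, ?_⟩⟩
      · rw [hcs, h0]; omega
      · rw [hce, h0]; omega
      · rw [h0]; omega
    · by_cases hc2 : len ≤ 3 * ((c j).en - (f + (a₁ - k) * P + φ))
      · obtain ⟨D, hD, hD1, hD2⟩ := hpiece j hj (by omega)
        have hDs := hsmall D hD (by omega)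
        obtain ⟨c', t, h0, hL, hcs, hce⟩ := larm_in D (f + (a₁ - k) * P + φ)
          (f + (a₁ - k) * P + φ + len) (by omega) (by omega) (by omega)
        refine ⟨c', t, by rw [h0]; exact hD, Or.inl ⟨hL, ?_, ?_, Or.inr ?_⟩⟩
        · rw [hce, h0]; omega
        · rw [hcs, h0]; omega
        · rw [h0]; omega
      · have e1 : i + 1 + (j - (i + 1)) = j := by omega
        have hb : Below O (c (i + 1)) := by
          have := hc.below (Nat.zero_le (i + 1)) (by omega)
          rwa [hc0] at this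
        have hbj : Below (c j) I := by
          have := hc.below hj.le le_rfl
          rwa [hcn] at this
        refine ⟨fun l => c (i + 1 + l), j - (i + 1), hb, Or.inl ⟨⟨?_, ?_, ?_, ?_⟩, ?_, ?_, ?_⟩⟩
        · intro l hl
          exact hc (i + 1 + l) (by omega)
        · show (c (i + 1 + (j - (i + 1)))).st ≤ _
          rw [e1]; omega
        · show _ ≤ (c (i + 1 + (j - (i + 1)))).en
          rw [e1]; omega
        · show (c (i + 1 + 0)).en ≤ _
          rw [Nat.add_zero]; omega
        · show len ≤ 4 * ((c (i + 1 + 0)).en - (c (i + 1 + (j - (i + 1)))).en)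
          rw [e1, Nat.add_zero]
          omega
        · show (c (i + 1 + (j - (i + 1)))).st - (c (i + 1 + 0)).st ≤ _
          rw [e1, Nat.add_zero]
          omega
        · left
          show Below (c (i + 1 + (j - (i + 1)))) I
          rw [e1]
          exact hbj

end MPab
end

section
/-!
# MP_ab497f_al : module MIRROR (the blob lemma for `L`-arms)
-/
set_option autoImplicit false

namespace MPab

namespace MirrorM

variable {α Q G : Type} [Group G]

/-- mirror image of the letter values -/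
def fm (f : α → G) : α → G := fun a => (f a)⁻¹

/-- mirror image of the languages -/
def Lm (L : Q → Set (List α)) : Q → Set (List α) := fun q => {w | w.reverse ∈ L q}

theorem mem_Lm {L : Q → Set (List α)} {q : Q} {w : List α} : w ∈ Lm L q ↔ w.reverse ∈ L q := Iff.rfl

theorem val_fm (f : α → G) (w : List α) : val (fm f) w = (val f w.reverse)⁻¹ := by
  induction w with
  | nil => simp
  | cons a w ih =>
    have h1 : val (fm f) (a :: w) = (f a)⁻¹ * val (fm f) w := by simp [val, fm]
    have h2 : val f [a] = f a := by simp [val]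
    rw [h1, ih, List.reverse_cons, val_append, h2]
    group

theorem val_reverse (f : α → G) (w : List α) : val f w.reverse = (val (fm f) w)⁻¹ := by
  rw [val_fm, inv_inv]

/-- mirror image of a tree -/
def tm : Tr Q α → Tr Q α
  | .leaf q a => .leaf q a
  | .node q l r => .node q (tm r) (tm l)

@[simp] theorem tm_tm (T : Tr Q α) : tm (tm T) = T := by
  induction T with
  | leaf q a => rfl
  | node q l r ihl ihr => simp [tm, ihl, ihr]

@[simp] theorem tm_lab (T : Tr Q α) : (tm T).lab = T.lab := by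
  cases T <;> rfl

@[simp] theorem tm_yd (T : Tr Q α) : (tm T).yd = T.yd.reverse := by
  induction T with
  | leaf q a => rfl
  | node q l r ihl ihr => simp [tm, Tr.yd, ihl, ihr]

theorem tm_valid {L : Q → Set (List α)} {T : Tr Q α} (h : T.Valid L) : (tm T).Valid (Lm L) := by
  induction T with
  | leaf q a => exact h
  | node q l r ihl ihr =>
    refine ⟨?_, ihr h.2.2, ihl h.2.1⟩
    intro u₁ h₁ u₂ h₂
    rw [tm_lab] at h₁ h₂
    rw [mem_Lm, List.reverse_append]
    exact h.1 _ h₂ _ h₁

/-- mirror image of a node in a word of length `n` -/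
def nm (n : ℕ) (E : Nd Q α) : Nd Q α := ⟨n - E.en, tm E.tr⟩

@[simp] theorem nm_st (n : ℕ) (E : Nd Q α) : (nm n E).st = n - E.en := rfl

theorem nm_en {n : ℕ} {E : Nd Q α} (h : E.en ≤ n) : (nm n E).en = n - E.st := by
  unfold nm
  rw [Nd.en_mk, tm_yd, List.length_reverse]
  unfold Nd.en at h ⊢
  omega

@[simp] theorem nm_lab (n : ℕ) (E : Nd Q α) : (nm n E).lab = E.lab := tm_lab E.tr

theorem nm_nm {n : ℕ} {E : Nd Q α} (h : E.en ≤ n) : nm n (nm n E) = E := by
  obtain ⟨i, T⟩ := E
  have h1 : (nm n (nm n ⟨i, T⟩)).tr = T := tm_tm T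
  have h2 : (nm n (nm n ⟨i, T⟩)).st = i := by
    rw [nm_st, nm_en h]
    have := (Nd.st_lt_en (⟨i, T⟩ : Nd Q α))
    simp only at this ⊢
    omega
  cases hE : nm n (nm n ⟨i, T⟩) with
  | mk a b =>
    rw [hE] at h1 h2
    simp only at h1 h2
    rw [h1, h2]

theorem child_nm {n : ℕ} {E F : Nd Q α} (h : Child E F) (hn : E.en ≤ n) :
    Child (nm n E) (nm n F) := by
  cases h with
  | left i q l r =>
    have e : nm n (⟨i, l⟩ : Nd Q α) =
        ⟨(n - (i + (l.yd ++ r.yd).length)) + (tm r).yd.length, tm l⟩ := by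
      unfold nm
      simp only [Nd.en_mk, Tr.yd, List.length_append, tm_yd, List.length_reverse] at hn ⊢
      congr 1
      omega
    rw [e]
    exact Child.right (n - (i + (l.yd ++ r.yd).length)) q (tm r) (tm l)
  | right i q l r =>
    have e : nm n (⟨i + l.yd.length, r⟩ : Nd Q α) = ⟨n - (i + (l.yd ++ r.yd).length), tm r⟩ := by
      unfold nm
      simp only [Nd.en_mk, Tr.yd, List.length_append] at hn ⊢
      congr 1
      omega
    rw [e]
    exact Child.left (n - (i + (l.yd ++ r.yd).length)) q (tm r) (tm l)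

theorem below_nm {n : ℕ} {E F : Nd Q α} (h : Below E F) (hn : E.en ≤ n) :
    Below (nm n E) (nm n F) := by
  induction h with
  | refl => exact Below.refl _
  | @tail F D h1 h2 ih =>
    exact ih.trans (child_nm h2 ((Below.en_le h1).trans hn)).below

theorem nm_root (T : Tr Q α) : nm T.yd.length ⟨0, T⟩ = ⟨0, tm T⟩ := by
  unfold nm
  simp

theorem chain_nm {n : ℕ} {c : ℕ → Nd Q α} {t : ℕ} (h : Chain c t) (hn : (c 0).en ≤ n) :
    Chain (fun i => nm n (c i)) t := fun i hi =>
  child_nm (h i hi) ((Below.en_le (h.below (Nat.zero_le i) hi.le)).trans hn)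

theorem pos_fm (f : α → G) (W : List α) (i : ℕ) (_hi : i ≤ W.length) :
    pos (fm f) W.reverse i = (val f W)⁻¹ * pos f W (W.length - i) := by
  unfold pos
  rw [val_fm, List.take_reverse, List.reverse_reverse]
  have h : val f W = val f (W.take (W.length - i)) * val f (W.drop (W.length - i)) := by
    rw [← val_append, List.take_append_drop]
  rw [h]
  group

theorem at_reverse {W F : List α} {i : ℕ} (h : At W i F) :
    At W.reverse (W.length - (i + F.length)) F.reverse := by
  obtain ⟨W₁, W₂, rfl, rfl⟩ := h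
  refine ⟨W₂.reverse, W₁.reverse, by simp, ?_⟩
  simp only [List.length_append, List.length_reverse]
  omega

theorem mem_ctx_fm {f : α → G} {L : Q → Set (List α)} {q : Q} {a b : G} :
    (a, b) ∈ Ctx (fm f) (Lm L) q ↔ (b⁻¹, a⁻¹) ∈ Ctx f L q := by
  constructor
  · rintro ⟨y, z, hy, hz, H⟩
    refine ⟨z.reverse, y.reverse, ?_, ?_, ?_⟩
    · rw [val_reverse, hz]
    · rw [val_reverse, hy]
    · intro w hw
      have := H w.reverse (by rw [mem_Lm, List.reverse_reverse]; exact hw)
      rw [mem_Lm] at this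
      simpa [List.append_assoc] using this
  · rintro ⟨y, z, hy, hz, H⟩
    refine ⟨z.reverse, y.reverse, ?_, ?_, ?_⟩
    · rw [val_fm, List.reverse_reverse, hz, inv_inv]
    · rw [val_fm, List.reverse_reverse, hy, inv_inv]
    · intro w hw
      rw [mem_Lm]
      have := H w.reverse hw
      simpa [List.append_assoc] using this

theorem al_fm (f : α → G) (L : Q → Set (List α)) (q : Q) : AL (fm f) (Lm L) q = AR f L q := by
  ext h
  change ((h, 1) ∈ Ctx (fm f) (Lm L) q ∧ (h⁻¹, 1) ∈ Ctx (fm f) (Lm L) q) ↔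
    ((1, h) ∈ Ctx f L q ∧ (1, h⁻¹) ∈ Ctx f L q)
  rw [mem_ctx_fm, mem_ctx_fm, inv_one, inv_inv]
  exact and_comm

theorem lg_fm {f : α → G} {L : Q → Set (List α)} {W : List α} {E : Nd Q α} (hE : E.en ≤ W.length)
    (g : G) : (val f W)⁻¹ * g * val f W ∈ LG (fm f) (Lm L) W.reverse (nm W.length E) ↔
      g ∈ RG f L W E := by
  unfold LG RG
  rw [mem_cj, mem_cj, nm_lab, al_fm, nm_st, pos_fm f W _ (Nat.sub_le _ _),
    Nat.sub_sub_self hE]
  have e : ((val f W)⁻¹ * pos f W E.en)⁻¹ * ((val f W)⁻¹ * g * val f W) *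
      ((val f W)⁻¹ * pos f W E.en) = (pos f W E.en)⁻¹ * g * pos f W E.en := by group
  rw [e]

theorem shift_fm {f : α → G} {L : Q → Set (List α)} {W : List α} {E : Nd Q α}
    (hE : E.en ≤ W.length) {d : G}
    (h : ShiftBy (fm f) (Lm L) W.reverse (nm W.length E) ((val f W)⁻¹ * d * val f W)) :
    ShiftBy f L W E d := by
  have hst := E.st_lt_en
  unfold ShiftBy at h ⊢
  rw [nm_lab, nm_en hE, nm_st, pos_fm f W _ (Nat.sub_le _ _), pos_fm f W _ (Nat.sub_le _ _),
    Nat.sub_sub_self hE, Nat.sub_sub_self (by omega : E.st ≤ W.length)] at h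
  obtain ⟨⟨w, hw, hv⟩, ⟨w', hw', hv'⟩⟩ := h
  refine ⟨⟨w'.reverse, hw', ?_⟩, ⟨w.reverse, hw, ?_⟩⟩
  · rw [val_reverse, hv']
    group
  · rw [val_reverse, hv]
    group

theorem segm_reverse {P W : List α} {B : Finset ℕ} (h : Segm P W B) :
    Segm P.reverse W.reverse (B.image fun b => W.length - b) := by
  obtain ⟨h0, h1, h2, h3⟩ := h
  refine ⟨?_, ?_, ?_, ?_⟩
  · exact Finset.mem_image.2 ⟨W.length, h1, by simp⟩
  · exact Finset.mem_image.2 ⟨0, h0, by simp⟩
  · intro b hb
    obtain ⟨a, ha, rfl⟩ := Finset.mem_image.1 hb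
    rw [List.length_reverse]
    exact Nat.sub_le _ _
  · intro b hb b' hb' hlt hcons
    obtain ⟨a, ha, rfl⟩ := Finset.mem_image.1 hb
    obtain ⟨a', ha', rfl⟩ := Finset.mem_image.1 hb'
    have hal := h2 a ha
    have hal' := h2 a' ha'
    have hc : ∀ c ∈ B, ¬ (a' < c ∧ c < a) := by
      intro c hc hcc
      have hcl := h2 c hc
      exact hcons _ (Finset.mem_image.2 ⟨c, hc, rfl⟩) ⟨by omega, by omega⟩
    rcases h3 a' ha' a ha (by omega) hc with h4 | ⟨m, h4, h5⟩
    · left; omega
    · right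
      refine ⟨m, ?_, ?_⟩
      · rw [List.length_reverse]; omega
      · have h6 := at_reverse h5
        rw [rep_reverse, rep_length, ← h4] at h6
        exact h6

theorem nb_reverse {B : Finset ℕ} {N i j : ℕ} (hB : ∀ b ∈ B, b ≤ N) (hi : i ≤ N) (hj : j ≤ N) :
    nb (B.image fun b => N - b) (N - j) (N - i) = nb B i j := by
  unfold nb
  have : (B.image fun b => N - b).filter (fun b => N - j ≤ b ∧ b ≤ N - i) =
      (B.filter fun b => i ≤ b ∧ b ≤ j).image fun b => N - b := by
    ext x
    simp only [Finset.mem_filter, Finset.mem_image]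
    constructor
    · rintro ⟨⟨b, hb, rfl⟩, h1, h2⟩
      have := hB b hb
      exact ⟨b, ⟨hb, by omega, by omega⟩, rfl⟩
    · rintro ⟨b, ⟨hb, h1, h2⟩, rfl⟩
      exact ⟨⟨b, hb, rfl⟩, by omega, by omega⟩
  rw [this]
  apply Finset.card_image_of_injOn
  intro a ha b hb hab
  have h1 := hB a (Finset.mem_filter.1 ha).1
  have h2 := hB b (Finset.mem_filter.1 hb).1
  simp only at hab
  omega

/-- the mirror planar data -/
def dm {f : α → G} {ι : Z2 →* G} (D : PD f ι) : PD (fm f) ι where
  d := fun k => D.d (4 - k)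
  s := fun k => (D.s (9 - k)).reverse
  opp := by
    intro k
    have e : (4 : ZMod 10) - (k + 5) = (4 - k) + 5 := by
      have : (10 : ZMod 10) = 0 := by decide
      linear_combination (-1 : ZMod 10) * this
    rw [e, D.opp]
  ne := by
    intro k h
    exact D.ne (9 - k) (List.reverse_eq_nil_iff.1 h)
  val_s := by
    intro k
    rw [val_fm, List.reverse_reverse, D.val_s]
    have e : (4 : ZMod 10) - k = (9 - k) + 5 := by
      have : (10 : ZMod 10) = 0 := by decide
      linear_combination (-1 : ZMod 10) * this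
    rw [e, D.opp, ofAdd_neg, map_inv]
  nonpar := by
    intro k k' h1 h2
    apply D.nonpar
    · intro h
      apply h1
      linear_combination (-1 : ZMod 10) * h
    · intro h
      apply h2
      have : (10 : ZMod 10) = 0 := by decide
      linear_combination (-1 : ZMod 10) * h - this
  star := by
    intro σ k a b c e h
    apply D.star (8 - σ) (-k) a b c e
    intro i
    have hi : ((4 - (i : ℕ) : ℕ) : ZMod 10) = 4 - ((i : ℕ) : ZMod 10) := by
      rw [Nat.cast_sub (by omega)]
      norm_cast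
    have h1 := h ⟨4 - (i : ℕ), by omega⟩
    simp only at h1
    rw [hi] at h1
    have e1 : (4 : ZMod 10) - (k + (4 - ((i : ℕ) : ZMod 10))) = -k + ((i : ℕ) : ZMod 10) := by ring
    have e2 : (4 : ZMod 10) - (σ - (k + (4 - ((i : ℕ) : ZMod 10)))) =
        8 - σ - (-k + ((i : ℕ) : ZMod 10)) := by ring
    rw [e1, e2] at h1
    exact h1

theorem piw_reverse (s : ZMod 10 → List α) (x : ℕ) :
    PiW (fun k => (s (9 - k)).reverse) x = (PiW s x).reverse := by
  have h1 : ∀ u : ZMod 10 → List α, PiW u x =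
      rep x (u 0) ++ (rep x (u 1) ++ (rep x (u 2) ++ (rep x (u 3) ++ (rep x (u 4) ++
      (rep x (u 5) ++ (rep x (u 6) ++ (rep x (u 7) ++ (rep x (u 8) ++ rep x (u 9))))))))) := by
    intro u
    unfold PiW
    have : List.range 10 = [0, 1, 2, 3, 4, 5, 6, 7, 8, 9] := by decide
    rw [this]
    simp
  rw [h1, h1]
  simp only [List.reverse_append, rep_reverse, List.append_assoc]
  have e0 : (9 : ZMod 10) - 0 = 9 := by decide
  have e1 : (9 : ZMod 10) - 1 = 8 := by decide
  have e2 : (9 : ZMod 10) - 2 = 7 := by decide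
  have e3 : (9 : ZMod 10) - 3 = 6 := by decide
  have e4 : (9 : ZMod 10) - 4 = 5 := by decide
  have e5 : (9 : ZMod 10) - 5 = 4 := by decide
  have e6 : (9 : ZMod 10) - 6 = 3 := by decide
  have e7 : (9 : ZMod 10) - 7 = 2 := by decide
  have e8 : (9 : ZMod 10) - 8 = 1 := by decide
  have e9 : (9 : ZMod 10) - 9 = 0 := by decide
  rw [e0, e1, e2, e3, e4, e5, e6, e7, e8, e9]

theorem bll_of_blr {f : α → G} {L : Q → Set (List α)} {P : List α} {K : Finset G} {C : ℕ}
    (hP : val f P = 1) (h : BLRprop (fm f) (Lm L) P.reverse K C) : BLLprop f L P K C := by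
  intro T hT B hB c t f₀ n hc0 hat harm hlen
  set N := T.yd.length with hN
  obtain ⟨hch, ha1, ha2, ha3⟩ := harm
  have hen0 : (c 0).en ≤ N := hc0.en_le_length
  have hen : ∀ i, i ≤ t → (c i).en ≤ N := fun i hi =>
    (Below.en_le (hch.below (Nat.zero_le i) hi)).trans hen0
  have hst : ∀ i, (c i).st < (c i).en := fun i => (c i).st_lt_en
  have hatl := hat.le_length
  rw [rep_length] at hatl
  have hmono := Below.st_le (hch.below (Nat.zero_le t) le_rfl)
  have hmono' := Below.en_le (hch.below (Nat.zero_le t) le_rfl)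
  have hroot : Below ⟨0, tm T⟩ (nm N (c 0)) := by
    have := below_nm hc0 (n := N) (by simp [hN])
    rwa [hN, nm_root] at this
  have hat' : At (tm T).yd (N - (f₀ + n * P.length)) (rep n P.reverse) := by
    have := at_reverse hat
    rw [rep_reverse, rep_length] at this
    rw [tm_yd]
    exact this
  have hPl : P.reverse.length = P.length := List.length_reverse
  have harm' : RArm (fun i => nm N (c i)) t (N - (f₀ + n * P.length))
      (N - (f₀ + n * P.length) + n * P.reverse.length) := by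
    refine ⟨chain_nm hch hen0, ?_, ?_, ?_⟩
    · simp only [nm_st]; omega
    · simp only [nm_st, hPl]; omega
    · simp only [nm_en (hen t le_rfl), hPl]; omega
  have hB' : Segm P.reverse (tm T).yd (B.image fun b => N - b) := by
    rw [tm_yd]
    exact segm_reverse hB
  have hlen' : (nb (B.image fun b => N - b) (nm N (c t)).en (nm N (c 0)).en + 2) * C ≤
      (nm N (c t)).st - (nm N (c 0)).st := by
    rw [nm_en (hen t le_rfl), nm_en hen0, nb_reverse hB.2.2.1
      (by have := hst 0; omega) (by have := hst t; have := hen t le_rfl; omega)]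
    simp only [nm_st]
    have := hen t le_rfl
    omega
  obtain ⟨k, hk, hor⟩ := h (tm T) (tm_valid hT) _ hB' (fun i => nm N (c i)) t
    (N - (f₀ + n * P.length)) n hroot hat' harm' hlen'
  have hpos : pos (fm f) (tm T).yd (N - (f₀ + n * P.length)) =
      (val f T.yd)⁻¹ * pos f T.yd f₀ := by
    rw [tm_yd, pos_fm f T.yd _ (Nat.sub_le _ _), ← hN, Nat.sub_sub_self hatl]
    have := hat.pos_end (f := f)
    rw [rep_length, val_rep, hP, one_pow, mul_one] at this
    rw [this]
  rw [hpos] at hor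
  have hconj : (val f T.yd)⁻¹ * pos f T.yd f₀ * k * ((val f T.yd)⁻¹ * pos f T.yd f₀)⁻¹ =
      (val f T.yd)⁻¹ * (pos f T.yd f₀ * k * (pos f T.yd f₀)⁻¹) * val f T.yd := by group
  rw [hconj, tm_yd] at hor
  refine ⟨k, hk, ?_⟩
  rcases hor with ⟨i, hi, hmem⟩ | ⟨E, hE1, hE2, hE3⟩
  · left
    exact ⟨i, hi, (lg_fm (hen i hi) _).1 hmem⟩
  · right
    have hEn : E.en ≤ N := by
      have h1 := Below.en_le hE1
      have h2 : (nm N (c 0)).en ≤ N := by rw [nm_en hen0]; exact Nat.sub_le _ _
      exact h1.trans h2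
    have hEst := E.st_lt_en
    refine ⟨nm N E, ?_, ?_, ?_⟩
    · have := below_nm hE1 (n := N) (by rw [nm_en hen0]; exact Nat.sub_le _ _)
      rwa [nm_nm hen0] at this
    · simp only [nm_st] at hE2 ⊢
      have := hen t le_rfl
      omega
    · have e : nm N (nm N E) = E := nm_nm hEn
      have h2 : (nm N E).en ≤ N := by rw [nm_en hEn]; exact Nat.sub_le _ _
      apply shift_fm h2
      rw [← hN, e]
      exact hE3

end MirrorM

open MirrorM in
/-- module MIRROR -/
theorem specBLL (hPLAN : SpecPLAN) (hBLR : SpecBLR) : SpecBLL := by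
  intro α Q G _ _ f ι hι D L
  obtain ⟨x₀, hx₀⟩ := hBLR (fm f) ι hι (dm D) (Lm L)
  refine ⟨x₀ + 1, fun x hx => ?_⟩
  obtain ⟨K, C, hK, hB⟩ := hx₀ x (by omega)
  refine ⟨K, C, hK, ?_⟩
  have hval : val f (PiW D.s x) = 1 := (hPLAN f ι D x (by omega)).2.1
  apply bll_of_blr hval
  rw [← piw_reverse]
  exact hB

end MPab
end

section
/-!
# MP_ab497f_al : module PORT (5b)
-/
set_option autoImplicit false

namespace MPab

namespace PortM

variable {α Q : Type}

theorem chain_step {c : ℕ → Nd Q α} {t : ℕ} (h : Chain c t) {i : ℕ} (hi : i < t) :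
    ((c (i + 1)).st = (c i).st ∧ (c (i + 1)).en < (c i).en) ∨
    ((c (i + 1)).en = (c i).en ∧ (c i).st < (c (i + 1)).st) := by
  rcases (h i hi).cases' with ⟨h1, h2, _⟩ | ⟨h1, h2, _⟩
  · exact Or.inl ⟨h1, h2⟩
  · exact Or.inr ⟨h1, h2⟩

/-- the last boundary before `e` -/
def pb (B : Finset ℕ) (e : ℕ) : ℕ := (B.filter fun b => b < e).sup id

theorem pb_spec {B : Finset ℕ} {e : ℕ} (h0 : 0 ∈ B) (he : 0 < e) :
    pb B e ∈ B ∧ pb B e < e ∧ ∀ b ∈ B, b < e → b ≤ pb B e := by
  have hne : (B.filter fun b => b < e).Nonempty := ⟨0, by simp [h0, he]⟩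
  have hmem : pb B e ∈ B.filter fun b => b < e := by
    unfold pb
    obtain ⟨x, hx, hx'⟩ := Finset.exists_mem_eq_sup _ hne (id : ℕ → ℕ)
    rw [hx']
    exact hx
  rw [Finset.mem_filter] at hmem
  refine ⟨hmem.1, hmem.2, fun b hb hbe => ?_⟩
  exact Finset.le_sup (f := id) (Finset.mem_filter.2 ⟨hb, hbe⟩)

/-- a portion with a long main part -/
theorem long_portion (B : Finset ℕ) (st en : ℕ → ℕ) (t C : ℕ) (h0 : 0 ∈ B)
    (hen : ∀ i, i ≤ t → 0 < en i) (hC : 0 < C)
    (hstep : ∀ i, i < t → (st (i + 1) = st i ∧ en (i + 1) < en i) ∨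
      (en (i + 1) = en i ∧ st i < st (i + 1)))
    (hlong : (nb B (en t) (en 0) + 2) * C ≤ st t - st 0) :
    ∃ i₁ i₂, i₁ < i₂ ∧ i₂ ≤ t ∧ pb B (en i₁) = pb B (en i₂) ∧ C ≤ st i₂ - st i₁ := by
  by_contra hcon
  push Not at hcon
  have hstm : ∀ i j, i ≤ j → j ≤ t → st i ≤ st j := by
    intro i j hij
    induction j, hij using Nat.le_induction with
    | base => intro _; exact le_rfl
    | succ j hij ih =>
      intro hj
      have := ih (by omega)
      rcases hstep j (by omega) with h | h <;> omega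
  have henm : ∀ i j, i ≤ j → j ≤ t → en j ≤ en i := by
    intro i j hij
    induction j, hij using Nat.le_induction with
    | base => intro _; exact le_rfl
    | succ j hij ih =>
      intro hj
      have := ih (by omega)
      rcases hstep j (by omega) with h | h <;> omega
  set V : Finset ℕ := insert (pb B (en t)) (B.filter fun b => en t ≤ b ∧ b ≤ en 0) with hV
  have hVcard : V.card ≤ nb B (en t) (en 0) + 1 := Finset.card_insert_le _ _
  have hVmem : ∀ i, i ≤ t → pb B (en i) ∈ V := by
    intro i hi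
    obtain ⟨h1, h2, h3⟩ := pb_spec h0 (hen i hi)
    obtain ⟨h4, h5, h6⟩ := pb_spec h0 (hen t le_rfl)
    rw [hV, Finset.mem_insert]
    by_cases hlt : pb B (en i) < en t
    · left
      apply le_antisymm
      · exact h6 _ h1 hlt
      · exact h3 _ h4 (lt_of_lt_of_le h5 (henm i t hi le_rfl))
    · right
      rw [Finset.mem_filter]
      exact ⟨h1, by omega, by have := henm 0 i (Nat.zero_le _) hi; omega⟩
  -- first index of a portion
  classical
  let fi : ℕ → ℕ := fun v => if h : ∃ i, i ≤ t ∧ pb B (en i) = v then Nat.find h else 0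
  have hfi : ∀ i, i ≤ t → fi (pb B (en i)) ≤ i ∧ pb B (en (fi (pb B (en i)))) = pb B (en i) := by
    intro i hi
    have h : ∃ i', i' ≤ t ∧ pb B (en i') = pb B (en i) := ⟨i, hi, rfl⟩
    have e : fi (pb B (en i)) = Nat.find h := by simp only [fi, dif_pos h]
    rw [e]
    exact ⟨Nat.find_min' h ⟨hi, rfl⟩, (Nat.find_spec h).2⟩
  have hcover : Finset.Ico (st 0) (st t) ⊆ V.biUnion fun v => Finset.Ico (st (fi v)) (st (fi v) + C) := by
    intro x hx
    rw [Finset.mem_Ico] at hx
    set i := Nat.findGreatest (fun i => st i ≤ x) t with hi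
    have hi1 : st i ≤ x := Nat.findGreatest_spec (P := fun i => st i ≤ x) (Nat.zero_le t) hx.1
    have hit : i ≤ t := Nat.findGreatest_le t
    have hlt : i < t := by
      rcases Nat.lt_or_ge i t with h | h
      · exact h
      · have : i = t := le_antisymm hit h
        rw [this] at hi1
        omega
    have hi2 : x < st (i + 1) := by
      by_contra h
      exact Nat.findGreatest_is_greatest (P := fun i => st i ≤ x) (n := t) (k := i + 1)
        (by omega) (by omega) (by simpa using h)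
    have hstep' := hstep i hlt
    have hen' : en (i + 1) = en i := by
      rcases hstep' with h | h
      · omega
      · exact h.1
    rw [Finset.mem_biUnion]
    refine ⟨pb B (en i), hVmem i hit, ?_⟩
    rw [Finset.mem_Ico]
    obtain ⟨h1, h2⟩ := hfi i hit
    refine ⟨(hstm _ _ h1 hit).trans hi1, ?_⟩
    have h3 := hcon (fi (pb B (en i))) (i + 1) (by omega) (by omega) (by rw [h2, hen'])
    have h4 := hstm _ _ h1 hit
    omega
  have hcard := Finset.card_le_card hcover
  rw [Nat.card_Ico] at hcard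
  have h5 : (V.biUnion fun v => Finset.Ico (st (fi v)) (st (fi v) + C)).card ≤ V.card * C := by
    refine Finset.card_biUnion_le_card_mul _ _ _ fun v _ => ?_
    rw [Nat.card_Ico]
    omega
  have h6 : V.card * C ≤ (nb B (en t) (en 0) + 1) * C := Nat.mul_le_mul_right _ hVcard
  have h7 : (nb B (en t) (en 0) + 2) * C = (nb B (en t) (en 0) + 1) * C + C := by ring
  omega

end PortM

open PortM in
theorem specPORT : SpecPORT := by
  intro α Q _ P W B c t f₀ h hP hhP hS hen0 hch hst hf0 hlong
  set p := P.length with hp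
  have hp0 : 0 < p := List.length_pos_iff.2 hP
  set N := Nat.card Q with hN
  have henpos : ∀ i, 0 < (c i).en := fun i => lt_of_le_of_lt (Nat.zero_le _) (c i).st_lt_en
  have hstep : ∀ i, i < t → ((c (i + 1)).st = (c i).st ∧ (c (i + 1)).en < (c i).en) ∨
      ((c (i + 1)).en = (c i).en ∧ (c i).st < (c (i + 1)).st) := fun i hi => chain_step hch hi
  obtain ⟨i₁, i₂, h12, h2t, hpb, hC⟩ := long_portion B (fun i => (c i).st) (fun i => (c i).en) t
    (3 * p * (N * p ^ 2 + 2)) hS.1 (fun i _ => henpos i) (by positivity) hstep hlong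
  have hstm : ∀ i j, i ≤ j → j ≤ t → (c i).st ≤ (c j).st := fun i j hij hj =>
    (hch.below hij hj).st_le
  have henm : ∀ i j, i ≤ j → j ≤ t → (c j).en ≤ (c i).en := fun i j hij hj =>
    (hch.below hij hj).en_le
  have hh0 : 0 < h := by
    have := hst i₁ (by omega)
    have := hstm i₁ (i₁ + 1) (by omega) (by omega)
    omega
  -- indices with prescribed starts
  have key : ∀ y, (c i₁).st ≤ y → y ≤ (c i₂).st → ∃ i, i₁ ≤ i ∧ i ≤ i₂ ∧ y ≤ (c i).st ∧
      (c i).st < y + h := by
    intro y hy1 hy2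
    have hex : ∃ i, i₁ ≤ i ∧ y ≤ (c i).st := ⟨i₂, h12.le, hy2⟩
    classical
    set i := Nat.find hex with hi
    obtain ⟨ha, hb⟩ := Nat.find_spec hex
    have hle : i ≤ i₂ := Nat.find_min' hex ⟨h12.le, hy2⟩
    refine ⟨i, ha, hle, hb, ?_⟩
    rcases Nat.eq_or_lt_of_le ha with h1 | h1
    · have : (c i).st = (c i₁).st := by rw [hi, ← h1]
      omega
    · have h2 := Nat.find_min hex (m := i - 1) (by omega)
      have h3 : (c (i - 1)).st < y := by
        by_contra hcon
        exact h2 ⟨by omega, by omega⟩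
      have h4 := hst (i - 1) (by omega)
      rw [show i - 1 + 1 = i by omega] at h4
      omega
  have hK : ∀ k : Fin (N * p ^ 2 + 1), ∃ i, i₁ ≤ i ∧ i ≤ i₂ ∧
      (c i₁).st + 3 * p * k ≤ (c i).st ∧ (c i).st < (c i₁).st + 3 * p * k + h := by
    intro k
    apply key
    · omega
    · have h1 : 3 * p * (k : ℕ) ≤ 3 * p * (N * p ^ 2 + 2) :=
        Nat.mul_le_mul_left _ (by have := k.2; omega)
      have := hstm i₁ i₂ h12.le h2t
      omega
  choose I hI using hK
  set v := pb B (c i₁).en with hv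
  have : Fintype Q := Fintype.ofFinite Q
  have hcard : Fintype.card (Q × Fin p × Fin p) < Fintype.card (Fin (N * p ^ 2 + 1)) := by
    simp only [Fintype.card_prod, Fintype.card_fin]
    rw [hN, Nat.card_eq_fintype_card, pow_two]
    omega
  obtain ⟨k, k', hkk, heq⟩ := Fintype.exists_ne_map_eq_of_card_lt
    (fun k : Fin (N * p ^ 2 + 1) => (((c (I k)).lab, ⟨((c (I k)).st - f₀) % p, Nat.mod_lt _ hp0⟩,
      ⟨((c (I k)).en - 1 - v) % p, Nat.mod_lt _ hp0⟩) : Q × Fin p × Fin p)) hcard
  simp only [Prod.mk.injEq, Fin.mk.injEq] at heq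
  -- the main claim for ordered indices
  have main : ∀ k k' : Fin (N * p ^ 2 + 1), (k : ℕ) < (k' : ℕ) →
      (c (I k)).lab = (c (I k')).lab →
      ((c (I k)).st - f₀) % p = ((c (I k')).st - f₀) % p →
      ((c (I k)).en - 1 - v) % p = ((c (I k')).en - 1 - v) % p →
      ∃ i j : ℕ, i < j ∧ j ≤ t ∧ (c i).lab = (c j).lab ∧ 2 * p ≤ (c j).st - (c i).st ∧
      ((c i).st - f₀) % p = ((c j).st - f₀) % p ∧
      ((c i).en = (c j).en ∨
        ∃ b m : ℕ, At W b (rep m P) ∧ b < (c j).en ∧ (c i).en ≤ b + m * p ∧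
          ((c i).en - 1 - b) % p = ((c j).en - 1 - b) % p) := by
    intro k k' hlt e1 e2 e3
    obtain ⟨ha1, ha2, ha3, ha4⟩ := hI k
    obtain ⟨hb1, hb2, hb3, hb4⟩ := hI k'
    have h1 : 3 * p * (k : ℕ) + 3 * p ≤ 3 * p * (k' : ℕ) := by
      have : 3 * p * ((k : ℕ) + 1) ≤ 3 * p * (k' : ℕ) := Nat.mul_le_mul_left _ hlt
      rw [Nat.mul_add, Nat.mul_one] at this
      exact this
    have h2 : (c (I k)).st + 2 * p ≤ (c (I k')).st := by omega
    have hij : I k < I k' := by
      by_contra hcon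
      have := hstm (I k') (I k) (by omega) (by omega)
      omega
    refine ⟨I k, I k', hij, by omega, e1, by omega, e2, ?_⟩
    rcases Nat.eq_or_lt_of_le (henm (I k) (I k') hij.le (by omega)) with he | he
    · exact Or.inl he.symm
    right
    -- the portion of both indices is `v`
    have hpbv : ∀ i, i₁ ≤ i → i ≤ i₂ → pb B (c i).en = v := by
      intro i hi1 hi2
      obtain ⟨a1, a2, a3⟩ := pb_spec hS.1 (henpos i)
      obtain ⟨b1, b2, b3⟩ := pb_spec hS.1 (henpos i₁)
      obtain ⟨d1, d2, d3⟩ := pb_spec hS.1 (henpos i₂)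
      have m1 := henm i₁ i hi1 (by omega)
      have m2 := henm i i₂ hi2 h2t
      apply le_antisymm
      · exact b3 _ a1 (by omega)
      · rw [hpb]
        exact a3 _ d1 (by omega)
    have hvi := hpbv (I k) ha1 ha2
    have hvj := hpbv (I k') hb1 hb2
    obtain ⟨a1, a2, a3⟩ := pb_spec hS.1 (henpos (I k))
    obtain ⟨b1, b2, b3⟩ := pb_spec hS.1 (henpos (I k'))
    rw [hvi] at a1 a2 a3
    rw [hvj] at b1 b2 b3
    -- next boundary
    have hne : (B.filter fun b => v < b).Nonempty := by
      refine ⟨W.length, Finset.mem_filter.2 ⟨hS.2.1, ?_⟩⟩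
      have := henm 0 (I k) (Nat.zero_le _) (by omega)
      omega
    set b' := (B.filter fun b => v < b).min' hne with hb'
    have hb'mem : b' ∈ B ∧ v < b' := by
      have := Finset.min'_mem _ hne
      rw [Finset.mem_filter] at this
      exact this
    have hb'min : ∀ d ∈ B, ¬ (v < d ∧ d < b') := by
      rintro d hd ⟨h3, h4⟩
      have := Finset.min'_le (B.filter fun b => v < b) d (Finset.mem_filter.2 ⟨hd, h3⟩)
      omega
    have hge : (c (I k)).en ≤ b' := by
      by_contra hcon
      have := a3 b' hb'mem.1 (by omega)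
      omega
    rcases hS.2.2.2 v a1 b' hb'mem.1 hb'mem.2 hb'min with h3 | ⟨m, h3, h4⟩
    · omega
    · exact ⟨v, m, h4, b2, by rw [← h3]; exact hge, e3⟩
  rcases Nat.lt_or_gt_of_ne (fun e => hkk (Fin.ext e)) with hlt | hlt
  · exact main k k' hlt heq.1 heq.2.1 heq.2.2
  · exact main k' k hlt heq.1.symm heq.2.1.symm heq.2.2.symm

end MPab
end

section
/-!
# MP_ab497f_al : module PUMPINT, the internal pumps (5a)
-/
set_option autoImplicit false

namespace MPab.PumpInt

section Trees

variable {α Q : Type}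

/-- a node with at least `2^n` letters starts a chain of length `n` -/
theorem exists_chain (n : ℕ) : ∀ E : Nd Q α, 2 ^ n ≤ E.en - E.st →
    ∃ c : ℕ → Nd Q α, Chain c n ∧ c 0 = E := by
  induction n with
  | zero => exact fun E _ => ⟨fun _ => E, fun i hi => by omega, rfl⟩
  | succ n ih =>
    rintro ⟨i, T⟩ hE
    have h1 : 1 ≤ 2 ^ n := Nat.one_le_two_pow
    cases T with
    | leaf q a =>
      exfalso
      simp only [Nd.en_mk, Tr.yd, List.length_singleton] at hE
      rw [pow_succ] at hE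
      omega
    | node q l r =>
      have key : ∃ F : Nd Q α, Child ⟨i, .node q l r⟩ F ∧ 2 ^ n ≤ F.en - F.st := by
        simp only [Nd.en_mk, Tr.yd, List.length_append] at hE
        rw [pow_succ] at hE
        by_cases hl : 2 ^ n ≤ l.yd.length
        · exact ⟨⟨i, l⟩, Child.left i q l r, by simp only [Nd.en_mk]; omega⟩
        · exact ⟨⟨i + l.yd.length, r⟩, Child.right i q l r, by simp only [Nd.en_mk]; omega⟩
      obtain ⟨F, hF, hF2⟩ := key
      obtain ⟨c, hc, hc0⟩ := ih F hF2
      refine ⟨fun j => if j = 0 then ⟨i, .node q l r⟩ else c (j - 1), ?_, by simp⟩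
      intro j hj
      rcases Nat.eq_zero_or_pos j with rfl | hpos
      · simp only [if_true, Nat.zero_add, Nat.one_ne_zero, if_false, Nat.sub_self]
        rw [hc0]; exact hF
      · simp only [if_neg (show j ≠ 0 by omega), if_neg (show j + 1 ≠ 0 by omega)]
        have := hc (j - 1) (by omega)
        rwa [show j - 1 + 1 = j + 1 - 1 by omega] at this

/-- a node with at least `h` letters has a node below with at least `h` and less than `2h` letters -/
theorem exists_small (h : ℕ) (hh0 : 1 ≤ h) : ∀ E : Nd Q α, h ≤ E.en - E.st →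
    ∃ F : Nd Q α, Below E F ∧ h ≤ F.en - F.st ∧ F.en - F.st < 2 * h := by
  rintro ⟨i, T⟩
  induction T generalizing i with
  | leaf q a =>
    intro hE
    refine ⟨_, Below.refl _, hE, ?_⟩
    simp only [Nd.en_mk, Tr.yd, List.length_singleton]
    omega
  | node q l r ihl ihr =>
    intro hE
    by_cases hs : Nd.en ⟨i, Tr.node q l r⟩ - i < 2 * h
    · exact ⟨_, Below.refl _, hE, hs⟩
    · simp only [Nd.en_mk, Tr.yd, List.length_append] at hs
      by_cases hl : h ≤ l.yd.length
      · obtain ⟨F, hF, h1, h2⟩ := ihl i (by simp only [Nd.en_mk]; omega)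
        exact ⟨F, (Child.left i q l r).below.trans hF, h1, h2⟩
      · obtain ⟨F, hF, h1, h2⟩ := ihr (i + l.yd.length) (by simp only [Nd.en_mk]; omega)
        exact ⟨F, (Child.right i q l r).below.trans hF, h1, h2⟩

end Trees

section Runs

variable (len : ZMod 10 → ℕ) (x : ℕ)

theorem rs_succ (m : ℕ) : rs len x (m + 1) = rs len x m + x * len (m : ZMod 10) := by
  unfold rs
  rw [Finset.sum_range_succ]

theorem rs_mono {m m' : ℕ} (h : m ≤ m') : rs len x m ≤ rs len x m' := by
  induction m', h using Nat.le_induction with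
  | base => exact le_rfl
  | succ n hn ih => rw [rs_succ]; omega

variable {len x}

theorem loc_ge {i m a φ : ℕ} (h : Loc len x i m a φ) : rs len x m ≤ i := by
  obtain ⟨h1, h2, h3⟩ := h
  omega

theorem loc_lt {i m a φ : ℕ} (h : Loc len x i m a φ) : i < rs len x (m + 1) := by
  obtain ⟨h1, h2, h3⟩ := h
  rw [rs_succ]
  have : (a + 1) * len (m : ZMod 10) ≤ x * len (m : ZMod 10) := Nat.mul_le_mul_right _ h1
  rw [Nat.add_mul, Nat.one_mul] at this
  omega

/-- two letters at distance less than `x` lie in the same run or in adjacent runs -/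
theorem loc_near (hlen : ∀ k, 1 ≤ len k) {i m a φ i' m' a' φ' : ℕ} (h : Loc len x i m a φ)
    (h' : Loc len x i' m' a' φ') (hi : i ≤ i') (hx : i' < i + x) : m' = m ∨ m' = m + 1 := by
  have h1 := loc_ge h
  have h2 := loc_lt h
  have h3 := loc_ge h'
  have h4 := loc_lt h'
  by_contra hcon
  push Not at hcon
  rcases Nat.lt_or_ge m' m with h5 | h5
  · have := rs_mono len x (show m' + 1 ≤ m by omega)
    omega
  · have h6 := rs_mono len x (show m + 1 + 1 ≤ m' by omega)
    rw [rs_succ] at h6
    have h7 : x * 1 ≤ x * len ((m + 1 : ℕ) : ZMod 10) := Nat.mul_le_mul_left _ (hlen _)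
    omega

theorem loc_same (hlen : ∀ k, 1 ≤ len k) {i m a φ i' m' a' φ' : ℕ} (h : Loc len x i m a φ)
    (h' : Loc len x i' m' a' φ') (hi : i ≤ i') (hx : i' < i + x)
    (hm : (m : ZMod 10) = (m' : ZMod 10)) (hφ : φ = φ') :
    m' = m ∧ a ≤ a' ∧ i' = i + (a' - a) * len (m : ZMod 10) := by
  have hmm : m' = m := by
    rcases loc_near hlen h h' hi hx with h1 | h1
    · exact h1
    · exfalso
      rw [h1] at hm
      push_cast at hm
      have : (1 : ZMod 10) = 0 := by
        have := congrArg (fun z => z - (m : ZMod 10)) hm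
        simpa using this.symm
      exact absurd this (by decide)
  subst hmm
  subst hφ
  have e1 := h.2.2
  have e2 := h'.2.2
  have hpos : 0 < len (m' : ZMod 10) := hlen _
  have haa : a ≤ a' := by
    have : a * len (m' : ZMod 10) ≤ a' * len (m' : ZMod 10) := by omega
    exact Nat.le_of_mul_le_mul_right this hpos
  refine ⟨rfl, haa, ?_⟩
  obtain ⟨k, rfl⟩ := Nat.exists_eq_add_of_le haa
  rw [Nat.add_sub_cancel_left]
  rw [Nat.add_mul] at e2
  omega

end Runs

theorem pl_sub (d : ZMod 10 → ℤ × ℤ) (x m a a' : ℕ) (h : a ≤ a') :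
    pl d x m a' = pl d x m a + ((a' - a : ℕ) : ℤ) • d (m : ZMod 10) := by
  unfold pl
  rw [add_assoc, ← add_smul]
  congr 2
  push_cast [h]
  ring

section Main

variable {α Q G : Type} [Group G]

theorem io_comm (ι : Z2 →* G) (u v : Z2) : ι u * ι v = ι v * ι u := by
  rw [← ι.map_mul, ← ι.map_mul, mul_comm]

/-- the combination of two adjacent directions is non-zero -/
theorem comb_ne_zero {f : α → G} {ι : Z2 →* G} (D : PD f ι) {m n p q : ℕ}
    (hn : n = m ∨ n = m + 1) (hpq : 1 ≤ p + q) :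
    (p : ℤ) • D.d (m : ZMod 10) + (q : ℤ) • D.d (n : ZMod 10) ≠ 0 := by
  have hnp : (D.d (m : ZMod 10)).1 * (D.d ((m : ZMod 10) + 1)).2 -
      (D.d (m : ZMod 10)).2 * (D.d ((m : ZMod 10) + 1)).1 ≠ 0 := by
    apply D.nonpar
    · intro h
      have : (1 : ZMod 10) = 0 := by
        have := congrArg (fun z => z - (m : ZMod 10)) h
        simpa using this
      exact absurd this (by decide)
    · intro h
      have : (1 : ZMod 10) = 5 := by
        have := congrArg (fun z => z - (m : ZMod 10)) h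
        simpa using this
      exact absurd this (by decide)
  intro h0
  rcases hn with rfl | rfl
  · rw [← add_smul] at h0
    have hd : D.d (n : ZMod 10) ≠ 0 := by
      intro hd
      apply hnp
      rw [hd]
      simp
    rcases smul_eq_zero.mp h0 with h1 | h1
    · omega
    · exact hd h1
  · push_cast at h0
    have h1 := congrArg Prod.fst h0
    have h2 := congrArg Prod.snd h0
    simp only [Prod.fst_add, Prod.smul_fst, smul_eq_mul, Prod.fst_zero, Prod.snd_add,
      Prod.smul_snd, Prod.snd_zero] at h1 h2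
    have e1 : (p : ℤ) * ((D.d (m : ZMod 10)).1 * (D.d ((m : ZMod 10) + 1)).2 -
      (D.d (m : ZMod 10)).2 * (D.d ((m : ZMod 10) + 1)).1) = 0 := by
      linear_combination (D.d ((m : ZMod 10) + 1)).2 * h1 - (D.d ((m : ZMod 10) + 1)).1 * h2
    have e2 : (q : ℤ) * ((D.d (m : ZMod 10)).1 * (D.d ((m : ZMod 10) + 1)).2 -
      (D.d (m : ZMod 10)).2 * (D.d ((m : ZMod 10) + 1)).1) = 0 := by
      linear_combination (D.d (m : ZMod 10)).1 * h2 - (D.d (m : ZMod 10)).2 * h1
    have e3 : (p : ℤ) = 0 := by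
      rcases mul_eq_zero.mp e1 with h | h
      · exact h
      · exact absurd h hnp
    have e4 : (q : ℤ) = 0 := by
      rcases mul_eq_zero.mp e2 with h | h
      · exact h
      · exact absurd h hnp
    omega

/-- the pump gives the shift -/
theorem shift_of_pump {f : α → G} {L : Q → Set (List α)} {T : Tr Q α} (hT : T.Valid L)
    {E O I : Nd Q α} (hE : Below ⟨0, T⟩ E) (hEO : Below E O) (hOI : Below O I)
    (hlab : O.lab = I.lab) {d dl dr : G}
    (h1 : pos f T.yd I.st = dl * pos f T.yd O.st) (h2 : pos f T.yd O.en = dr * pos f T.yd I.en)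
    (hd : d = dl * dr) (hcomm : dl * dr = dr * dl) : ShiftBy f L T.yd E d := by
  have hEv : E.tr.Valid L := hE.valid hT
  have hOv : O.tr.Valid L := hEO.valid hEv
  have hIv : I.tr.Valid L := hOI.valid hOv
  obtain ⟨y1, z1, e1, s1, n1, r1⟩ := hEO.replace (L := L) hEv
  obtain ⟨y2, z2, e2, s2, n2, r2⟩ := hOI.replace (L := L) hOv
  have atE := hE.at_yd
  have atO := (hE.trans hEO).at_yd
  have atI := ((hE.trans hEO).trans hOI).at_yd
  -- values
  have vE : pos f T.yd E.en = pos f T.yd E.st * val f E.tr.yd := atE.pos_end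
  have vO : pos f T.yd O.en = pos f T.yd O.st * val f O.tr.yd := atO.pos_end
  have vI : pos f T.yd I.en = pos f T.yd I.st * val f I.tr.yd := atI.pos_end
  have vy1 : pos f T.yd O.st = pos f T.yd E.st * val f y1 := by
    rw [s1, atE.pos_add y1.length (by rw [e1]; simp only [List.length_append]; omega), e1,
      List.append_assoc, List.take_left' rfl]
  have vy2 : pos f T.yd I.st = pos f T.yd O.st * val f y2 := by
    rw [s2, atO.pos_add y2.length (by rw [e2]; simp only [List.length_append]; omega), e2,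
      List.append_assoc, List.take_left' rfl]
  have vz1 : val f E.tr.yd = val f y1 * val f O.tr.yd * val f z1 := by
    rw [e1, val_append, val_append]
  have vz2 : val f O.tr.yd = val f y2 * val f I.tr.yd * val f z2 := by
    rw [e2, val_append, val_append]
  -- abbreviations
  set pE := pos f T.yd E.st with hpE
  set pO := pos f T.yd O.st with hpO
  set pI := pos f T.yd I.st with hpI
  have hy2 : val f y2 = pO⁻¹ * dl * pO := by
    have : pO * val f y2 = dl * pO := by rw [← vy2, h1]
    calc val f y2 = pO⁻¹ * (pO * val f y2) := by group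
      _ = pO⁻¹ * dl * pO := by rw [this]; group
  have hz2 : pI * val f I.tr.yd * val f z2 = dr * (pI * val f I.tr.yd) := by
    have : pO * val f O.tr.yd = dr * (pI * val f I.tr.yd) := by rw [← vO, h2, vI]
    rw [← this, vz2, vy2]
    group
  have hz2' : val f z2 = (pI * val f I.tr.yd)⁻¹ * dr * (pI * val f I.tr.yd) := by
    calc val f z2 = (pI * val f I.tr.yd)⁻¹ * (pI * val f I.tr.yd * val f z2) := by group
      _ = _ := by rw [hz2]; group
  constructor
  · refine ⟨y1 ++ (y2 ++ O.tr.yd ++ z2) ++ z1, ?_, ?_⟩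
    · apply r1
      apply r2
      rw [← hlab]
      exact hOv.mem
    · simp only [val_append]
      rw [← hpE, vE, vz1, hd]
      -- goal: y1 * (y2 * O * z2) * z1 = pE⁻¹ * (dl*dr) * (pE * (y1 * O * z1))
      have hO : pO * val f O.tr.yd = dr * (pI * val f I.tr.yd) := by rw [← vO, h2, vI]
      have hy1 : val f y1 = pE⁻¹ * pO := by rw [vy1]; group
      rw [hz2', hy2, hy1]
      have e3 : pO⁻¹ * dl * pO * val f O.tr.yd * ((pI * val f I.tr.yd)⁻¹ * dr *
          (pI * val f I.tr.yd)) = pO⁻¹ * dl * (pO * val f O.tr.yd) * (pI * val f I.tr.yd)⁻¹ *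
          dr * (pI * val f I.tr.yd) := by group
      rw [e3, hO]
      have e4 : pE * (pE⁻¹ * pO * val f O.tr.yd * val f z1) =
          (pO * val f O.tr.yd) * val f z1 := by group
      rw [e4, hO]
      group
  · refine ⟨y1 ++ I.tr.yd ++ z1, ?_, ?_⟩
    · apply r1
      rw [hlab]
      exact hIv.mem
    · simp only [val_append]
      rw [← hpE, vE, vz1, hd, hcomm]
      have hO : pO * val f O.tr.yd = dr * (pI * val f I.tr.yd) := by rw [← vO, h2, vI]
      have hy1 : val f y1 = pE⁻¹ * pO := by rw [vy1]; group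
      rw [hy1]
      have e4 : pE * (pE⁻¹ * pO * val f O.tr.yd * val f z1) =
          (pO * val f O.tr.yd) * val f z1 := by group
      rw [e4, hO, h1]
      group

theorem bound_aux {f : α → G} {ι : Z2 →* G} (D : PD f ι) {m n p q H : ℕ} (hpq : p + q ≤ H)
    {R : ℤ} (hb : ∀ k, |(D.d k).1| ≤ R ∧ |(D.d k).2| ≤ R) :
    |((p : ℤ) • D.d (m : ZMod 10) + (q : ℤ) • D.d (n : ZMod 10)).1| ≤ H * R ∧
    |((p : ℤ) • D.d (m : ZMod 10) + (q : ℤ) • D.d (n : ZMod 10)).2| ≤ H * R := by
  have hR : 0 ≤ R := (abs_nonneg _).trans (hb 0).1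
  have hpq' : (p : ℤ) + q ≤ H := by exact_mod_cast hpq
  have aux : ∀ u v : ℤ, |u| ≤ R → |v| ≤ R → |(p : ℤ) * u + q * v| ≤ H * R := by
    intro u v hu hv
    calc |(p : ℤ) * u + q * v| ≤ |(p : ℤ) * u| + |(q : ℤ) * v| := abs_add_le _ _
      _ = p * |u| + q * |v| := by
          rw [abs_mul, abs_mul, abs_of_nonneg (show (0 : ℤ) ≤ p by positivity),
            abs_of_nonneg (show (0 : ℤ) ≤ q by positivity)]
      _ ≤ p * R + q * R := by gcongr
      _ = (p + q) * R := by ring
      _ ≤ H * R := by gcongr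
  constructor
  · simp only [Prod.fst_add, Prod.smul_fst, smul_eq_mul]
    exact aux _ _ (hb _).1 (hb _).1
  · simp only [Prod.snd_add, Prod.smul_snd, smul_eq_mul]
    exact aux _ _ (hb _).2 (hb _).2

/-- PUMPINT with an explicit bound for the directions -/
theorem pumpInt (hPLAN : SpecPLAN) [Finite Q] (f : α → G) (ι : Z2 →* G) (D : PD f ι)
    {R : ℤ} (hb : ∀ k, |(D.d k).1| ≤ R ∧ |(D.d k).2| ≤ R)
    (L : Q → Set (List α)) (x : ℕ) (hx : 2 * hh Q (fun k => (D.s k).length) ≤ x)
    (T : Tr Q α) (hT : T.Valid L) (E : Nd Q α) (b m : ℕ) (hE : Below ⟨0, T⟩ E)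
    (hat : At T.yd b (rep m (PiW D.s x))) (hbE : b ≤ E.st)
    (hEm : E.en ≤ b + m * (PiW D.s x).length)
    (hsize : hh Q (fun k => (D.s k).length) ≤ E.en - E.st) :
    ∃ e : ℤ × ℤ, e ≠ 0 ∧ |e.1| ≤ ((2 * hh Q (fun k => (D.s k).length) : ℕ) : ℤ) * R ∧
        |e.2| ≤ ((2 * hh Q (fun k => (D.s k).length) : ℕ) : ℤ) * R ∧
        ShiftBy f L T.yd E (pos f T.yd b * ι (Multiplicative.ofAdd e) * (pos f T.yd b)⁻¹) := by
  classical
  set len : ZMod 10 → ℕ := fun k => (D.s k).length with hlendef
  set H := hh Q len with hH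
  have hlen : ∀ k, 1 ≤ len k := fun k => List.length_pos_iff.mpr (D.ne k)
  have hH1 : 1 ≤ H := by rw [hH, hh]; exact Nat.one_le_two_pow
  have hx0 : 0 < x := by omega
  obtain ⟨-, -, hex, -, hv1, hv2⟩ := hPLAN f ι D x hx0
  choose M A Φ hL using hex
  obtain ⟨E', hEE', hs1, hs2⟩ := exists_small H hH1 E hsize
  obtain ⟨c, hc, hc0⟩ := exists_chain (C1 Q len + 1) E' (by rw [hH, hh] at hs1; exact hs1)
  -- the classes
  let X : Type := Q × ((k : ZMod 10) × Fin (len k)) × ((k : ZMod 10) × Fin (len k))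
  have hXcard : Nat.card X = C1 Q len := by
    have h1 : Nat.card ((k : ZMod 10) × Fin (len k)) = ell len := by
      rw [Nat.card_sigma]
      simp [ell]
    show Nat.card (Q × ((k : ZMod 10) × Fin (len k)) × ((k : ZMod 10) × Fin (len k))) = _
    rw [Nat.card_prod, Nat.card_prod, h1, C1, sq]
  let cl : Nd Q α → X := fun F =>
    (F.lab, ⟨(M (F.st - b) : ZMod 10), ⟨Φ (F.st - b), (hL (F.st - b)).2.1⟩⟩,
      ⟨(M (F.en - 1 - b) : ZMod 10), ⟨Φ (F.en - 1 - b), (hL (F.en - 1 - b)).2.1⟩⟩)
  have hpig : ∃ i j : ℕ, i < j ∧ j ≤ C1 Q len + 1 ∧ cl (c i) = cl (c j) := by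
    by_contra hcon
    push Not at hcon
    have hinj : Function.Injective (fun i : Fin (C1 Q len + 2) => cl (c i)) := by
      intro i j hij
      rcases lt_trichotomy (i : ℕ) j with h | h | h
      · exact absurd hij (hcon i j h (by omega))
      · exact Fin.ext h
      · exact absurd hij.symm (hcon j i h (by omega))
    have := Nat.card_le_card_of_injective _ hinj
    rw [Nat.card_fin, hXcard] at this
    omega
  obtain ⟨i, j, hij, hj, hcl⟩ := hpig
  have hcl1 : (c i).lab = (c j).lab := congrArg (fun s : X => s.1) hcl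
  have hcl2 : (M ((c i).st - b) : ZMod 10) = (M ((c j).st - b) : ZMod 10) :=
    congrArg (fun s : X => s.2.1.1) hcl
  have hcl3 : Φ ((c i).st - b) = Φ ((c j).st - b) :=
    congrArg (fun s : X => (s.2.1.2 : ℕ)) hcl
  have hcl4 : (M ((c i).en - 1 - b) : ZMod 10) = (M ((c j).en - 1 - b) : ZMod 10) :=
    congrArg (fun s : X => s.2.2.1) hcl
  have hcl5 : Φ ((c i).en - 1 - b) = Φ ((c j).en - 1 - b) :=
    congrArg (fun s : X => (s.2.2.2 : ℕ)) hcl
  -- the nodes
  have hE'i : Below E' (c i) := by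
    rw [← hc0]; exact hc.below (Nat.zero_le i) (by omega)
  have hOI : Below (c i) (c j) := hc.below hij.le hj
  have hlt : (c j).en - (c j).st < (c i).en - (c i).st := by
    have h1 : Below (c (i + 1)) (c j) := hc.below hij hj
    have h2 := (hc i (by omega)).lt
    have h3 := h1.st_le
    have h4 := h1.en_le
    have h5 := (c j).st_lt_en
    have h6 := (c (i + 1)).st_lt_en
    omega
  set O := c i with hO
  set I := c j with hI
  have a1 := hEE'.st_le
  have a2 := hEE'.en_le
  have a3 := hE'i.st_le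
  have a4 := hE'i.en_le
  have a5 := hOI.st_le
  have a6 := hOI.en_le
  have a7 := O.st_lt_en
  have a8 := I.st_lt_en
  -- starts
  obtain ⟨m1, ha, hi1⟩ := loc_same hlen (hL (O.st - b)) (hL (I.st - b)) (by omega) (by omega)
    hcl2 hcl3
  -- ends
  obtain ⟨m2, hb', hi2⟩ := loc_same hlen (hL (I.en - 1 - b)) (hL (O.en - 1 - b)) (by omega)
    (by omega) hcl4.symm hcl5.symm
  -- run of the end
  have hnear := loc_near hlen (hL (O.st - b)) (hL (O.en - 1 - b)) (by omega) (by omega)
  set p := A (I.st - b) - A (O.st - b) with hp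
  set q := A (O.en - 1 - b) - A (I.en - 1 - b) with hq
  have hp' : p ≤ p * len (M (O.st - b) : ZMod 10) := Nat.le_mul_of_pos_right _ (hlen _)
  have hq' : q ≤ q * len (M (I.en - 1 - b) : ZMod 10) := Nat.le_mul_of_pos_right _ (hlen _)
  have hpq1 : 1 ≤ p + q := by
    by_contra hcon
    have hp0 : p = 0 := by omega
    have hq0 : q = 0 := by omega
    rw [hp0] at hi1
    rw [hq0] at hi2
    omega
  have hpq2 : p + q ≤ 2 * H := by omega
  refine ⟨(p : ℤ) • D.d (M (O.st - b) : ZMod 10) + (q : ℤ) • D.d (M (O.en - 1 - b) : ZMod 10),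
    comb_ne_zero D hnear hpq1, ?_, ?_, ?_⟩
  · exact (bound_aux D (m := M (O.st - b)) (n := M (O.en - 1 - b)) hpq2 hb).1
  · exact (bound_aux D (m := M (O.st - b)) (n := M (O.en - 1 - b)) hpq2 hb).2
  · -- the shift
    have hlenrep : (rep m (PiW D.s x)).length = m * (PiW D.s x).length := rep_length _ _
    have posS : ∀ F : Nd Q α, Below E F → pos f T.yd F.st = pos f T.yd b *
        (ι (Multiplicative.ofAdd (pl D.d x (M (F.st - b)) (A (F.st - b)))) *
          val f ((D.s (M (F.st - b) : ZMod 10)).take (Φ (F.st - b)))) := by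
      intro F hF
      have h1 := hF.st_le
      have h2 := hF.en_le
      have h3 := F.st_lt_en
      have h4 := hat.pos_add (f := f) (F.st - b) (by rw [hlenrep]; omega)
      rw [show b + (F.st - b) = F.st by omega] at h4
      rw [h4, hv1 m (F.st - b) _ _ _ (by omega) (hL (F.st - b))]
    have posE : ∀ F : Nd Q α, Below E F → pos f T.yd F.en = pos f T.yd b *
        (ι (Multiplicative.ofAdd (pl D.d x (M (F.en - 1 - b)) (A (F.en - 1 - b)))) *
          val f ((D.s (M (F.en - 1 - b) : ZMod 10)).take (Φ (F.en - 1 - b) + 1))) := by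
      intro F hF
      have h1 := hF.st_le
      have h2 := hF.en_le
      have h3 := F.st_lt_en
      have h4 := hat.pos_add (f := f) (F.en - 1 - b + 1) (by rw [hlenrep]; omega)
      rw [show b + (F.en - 1 - b + 1) = F.en by omega] at h4
      rw [h4, hv2 m (F.en - 1 - b) _ _ _ (by omega) (hL (F.en - 1 - b))]
    have hEO : Below E O := hEE'.trans hE'i
    have hEI : Below E I := hEO.trans hOI
    set w := pos f T.yd b with hw
    refine shift_of_pump hT hE hEO hOI hcl1
      (dl := w * ι (Multiplicative.ofAdd ((p : ℤ) • D.d (M (O.st - b) : ZMod 10))) * w⁻¹)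
      (dr := w * ι (Multiplicative.ofAdd ((q : ℤ) • D.d (M (O.en - 1 - b) : ZMod 10))) * w⁻¹)
      ?_ ?_ ?_ ?_
    · rw [posS I hEI, posS O hEO, m1, ← hcl3, pl_sub D.d x _ _ _ ha, ofAdd_add, ι.map_mul]
      have hcm : ι (Multiplicative.ofAdd (pl D.d x (M (O.st - b)) (A (O.st - b)))) *
          ι (Multiplicative.ofAdd ((p : ℤ) • D.d (M (O.st - b) : ZMod 10))) =
          ι (Multiplicative.ofAdd ((p : ℤ) • D.d (M (O.st - b) : ZMod 10))) *
          ι (Multiplicative.ofAdd (pl D.d x (M (O.st - b)) (A (O.st - b)))) := by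
        exact io_comm ι _ _
      rw [← hp, hcm]
      group
    · rw [posE O hEO, posE I hEI, m2, ← hcl5, pl_sub D.d x _ _ _ hb', ofAdd_add, ι.map_mul]
      have hcm : ι (Multiplicative.ofAdd (pl D.d x (M (I.en - 1 - b)) (A (I.en - 1 - b)))) *
          ι (Multiplicative.ofAdd ((q : ℤ) • D.d (M (I.en - 1 - b) : ZMod 10))) =
          ι (Multiplicative.ofAdd ((q : ℤ) • D.d (M (I.en - 1 - b) : ZMod 10))) *
          ι (Multiplicative.ofAdd (pl D.d x (M (I.en - 1 - b)) (A (I.en - 1 - b)))) := by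
        exact io_comm ι _ _
      rw [← hq, hcm]
      group
    · rw [ofAdd_add, ι.map_mul]
      group
    · have hcm : ι (Multiplicative.ofAdd ((p : ℤ) • D.d (M (O.st - b) : ZMod 10))) *
          ι (Multiplicative.ofAdd ((q : ℤ) • D.d (M (O.en - 1 - b) : ZMod 10))) =
          ι (Multiplicative.ofAdd ((q : ℤ) • D.d (M (O.en - 1 - b) : ZMod 10))) *
          ι (Multiplicative.ofAdd ((p : ℤ) • D.d (M (O.st - b) : ZMod 10))) := by
        exact io_comm ι _ _
      calc w * ι (Multiplicative.ofAdd ((p : ℤ) • D.d (M (O.st - b) : ZMod 10))) * w⁻¹ *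
            (w * ι (Multiplicative.ofAdd ((q : ℤ) • D.d (M (O.en - 1 - b) : ZMod 10))) * w⁻¹)
          = w * (ι (Multiplicative.ofAdd ((p : ℤ) • D.d (M (O.st - b) : ZMod 10))) *
            ι (Multiplicative.ofAdd ((q : ℤ) • D.d (M (O.en - 1 - b) : ZMod 10)))) * w⁻¹ := by
            group
        _ = _ := by rw [hcm]; group

end Main

end MPab.PumpInt

namespace MPab

theorem specPUMPINT (hPLAN : SpecPLAN) : SpecPUMPINT := by
  intro α Q G _ _ f ι D L
  have hR : ∀ k, |(D.d k).1| ≤ ∑ j, (|(D.d j).1| + |(D.d j).2|) ∧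
      |(D.d k).2| ≤ ∑ j, (|(D.d j).1| + |(D.d j).2|) := by
    intro k
    have h := Finset.single_le_sum (f := fun j => |(D.d j).1| + |(D.d j).2|)
      (fun j _ => add_nonneg (abs_nonneg _) (abs_nonneg _)) (Finset.mem_univ k)
    have h1 := abs_nonneg (D.d k).1
    have h2 := abs_nonneg (D.d k).2
    constructor <;> linarith
  refine ⟨((2 * hh Q (fun k => (D.s k).length) : ℕ) : ℤ) *
    ∑ j, (|(D.d j).1| + |(D.d j).2|), ?_⟩
  intro x hx T hT E b m hE hat hbE hEm hsize
  exact PumpInt.pumpInt hPLAN f ι D hR L x hx T hT E b m hE hat hbE hEm hsize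

end MPab
end
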