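import Mathlib
import Pool.Agent.Lib.MP_ab497f_al.Spec

section
/-!
Problem MP_ab497f_al, module LANG: a context-free language without the empty word is described by
finitely many languages with binary splittings.
-/
set_option autoImplicit false

namespace MPab

namespace LangM

variable {T : Type} (g : ContextFreeGrammar T)

/-- big step semantics -/
inductive Yi : List (Symbol T g.NT) → List T → Prop
  | nil : Yi [] []
  | term (a : T) (s : List (Symbol T g.NT)) (w : List T) (h : Yi s w) :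
      Yi (Symbol.terminal a :: s) (a :: w)
  | rule (r : ContextFreeRule T g.NT) (hr : r ∈ g.rules) (s : List (Symbol T g.NT))
      (u w : List T) (h1 : Yi r.output u) (h2 : Yi s w) :
      Yi (Symbol.nonterminal r.input :: s) (u ++ w)

variable {g}

lemma yi_append {s t : List (Symbol T g.NT)} {u v : List T} (h1 : Yi g s u) (h2 : Yi g t v) :
    Yi g (s ++ t) (u ++ v) := by
  induction h1 with
  | nil => simpa using h2
  | term a s w h ih => exact Yi.term a _ _ ih
  | rule r hr s u w _ _ _ ih2 =>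
    rw [List.append_assoc]
    exact Yi.rule r hr _ _ _ ‹_› ih2

lemma yi_split {s t : List (Symbol T g.NT)} {w : List T} (h : Yi g (s ++ t) w) :
    ∃ u v, w = u ++ v ∧ Yi g s u ∧ Yi g t v := by
  induction s generalizing w with
  | nil => exact ⟨[], w, rfl, Yi.nil, h⟩
  | cons a s ih =>
    rw [List.cons_append] at h
    cases h with
    | term a _ w h =>
      obtain ⟨u, v, rfl, h1, h2⟩ := ih h
      exact ⟨a :: u, v, rfl, Yi.term a _ _ h1, h2⟩
    | rule r hr _ u w h1 h2 =>
      obtain ⟨u', v, rfl, h3, h4⟩ := ih h2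
      exact ⟨u ++ u', v, by rw [List.append_assoc], Yi.rule r hr _ _ _ h1 h3, h4⟩

lemma yi_term (w : List T) : Yi g (w.map Symbol.terminal) w := by
  induction w with
  | nil => exact Yi.nil
  | cons a w ih => exact Yi.term a _ _ ih

lemma yi_produces {s t : List (Symbol T g.NT)} {w : List T} (h : g.Produces s t)
    (ht : Yi g t w) : Yi g s w := by
  obtain ⟨r, hr, hrw⟩ := h
  obtain ⟨p, q, rfl, rfl⟩ := hrw.exists_parts
  rw [List.append_assoc] at ht
  obtain ⟨u, v, rfl, h1, h2⟩ := yi_split ht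
  obtain ⟨u', v', rfl, h3, h4⟩ := yi_split h2
  rw [List.append_assoc]
  exact yi_append h1 (Yi.rule r hr _ _ _ h3 h4)

lemma yi_of_derives {s : List (Symbol T g.NT)} {w : List T}
    (h : g.Derives s (w.map Symbol.terminal)) : Yi g s w := by
  induction h using Relation.ReflTransGen.head_induction_on with
  | refl => exact yi_term w
  | head h1 _ ih => exact yi_produces h1 ih

lemma derives_of_yi {s : List (Symbol T g.NT)} {w : List T} (h : Yi g s w) :
    g.Derives s (w.map Symbol.terminal) := by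
  induction h with
  | nil => exact Relation.ReflTransGen.refl
  | term a s w _ ih =>
    have := ih.append_left [Symbol.terminal a]
    simpa using this
  | rule r hr s u w _ _ ih1 ih2 =>
    have h1 : g.Produces (Symbol.nonterminal r.input :: s) (r.output ++ s) :=
      ⟨r, hr, ContextFreeRule.Rewrites.head s⟩
    have h2 := (ih1.append_right s)
    have h3 := ih2.append_left (u.map Symbol.terminal)
    rw [List.map_append]
    exact (h1.single.trans h2).trans h3

/-- the relevant sentential forms -/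
def Forms (g : ContextFreeGrammar T) : Set (List (Symbol T g.NT)) :=
  {s | s = [Symbol.nonterminal g.initial] ∨ ∃ r ∈ g.rules, s <:+ r.output ∨
    ∃ x ∈ r.output, s = [x]}

lemma forms_finite : (Forms g).Finite := by
  classical
  have h1 : (⋃ r ∈ g.rules, ({s | s <:+ r.output} ∪ {s | ∃ x ∈ r.output, s = [x]}) :
      Set (List (Symbol T g.NT))).Finite := by
    apply Set.Finite.biUnion (Finset.finite_toSet g.rules)
    intro r _
    apply Set.Finite.union
    · apply (List.finite_toSet r.output.tails).subset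
      intro s hs
      simpa using hs
    · apply ((List.finite_toSet r.output).image fun x => [x]).subset
      rintro s ⟨x, hx, rfl⟩
      exact ⟨x, hx, rfl⟩
  apply ((Set.finite_singleton [Symbol.nonterminal g.initial]).union h1).subset
  rintro s (rfl | ⟨r, hr, h⟩)
  · left; rfl
  · right
    simp only [Set.mem_iUnion]
    exact ⟨r, hr, h⟩

lemma forms_cons {x : Symbol T g.NT} {s : List (Symbol T g.NT)} (h : x :: s ∈ Forms g) :
    [x] ∈ Forms g ∧ (s ∈ Forms g ∨ s = []) := by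
  rcases h with h | ⟨r, hr, h | ⟨y, hy, h⟩⟩
  · simp only [List.cons.injEq] at h
    obtain ⟨rfl, rfl⟩ := h
    exact ⟨Or.inl rfl, Or.inr rfl⟩
  · refine ⟨Or.inr ⟨r, hr, Or.inr ⟨x, h.subset (List.mem_cons_self ..), rfl⟩⟩, Or.inl (Or.inr
      ⟨r, hr, Or.inl ((List.suffix_cons x s).trans h)⟩)⟩
  · simp only [List.cons.injEq] at h
    obtain ⟨rfl, rfl⟩ := h
    exact ⟨Or.inr ⟨r, hr, Or.inr ⟨x, hy, rfl⟩⟩, Or.inr rfl⟩

/-- the main splitting statement -/
lemma split_aux {s : List (Symbol T g.NT)} {w : List T} (h : Yi g s w) (hs : s ∈ Forms g)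
    (hw : 2 ≤ w.length) : ∃ s1 ∈ Forms g, ∃ s2 ∈ Forms g, ∃ w1 w2, w1 ≠ [] ∧ w2 ≠ [] ∧
      w = w1 ++ w2 ∧ Yi g s1 w1 ∧ Yi g s2 w2 ∧
      ∀ v1 v2, Yi g s1 v1 → Yi g s2 v2 → Yi g s (v1 ++ v2) := by
  induction h with
  | nil => simp at hw
  | term a s w h ih =>
    have hf := forms_cons hs
    have hwn : w ≠ [] := by
      rintro rfl
      simp at hw
    have hsf : s ∈ Forms g := by
      rcases hf.2 with h2 | rfl
      · exact h2
      · cases h
        exact absurd rfl hwn
    refine ⟨[Symbol.terminal a], hf.1, s, hsf, [a], w, by simp, hwn, rfl, yi_term [a], h, ?_⟩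
    intro v1 v2 h1 h2
    exact yi_append (s := [Symbol.terminal a]) h1 h2
  | rule r hr s u w h1 h2 ih1 ih2 =>
    have hf := forms_cons hs
    by_cases hu : u = []
    · subst hu
      have hsf : s ∈ Forms g := by
        rcases hf.2 with h3 | rfl
        · exact h3
        · cases h2
          simp at hw
      obtain ⟨s1, hs1, s2, hs2, w1, w2, n1, n2, e, y1, y2, hc⟩ := ih2 hsf (by simpa using hw)
      refine ⟨s1, hs1, s2, hs2, w1, w2, n1, n2, by simpa using e, y1, y2, ?_⟩
      intro v1 v2 k1 k2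
      exact Yi.rule r hr s [] (v1 ++ v2) h1 (hc v1 v2 k1 k2)
    · by_cases hw' : w = []
      · subst hw'
        have hro : r.output ∈ Forms g := Or.inr ⟨r, hr, Or.inl (List.suffix_refl _)⟩
        obtain ⟨s1, hs1, s2, hs2, w1, w2, n1, n2, e, y1, y2, hc⟩ := ih1 hro (by simpa using hw)
        refine ⟨s1, hs1, s2, hs2, w1, w2, n1, n2, by simpa using e, y1, y2, ?_⟩
        intro v1 v2 k1 k2
        have := Yi.rule r hr s (v1 ++ v2) [] (hc v1 v2 k1 k2) h2
        simpa using this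
      · have hsf : s ∈ Forms g := by
          rcases hf.2 with h3 | rfl
          · exact h3
          · cases h2
            exact absurd rfl hw'
        have h3 : Yi g [Symbol.nonterminal r.input] u := by
          have := Yi.rule r hr [] u [] h1 Yi.nil
          simpa using this
        refine ⟨[Symbol.nonterminal r.input], hf.1, s, hsf, u, w, hu, hw', rfl, h3, h2, ?_⟩
        intro v1 v2 k1 k2
        exact yi_append (s := [Symbol.nonterminal r.input]) k1 k2

end LangM

/-- module LANG -/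
theorem lang_split {T : Type} {L : Language T} (hL : L.IsContextFree) :
    ∃ (Q : Type) (_ : Finite Q) (Lq : Q → Set (List T)) (q0 : Q),
      (∀ q, [] ∉ Lq q) ∧ (∀ w, w ∈ Lq q0 ↔ w ∈ L ∧ w ≠ []) ∧
      ∀ q, ∀ w ∈ Lq q, 2 ≤ w.length → ∃ q1 q2 : Q, ∃ w1 ∈ Lq q1, ∃ w2 ∈ Lq q2, w = w1 ++ w2 ∧
        ∀ v1 ∈ Lq q1, ∀ v2 ∈ Lq q2, v1 ++ v2 ∈ Lq q := by
  obtain ⟨g, rfl⟩ := hL
  have hfin : Finite (LangM.Forms g) := LangM.forms_finite
  refine ⟨LangM.Forms g, hfin, fun s => {w | LangM.Yi g s.1 w ∧ w ≠ []},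
    ⟨[Symbol.nonterminal g.initial], Or.inl rfl⟩, ?_, ?_, ?_⟩
  · intro q h
    exact h.2 rfl
  · intro w
    constructor
    · rintro ⟨h1, h2⟩
      exact ⟨LangM.derives_of_yi h1, h2⟩
    · rintro ⟨h1, h2⟩
      exact ⟨LangM.yi_of_derives h1, h2⟩
  · rintro ⟨s, hs⟩ w ⟨hy, hw⟩ hlen
    obtain ⟨s1, hs1, s2, hs2, w1, w2, n1, n2, e, y1, y2, hc⟩ := LangM.split_aux hy hs hlen
    refine ⟨⟨s1, hs1⟩, ⟨s2, hs2⟩, w1, ⟨y1, n1⟩, w2, ⟨y2, n2⟩, e, ?_⟩
    rintro v1 ⟨k1, m1⟩ v2 ⟨k2, m2⟩
    exact ⟨hc v1 v2 k1 k2, by simp [m1]⟩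

end MPab
end

section
/-!
Problem MP_ab497f_al, module CNF.
-/
set_option autoImplicit false

namespace MPab

theorem specCNF : SpecCNF := by
  intro α M hM hne
  obtain ⟨Q, hQ, L, q₀, h1, h2, h3⟩ := lang_split hM
  refine ⟨Q, hQ, L, ⟨h1, ?_⟩, q₀, ?_⟩
  · intro q w hw hlen
    obtain ⟨q1, q2, w1, hw1, w2, hw2, e, hc⟩ := h3 q w hw hlen
    exact ⟨w1, w2, e, q1, q2, hw1, hw2, hc⟩
  · intro w
    rw [h2]
    constructor
    · exact fun h => h.1
    · intro h
      refine ⟨h, ?_⟩
      rintro rfl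
      exact hne h

end MPab
end

section
/-!
Problem MP_ab497f_al, module DIRS.
-/
set_option autoImplicit false

namespace MPab

namespace DIRS

/-- first coordinate of the directions -/
def dx : Fin 10 → ℤ := ![1, 0, 1, 1, 1, -1, 0, -1, -1, -1]

/-- second coordinate of the directions -/
def dy : Fin 10 → ℤ := ![0, 1, -1, 1, 2, 0, -1, 1, -1, -2]

/-- directions -/
def dd (k : ZMod 10) : ℤ × ℤ := (dx k, dy k)

lemma opp : ∀ k : ZMod 10, dd (k + 5) = - dd k := by decide

lemma nonpar : ∀ k k' : ZMod 10, k' ≠ k → k' ≠ k + 5 →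
    (dd k).1 * (dd k').2 - (dd k).2 * (dd k').1 ≠ 0 := by decide

lemma shift : ∀ (k : ZMod 10) (r : Fin 5), ∃ i : Fin 5, k + (i : ℕ) = ((r : ℕ) : ZMod 10) ∨
    k + (i : ℕ) = ((r : ℕ) : ZMod 10) + 5 := by decide

lemma all10 : ∀ σ : ZMod 10, σ = 0 ∨ σ = 1 ∨ σ = 2 ∨ σ = 3 ∨ σ = 4 ∨ σ = 5 ∨ σ = 6 ∨ σ = 7 ∨
    σ = 8 ∨ σ = 9 := by decide

lemma star (σ k : ZMod 10) (a b c e : ℤ)
    (h : ∀ i : Fin 5, (a * (dd (k + (i : ℕ))).1 + b * (dd (k + (i : ℕ))).2) *
      (dd (σ - (k + (i : ℕ)))).2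
      - (c * (dd (k + (i : ℕ))).1 + e * (dd (k + (i : ℕ))).2) * (dd (σ - (k + (i : ℕ)))).1 = 0) :
    a = 0 ∧ b = 0 ∧ c = 0 ∧ e = 0 := by
  have key : ∀ r : Fin 5, (a * (dd ((r : ℕ) : ZMod 10)).1 + b * (dd ((r : ℕ) : ZMod 10)).2) *
      (dd (σ - ((r : ℕ) : ZMod 10))).2
      - (c * (dd ((r : ℕ) : ZMod 10)).1 + e * (dd ((r : ℕ) : ZMod 10)).2) *
        (dd (σ - ((r : ℕ) : ZMod 10))).1 = 0 := by
    intro r
    have hr : ∃ i : Fin 5, k + (i : ℕ) = ((r : ℕ) : ZMod 10) ∨
        k + (i : ℕ) = ((r : ℕ) : ZMod 10) + 5 := shift k r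
    obtain ⟨i, hi | hi⟩ := hr
    · have := h i
      rw [hi] at this
      exact this
    · have := h i
      rw [hi, opp, show σ - (((r : ℕ) : ZMod 10) + 5) = (σ - ((r : ℕ) : ZMod 10)) + 5 by
        have h10 : (10 : ZMod 10) = 0 := by decide
        linear_combination (-1 : ZMod 10) * h10, opp] at this
      simp only [Prod.fst_neg, Prod.snd_neg] at this
      linear_combination this
  clear h
  have h0 := key 0
  have h1 := key 1
  have h2 := key 2
  have h3 := key 3
  have h4 := key 4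
  clear key
  have e0 : ((0 : Fin 5) : ℕ) = 0 := rfl
  have e1 : ((1 : Fin 5) : ℕ) = 1 := rfl
  have e2 : ((2 : Fin 5) : ℕ) = 2 := rfl
  have e3 : ((3 : Fin 5) : ℕ) = 3 := rfl
  have e4 : ((4 : Fin 5) : ℕ) = 4 := rfl
  rw [e0] at h0
  rw [e1] at h1
  rw [e2] at h2
  rw [e3] at h3
  rw [e4] at h4
  have d0 : dd 0 = (1, 0) := by decide
  have d1 : dd 1 = (0, 1) := by decide
  have d2 : dd 2 = (1, -1) := by decide
  have d3 : dd 3 = (1, 1) := by decide
  have d4 : dd 4 = (1, 2) := by decide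
  have d5 : dd 5 = (-1, 0) := by decide
  have d6 : dd 6 = (0, -1) := by decide
  have d7 : dd 7 = (-1, 1) := by decide
  have d8 : dd 8 = (-1, -1) := by decide
  have d9 : dd 9 = (-1, -2) := by decide
  push_cast at h0 h1 h2 h3 h4
  have hσ := all10 σ
  rcases hσ with rfl | rfl | rfl | rfl | rfl | rfl | rfl | rfl | rfl | rfl
  · rw [show (0 : ZMod 10) - 0 = 0 by decide, d0] at h0
    rw [show (0 : ZMod 10) - 1 = 9 by decide, d1, d9] at h1
    rw [show (0 : ZMod 10) - 2 = 8 by decide, d2, d8] at h2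
    rw [show (0 : ZMod 10) - 3 = 7 by decide, d3, d7] at h3
    rw [show (0 : ZMod 10) - 4 = 6 by decide, d4, d6] at h4
    dsimp only at h0 h1 h2 h3 h4
    omega
  · rw [show (1 : ZMod 10) - 0 = 1 by decide, d0, d1] at h0
    rw [show (1 : ZMod 10) - 1 = 0 by decide, d1, d0] at h1
    rw [show (1 : ZMod 10) - 2 = 9 by decide, d2, d9] at h2
    rw [show (1 : ZMod 10) - 3 = 8 by decide, d3, d8] at h3
    rw [show (1 : ZMod 10) - 4 = 7 by decide, d4, d7] at h4
    dsimp only at h0 h1 h2 h3 h4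
    omega
  · rw [show (2 : ZMod 10) - 0 = 2 by decide, d0, d2] at h0
    rw [show (2 : ZMod 10) - 1 = 1 by decide, d1] at h1
    rw [show (2 : ZMod 10) - 2 = 0 by decide, d2, d0] at h2
    rw [show (2 : ZMod 10) - 3 = 9 by decide, d3, d9] at h3
    rw [show (2 : ZMod 10) - 4 = 8 by decide, d4, d8] at h4
    dsimp only at h0 h1 h2 h3 h4
    omega
  · rw [show (3 : ZMod 10) - 0 = 3 by decide, d0, d3] at h0
    rw [show (3 : ZMod 10) - 1 = 2 by decide, d1, d2] at h1
    rw [show (3 : ZMod 10) - 2 = 1 by decide, d2, d1] at h2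
    rw [show (3 : ZMod 10) - 3 = 0 by decide, d3, d0] at h3
    rw [show (3 : ZMod 10) - 4 = 9 by decide, d4, d9] at h4
    dsimp only at h0 h1 h2 h3 h4
    omega
  · rw [show (4 : ZMod 10) - 0 = 4 by decide, d0, d4] at h0
    rw [show (4 : ZMod 10) - 1 = 3 by decide, d1, d3] at h1
    rw [show (4 : ZMod 10) - 2 = 2 by decide, d2] at h2
    rw [show (4 : ZMod 10) - 3 = 1 by decide, d3, d1] at h3
    rw [show (4 : ZMod 10) - 4 = 0 by decide, d4, d0] at h4
    dsimp only at h0 h1 h2 h3 h4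
    omega
  · rw [show (5 : ZMod 10) - 0 = 5 by decide, d0, d5] at h0
    rw [show (5 : ZMod 10) - 1 = 4 by decide, d1, d4] at h1
    rw [show (5 : ZMod 10) - 2 = 3 by decide, d2, d3] at h2
    rw [show (5 : ZMod 10) - 3 = 2 by decide, d3, d2] at h3
    rw [show (5 : ZMod 10) - 4 = 1 by decide, d4, d1] at h4
    dsimp only at h0 h1 h2 h3 h4
    omega
  · rw [show (6 : ZMod 10) - 0 = 6 by decide, d0, d6] at h0
    rw [show (6 : ZMod 10) - 1 = 5 by decide, d1, d5] at h1
    rw [show (6 : ZMod 10) - 2 = 4 by decide, d2, d4] at h2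
    rw [show (6 : ZMod 10) - 3 = 3 by decide, d3] at h3
    rw [show (6 : ZMod 10) - 4 = 2 by decide, d4, d2] at h4
    dsimp only at h0 h1 h2 h3 h4
    omega
  · rw [show (7 : ZMod 10) - 0 = 7 by decide, d0, d7] at h0
    rw [show (7 : ZMod 10) - 1 = 6 by decide, d1, d6] at h1
    rw [show (7 : ZMod 10) - 2 = 5 by decide, d2, d5] at h2
    rw [show (7 : ZMod 10) - 3 = 4 by decide, d3, d4] at h3
    rw [show (7 : ZMod 10) - 4 = 3 by decide, d4, d3] at h4
    dsimp only at h0 h1 h2 h3 h4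
    omega
  · rw [show (8 : ZMod 10) - 0 = 8 by decide, d0, d8] at h0
    rw [show (8 : ZMod 10) - 1 = 7 by decide, d1, d7] at h1
    rw [show (8 : ZMod 10) - 2 = 6 by decide, d2, d6] at h2
    rw [show (8 : ZMod 10) - 3 = 5 by decide, d3, d5] at h3
    rw [show (8 : ZMod 10) - 4 = 4 by decide, d4] at h4
    dsimp only at h0 h1 h2 h3 h4
    omega
  · rw [show (9 : ZMod 10) - 0 = 9 by decide, d0, d9] at h0
    rw [show (9 : ZMod 10) - 1 = 8 by decide, d1, d8] at h1
    rw [show (9 : ZMod 10) - 2 = 7 by decide, d2, d7] at h2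
    rw [show (9 : ZMod 10) - 3 = 6 by decide, d3, d6] at h3
    rw [show (9 : ZMod 10) - 4 = 5 by decide, d4, d5] at h4
    dsimp only at h0 h1 h2 h3 h4
    omega

end DIRS

open DIRS in
theorem specDIRS : SpecDIRS := by
  intro α G _ f ι hι hsur
  have hd : ∀ k : ZMod 10, dd k ≠ 0 := by decide
  choose w hw using fun k : ZMod 10 => hsur (ι (Multiplicative.ofAdd (dd k)))
  refine ⟨⟨dd, w, opp, ?_, hw, nonpar, star⟩⟩
  intro k hk
  have h1 := hw k
  rw [hk] at h1
  have h2 : ι (Multiplicative.ofAdd (dd k)) = ι 1 := by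
    rw [← h1, map_one]
    simp [val]
  have h3 := hι h2
  apply hd k
  exact h3

end MPab
end

section
/-!
# MP_ab497f_al : modules MAINBLOB and MAINSUB
-/
set_option autoImplicit false

namespace MPab.Mn

section Words

variable {α G : Type} [Group G]

theorem val_append (f : α → G) (u v : List α) : val f (u ++ v) = val f u * val f v := by
  simp [val]

theorem rep_zero (w : List α) : rep 0 w = [] := rfl

theorem rep_succ (n : ℕ) (w : List α) : rep (n + 1) w = w ++ rep n w := by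
  simp [rep, List.replicate_succ]

theorem rep_add (m n : ℕ) (w : List α) : rep (m + n) w = rep m w ++ rep n w := by
  induction m with
  | zero => simp [rep_zero]
  | succ m ih => rw [Nat.succ_add, rep_succ, rep_succ, ih, List.append_assoc]

theorem length_rep (n : ℕ) (w : List α) : (rep n w).length = n * w.length := by
  induction n with
  | zero => simp [rep_zero]
  | succ n ih => rw [rep_succ, List.length_append, ih]; ring

theorem take_rep (f : α → G) (w : List α) (hw : val f w = 1) (n j : ℕ)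
    (hj : j ≤ n * w.length) : ∃ k, val f ((rep n w).take j) = val f (w.take k) := by
  induction n generalizing j with
  | zero =>
    refine ⟨0, ?_⟩
    simp [rep_zero, val]
  | succ n ih =>
    rw [rep_succ]
    rcases le_total j w.length with h | h
    · exact ⟨j, by rw [List.take_append_of_le_length h]⟩
    · obtain ⟨k, hk⟩ := ih (j - w.length) (by rw [Nat.succ_mul] at hj; omega)
      refine ⟨k, ?_⟩
      rw [List.take_append, List.take_of_length_le h, val_append, hw, one_mul, hk]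

theorem At.mid {W : List α} {b : ℕ} {x y z : List α} (h : At W b (x ++ y ++ z)) :
    At W (b + x.length) y := by
  obtain ⟨W₁, W₂, h1, h2⟩ := h
  exact ⟨W₁ ++ x, z ++ W₂, by rw [h1]; simp, by simp [h2]⟩

theorem At.rep {W : List α} {b n : ℕ} {w : List α} (h : At W b (rep n w)) {a : ℕ} (ha : a < n) :
    At W (b + a * w.length) w := by
  have h1 : MPab.rep n w = MPab.rep a w ++ w ++ MPab.rep (n - a - 1) w := by
    have : n = a + (1 + (n - a - 1)) := by omega
    conv_lhs => rw [this]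
    rw [rep_add, rep_add, rep_succ 0 w, rep_zero, List.append_nil, List.append_assoc]
  rw [h1] at h
  have := At.mid h
  rwa [length_rep] at this

theorem At.pos {W : List α} {b : ℕ} {v : List α} (h : At W b v) (f : α → G) {k : ℕ}
    (hk : k ≤ v.length) : pos f W (b + k) = pos f W b * val f (v.take k) := by
  obtain ⟨W₁, W₂, h1, h2⟩ := h
  subst h1
  subst h2
  have t1 : (W₁ ++ v ++ W₂).take (W₁.length + k) = W₁ ++ v.take k := by
    rw [List.append_assoc, List.take_length_add_append, List.take_append_of_le_length hk]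
  have t2 : (W₁ ++ v ++ W₂).take W₁.length = W₁ := by
    rw [List.append_assoc, List.take_left]
  unfold MPab.pos
  rw [t1, t2, val_append]

theorem At.le {W : List α} {b : ℕ} {v : List α} (h : At W b v) : b + v.length ≤ W.length := by
  obtain ⟨W₁, W₂, h1, h2⟩ := h
  rw [h1]
  simp only [List.length_append]
  omega

/-- positions inside a block -/
theorem pos_block {W : List α} {b n : ℕ} {w : List α} (h : At W b (rep n w)) (f : α → G)
    (hw : val f w = 1) {i : ℕ} (h1 : b ≤ i) (h2 : i ≤ b + n * w.length) :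
    ∃ k, pos f W i = pos f W b * val f (w.take k) := by
  obtain ⟨k, hk⟩ := take_rep f w hw n (i - b) (by omega)
  refine ⟨k, ?_⟩
  have h3 := At.pos h f (k := i - b) (by rw [length_rep]; omega)
  rw [← hk, ← h3]
  congr 1
  omega

theorem pos_copy {W : List α} {b n : ℕ} {u₁ u₂ u₃ : List α} (h : At W b (rep n (u₁ ++ u₂ ++ u₃)))
    (f : α → G) (hw : val f (u₁ ++ u₂ ++ u₃) = 1) {a : ℕ} (ha : a < n) :
    pos f W (b + a * (u₁ ++ u₂ ++ u₃).length + u₁.length) = pos f W b * val f u₁ := by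
  have h1 := At.rep h ha
  have h2 : a * (u₁ ++ u₂ ++ u₃).length ≤ (rep n (u₁ ++ u₂ ++ u₃)).length := by
    rw [length_rep]
    exact Nat.mul_le_mul_right _ ha.le
  have h3 := At.pos h f (k := a * (u₁ ++ u₂ ++ u₃).length) h2
  have h4 : val f ((rep n (u₁ ++ u₂ ++ u₃)).take (a * (u₁ ++ u₂ ++ u₃).length)) = 1 := by
    have e : n = a + (n - a) := by omega
    have e2 : (rep a (u₁ ++ u₂ ++ u₃)).length = a * (u₁ ++ u₂ ++ u₃).length := length_rep _ _
    rw [e, rep_add, List.take_append, ← e2, List.take_length, Nat.sub_self, List.take_zero,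
      List.append_nil]
    have : ∀ m, val f (rep m (u₁ ++ u₂ ++ u₃)) = 1 := by
      intro m
      induction m with
      | zero => simp [rep_zero, val]
      | succ m ih => rw [rep_succ, val_append, hw, ih, one_mul]
    exact this a
  rw [h4, mul_one] at h3
  have h5 := At.pos h1 f (k := u₁.length) (by simp only [List.length_append]; omega)
  rw [h5, h3]
  congr 2
  rw [List.append_assoc, List.take_append_of_le_length le_rfl, List.take_length]

end Words

section Nodes

variable {α Q : Type}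

theorem st_le_en (E : Nd Q α) : E.st ≤ E.en := Nat.le_add_right _ _

theorem child_le {E F : Nd Q α} (h : Child E F) : E.st ≤ F.st ∧ F.en ≤ E.en := by
  cases h with
  | left i q l r =>
    refine ⟨le_rfl, ?_⟩
    simp only [Nd.en, Tr.yd, List.length_append]
    omega
  | right i q l r =>
    refine ⟨Nat.le_add_right _ _, ?_⟩
    simp only [Nd.en, Tr.yd, List.length_append]
    omega

theorem below_le {E F : Nd Q α} (h : Below E F) : E.st ≤ F.st ∧ F.en ≤ E.en := by
  induction h with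
  | refl => exact ⟨le_rfl, le_rfl⟩
  | tail _ h ih =>
    have := child_le h
    exact ⟨ih.1.trans this.1, this.2.trans ih.2⟩

theorem below_trans {E F D : Nd Q α} (h : Below E F) (h' : Below F D) : Below E D :=
  Relation.ReflTransGen.trans h h'

theorem chain_below {c : ℕ → Nd Q α} {t : ℕ} (h : Chain c t) {i j : ℕ} (hij : i ≤ j)
    (hj : j ≤ t) : Below (c i) (c j) := by
  induction j, hij using Nat.le_induction with
  | base => exact Relation.ReflTransGen.refl
  | succ j hij ih => exact Relation.ReflTransGen.tail (ih (by omega)) (h j (by omega))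

end Nodes

section Loc

variable {α Q G : Type} [Group G]

/-- a node whose groups are contained in `H` -/
def GN (f : α → G) (L : Q → Set (List α)) (W : List α) (H : Subgroup G) (E : Nd Q α) : Prop :=
  LG f L W E ≤ H ∧ RG f L W E ≤ H ∧ ∀ d : G, ShiftBy f L W E d → d ∈ H

/-- an arm, found in a recursion, in the block `[f₀, f₁)`, `H` the group of the recursion -/
def Arm (f : α → G) (L : Q → Set (List α)) (W : List α) (H : Subgroup G) (c : ℕ → Nd Q α)
    (t f₀ f₁ len ot : ℕ) : Prop :=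
  (RArm c t f₀ f₁ ∧ len ≤ 4 * ((c t).st - (c 0).st) ∧ (c 0).en - (c t).en ≤ ot ∧
      (∀ i ≤ t, LG f L W (c i) ≤ H) ∧
      ∀ E, Below (c 0) E → E.en ≤ (c t).st → GN f L W H E) ∨
  (LArm c t f₀ f₁ ∧ len ≤ 4 * ((c 0).en - (c t).en) ∧ (c t).st - (c 0).st ≤ ot ∧
      (∀ i ≤ t, RG f L W (c i) ≤ H) ∧
      ∀ E, Below (c 0) E → (c t).en ≤ E.st → GN f L W H E)

/-- localization, left version -/
theorem locate_left (hL : SpecLOCL) (hC : SpecCONT) (f : α → G) (L : Q → Set (List α))
    (T : Tr Q α) (hT : T.Valid L) {O I : Nd Q α} (hO : Below ⟨0, T⟩ O) (hR : Rec f T.yd O I)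
    {b P φ len θ : ℕ} (h1 : b ≤ O.st) (h2 : 3 * P ≤ I.st - O.st)
    (h3 : O.en - I.en ≤ θ * (I.st - O.st)) (h4 : φ + len ≤ P) (h5 : 12 ≤ len) :
    ∃ a c t, b + a * P + φ + len ≤ I.st ∧ Below O (c 0) ∧
      Arm f L T.yd (LG f L T.yd O) c t (b + a * P + φ) (b + a * P + φ + len) len
        ((4 + 3 * θ) * P) := by
  obtain ⟨a, ha1, ha2, c, t, hc, h⟩ := hL O I b P φ len θ hR.1 h1 h2 h3 h4 h5
  refine ⟨a, c, t, ha2, hc, ?_⟩
  have cont := fun E => hC f L T hT O I E hO hR
  have left : ∀ E, Below O E → E.en ≤ I.st → GN f L T.yd (LG f L T.yd O) E :=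
    fun E h6 h7 => (cont E).2.1 h6 h7
  rcases h with ⟨harm, hm, ho, hpos⟩ | ⟨harm, hm, ho, hpos⟩
  · left
    refine ⟨harm, hm, ho, ?_, ?_⟩
    · intro i hi
      have b1 : Below O (c i) := below_trans hc (chain_below harm.1 (Nat.zero_le i) hi)
      rcases hpos with hp | hp
      · exact ((cont (c i)).1 b1 (below_trans (chain_below harm.1 hi le_rfl) hp)).1
      · exact (left (c i) b1
          ((below_le (chain_below harm.1 (Nat.zero_le i) hi)).2.trans hp)).1
    · intro E hE hE2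
      refine left E (below_trans hc hE) ?_
      rcases hpos with hp | hp
      · exact hE2.trans (below_le hp).1
      · exact (below_le hE).2.trans hp
  · right
    refine ⟨harm, hm, ho, ?_, ?_⟩
    · intro i hi
      have b1 := chain_below harm.1 (Nat.zero_le i) hi
      exact (left (c i) (below_trans hc b1) ((below_le b1).2.trans hpos)).2.1
    · intro E hE _
      exact left E (below_trans hc hE) ((below_le hE).2.trans hpos)

/-- localization, right version -/
theorem locate_right (hL : SpecLOCR) (hC : SpecCONT) (f : α → G) (L : Q → Set (List α))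
    (T : Tr Q α) (hT : T.Valid L) {O I : Nd Q α} (hO : Below ⟨0, T⟩ O) (hR : Rec f T.yd O I)
    {b P φ len θ : ℕ} (h1 : b ≤ I.en) (h2 : 3 * P ≤ O.en - I.en)
    (h3 : I.st - O.st ≤ θ * (O.en - I.en)) (h4 : φ + len ≤ P) (h5 : 12 ≤ len) :
    ∃ a c t, b + a * P + φ + len ≤ O.en ∧ Below O (c 0) ∧
      Arm f L T.yd (RG f L T.yd O) c t (b + a * P + φ) (b + a * P + φ + len) len
        ((4 + 3 * θ) * P) := by
  obtain ⟨a, ha1, ha2, c, t, hc, h⟩ := hL O I b P φ len θ hR.1 h1 h2 h3 h4 h5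
  refine ⟨a, c, t, ha2, hc, ?_⟩
  have cont := fun E => hC f L T hT O I E hO hR
  have right : ∀ E, Below O E → I.en ≤ E.st → GN f L T.yd (RG f L T.yd O) E :=
    fun E h6 h7 => (cont E).2.2.1 h6 h7
  rcases h with ⟨harm, hm, ho, hpos⟩ | ⟨harm, hm, ho, hpos⟩
  · right
    refine ⟨harm, hm, ho, ?_, ?_⟩
    · intro i hi
      have b1 : Below O (c i) := below_trans hc (chain_below harm.1 (Nat.zero_le i) hi)
      rcases hpos with hp | hp
      · exact ((cont (c i)).1 b1 (below_trans (chain_below harm.1 hi le_rfl) hp)).2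
      · exact (right (c i) b1
          (hp.trans (below_le (chain_below harm.1 (Nat.zero_le i) hi)).1)).2.1
    · intro E hE hE2
      refine right E (below_trans hc hE) ?_
      rcases hpos with hp | hp
      · exact (below_le hp).2.trans hE2
      · exact hp.trans (below_le hE).1
  · left
    refine ⟨harm, hm, ho, ?_, ?_⟩
    · intro i hi
      have b1 := chain_below harm.1 (Nat.zero_le i) hi
      exact (right (c i) (below_trans hc b1) (hpos.trans (below_le b1).1)).1
    · intro E hE _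
      exact right E (below_trans hc hE) (hpos.trans (below_le hE).1)

/-- both versions of the localization, in a block `u^n` at position `b` -/
theorem copy (hL : SpecLOCL) (hR : SpecLOCR) (hC : SpecCONT) (f : α → G) (L : Q → Set (List α))
    (T : Tr Q α) (hT : T.Valid L) {O I : Nd Q α} (hO : Below ⟨0, T⟩ O) (hrec : Rec f T.yd O I)
    {b n θ : ℕ} {u₁ u₂ u₃ : List α} (h5 : 12 ≤ u₂.length) :
    (b ≤ O.st → I.st ≤ b + n * (u₁ ++ u₂ ++ u₃).length →
      3 * (u₁ ++ u₂ ++ u₃).length ≤ I.st - O.st → O.en - I.en ≤ θ * (I.st - O.st) →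
      ∃ a c t, a < n ∧ Below ⟨0, T⟩ (c 0) ∧
        Arm f L T.yd (LG f L T.yd O) c t (b + a * (u₁ ++ u₂ ++ u₃).length + u₁.length)
          (b + a * (u₁ ++ u₂ ++ u₃).length + u₁.length + u₂.length) u₂.length
          ((4 + 3 * θ) * (u₁ ++ u₂ ++ u₃).length)) ∧
    (b ≤ I.en → O.en ≤ b + n * (u₁ ++ u₂ ++ u₃).length →
      3 * (u₁ ++ u₂ ++ u₃).length ≤ O.en - I.en → I.st - O.st ≤ θ * (O.en - I.en) →
      ∃ a c t, a < n ∧ Below ⟨0, T⟩ (c 0) ∧
        Arm f L T.yd (RG f L T.yd O) c t (b + a * (u₁ ++ u₂ ++ u₃).length + u₁.length)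
          (b + a * (u₁ ++ u₂ ++ u₃).length + u₁.length + u₂.length) u₂.length
          ((4 + 3 * θ) * (u₁ ++ u₂ ++ u₃).length)) := by
  have hφ : u₁.length + u₂.length ≤ (u₁ ++ u₂ ++ u₃).length := by
    simp only [List.length_append]
    omega
  constructor
  · intro h1 h2 h3 h4
    obtain ⟨a, c, t, e1, e2, e3⟩ := locate_left hL hC f L T hT hO hrec h1 h3 h4 hφ h5
    refine ⟨a, c, t, ?_, below_trans hO e2, e3⟩
    have : a * (u₁ ++ u₂ ++ u₃).length < n * (u₁ ++ u₂ ++ u₃).length := by omega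
    exact lt_of_mul_lt_mul_right this (Nat.zero_le _)
  · intro h1 h2 h3 h4
    obtain ⟨a, c, t, e1, e2, e3⟩ := locate_right hR hC f L T hT hO hrec h1 h3 h4 hφ h5
    refine ⟨a, c, t, ?_, below_trans hO e2, e3⟩
    have : a * (u₁ ++ u₂ ++ u₃).length < n * (u₁ ++ u₂ ++ u₃).length := by omega
    exact lt_of_mul_lt_mul_right this (Nat.zero_le _)

end Loc

/-! ### the case of a blob -/

theorem arith {C c₁ c₂ θ mc Big S Pd x nbv len main : ℕ}
    (h0 : 8 * C * (c₁ * (4 + 3 * θ) * mc + c₂ + 2) + 12 ≤ Big)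
    (h1 : nbv * Big ≤ c₁ * x + c₂ * Big) (h2 : x ≤ (4 + 3 * θ) * Pd) (h3 : Pd ≤ mc * S)
    (h4 : Big ≤ S) (h5 : S ≤ len) (h6 : len ≤ 4 * main) : (nbv + 2) * C ≤ main := by
  have hB : 0 < Big := by omega
  set A := c₁ * (4 + 3 * θ) * mc with hA
  have g1 : c₁ * x ≤ A * S := by
    calc c₁ * x ≤ c₁ * ((4 + 3 * θ) * (mc * S)) :=
          Nat.mul_le_mul_left _ (h2.trans (Nat.mul_le_mul_left _ h3))
      _ = A * S := by rw [hA]; ring
  have g2 : 8 * C * A ≤ Big := by
    have : 8 * C * A ≤ 8 * C * (A + c₂ + 2) := Nat.mul_le_mul_left _ (by omega)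
    omega
  have g3 : 8 * C * (c₂ + 2) ≤ S := by
    have : 8 * C * (c₂ + 2) ≤ 8 * C * (A + c₂ + 2) := Nat.mul_le_mul_left _ (by omega)
    omega
  have g4 : 8 * C * A * S ≤ Big * S := Nat.mul_le_mul_right _ g2
  have g5 : 8 * C * (c₂ + 2) * Big ≤ S * Big := Nat.mul_le_mul_right _ g3
  have g6 : 8 * C * (nbv * Big) ≤ 8 * C * (A * S + c₂ * Big) :=
    Nat.mul_le_mul_left _ (h1.trans (Nat.add_le_add_right g1 _))
  have g7 : (4 * ((nbv + 2) * C)) * Big ≤ S * Big := by nlinarith
  have g8 : 4 * ((nbv + 2) * C) ≤ S := Nat.le_of_mul_le_mul_right g7 hB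
  omega

theorem nb_zero_le {B : Finset ℕ} {i j : ℕ} : 0 ≤ nb B i j := Nat.zero_le _

end MPab.Mn

namespace MPab

open Mn

/-- module MAINBLOB -/
theorem specMAINBLOB (hL : SpecLOCL) (hR : SpecLOCR) (hC : SpecCONT) : SpecMAINBLOB := by
  intro α Q G _ _ f L P K C P0 hP hval hP0 hBR hBL
  intro mc θ Np c₁ c₂
  refine ⟨8 * C * (c₁ * (4 + 3 * θ) * mc + c₂ + 2) + 12, ?_⟩
  intro Big hBig T hT Ps _ _ B hB hcost b n S u₁ u₂ u₃ hat hu hNW hlen O I hO hrec
  have hPl : 1 ≤ P.length := List.length_pos_iff.2 hP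
  obtain ⟨n', hu₂, g1, g2, g3⟩ : ∃ n', u₂ = rep n' P ∧ S ≤ n' * P.length ∧
      n' * P.length ≤ 2 * S ∧ Big * P.length ≤ S := by
    cases hNW with
    | blob _ n' g1 g2 g3 => exact ⟨n', rfl, g1, g2, g3⟩
  have hBS : Big ≤ S := (Nat.le_mul_of_pos_right _ hPl).trans g3
  have hl2 : u₂.length = n' * P.length := by rw [hu₂, length_rep]
  have h12 : 12 ≤ u₂.length := by omega
  -- the blob lemma for an arm
  have key : ∀ (H : Subgroup G) (a : ℕ) (c : ℕ → Nd Q α) (t : ℕ), a < n →
      Below ⟨0, T⟩ (c 0) →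
      Arm f L T.yd H c t (b + a * (u₁ ++ u₂ ++ u₃).length + u₁.length)
          (b + a * (u₁ ++ u₂ ++ u₃).length + u₁.length + u₂.length) u₂.length
          ((4 + 3 * θ) * (u₁ ++ u₂ ++ u₃).length) →
      Good f K P0 (AA f L) (cj (pos f T.yd b * val f u₁)⁻¹ H) .blob := by
    intro H a c t ha hc harm
    have hpos := pos_copy hat f hu ha
    have hat' : At T.yd (b + a * (u₁ ++ u₂ ++ u₃).length + u₁.length) (rep n' P) := by
      rw [← hu₂]
      exact At.mid (At.rep hat ha)
    suffices h : ∃ k ∈ K, pos f T.yd b * val f u₁ * k * (pos f T.yd b * val f u₁)⁻¹ ∈ H by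
      obtain ⟨k, hk, hk2⟩ := h
      refine ⟨k, hk, ?_⟩
      rw [mem_cj, inv_inv]
      exact hk2
    rw [← hpos]
    rcases harm with ⟨h1, h2, h3, h4, h5⟩ | ⟨h1, h2, h3, h4, h5⟩
    · have hb1 := below_le (chain_below h1.1 (Nat.zero_le t) le_rfl)
      obtain ⟨k, hk, hk2⟩ := hBR T hT B hB c t _ n' hc hat' (by rwa [hl2] at h1)
        (arith hBig (hcost _ _ hb1.2) h3 hlen hBS (by omega) h2)
      refine ⟨k, hk, ?_⟩
      rcases hk2 with ⟨i, hi, hi2⟩ | ⟨E, hE, hE2, hE3⟩
      · exact h4 i hi hi2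
      · exact (h5 E hE hE2).2.2 _ hE3
    · have hb1 := below_le (chain_below h1.1 (Nat.zero_le t) le_rfl)
      obtain ⟨k, hk, hk2⟩ := hBL T hT B hB c t _ n' hc hat' (by rwa [hl2] at h1)
        (arith hBig (hcost _ _ hb1.1) h3 hlen hBS (by omega) h2)
      refine ⟨k, hk, ?_⟩
      rcases hk2 with ⟨i, hi, hi2⟩ | ⟨E, hE, hE2, hE3⟩
      · exact h4 i hi hi2
      · exact (h5 E hE hE2).2.2 _ hE3
  obtain ⟨l1, l2⟩ := copy hL hR hC f L T hT hO hrec (b := b) (n := n) (θ := θ) (u₁ := u₁)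
    (u₃ := u₃) h12
  constructor
  · intro e1 e2 e3 e4
    obtain ⟨a, c, t, ha, hc, harm⟩ := l1 e1 e2 e3 e4
    exact key _ a c t ha hc harm
  · intro e1 e2 e3 e4
    obtain ⟨a, c, t, ha, hc, harm⟩ := l2 e1 e2 e3 e4
    exact key _ a c t ha hc harm

/-- module MAINSUB -/
theorem specMAINSUB (hL : SpecLOCL) (hR : SpecLOCR) (hC : SpecCONT) (hLL : SpecLL)
    (hEX : SpecNWEX) (hLEN : SpecNWLEN) (hPOS : SpecNWPOS) : SpecMAINSUB := by
  intro α Q G _ _ f L P K P0 hP hval hP0 W hW hmain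
  intro mc θ Np c₁ c₂
  obtain ⟨mc', hmc'⟩ := hLEN W
  set Cm := Nat.card Q * Np ^ 2 with hCm
  set θ' := 16 * (Cm + 1) * ((4 + 3 * θ) * mc) + 1 with hθ'
  obtain ⟨Big₀, hBig₀⟩ := hmain mc' θ' Np c₁ c₂
  refine ⟨Big₀ + (4 * ((2 * Cm + 2) * (4 ^ (Cm + 1) * 3 + 1)) + 12), ?_⟩
  intro Big hBig T hT Ps hPs hPsm B hB hcost b n S u₁ u₂ u₃ hat hu hNW hlen O I hO hrec
  obtain ⟨n', S', u', hNW', hu₂, g1, g2, g3⟩ : ∃ n' S' u', NW P Big S' W u' ∧ u₂ = rep n' u' ∧
      S ≤ n' * u'.length ∧ n' * u'.length ≤ 2 * S ∧ Big * u'.length ≤ S := by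
    cases hNW with
    | sub _ n' _ S' u' g0 g1 g2 g3 => exact ⟨n', S', u', g0, rfl, g1, g2, g3⟩
  have hBig1 : 1 ≤ Big := by omega
  have hS'1 := (hEX P Big W hP hBig1).2 S' u' hNW'
  have hul : 1 ≤ u'.length := hBig1.trans (hS'1.1.trans hS'1.2)
  have hBS : Big ≤ S := (Nat.le_mul_of_pos_right _ hul).trans g3
  have hl2 : u₂.length = n' * u'.length := by rw [hu₂, length_rep]
  have h12 : 12 ≤ u₂.length := by omega
  obtain ⟨hval', hpos'⟩ := hPOS f P P0 Big W S' u' hval hP0 hW hNW'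
  -- the colouring
  have : Finite {g // g ∈ Ps} := inferInstance
  set col : ℕ → {g // g ∈ Ps} := fun i => ⟨pos f T.yd i, hPsm i⟩ with hcol
  have hcolp : ∀ i j, col i = col j → pos f T.yd i = pos f T.yd j := fun i j h =>
    congrArg Subtype.val h
  have hcard : Nat.card {g // g ∈ Ps} ≤ Np := by
    rw [Nat.card_eq_fintype_card, Fintype.card_coe]
    exact hPs
  set C := Nat.card Q * Nat.card {g // g ∈ Ps} ^ 2 with hCdef
  have hCC : C ≤ Cm := Nat.mul_le_mul_left _ (Nat.pow_le_pow_left hcard 2)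
  have key : ∀ (H : Subgroup G) (a : ℕ) (c : ℕ → Nd Q α) (t : ℕ), a < n →
      Below ⟨0, T⟩ (c 0) →
      Arm f L T.yd H c t (b + a * (u₁ ++ u₂ ++ u₃).length + u₁.length)
          (b + a * (u₁ ++ u₂ ++ u₃).length + u₁.length + u₂.length) u₂.length
          ((4 + 3 * θ) * (u₁ ++ u₂ ++ u₃).length) →
      Good f K P0 (AA f L) (cj (pos f T.yd b * val f u₁)⁻¹ H) (.sub W) := by
    intro H a c t ha hc harm
    have hpos := pos_copy hat f hu ha
    have hat' : At T.yd (b + a * (u₁ ++ u₂ ++ u₃).length + u₁.length) (rep n' u') := by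
      rw [← hu₂]
      exact At.mid (At.rep hat ha)
    rw [← hpos]
    set f₀ := b + a * (u₁ ++ u₂ ++ u₃).length + u₁.length with hf₀
    have hat'' : At T.yd f₀ (rep n' ([] ++ u' ++ [])) := by simpa using hat'
    have hlen' : ([] ++ u' ++ [] : List α).length = u'.length := by simp
    -- finishing
    have finL : ∀ O' I' : Nd Q α, Below ⟨0, T⟩ O' → Rec f T.yd O' I' → LG f L T.yd O' ≤ H →
        f₀ ≤ O'.st → I'.st ≤ f₀ + n' * u'.length → 3 * u'.length ≤ I'.st - O'.st →
        O'.en - I'.en ≤ θ' * (I'.st - O'.st) →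
        Good f K P0 (AA f L) (cj (pos f T.yd f₀)⁻¹ H) (.sub W) := by
      intro O' I' hO' hrec' hH e1 e2 e3 e4
      have hg := (hBig₀ Big (by omega) T hT Ps hPs hPsm B hB hcost f₀ n' S' [] u' [] hat''
        (by simpa using hval') hNW' (by rw [hlen']; exact hmc' P Big S' u' hP hBig1 hNW')
        O' I' hO' hrec').1 e1 (by rw [hlen']; exact e2) (by rw [hlen']; exact e3) e4
      have hbl := below_le hrec'.1
      obtain ⟨k, hk⟩ := pos_block hat' f hval' (i := O'.st) e1
        (hbl.1.trans e2)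
      have e5 : cj ((pos f T.yd f₀)⁻¹ * pos f T.yd O'.st) (AA f L (O'.lab, false)) =
          cj (pos f T.yd f₀)⁻¹ (LG f L T.yd O') := cj_mul _ _ _
      refine ⟨(O'.lab, false), (pos f T.yd f₀)⁻¹ * pos f T.yd O'.st, ?_, ?_, ?_⟩
      · rw [hk, inv_mul_cancel_left]
        exact hpos' k
      · rw [e5]
        exact cj_mono hH
      · rw [e5]
        simpa [val] using hg
    have finR : ∀ O' I' : Nd Q α, Below ⟨0, T⟩ O' → Rec f T.yd O' I' → RG f L T.yd O' ≤ H →
        f₀ ≤ I'.en → O'.en ≤ f₀ + n' * u'.length → 3 * u'.length ≤ O'.en - I'.en →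
        I'.st - O'.st ≤ θ' * (O'.en - I'.en) →
        Good f K P0 (AA f L) (cj (pos f T.yd f₀)⁻¹ H) (.sub W) := by
      intro O' I' hO' hrec' hH e1 e2 e3 e4
      have hg := (hBig₀ Big (by omega) T hT Ps hPs hPsm B hB hcost f₀ n' S' [] u' [] hat''
        (by simpa using hval') hNW' (by rw [hlen']; exact hmc' P Big S' u' hP hBig1 hNW')
        O' I' hO' hrec').2 e1 (by rw [hlen']; exact e2) (by rw [hlen']; exact e3) e4
      have hbl := below_le hrec'.1
      obtain ⟨k, hk⟩ := pos_block hat' f hval' (i := O'.en) (e1.trans hbl.2) e2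
      have e5 : cj ((pos f T.yd f₀)⁻¹ * pos f T.yd O'.en) (AA f L (O'.lab, true)) =
          cj (pos f T.yd f₀)⁻¹ (RG f L T.yd O') := cj_mul _ _ _
      refine ⟨(O'.lab, true), (pos f T.yd f₀)⁻¹ * pos f T.yd O'.en, ?_, ?_, ?_⟩
      · rw [hk, inv_mul_cancel_left]
        exact hpos' k
      · rw [e5]
        exact cj_mono hH
      · rw [e5]
        simpa [val] using hg
    -- the bound needed for LL
    have hmono : (2 * C + 2) * (4 ^ (C + 1) * (3 * u'.length) + 1) ≤
        (2 * Cm + 2) * (4 ^ (Cm + 1) * 3 + 1) * u'.length := by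
      have p1 : 4 ^ (C + 1) ≤ 4 ^ (Cm + 1) := Nat.pow_le_pow_right (by norm_num) (by omega)
      calc (2 * C + 2) * (4 ^ (C + 1) * (3 * u'.length) + 1)
          ≤ (2 * Cm + 2) * (4 ^ (Cm + 1) * (3 * u'.length) + u'.length) := by
            refine Nat.mul_le_mul (by omega) ?_
            have := Nat.mul_le_mul_right (3 * u'.length) p1
            omega
        _ = (2 * Cm + 2) * (4 ^ (Cm + 1) * 3 + 1) * u'.length := by ring
    have hLLb : ∀ main : ℕ, u₂.length ≤ 4 * main →
        (2 * C + 2) * (4 ^ (C + 1) * (3 * u'.length) + 1) ≤ main := by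
      intro main hm
      have p2 : 4 * ((2 * Cm + 2) * (4 ^ (Cm + 1) * 3 + 1)) * u'.length ≤ Big * u'.length :=
        Nat.mul_le_mul_right _ (by omega)
      have p3 : 4 * ((2 * Cm + 2) * (4 ^ (Cm + 1) * 3 + 1)) * u'.length =
          4 * ((2 * Cm + 2) * (4 ^ (Cm + 1) * 3 + 1) * u'.length) := by ring
      omega
    -- the bound for the ratio
    have hratio : ∀ main other x : ℕ, u₂.length ≤ 4 * main →
        other ≤ (4 + 3 * θ) * (u₁ ++ u₂ ++ u₃).length → main ≤ 4 * (C + 1) * x →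
        other ≤ θ' * x := by
      intro main other x q1 q2 q3
      calc other ≤ (4 + 3 * θ) * (mc * S) := q2.trans (Nat.mul_le_mul_left _ hlen)
        _ ≤ (4 + 3 * θ) * (mc * (4 * (4 * (C + 1) * x))) := by
            refine Nat.mul_le_mul_left _ (Nat.mul_le_mul_left _ ?_)
            omega
        _ = 16 * (C + 1) * ((4 + 3 * θ) * mc) * x := by ring
        _ ≤ θ' * x := by
            refine Nat.mul_le_mul_right _ ?_
            have : 16 * (C + 1) * ((4 + 3 * θ) * mc) ≤ 16 * (Cm + 1) * ((4 + 3 * θ) * mc) :=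
              Nat.mul_le_mul_right _ (by omega)
            omega
    have hone : ∀ x y : ℕ, x ≤ y → x ≤ θ' * y := fun x y hxy =>
      hxy.trans (Nat.le_mul_of_pos_left _ (by omega))
    obtain ⟨LR, LLft⟩ := hLL col c t f₀ (f₀ + u₂.length) (3 * u'.length) C hCdef (by omega)
    rcases harm with ⟨h1, h2, h3, h4, h5⟩ | ⟨h1, h2, h3, h4, h5⟩
    · obtain ⟨O', I', b1, b2, b3, b4, b5, hcase⟩ := LR h1 (hLLb _ h2)
      have hrec' : Rec f T.yd O' I' := ⟨b2, b3, hcolp _ _ b4, hcolp _ _ b5⟩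
      have hO' : Below ⟨0, T⟩ O' := below_trans hc b1
      obtain ⟨a1, a2, a3, a4⟩ := h1
      have m1 := below_le b1
      have m2 := below_le b2
      rcases hcase with ⟨i, j, hij, hj, rfl, rfl, k1, k2⟩ | ⟨k0, hk⟩
      · have m3 := below_le (chain_below a1 hj le_rfl)
        refine finL (c i) (c j) hO' hrec' (h4 i (by omega)) (a2.trans m1.1)
          (m3.1.trans (by rw [← hl2]; exact a3)) k1 ?_
        refine hratio _ _ _ h2 (le_trans ?_ h3) k2
        have := m1.2
        have := m3.2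
        omega
      · have gn := h5 O' b1 k0
        have m4 := st_le_en I'
        rcases hk with ⟨k1, k2⟩ | ⟨k1, k2⟩
        · exact finL O' I' hO' hrec' gn.1 (a2.trans m1.1) (by omega) k1 (hone _ _ k2)
        · exact finR O' I' hO' hrec' gn.2.1 (by omega) (by omega) k1 (hone _ _ k2)
    · obtain ⟨O', I', b1, b2, b3, b4, b5, hcase⟩ := LLft h1 (hLLb _ h2)
      have hrec' : Rec f T.yd O' I' := ⟨b2, b3, hcolp _ _ b4, hcolp _ _ b5⟩
      have hO' : Below ⟨0, T⟩ O' := below_trans hc b1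
      obtain ⟨a1, a2, a3, a4⟩ := h1
      have m1 := below_le b1
      have m2 := below_le b2
      rcases hcase with ⟨i, j, hij, hj, rfl, rfl, k1, k2⟩ | ⟨k0, hk⟩
      · have m3 := below_le (chain_below a1 hj le_rfl)
        refine finR (c i) (c j) hO' hrec' (h4 i (by omega)) (a3.trans m3.2)
          (m1.2.trans (by rw [← hl2]; exact a4)) k1 ?_
        refine hratio _ _ _ h2 (le_trans ?_ h3) k2
        have := m1.1
        have := m3.1
        omega
      · have gn := h5 O' b1 k0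
        have m4 := st_le_en I'
        rcases hk with ⟨k1, k2⟩ | ⟨k1, k2⟩
        · exact finL O' I' hO' hrec' gn.1 (by omega) (by omega) k1 (hone _ _ k2)
        · exact finR O' I' hO' hrec' gn.2.1 (by omega) (by omega) k1 (hone _ _ k2)
  obtain ⟨l1, l2⟩ := copy hL hR hC f L T hT hO hrec (b := b) (n := n) (θ := θ) (u₁ := u₁)
    (u₃ := u₃) h12
  constructor
  · intro e1 e2 e3 e4
    obtain ⟨a, c, t, ha, hc, harm⟩ := l1 e1 e2 e3 e4
    exact key _ a c t ha hc harm
  · intro e1 e2 e3 e4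
    obtain ⟨a, c, t, ha, hc, harm⟩ := l2 e1 e2 e3 e4
    exact key _ a c t ha hc harm

end MPab
end

section
/-!
# MP_ab497f_al, module STAIR0 : locations, windows, and the case of a constant end
-/
set_option autoImplicit false

namespace MPab

namespace STAIR0

variable {len : ZMod 10 → ℕ} {x : ℕ}

theorem rs_zero : rs len x 0 = 0 := by simp [rs]

theorem rs_succ (m : ℕ) : rs len x (m + 1) = rs len x m + x * len (m : ZMod 10) := by
  simp [rs, Finset.sum_range_succ]

theorem rs_lt (hx : 0 < x) (hl : ∀ k, 1 ≤ len k) (m : ℕ) : rs len x m < rs len x (m + 1) := by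
  rw [rs_succ]
  have := Nat.mul_pos hx (hl (m : ZMod 10))
  omega

theorem rs_strictMono (hx : 0 < x) (hl : ∀ k, 1 ≤ len k) : StrictMono (rs len x) :=
  strictMono_nat_of_lt_succ (rs_lt hx hl)

theorem exists_loc (hx : 0 < x) (hl : ∀ k, 1 ≤ len k) (i : ℕ) :
    ∃ m a φ : ℕ, Loc len x i m a φ := by
  have hm := rs_strictMono hx hl
  have hex : ∃ m, i < rs len x (m + 1) := ⟨i, (hm.id_le (i + 1))⟩
  classical
  have h1 := Nat.find_spec hex
  have h2 : rs len x (Nat.find hex) ≤ i := by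
    by_cases h0 : Nat.find hex = 0
    · rw [h0, rs_zero]
      exact Nat.zero_le _
    · have := Nat.find_min hex (m := Nat.find hex - 1) (by omega)
      rw [Nat.sub_add_cancel (by omega)] at this
      omega
  obtain ⟨m, hm'⟩ : ∃ m, m = Nat.find hex := ⟨_, rfl⟩
  rw [← hm'] at h1 h2
  rw [rs_succ] at h1
  have hlp : 0 < len (m : ZMod 10) := hl _
  refine ⟨m, (i - rs len x m) / len (m : ZMod 10), (i - rs len x m) % len (m : ZMod 10), ?_,
    Nat.mod_lt _ hlp, ?_⟩
  · rw [Nat.div_lt_iff_lt_mul hlp]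
    omega
  · have := Nat.div_add_mod' (i - rs len x m) (len (m : ZMod 10))
    omega

theorem loc_bounds {i m a φ : ℕ} (h : Loc len x i m a φ) :
    rs len x m ≤ i ∧ i < rs len x (m + 1) := by
  obtain ⟨h1, h2, h3⟩ := h
  rw [rs_succ]
  have h4 : (a + 1) * len (m : ZMod 10) ≤ x * len (m : ZMod 10) :=
    Nat.mul_le_mul_right _ (by omega)
  rw [Nat.add_mul, one_mul] at h4
  omega

theorem run_unique (hx : 0 < x) (hl : ∀ k, 1 ≤ len k) {i m m' : ℕ}
    (h1 : rs len x m ≤ i) (h2 : i < rs len x (m + 1)) (h3 : rs len x m' ≤ i)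
    (h4 : i < rs len x (m' + 1)) : m = m' := by
  have hm := rs_strictMono hx hl
  have h5 : m < m' + 1 := hm.lt_iff_lt.mp (lt_of_le_of_lt h1 h4)
  have h6 : m' < m + 1 := hm.lt_iff_lt.mp (lt_of_le_of_lt h3 h2)
  omega

theorem rs_ten (m : ℕ) : rs len x (m + 10) = rs len x m + x * ell len := by
  have h : ∑ i ∈ Finset.range 10, len ((m : ZMod 10) + (i : ZMod 10)) = ell len := by
    have h1 : ∑ k : ZMod 10, len ((m : ZMod 10) + k) = ell len :=
      Equiv.sum_comp (Equiv.addLeft (m : ZMod 10)) len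
    rw [← h1]
    refine Finset.sum_nbij' (fun i => (i : ZMod 10)) (fun k => k.val) ?_ ?_ ?_ ?_ ?_
    · intro i _
      exact Finset.mem_univ _
    · intro k _
      exact Finset.mem_range.mpr (ZMod.val_lt k)
    · intro i hi
      exact ZMod.val_cast_of_lt (Finset.mem_range.mp hi)
    · intro k _
      exact ZMod.natCast_zmod_val k
    · intro i _
      rfl
  rw [← h, rs, Finset.sum_range_add, ← rs, Finset.mul_sum]
  simp [Nat.cast_add]

/-! ### windows -/

theorem window {s : ℕ → ℕ} {t h w : ℕ} (hs : ∀ i < t, s (i + 1) < s i + h) (h0 : s 0 < w + h)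
    (ht : w ≤ s t) : ∃ i ≤ t, w ≤ s i ∧ s i < w + h := by
  classical
  have hex : ∃ i, w ≤ s i := ⟨t, ht⟩
  have h1 := Nat.find_spec hex
  have h2 : Nat.find hex ≤ t := Nat.find_min' hex ht
  refine ⟨Nat.find hex, h2, h1, ?_⟩
  by_cases h3 : Nat.find hex = 0
  · rw [h3]
    exact h0
  · have h4 := Nat.find_min hex (m := Nat.find hex - 1) (by omega)
    have h5 := hs (Nat.find hex - 1) (by omega)
    rw [Nat.sub_add_cancel (by omega)] at h5
    omega

theorem window' {s : ℕ → ℕ} {t h w i₀ j : ℕ} (hs : ∀ i < t, s i < s (i + 1) + h)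
    (h0 : w + h ≤ s i₀) (hj : s j < w + h) (hjt : j ≤ t) (hij : i₀ ≤ j) :
    ∃ i ≤ t, w ≤ s i ∧ s i < w + h := by
  classical
  have hex : ∃ i, i₀ ≤ i ∧ s i < w + h := ⟨j, hij, hj⟩
  have h1 := Nat.find_spec hex
  have h2 : Nat.find hex ≤ j := Nat.find_min' hex ⟨hij, hj⟩
  refine ⟨Nat.find hex, by omega, ?_, h1.2⟩
  have h3 : Nat.find hex ≠ i₀ := by
    intro h
    rw [h] at h1
    omega
  have h4 := Nat.find_min hex (m := Nat.find hex - 1) (by omega)
  have h5 := hs (Nat.find hex - 1) (by omega)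
  rw [Nat.sub_add_cancel (by omega)] at h5
  have h6 : ¬ s (Nat.find hex - 1) < w + h := fun h => h4 ⟨by omega, h⟩
  omega

theorem pick {s : ℕ → ℕ} {t h A L N : ℕ} (hN : N * h ≤ L)
    (H : ∀ w, A ≤ w → w + h ≤ A + L → ∃ i ≤ t, w ≤ s i ∧ s i < w + h) :
    ∃ e : ℕ → ℕ, (∀ j < N, e j ≤ t ∧ A ≤ s (e j) ∧ s (e j) < A + L) ∧
      ∀ j < N, ∀ j' < N, j < j' → s (e j) < s (e j') := by
  have H' : ∀ j, j < N → ∃ i ≤ t, A + j * h ≤ s i ∧ s i < A + j * h + h := by
    intro j hj
    apply H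
    · omega
    · have : (j + 1) * h ≤ N * h := Nat.mul_le_mul_right _ hj
      rw [Nat.add_mul, one_mul] at this
      omega
  choose! e he using H'
  refine ⟨e, fun j hj => ?_, fun j hj j' hj' hjj => ?_⟩
  · obtain ⟨h1, h2, h3⟩ := he j hj
    have : (j + 1) * h ≤ N * h := Nat.mul_le_mul_right _ hj
    rw [Nat.add_mul, one_mul] at this
    exact ⟨h1, by omega, by omega⟩
  · obtain ⟨-, -, h3⟩ := he j hj
    obtain ⟨-, h4, -⟩ := he j' hj'
    have : (j + 1) * h ≤ j' * h := Nat.mul_le_mul_right _ hjj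
    rw [Nat.add_mul, one_mul] at this
    omega

theorem pick_card {s : ℕ → ℕ} {t h A L N : ℕ} (hN : N * h ≤ L)
    (H : ∀ w, A ≤ w → w + h ≤ A + L → ∃ i ≤ t, w ≤ s i ∧ s i < w + h) :
    N ≤ (Finset.filter (fun i => A ≤ s i ∧ s i < A + L) (Finset.range (t + 1))).card := by
  obtain ⟨e, h1, h2⟩ := pick hN H
  rw [← Finset.card_range N]
  refine Finset.card_le_card_of_injOn e ?_ ?_
  · intro j hj
    have hj' : j < N := by simpa using hj
    have := h1 j hj'
    simp only [Finset.coe_filter, Finset.mem_range, Set.mem_ofPred_eq]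
    exact ⟨by omega, this.2⟩
  · intro j hj j' hj' he
    have hjN : j < N := by simpa using hj
    have hjN' : j' < N := by simpa using hj'
    by_contra hne
    rcases lt_or_gt_of_ne hne with h | h
    · have := h2 j hjN j' hjN' h
      rw [he] at this
      exact lt_irrefl _ this
    · have := h2 j' hjN' j hjN h
      rw [he] at this
      exact lt_irrefl _ this

/-! ### displacement in one run -/

theorem pl_sub (d : ZMod 10 → ℤ × ℤ) (m a a' : ℕ) :
    pl d x m a' - pl d x m a = ((a' : ℤ) - a) • d (m : ZMod 10) := by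
  rw [pl, pl, sub_smul]
  abel

theorem smul_ne {z : ℤ} {v : ℤ × ℤ} (hz : z ≠ 0) (hv : v ≠ 0) : z • v ≠ 0 := by
  intro h
  have h1 : z * v.1 = 0 := by simpa using congrArg Prod.fst h
  have h2 : z * v.2 = 0 := by simpa using congrArg Prod.snd h
  rcases mul_eq_zero.mp h1 with h | h
  · exact hz h
  · rcases mul_eq_zero.mp h2 with h' | h'
    · exact hz h'
    · exact hv (Prod.ext h h')

theorem ell_pos (hl : ∀ k, 1 ≤ len k) : 10 ≤ ell len := by
  have h : ∑ _k : ZMod 10, 1 ≤ ell len := Finset.sum_le_sum fun k _ => hl k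
  simpa using h

theorem len_le_ell (k : ZMod 10) : len k ≤ ell len :=
  Finset.single_le_sum (f := len) (fun i _ => Nat.zero_le (len i)) (Finset.mem_univ k)

theorem hh_pos (Q : Type) : 0 < hh Q len := by
  unfold hh
  positivity

end STAIR0

open STAIR0

theorem specSTAIR0 : SpecSTAIR0 := by
  intro Q _ _ d len x t sg lb U hl hd hx hstep hper hU
  have hhp := hh_pos (len := len) Q
  have hx0 : 0 < x := lt_of_lt_of_le (Nat.mul_pos hhp (by omega)) hx
  obtain ⟨k, hk⟩ : ∃ k, k = (exists_loc hx0 hl (sg 0)).choose := ⟨_, rfl⟩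
  obtain ⟨a₀, φ₀, hloc₀⟩ := (exists_loc hx0 hl (sg 0)).choose_spec
  rw [← hk] at hloc₀
  have hb₀ := loc_bounds hloc₀
  -- run `k + 1` is full
  have hten := rs_ten (len := len) (x := x) k
  have hmono := rs_strictMono hx0 hl
  have hend : rs len x (k + 2) ≤ sg t := by
    have : rs len x (k + 2) ≤ rs len x (k + 10) := hmono.monotone (by omega)
    omega
  have hwin : ∀ w, rs len x (k + 1) ≤ w →
      w + hh Q len ≤ rs len x (k + 1) + x * len ((k + 1 : ℕ) : ZMod 10) →
      ∃ i ≤ t, w ≤ sg i ∧ sg i < w + hh Q len := by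
    intro w hw1 hw2
    refine window (fun i hi => (hstep i hi).2) (by omega) ?_
    have := rs_succ (len := len) (x := x) (k + 1)
    rw [show k + 1 + 1 = k + 2 from rfl] at this
    omega
  have hN : (C1 Q len + 1) * hh Q len ≤ x * len ((k + 1 : ℕ) : ZMod 10) := by
    have h1 : (C1 Q len + 1) * hh Q len ≤ x := by
      refine le_trans ?_ hx
      rw [mul_comm]
      exact Nat.mul_le_mul_left _ (by omega)
    exact h1.trans (Nat.le_mul_of_pos_right x (hl _))
  obtain ⟨e, he1, he2⟩ := pick hN hwin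
  have hrun : ∀ j < C1 Q len + 1, ∃ a φ, Loc len x (sg (e j)) (k + 1) a φ := by
    intro j hj
    obtain ⟨m, a, φ, h⟩ := exists_loc hx0 hl (sg (e j))
    have h1 := loc_bounds h
    have h2 := he1 j hj
    rw [← rs_succ] at h2
    have : m = k + 1 := run_unique hx0 hl h1.1 h1.2 h2.2.1 h2.2.2
    subst this
    exact ⟨a, φ, h⟩
  choose! a φ hloc using hrun
  classical
  have : Fintype Q := Fintype.ofFinite Q
  have hcard : Fintype.card (Q × Fin (ell len)) < Fintype.card (Fin (C1 Q len + 1)) := by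
    rw [Fintype.card_prod, Fintype.card_fin, Fintype.card_fin, C1, Nat.card_eq_fintype_card, sq]
    have h1 := ell_pos hl
    have h2 : Fintype.card Q * ell len ≤ Fintype.card Q * (ell len * ell len) :=
      Nat.mul_le_mul_left _ (Nat.le_mul_of_pos_right _ (by omega))
    omega
  obtain ⟨j, j', hne, hjj⟩ := Fintype.exists_ne_map_eq_of_card_lt
    (fun j : Fin (C1 Q len + 1) => ((lb (e j), ⟨φ j, lt_of_lt_of_le (hloc j j.2).2.1
      (len_le_ell _)⟩) : Q × Fin (ell len))) hcard
  simp only [Prod.mk.injEq, Fin.mk.injEq] at hjj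
  -- order the two
  have key : ∀ j j' : ℕ, j < C1 Q len + 1 → j' < C1 Q len + 1 → j < j' → lb (e j) = lb (e j') →
      φ j = φ j' → ∃ l : ℤ × ℤ, l ≠ 0 ∧ (l, (0 : ℤ × ℤ)) ∈ U := by
    intro j j' hj hj' hlt hlab hφ
    have hs := he2 j hj j' hj' hlt
    have hsm : ∀ i j, i ≤ j → j ≤ t → sg i ≤ sg j := by
      intro i j hij
      induction j, hij using Nat.le_induction with
      | base => intro _; exact le_rfl
      | succ n hn ih =>
        intro hnt
        exact (ih (by omega)).trans (hstep n (by omega)).1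
    have hee : e j < e j' := by
      by_contra hc
      have := hsm (e j') (e j) (by omega) (he1 j hj).1
      omega
    have hl1 := hloc j hj
    have hl2 := hloc j' hj'
    rw [← hφ] at hl2
    have hmem := hU (e j) (e j') hee (he1 j' hj').1 hlab _ _ _ _ _ hl1 hl2 rfl
    rw [pl_sub] at hmem
    refine ⟨_, smul_ne ?_ (hd _), hmem⟩
    intro h0
    have h3 : a j' = a j := by omega
    have h4 := hl1.2.2
    have h5 := hl2.2.2
    rw [h3] at h5
    omega
  have hne' : (j : ℕ) ≠ (j' : ℕ) := fun h => hne (Fin.ext h)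
  rcases lt_or_gt_of_ne hne' with h | h
  · exact key j j' j.2 j'.2 h hjj.1 hjj.2
  · exact key j' j j'.2 j.2 h hjj.1.symm hjj.2.symm

end MPab
end
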