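import Mathlib
import Pool.Agent.Lib.MP_ab497f_al.Stair0

section
/-!
Problem MP_ab497f_al, module STAIR: the staircase argument (combinatorial part of the blob lemma)
and the rank computation.
-/
set_option autoImplicit false

open Finset

namespace MPab

namespace StairM

lemma anti_of_step {t : ℕ} {g : ℕ → ℤ} (hg : ∀ i < t, g (i + 1) ≤ g i) :
    ∀ i j, i ≤ j → j ≤ t → g j ≤ g i := by
  intro i j hij
  induction j, hij using Nat.le_induction with
  | base => intro _; exact le_rfl
  | succ n hn ih =>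
    intro hnt
    exact (hg n (by omega)).trans (ih (by omega))

lemma mono_of_step {t : ℕ} {f : ℕ → ℤ} (hf : ∀ i < t, f i ≤ f (i + 1)) :
    ∀ i j, i ≤ j → j ≤ t → f i ≤ f j := by
  intro i j hij
  induction j, hij using Nat.le_induction with
  | base => intro _; exact le_rfl
  | succ n hn ih =>
    intro hnt
    exact (ih (by omega)).trans (hf n (by omega))

end StairM

open StairM

/-- the staircase lemma -/
theorem stair (t C : ℕ) (f g : ℕ → ℤ) (R : ℤ → ℤ → Prop) (k0 : ℤ)
    (hf : ∀ i < t, f i ≤ f (i + 1))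
    (hg : ∀ i < t, g (i + 1) ≤ g i ∧ g i ≤ g (i + 1) + 1)
    (hrow : ∀ k, k0 ≤ k → k ≤ k0 + 4 → 3 * C < #{i ∈ range (t + 1) | f i = k})
    (hcol : ∀ v, (∃ i ≤ t, v < g i) → (∃ i ≤ t, g i < v) →
      2 * C < #{i ∈ range (t + 1) | g i = v})
    (hheavy : ∀ k v, C < #{i ∈ range (t + 1) | f i = k ∧ g i = v} → R k v)
    (hR1 : ∀ k v, R k v → ¬ R k (v + 1) ∧ ¬ R k (v + 2))
    (hR2 : ∀ k v, R k v → ¬ R (k + 1) v) :
    ∃ s, ∀ k, k0 ≤ k → k ≤ k0 + 4 → R k (s - k) := by
  have hga := anti_of_step (fun i hi => (hg i hi).1)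
  have hfm := mono_of_step hf
  -- values of `g` on a row differ by at most two
  have hspan : ∀ k, ∀ i ≤ t, ∀ j ≤ t, f i = k → f j = k → g i - g j ≤ 2 := by
    intro k i hi j hj hfi hfj
    by_contra hcon
    push Not at hcon
    have hij : i < j := by
      by_contra hc
      have := hga j i (by omega) hi
      omega
    -- all indices with `g = v`, `g j < v < g i`, lie in the row
    have hmid : ∀ v, g j < v → v < g i → R k v := by
      intro v hv1 hv2
      apply hheavy
      have h1 := hcol v ⟨i, hi, hv2⟩ ⟨j, hj, hv1⟩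
      have h2 : {l ∈ range (t + 1) | g l = v} ⊆ {l ∈ range (t + 1) | f l = k ∧ g l = v} := by
        intro l hl
        simp only [mem_filter, mem_range] at hl ⊢
        have hl1 : i ≤ l := by
          by_contra hc
          have := hga l i (by omega) hi
          omega
        have hl2 : l ≤ j := by
          by_contra hc
          have := hga j l (by omega) (by omega)
          omega
        have hl3 := hfm i l hl1 (by omega)
        have hl4 := hfm l j hl2 hj
        exact ⟨hl.1, by omega, hl.2⟩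
      have h3 := card_le_card h2
      omega
    have h1 := hmid (g j + 1) (by omega) (by omega)
    have h2 := hmid (g j + 1 + 1) (by omega) (by omega)
    exact (hR1 _ _ h1).1 h2
  -- every full row has a heavy cell
  have hex : ∀ k, k0 ≤ k → k ≤ k0 + 4 →
      ∃ v, C < #{i ∈ range (t + 1) | f i = k ∧ g i = v} := by
    intro k hk1 hk2
    have hr := hrow k hk1 hk2
    have hne : {i ∈ range (t + 1) | f i = k}.Nonempty := by
      rw [← card_pos]
      omega
    obtain ⟨i0, hi0, hmin⟩ := exists_min_image {i ∈ range (t + 1) | f i = k} g hne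
    simp only [mem_filter, mem_range] at hi0 hmin
    by_contra hcon
    push Not at hcon
    have hsub : {i ∈ range (t + 1) | f i = k} ⊆
        {i ∈ range (t + 1) | f i = k ∧ g i = g i0} ∪
        ({i ∈ range (t + 1) | f i = k ∧ g i = g i0 + 1} ∪
        {i ∈ range (t + 1) | f i = k ∧ g i = g i0 + 2}) := by
      intro l hl
      simp only [mem_filter, mem_range, mem_union] at hl ⊢
      have h1 := hmin l hl
      have h2 := hspan k l (by omega) i0 (by omega) hl.2 hi0.2
      have h3 : g l = g i0 ∨ g l = g i0 + 1 ∨ g l = g i0 + 2 := by omega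
      rcases h3 with h3 | h3 | h3
      · exact Or.inl ⟨hl.1, hl.2, h3⟩
      · exact Or.inr (Or.inl ⟨hl.1, hl.2, h3⟩)
      · exact Or.inr (Or.inr ⟨hl.1, hl.2, h3⟩)
    have h4 := card_le_card hsub
    have h5 := card_union_le {i ∈ range (t + 1) | f i = k ∧ g i = g i0}
      ({i ∈ range (t + 1) | f i = k ∧ g i = g i0 + 1} ∪
        {i ∈ range (t + 1) | f i = k ∧ g i = g i0 + 2})
    have h6 := card_union_le {i ∈ range (t + 1) | f i = k ∧ g i = g i0 + 1}
      {i ∈ range (t + 1) | f i = k ∧ g i = g i0 + 2}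
    have h7 := hcon (g i0)
    have h8 := hcon (g i0 + 1)
    have h9 := hcon (g i0 + 2)
    omega
  -- a heavy cell contains an index
  have hcell : ∀ k v, C < #{i ∈ range (t + 1) | f i = k ∧ g i = v} →
      ∃ i ≤ t, f i = k ∧ g i = v := by
    intro k v h
    have : {i ∈ range (t + 1) | f i = k ∧ g i = v}.Nonempty := by
      rw [← card_pos]
      omega
    obtain ⟨i, hi⟩ := this
    simp only [mem_filter, mem_range] at hi
    exact ⟨i, by omega, hi.2⟩
  -- uniqueness in a row
  have huniq : ∀ k v w, R k v → R k w → (∃ i ≤ t, f i = k ∧ g i = v) →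
      (∃ i ≤ t, f i = k ∧ g i = w) → v = w := by
    rintro k v w hv hw ⟨i, hi, hfi, hgi⟩ ⟨j, hj, hfj, hgj⟩
    have h1 := hspan k i hi j hj hfi hfj
    have h2 := hspan k j hj i hi hfj hfi
    by_contra hne
    have h3 : w = v + 1 ∨ w = v + 2 ∨ v = w + 1 ∨ v = w + 2 := by omega
    rcases h3 with rfl | rfl | rfl | rfl
    · exact (hR1 _ _ hv).1 hw
    · exact (hR1 _ _ hv).2 hw
    · exact (hR1 _ _ hw).1 hv
    · exact (hR1 _ _ hw).2 hv
  -- consecutive rows
  have hstep : ∀ k v w, C < #{i ∈ range (t + 1) | f i = k ∧ g i = v} →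
      C < #{i ∈ range (t + 1) | f i = k + 1 ∧ g i = w} → w = v - 1 := by
    intro k v w hv hw
    obtain ⟨i, hi, hfi, hgi⟩ := hcell _ _ hv
    obtain ⟨j, hj, hfj, hgj⟩ := hcell _ _ hw
    have hij : i < j := by
      by_contra hc
      have := hfm j i (by omega) hi
      omega
    have h1 := hga i j hij.le hj
    have h2 : w ≠ v := by
      rintro rfl
      exact hR2 _ _ (hheavy _ _ hv) (hheavy _ _ hw)
    by_contra hcon
    have h3 : w ≤ v - 2 := by omega
    -- the column `v - 1` is passed completely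
    have h4 := hcol (v - 1) ⟨i, hi, by omega⟩ ⟨j, hj, by omega⟩
    have hsub : {l ∈ range (t + 1) | g l = v - 1} ⊆
        {l ∈ range (t + 1) | f l = k ∧ g l = v - 1} ∪
        {l ∈ range (t + 1) | f l = k + 1 ∧ g l = v - 1} := by
      intro l hl
      simp only [mem_filter, mem_range, mem_union] at hl ⊢
      have hl1 : i ≤ l := by
        by_contra hc
        have := hga l i (by omega) hi
        omega
      have hl2 : l ≤ j := by
        by_contra hc
        have := hga j l (by omega) (by omega)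
        omega
      have hl3 := hfm i l hl1 (by omega)
      have hl4 := hfm l j hl2 hj
      have hl5 : f l = k ∨ f l = k + 1 := by omega
      rcases hl5 with h | h
      · exact Or.inl ⟨hl.1, h, hl.2⟩
      · exact Or.inr ⟨hl.1, h, hl.2⟩
    have h5 := (card_le_card hsub).trans (card_union_le _ _)
    by_cases h6 : C < #{l ∈ range (t + 1) | f l = k ∧ g l = v - 1}
    · have := huniq k v (v - 1) (hheavy _ _ hv) (hheavy _ _ h6) (hcell _ _ hv) (hcell _ _ h6)
      omega
    · have h7 : C < #{l ∈ range (t + 1) | f l = k + 1 ∧ g l = v - 1} := by omega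
      have := huniq (k + 1) w (v - 1) (hheavy _ _ hw) (hheavy _ _ h7) (hcell _ _ hw)
        (hcell _ _ h7)
      omega
  obtain ⟨v0, hv0⟩ := hex k0 le_rfl (by omega)
  obtain ⟨v1, hv1⟩ := hex (k0 + 1) (by omega) (by omega)
  obtain ⟨v2, hv2⟩ := hex (k0 + 2) (by omega) (by omega)
  obtain ⟨v3, hv3⟩ := hex (k0 + 3) (by omega) (by omega)
  obtain ⟨v4, hv4⟩ := hex (k0 + 4) (by omega) (by omega)
  have e1 := hstep k0 v0 v1 hv0 hv1
  have e2 := hstep (k0 + 1) v1 v2 hv1 (by rw [add_assoc]; exact hv2)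
  have e3 := hstep (k0 + 2) v2 v3 hv2 (by rw [add_assoc]; exact hv3)
  have e4 := hstep (k0 + 3) v3 v4 hv3 (by rw [add_assoc]; exact hv4)
  refine ⟨v0 + k0, fun k hk1 hk2 => ?_⟩
  have hk : k = k0 ∨ k = k0 + 1 ∨ k = k0 + 2 ∨ k = k0 + 3 ∨ k = k0 + 4 := by omega
  rcases hk with rfl | rfl | rfl | rfl | rfl
  · have := hheavy _ _ hv0
    rwa [show v0 + k - k = v0 by ring]
  · have := hheavy _ _ hv1
    rwa [show v0 + k0 - (k0 + 1) = v1 by omega]
  · have := hheavy _ _ hv2
    rwa [show v0 + k0 - (k0 + 2) = v2 by omega]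
  · have := hheavy _ _ hv3
    rwa [show v0 + k0 - (k0 + 3) = v3 by omega]
  · have := hheavy _ _ hv4
    rwa [show v0 + k0 - (k0 + 4) = v4 by omega]

end MPab
end

section
/-!
# MP_ab497f_al, module STAIR : the staircase (5d)

The combinatorial part is `MPab.stair` (file `Stair.lean`, helper5).
-/
set_option autoImplicit false

namespace MPab

namespace STAIR

open STAIR0

/-- determinant of two integer vectors -/
def dt (u v : ℤ × ℤ) : ℤ := u.1 * v.2 - u.2 * v.1

/-! ### linear algebra over `ℤ` -/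

section Lin

variable {U : AddSubgroup ((ℤ × ℤ) × (ℤ × ℤ))}

theorem smul_mem' {l r : ℤ × ℤ} (h : (l, r) ∈ U) (z : ℤ) : (z • l, z • r) ∈ U := by
  have := U.zsmul_mem h z
  simpa using this

theorem add_mem' {l r l' r' : ℤ × ℤ} (h : (l, r) ∈ U) (h' : (l', r') ∈ U) :
    (l + l', r + r') ∈ U := by
  have := U.add_mem h h'
  simpa using this

theorem dt_comb {l₁ l₂ : ℤ × ℤ} (h : dt l₁ l₂ ≠ 0) {p q : ℤ} (h0 : p • l₁ + q • l₂ = 0) :
    p = 0 ∧ q = 0 := by
  have h1 : p * l₁.1 + q * l₂.1 = 0 := by simpa using congrArg Prod.fst h0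
  have h2 : p * l₁.2 + q * l₂.2 = 0 := by simpa using congrArg Prod.snd h0
  have h3 : p * dt l₁ l₂ = 0 := by
    unfold dt
    linear_combination l₂.2 * h1 - l₂.1 * h2
  have h4 : q * dt l₁ l₂ = 0 := by
    unfold dt
    linear_combination l₁.1 * h2 - l₁.2 * h1
  exact ⟨(mul_eq_zero.mp h3).resolve_right h, (mul_eq_zero.mp h4).resolve_right h⟩

theorem right_zero (hU0 : ∀ l : ℤ × ℤ, (l, (0 : ℤ × ℤ)) ∈ U → l = 0) {l₁ r₁ l₂ r₂ : ℤ × ℤ}
    (h₁ : (l₁, r₁) ∈ U) (h₂ : (l₂, r₂) ∈ U) (hd : dt l₁ l₂ ≠ 0) {e : ℤ × ℤ}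
    (he : ((0 : ℤ × ℤ), e) ∈ U) : e = 0 := by
  -- first step
  have h3 : (dt r₂ e) • r₁ + (dt e r₁) • r₂ + (dt r₁ r₂) • e = 0 := by
    apply Prod.ext
    · simp only [dt, Prod.fst_add, Prod.smul_fst, smul_eq_mul, Prod.fst_zero]
      ring
    · simp only [dt, Prod.snd_add, Prod.smul_snd, smul_eq_mul, Prod.snd_zero]
      ring
  have h4 := add_mem' (add_mem' (smul_mem' h₁ (dt r₂ e)) (smul_mem' h₂ (dt e r₁)))
    (smul_mem' he (dt r₁ r₂))
  rw [h3] at h4
  have h5 := hU0 _ h4
  rw [smul_zero, add_zero] at h5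
  obtain ⟨-, h6⟩ := dt_comb hd h5
  have hl1 : l₁ ≠ 0 := by
    intro h
    apply hd
    simp [dt, h]
  have h7 : e.1 = 0 := by
    by_contra hne
    have h8 := add_mem' (smul_mem' h₁ e.1) (smul_mem' he (-r₁.1))
    have h9 : e.1 • r₁ + (-r₁.1) • e = 0 := by
      apply Prod.ext
      · simp only [Prod.fst_add, Prod.smul_fst, smul_eq_mul, Prod.fst_zero]
        ring
      · simp only [Prod.snd_add, Prod.smul_snd, smul_eq_mul, Prod.snd_zero]
        unfold dt at h6
        linear_combination h6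
    rw [h9] at h8
    have h10 := hU0 _ h8
    rw [smul_zero, add_zero] at h10
    exact smul_ne hne hl1 h10
  have h7' : e.2 = 0 := by
    by_contra hne
    have h8 := add_mem' (smul_mem' h₁ e.2) (smul_mem' he (-r₁.2))
    have h9 : e.2 • r₁ + (-r₁.2) • e = 0 := by
      apply Prod.ext
      · simp only [Prod.fst_add, Prod.smul_fst, smul_eq_mul, Prod.fst_zero]
        unfold dt at h6
        linear_combination -h6
      · simp only [Prod.snd_add, Prod.smul_snd, smul_eq_mul, Prod.snd_zero]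
        ring
    rw [h9] at h8
    have h10 := hU0 _ h8
    rw [smul_zero, add_zero] at h10
    exact smul_ne hne hl1 h10
  exact Prod.ext h7 h7'

/-- the integer matrix `Δ A`, applied to a vector -/
def mat (l₁ r₁ l₂ r₂ l : ℤ × ℤ) : ℤ × ℤ := dt l l₂ • r₁ + dt l₁ l • r₂

theorem mat_eq (hU0 : ∀ l : ℤ × ℤ, (l, (0 : ℤ × ℤ)) ∈ U → l = 0) {l₁ r₁ l₂ r₂ : ℤ × ℤ}
    (h₁ : (l₁, r₁) ∈ U) (h₂ : (l₂, r₂) ∈ U) (hd : dt l₁ l₂ ≠ 0) {l r : ℤ × ℤ}
    (h : (l, r) ∈ U) : mat l₁ r₁ l₂ r₂ l = dt l₁ l₂ • r := by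
  have h3 := add_mem' (add_mem' (smul_mem' h₁ (dt l l₂)) (smul_mem' h₂ (dt l₁ l)))
    (smul_mem' h (-dt l₁ l₂))
  have h4 : dt l l₂ • l₁ + dt l₁ l • l₂ + (-dt l₁ l₂) • l = 0 := by
    apply Prod.ext
    · simp only [dt, Prod.fst_add, Prod.smul_fst, smul_eq_mul, Prod.fst_zero]
      ring
    · simp only [dt, Prod.snd_add, Prod.smul_snd, smul_eq_mul, Prod.snd_zero]
      ring
  rw [h4] at h3
  have h5 := right_zero hU0 h₁ h₂ hd h3
  rw [neg_smul, ← sub_eq_add_neg, sub_eq_zero] at h5
  exact h5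

theorem mat_lin (l₁ r₁ l₂ r₂ l : ℤ × ℤ) :
    mat l₁ r₁ l₂ r₂ l =
      ((l₂.2 * r₁.1 - l₁.2 * r₂.1) * l.1 + (l₁.1 * r₂.1 - l₂.1 * r₁.1) * l.2,
        (l₂.2 * r₁.2 - l₁.2 * r₂.2) * l.1 + (l₁.1 * r₂.2 - l₂.1 * r₁.2) * l.2) := by
  apply Prod.ext
  · simp only [mat, dt, Prod.fst_add, Prod.smul_fst, smul_eq_mul]
    ring
  · simp only [mat, dt, Prod.snd_add, Prod.smul_snd, smul_eq_mul]
    ring

theorem dt_mat (l₁ r₁ l₂ r₂ u v : ℤ × ℤ) :
    dt (mat l₁ r₁ l₂ r₂ u) (mat l₁ r₁ l₂ r₂ v) = dt l₁ l₂ * dt r₁ r₂ * dt u v := by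
  simp only [mat, dt, Prod.fst_add, Prod.smul_fst, smul_eq_mul, Prod.snd_add, Prod.smul_snd]
  ring

theorem dt_r (hU0 : ∀ l : ℤ × ℤ, (l, (0 : ℤ × ℤ)) ∈ U → l = 0) {l₁ r₁ l₂ r₂ : ℤ × ℤ}
    (h₁ : (l₁, r₁) ∈ U) (h₂ : (l₂, r₂) ∈ U) (hd : dt l₁ l₂ ≠ 0) : dt r₁ r₂ ≠ 0 := by
  intro h0
  have key : ∀ p q : ℤ, p • r₁ + q • r₂ = 0 → p = 0 ∧ q = 0 := by
    intro p q h
    have h3 := add_mem' (smul_mem' h₁ p) (smul_mem' h₂ q)
    rw [h] at h3
    exact dt_comb hd (hU0 _ h3)
  have h4 := key r₂.1 (-r₁.1) (by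
    apply Prod.ext
    · simp only [Prod.fst_add, Prod.smul_fst, smul_eq_mul, Prod.fst_zero]
      ring
    · simp only [Prod.snd_add, Prod.smul_snd, smul_eq_mul, Prod.snd_zero]
      unfold dt at h0
      linear_combination -h0)
  have h5 := key r₂.2 (-r₁.2) (by
    apply Prod.ext
    · simp only [Prod.fst_add, Prod.smul_fst, smul_eq_mul, Prod.fst_zero]
      unfold dt at h0
      linear_combination h0
    · simp only [Prod.snd_add, Prod.smul_snd, smul_eq_mul, Prod.snd_zero]
      ring)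
  have h6 : r₁ = 0 := Prod.ext (by simpa using h4.2) (by simpa using h5.2)
  have h7 := key 1 0 (by simp [h6])
  exact one_ne_zero h7.1

/-- two vectors parallel to the same non-zero vector are parallel -/
theorem par {u v w : ℤ × ℤ} (hu : u ≠ 0) (h1 : dt u v = 0) (h2 : dt u w = 0) : dt v w = 0 := by
  unfold dt at *
  have h3 : u.1 * (v.1 * w.2 - v.2 * w.1) = 0 := by linear_combination v.1 * h2 - w.1 * h1
  have h4 : u.2 * (v.1 * w.2 - v.2 * w.1) = 0 := by linear_combination v.2 * h2 - w.2 * h1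
  rcases mul_eq_zero.mp h3 with h | h
  · rcases mul_eq_zero.mp h4 with h' | h'
    · exact absurd (Prod.ext h h') hu
    · exact h'
  · exact h

end Lin

theorem ne_add {a b : ZMod 10} (k : ZMod 10) (h : a ≠ b) : k + a ≠ k + b :=
  fun h' => h (add_left_cancel h')

section Geo

variable {α G : Type} [Group G] {f : α → G} {ι : Z2 →* G}

theorem dt_succ (D : PD f ι) (k : ZMod 10) : dt (D.d k) (D.d (k + 1)) ≠ 0 := by
  refine D.nonpar k (k + 1) ?_ ?_
  · intro h
    exact absurd (add_left_cancel (h.trans (add_zero k).symm)) (by decide)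
  · exact ne_add k (by decide)

theorem dt_succ2 (D : PD f ι) (k : ZMod 10) : dt (D.d k) (D.d (k + 2)) ≠ 0 := by
  refine D.nonpar k (k + 2) ?_ ?_
  · intro h
    exact absurd (add_left_cancel (h.trans (add_zero k).symm)) (by decide)
  · exact ne_add k (by decide)

theorem d_ne (D : PD f ι) (k : ZMod 10) : D.d k ≠ 0 := by
  intro h
  apply dt_succ D k
  simp [dt, h]

end Geo

/-! ### monotone sequences -/

theorem mono_of_step {t : ℕ} {s : ℕ → ℕ} (hs : ∀ i < t, s i ≤ s (i + 1)) :
    ∀ i j, i ≤ j → j ≤ t → s i ≤ s j := by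
  intro i j hij
  induction j, hij using Nat.le_induction with
  | base => intro _; exact le_rfl
  | succ n hn ih =>
    intro hnt
    exact (ih (by omega)).trans (hs n (by omega))

theorem anti_of_step {t : ℕ} {s : ℕ → ℕ} (hs : ∀ i < t, s (i + 1) ≤ s i) :
    ∀ i j, i ≤ j → j ≤ t → s j ≤ s i := by
  intro i j hij
  induction j, hij using Nat.le_induction with
  | base => intro _; exact le_rfl
  | succ n hn ih =>
    intro hnt
    exact (hs n (by omega)).trans (ih (by omega))

/-- the staircase, for sequences which change at every step -/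
theorem strict {Q : Type} [Finite Q] {α G : Type} [Group G] {f : α → G} {ι : Z2 →* G}
    (D : PD f ι) (len : ZMod 10 → ℕ) (x t : ℕ)
    (sg ep : ℕ → ℕ) (lb : ℕ → Q) (U : AddSubgroup ((ℤ × ℤ) × (ℤ × ℤ)))
    (hl : ∀ k, 1 ≤ len k) (hx : hh Q len * (3 * C1 Q len + 4) ≤ x)
    (hsg : ∀ i < t, sg i ≤ sg (i + 1) ∧ sg (i + 1) < sg i + hh Q len)
    (hep : ∀ i < t, ep (i + 1) ≤ ep i)
    (hep' : ∀ i < t, ep i < ep (i + 1) + hh Q len ∨
      ∃ e : ℤ × ℤ, e ≠ 0 ∧ ((0 : ℤ × ℤ), e) ∈ U)
    (hper : sg 0 + 2 * (x * ell len) ≤ sg t)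
    (hU : ∀ i j : ℕ, i < j → j ≤ t → lb i = lb j → ∀ m a φ m' a' n b ψ n' b' : ℕ,
      Loc len x (sg i) m a φ → Loc len x (sg j) m' a' φ → (m : ZMod 10) = (m' : ZMod 10) →
      Loc len x (ep i) n b ψ → Loc len x (ep j) n' b' ψ → (n : ZMod 10) = (n' : ZMod 10) →
      (pl D.d x m' a' - pl D.d x m a, pl D.d x n b - pl D.d x n' b') ∈ U)
    (hst : ∀ i < t, sg i < sg (i + 1) ∨ ep (i + 1) < ep i) :
    ∃ l : ℤ × ℤ, l ≠ 0 ∧ (l, (0 : ℤ × ℤ)) ∈ U := by
  by_contra hcon
  have hU0 : ∀ l : ℤ × ℤ, (l, (0 : ℤ × ℤ)) ∈ U → l = 0 := by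
    intro l h
    by_contra hne
    exact hcon ⟨l, hne, h⟩
  have hhp := hh_pos (len := len) Q
  have hx0 : 0 < x := lt_of_lt_of_le (Nat.mul_pos hhp (by omega)) hx
  have hhx : hh Q len ≤ x := by
    refine le_trans ?_ hx
    exact Nat.le_mul_of_pos_right _ (by omega)
  have hmono := rs_strictMono (len := len) hx0 hl
  choose run aa ph hloc using exists_loc (len := len) hx0 hl
  have hb : ∀ i, rs len x (run i) ≤ i ∧ i < rs len x (run i + 1) := fun i => loc_bounds (hloc i)
  have hrun : ∀ {i m : ℕ}, rs len x m ≤ i → i < rs len x (m + 1) → run i = m :=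
    fun h1 h2 => run_unique hx0 hl (hb _).1 (hb _).2 h1 h2
  have hrm : ∀ i j : ℕ, i ≤ j → run i ≤ run j := by
    intro i j hij
    have : run i < run j + 1 := hmono.lt_iff_lt.mp (by
      have := hb i
      have := hb j
      omega)
    omega
  have hsm := mono_of_step (fun i hi => (hsg i hi).1)
  have hem := anti_of_step hep
  have hlong : ∀ k : ℕ, x ≤ x * len (k : ZMod 10) := fun k => Nat.le_mul_of_pos_right x (hl _)
  -- colours
  classical
  have : Fintype Q := Fintype.ofFinite Q
  have hpig : ∀ S : Finset ℕ, C1 Q len < S.card → ∃ i ∈ S, ∃ j ∈ S, i < j ∧ lb i = lb j ∧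
      ph (sg i) = ph (sg j) ∧ (run (ep i) : ZMod 10) = (run (ep j) : ZMod 10) ∧
      ph (ep i) = ph (ep j) := by
    intro S hS
    have hc : (Finset.univ : Finset (Q × Fin (ell len) × (Σ k : ZMod 10, Fin (len k)))).card <
        S.card := by
      refine lt_of_le_of_lt (le_of_eq ?_) hS
      rw [Finset.card_univ, Fintype.card_prod, Fintype.card_prod, Fintype.card_sigma,
        Fintype.card_fin, C1, Nat.card_eq_fintype_card, sq]
      simp only [Fintype.card_fin]
      rfl
    obtain ⟨i, hi, j, hj, hne, he⟩ := Finset.exists_ne_map_eq_of_card_lt_of_maps_to hc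
      (f := fun i => (lb i, ⟨ph (sg i), lt_of_lt_of_le (hloc (sg i)).2.1 (len_le_ell _)⟩,
        ⟨(run (ep i) : ZMod 10), ⟨ph (ep i), (hloc (ep i)).2.1⟩⟩))
      (fun _ _ => Finset.mem_coe.mpr (Finset.mem_univ _))
    simp only [Prod.mk.injEq, Fin.mk.injEq] at he
    obtain ⟨h1, h2, h3⟩ := he
    have h4 := congrArg (fun s : Σ k : ZMod 10, Fin (len k) => (s.1, (s.2 : ℕ))) h3
    simp only [Prod.mk.injEq] at h4
    rcases lt_or_gt_of_ne hne with h | h
    · exact ⟨i, hi, j, hj, h, h1, h2, h4.1, h4.2⟩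
    · exact ⟨j, hj, i, hi, h, h1.symm, h2.symm, h4.1.symm, h4.2.symm⟩
  -- windows in full rows
  have hwin : ∀ k : ℕ, sg 0 ≤ rs len x k → rs len x (k + 1) ≤ sg t →
      ∀ w, rs len x k ≤ w → w + hh Q len ≤ rs len x k + x * len (k : ZMod 10) →
      ∃ i ≤ t, w ≤ sg i ∧ sg i < w + hh Q len := by
    intro k h1 h2 w hw1 hw2
    refine window (fun i hi => (hsg i hi).2) (by omega) ?_
    rw [rs_succ] at h2
    omega
  have hrowU : ∀ k : ℕ, sg 0 ≤ rs len x k → rs len x (k + 1) ≤ sg t →
      ∃ z : ℤ, z ≠ 0 ∧ ∃ r : ℤ × ℤ, (z • D.d (k : ZMod 10), r) ∈ U := by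
    intro k h1 h2
    have hN : (C1 Q len + 1) * hh Q len ≤ x * len (k : ZMod 10) := by
      have h1 : (C1 Q len + 1) * hh Q len ≤ x := by
        refine le_trans ?_ hx
        rw [mul_comm]
        exact Nat.mul_le_mul_left _ (by omega)
      exact h1.trans (hlong k)
    obtain ⟨e, he1, he2⟩ := pick hN (hwin k h1 h2)
    have hinj : Set.InjOn e (Finset.range (C1 Q len + 1) : Set ℕ) := by
      intro j hj j' hj' he
      have hjN : j < C1 Q len + 1 := by simpa using hj
      have hjN' : j' < C1 Q len + 1 := by simpa using hj'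
      by_contra hne
      rcases lt_or_gt_of_ne hne with h | h
      · have := he2 j hjN j' hjN' h
        rw [he] at this
        exact lt_irrefl _ this
      · have := he2 j' hjN' j hjN h
        rw [he] at this
        exact lt_irrefl _ this
    obtain ⟨i, hi, j, hj, hij, hlab, hph, hr, hph'⟩ := hpig
      ((Finset.range (C1 Q len + 1)).image e) (by
        rw [Finset.card_image_of_injOn hinj, Finset.card_range]
        omega)
    obtain ⟨p, hp, rfl⟩ := Finset.mem_image.mp hi
    obtain ⟨q, hq, rfl⟩ := Finset.mem_image.mp hj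
    have hp' := Finset.mem_range.mp hp
    have hq' := Finset.mem_range.mp hq
    have hne : sg (e p) ≠ sg (e q) := by
      intro h
      rcases lt_trichotomy p q with h' | h' | h'
      · exact absurd (he2 p hp' q hq' h') (by omega)
      · rw [h'] at hij
        omega
      · exact absurd (he2 q hq' p hp' h') (by omega)
    have hrp : run (sg (e p)) = k := by
      have := he1 p hp'
      rw [← rs_succ] at this
      exact hrun this.2.1 this.2.2
    have hrq : run (sg (e q)) = k := by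
      have := he1 q hq'
      rw [← rs_succ] at this
      exact hrun this.2.1 this.2.2
    have hL1 := hloc (sg (e p))
    have hL2 := hloc (sg (e q))
    rw [hrp] at hL1
    rw [hrq, ← hph] at hL2
    have hE1 := hloc (ep (e p))
    have hE2 := hloc (ep (e q))
    rw [← hph'] at hE2
    have hmem := hU (e p) (e q) hij (he1 q hq').1 hlab _ _ _ _ _ _ _ _ _ _ hL1 hL2 rfl hE1 hE2 hr
    rw [pl_sub] at hmem
    refine ⟨_, ?_, _, hmem⟩
    intro h0
    have h3 : aa (sg (e q)) = aa (sg (e p)) := by omega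
    apply hne
    have h4 := hL1.2.2
    have h5 := hL2.2.2
    rw [h3] at h5
    omega
  -- the full rows
  obtain ⟨k₀, hk₀⟩ : ∃ k₀, k₀ = run (sg 0) + 1 := ⟨_, rfl⟩
  have hfull : ∀ k : ℕ, k₀ ≤ k → k ≤ k₀ + 4 → sg 0 ≤ rs len x k ∧ rs len x (k + 1) ≤ sg t := by
    intro k h1 h2
    have h3 : rs len x k₀ ≤ rs len x k := hmono.monotone h1
    have h4 : rs len x (k + 1) ≤ rs len x (run (sg 0) + 10) := hmono.monotone (by omega)
    rw [rs_ten] at h4
    have h5 := hb (sg 0)
    rw [hk₀] at h3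
    constructor
    · omega
    · omega
  obtain ⟨z₁, hz₁, r₁, hm₁⟩ := hrowU k₀ (hfull k₀ le_rfl (by omega)).1
    (hfull k₀ le_rfl (by omega)).2
  obtain ⟨z₂, hz₂, r₂, hm₂⟩ := hrowU (k₀ + 1) (hfull (k₀ + 1) (by omega) (by omega)).1
    (hfull (k₀ + 1) (by omega) (by omega)).2
  obtain ⟨l₁, hl₁⟩ : ∃ l₁, l₁ = z₁ • D.d (k₀ : ZMod 10) := ⟨_, rfl⟩
  obtain ⟨l₂, hl₂⟩ : ∃ l₂, l₂ = z₂ • D.d ((k₀ + 1 : ℕ) : ZMod 10) := ⟨_, rfl⟩
  rw [← hl₁] at hm₁
  rw [← hl₂] at hm₂
  have hdl : dt l₁ l₂ ≠ 0 := by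
    have h1 : dt l₁ l₂ = z₁ * z₂ * dt (D.d (k₀ : ZMod 10)) (D.d ((k₀ : ZMod 10) + 1)) := by
      rw [hl₁, hl₂, Nat.cast_add, Nat.cast_one]
      simp only [dt, Prod.smul_fst, Prod.smul_snd, smul_eq_mul]
      ring
    rw [h1]
    exact mul_ne_zero (mul_ne_zero hz₁ hz₂) (dt_succ D _)
  have hdr := dt_r hU0 hm₁ hm₂ hdl
  have heph : ∀ i < t, ep i < ep (i + 1) + hh Q len := by
    intro i hi
    rcases hep' i hi with h | ⟨e, he, hmem⟩
    · exact h
    · exact absurd (right_zero hU0 hm₁ hm₂ hdl hmem) he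
  have hMd : ∀ k : ZMod 10, dt (mat l₁ r₁ l₂ r₂ (D.d k)) (mat l₁ r₁ l₂ r₂ (D.d (k + 1))) ≠ 0 := by
    intro k
    rw [dt_mat]
    exact mul_ne_zero (mul_ne_zero hdl hdr) (dt_succ D k)
  have hMne : ∀ k : ZMod 10, mat l₁ r₁ l₂ r₂ (D.d k) ≠ 0 := by
    intro k h
    apply hMd k
    rw [h]
    simp [dt]
  obtain ⟨s, hs⟩ := stair t (C1 Q len) (fun i => (run (sg i) : ℤ)) (fun i => (run (ep i) : ℤ))
    (fun k v => dt (mat l₁ r₁ l₂ r₂ (D.d (k : ZMod 10))) (D.d (v : ZMod 10)) = 0) k₀
    (by
      intro i hi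
      exact_mod_cast hrm _ _ (hsg i hi).1)
    (by
      intro i hi
      constructor
      · exact_mod_cast hrm _ _ (hep i hi)
      · have h1 := heph i hi
        have h2 := hb (ep i)
        have h3 := hb (ep (i + 1))
        have h4 := rs_succ (len := len) (x := x) (run (ep (i + 1)) + 1)
        have h5 := hlong (run (ep (i + 1)) + 1)
        have h6 : rs len x (run (ep i)) < rs len x (run (ep (i + 1)) + 1 + 1) := by omega
        have h7 := hmono.lt_iff_lt.mp h6
        have h8 : run (ep i) ≤ run (ep (i + 1)) + 1 := by omega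
        exact_mod_cast h8)
    (by
      intro k hk1 hk2
      lift k to ℕ using by omega
      have hk1' : k₀ ≤ k := by exact_mod_cast hk1
      have hk2' : k ≤ k₀ + 4 := by exact_mod_cast hk2
      obtain ⟨h1, h2⟩ := hfull k hk1' hk2'
      have h3 : (3 * C1 Q len + 4) * hh Q len ≤ x * len (k : ZMod 10) := by
        rw [mul_comm]
        exact hx.trans (hlong k)
      have h4 := pick_card h3 (hwin k h1 h2)
      refine lt_of_lt_of_le (by omega) (h4.trans (Finset.card_le_card ?_))
      intro i hi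
      simp only [Finset.mem_filter] at hi ⊢
      rw [← rs_succ] at hi
      refine ⟨hi.1, ?_⟩
      have := hrun hi.2.1 hi.2.2
      exact_mod_cast this)
    (by
      rintro v ⟨i, hi, hvi⟩ ⟨j, hj, hvj⟩
      lift v to ℕ using by omega
      have hvi' : v < run (ep i) := by exact_mod_cast hvi
      have hvj' : run (ep j) < v := by exact_mod_cast hvj
      have h1 : rs len x (v + 1) ≤ ep i := (hmono.monotone hvi').trans (hb _).1
      have h2 : ep j < rs len x v := lt_of_lt_of_le (hb _).2 (hmono.monotone hvj')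
      have h3 := rs_lt (len := len) hx0 hl v
      have hij : i ≤ j := by
        by_contra hc
        have := hem j i (by omega) hi
        omega
      have h4 : (3 * C1 Q len + 4) * hh Q len ≤ x * len (v : ZMod 10) := by
        rw [mul_comm]
        exact hx.trans (hlong v)
      have h5 := pick_card (s := ep) (t := t) (A := rs len x v) h4 (by
        intro w hw1 hw2
        rw [← rs_succ] at hw2
        exact window' heph (by omega) (by omega) hj hij)
      refine lt_of_lt_of_le (by omega) (h5.trans (Finset.card_le_card ?_))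
      intro i hi
      simp only [Finset.mem_filter] at hi ⊢
      rw [← rs_succ] at hi
      refine ⟨hi.1, ?_⟩
      have := hrun hi.2.1 hi.2.2
      exact_mod_cast this)
    (by
      intro k v hkv
      obtain ⟨i, hi, j, hj, hij, hlab, hph, hr, hph'⟩ := hpig _ hkv
      simp only [Finset.mem_filter, Finset.mem_range] at hi hj
      obtain ⟨hi1, hi2, hi3⟩ := hi
      obtain ⟨hj1, hj2, hj3⟩ := hj
      have hk : run (sg i) = run (sg j) := by
        have := hi2.trans hj2.symm
        exact_mod_cast this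
      have hv : run (ep i) = run (ep j) := by
        have := hi3.trans hj3.symm
        exact_mod_cast this
      have hL1 := hloc (sg i)
      have hL2 := hloc (sg j)
      have hE1 := hloc (ep i)
      have hE2 := hloc (ep j)
      rw [← hph, ← hk] at hL2
      rw [← hph', ← hv] at hE2
      have hmem := hU i j hij (by omega) hlab _ _ _ _ _ _ _ _ _ _ hL1 hL2 rfl hE1 hE2 rfl
      rw [pl_sub, pl_sub] at hmem
      have hsep : sg i < sg j ∨ ep j < ep i := by
        rcases hst i (by omega) with h | h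
        · have := hsm (i + 1) j (by omega) (by omega)
          exact Or.inl (by omega)
        · have := hem (i + 1) j (by omega) (by omega)
          exact Or.inr (by omega)
      have ha : ((aa (sg j) : ℤ) - aa (sg i)) ≠ 0 := by
        intro h0
        rw [h0, zero_smul] at hmem
        have h1 := right_zero hU0 hm₁ hm₂ hdl hmem
        have h2 : ((aa (ep i) : ℤ) - aa (ep j)) = 0 := by
          by_contra hne
          exact smul_ne hne (d_ne D _) h1
        have h3 : aa (sg j) = aa (sg i) := by omega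
        have h4 : aa (ep i) = aa (ep j) := by omega
        have h5 := hL1.2.2
        have h6 := hL2.2.2
        have h7 := hE1.2.2
        have h8 := hE2.2.2
        rw [h3] at h6
        rw [h4] at h7
        omega
      have hmat := mat_eq hU0 hm₁ hm₂ hdl hmem
      have hkc : ((k : ℤ) : ZMod 10) = ((run (sg i) : ℕ) : ZMod 10) := by
        rw [← hi2]
        simp
      have hvc : ((v : ℤ) : ZMod 10) = ((run (ep i) : ℕ) : ZMod 10) := by
        rw [← hi3]
        simp
      rw [hkc, hvc]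
      have h9 : ((aa (sg j) : ℤ) - aa (sg i)) *
          dt (mat l₁ r₁ l₂ r₂ (D.d ((run (sg i) : ℕ) : ZMod 10)))
            (D.d ((run (ep i) : ℕ) : ZMod 10)) = 0 := by
        have h10 : mat l₁ r₁ l₂ r₂
            (((aa (sg j) : ℤ) - aa (sg i)) • D.d ((run (sg i) : ℕ) : ZMod 10)) =
            ((aa (sg j) : ℤ) - aa (sg i)) •
              mat l₁ r₁ l₂ r₂ (D.d ((run (sg i) : ℕ) : ZMod 10)) := by
          rw [mat_lin, mat_lin]
          apply Prod.ext
          · simp only [Prod.smul_fst, Prod.smul_snd, smul_eq_mul]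
            ring
          · simp only [Prod.smul_fst, Prod.smul_snd, smul_eq_mul]
            ring
        rw [h10] at hmat
        have h11 := congrArg Prod.fst hmat
        have h12 := congrArg Prod.snd hmat
        simp only [Prod.smul_fst, Prod.smul_snd, smul_eq_mul] at h11 h12
        unfold dt at h11 h12 ⊢
        linear_combination (D.d ((run (ep i) : ℕ) : ZMod 10)).2 * h11 -
          (D.d ((run (ep i) : ℕ) : ZMod 10)).1 * h12
      exact (mul_eq_zero.mp h9).resolve_left ha)
    (by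
      intro k v h
      constructor
      · intro h'
        have h1 := par (hMne _) h h'
        rw [Int.cast_add, Int.cast_one] at h1
        exact dt_succ D _ h1
      · intro h'
        have h1 := par (hMne _) h h'
        rw [Int.cast_add, Int.cast_ofNat] at h1
        exact dt_succ2 D _ h1)
    (by
      intro k v h h'
      rw [Int.cast_add, Int.cast_one] at h'
      apply hMd (k : ZMod 10)
      refine par (d_ne D (v : ZMod 10)) ?_ ?_
      · unfold dt at h ⊢
        linear_combination -h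
      · unfold dt at h' ⊢
        linear_combination -h')
  have hz := D.star (s : ZMod 10) (k₀ : ZMod 10) (l₂.2 * r₁.1 - l₁.2 * r₂.1)
    (l₁.1 * r₂.1 - l₂.1 * r₁.1) (l₂.2 * r₁.2 - l₁.2 * r₂.2) (l₁.1 * r₂.2 - l₂.1 * r₁.2) (by
      intro i
      have h1 := hs ((k₀ : ℤ) + (i : ℕ)) (by omega) (by
        have := i.2
        omega)
      rw [mat_lin] at h1
      have h2 : (((k₀ : ℤ) + ((i : ℕ) : ℤ) : ℤ) : ZMod 10) = (k₀ : ZMod 10) + ((i : ℕ) : ZMod 10) := by
        push_cast
        rfl
      have h3 : ((s - ((k₀ : ℤ) + ((i : ℕ) : ℤ)) : ℤ) : ZMod 10) =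
          (s : ZMod 10) - ((k₀ : ZMod 10) + ((i : ℕ) : ZMod 10)) := by
        push_cast
        rfl
      rw [h2, h3] at h1
      exact h1)
  obtain ⟨z1, z2, z3, z4⟩ := hz
  apply hMne 0
  rw [mat_lin, z1, z2, z3, z4]
  simp

end STAIR

open STAIR in
theorem specSTAIR : SpecSTAIR := by
  intro Q _ _ α G _ f ι D len x t
  induction t with
  | zero =>
    intro sg ep lb U hl hx hsg hep hep' hper hU
    exact strict D len x 0 sg ep lb U hl hx hsg hep hep' hper hU (fun i hi => absurd hi (by omega))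
  | succ t ih =>
    intro sg ep lb U hl hx hsg hep hep' hper hU
    by_cases hst : ∀ i < t + 1, sg i < sg (i + 1) ∨ ep (i + 1) < ep i
    · exact strict D len x (t + 1) sg ep lb U hl hx hsg hep hep' hper hU hst
    · push Not at hst
      obtain ⟨p, hp, hp1, hp2⟩ := hst
      have e1 : sg (p + 1) = sg p := le_antisymm hp1 (hsg p hp).1
      have e2 : ep (p + 1) = ep p := le_antisymm (hep p hp) hp2
      obtain ⟨δ, hδ⟩ : ∃ δ : ℕ → ℕ, δ = fun n => if n ≤ p then n else n + 1 := ⟨_, rfl⟩
      have hδ1 : ∀ n, n ≤ p → δ n = n := by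
        intro n hn
        rw [hδ]
        exact if_pos hn
      have hδ2 : ∀ n, p < n → δ n = n + 1 := by
        intro n hn
        rw [hδ]
        exact if_neg (by omega)
      -- consecutive values of the new sequences are consecutive values of the old ones
      have hcons : ∀ n < t, ∃ q < t + 1, sg (δ n) = sg q ∧ ep (δ n) = ep q ∧
          sg (δ (n + 1)) = sg (q + 1) ∧ ep (δ (n + 1)) = ep (q + 1) := by
        intro n hn
        rcases lt_trichotomy n p with h | h | h
        · refine ⟨n, by omega, ?_⟩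
          rw [hδ1 n (by omega), hδ1 (n + 1) (by omega)]
          exact ⟨rfl, rfl, rfl, rfl⟩
        · refine ⟨n + 1, by omega, ?_⟩
          rw [hδ1 n (by omega), hδ2 (n + 1) (by omega), h]
          exact ⟨e1.symm, e2.symm, rfl, rfl⟩
        · refine ⟨n + 1, by omega, ?_⟩
          rw [hδ2 n (by omega), hδ2 (n + 1) (by omega)]
          exact ⟨rfl, rfl, rfl, rfl⟩
      refine ih (fun n => sg (δ n)) (fun n => ep (δ n)) (fun n => lb (δ n)) U hl hx ?_ ?_ ?_ ?_ ?_
      · intro n hn
        obtain ⟨q, hq, h1, h2, h3, h4⟩ := hcons n hn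
        have := hsg q hq
        rw [h1, h3]
        exact this
      · intro n hn
        obtain ⟨q, hq, h1, h2, h3, h4⟩ := hcons n hn
        rw [h2, h4]
        exact hep q hq
      · intro n hn
        obtain ⟨q, hq, h1, h2, h3, h4⟩ := hcons n hn
        rw [h2, h4]
        exact hep' q hq
      · rw [hδ1 0 (by omega)]
        rcases lt_or_ge p t with h | h
        · rw [hδ2 t h]
          exact hper
        · have : p = t := by omega
          rw [hδ1 t (by omega), ← this, ← e1, this]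
          exact hper
      · intro i j hij hj hlab m a φ m' a' n b ψ n' b' h1 h2 h3 h4 h5 h6
        refine hU (δ i) (δ j) ?_ ?_ hlab m a φ m' a' n b ψ n' b' h1 h2 h3 h4 h5 h6
        · rcases le_or_gt i p with h | h
          · rw [hδ1 i h]
            rcases le_or_gt j p with h' | h'
            · rw [hδ1 j h']
              exact hij
            · rw [hδ2 j h']
              omega
          · rw [hδ2 i h, hδ2 j (by omega)]
            omega
        · rcases le_or_gt j p with h' | h'
          · rw [hδ1 j h']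
            omega
          · rw [hδ2 j h']
            omega

end MPab
end
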