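import Pool.Agent.Lib.MP_ab497f_al.Spec

section
/-!
# MP_ab497f_al : basic facts (words, positions, nodes, chains)
-/
set_option autoImplicit false

namespace MPab

/-! ## words -/

section Words

variable {α G : Type} [Group G]

@[simp] theorem val_nil (f : α → G) : val f [] = 1 := by simp [val]

@[simp] theorem val_append (f : α → G) (u v : List α) : val f (u ++ v) = val f u * val f v := by
  simp [val]

@[simp] theorem rep_zero (w : List α) : rep 0 w = [] := rfl

theorem rep_succ (n : ℕ) (w : List α) : rep (n + 1) w = w ++ rep n w := by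
  simp [rep, List.replicate_succ]

theorem rep_one (w : List α) : rep 1 w = w := by simp [rep]

theorem rep_add (m n : ℕ) (w : List α) : rep (m + n) w = rep m w ++ rep n w := by
  simp only [rep, List.replicate_add, List.flatten_append]

theorem rep_succ' (n : ℕ) (w : List α) : rep (n + 1) w = rep n w ++ w := by
  rw [rep_add, rep_one]

@[simp] theorem rep_length (n : ℕ) (w : List α) : (rep n w).length = n * w.length := by
  simp [rep]

@[simp] theorem val_rep (f : α → G) (n : ℕ) (w : List α) : val f (rep n w) = val f w ^ n := by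
  induction n with
  | zero => simp
  | succ n ih => rw [rep_succ', val_append, ih, pow_succ]

theorem rep_reverse (n : ℕ) (w : List α) : (rep n w).reverse = rep n w.reverse := by
  induction n with
  | zero => simp
  | succ n ih => rw [rep_succ', List.reverse_append, ih, rep_succ]

/-- prefix of a power -/
theorem rep_take (n : ℕ) (w : List α) (k j : ℕ) (hk : k < n) (hj : j ≤ w.length) :
    (rep n w).take (k * w.length + j) = rep k w ++ w.take j := by
  obtain ⟨m, rfl⟩ : ∃ m, n = k + (m + 1) := ⟨n - k - 1, by omega⟩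
  rw [rep_add, List.take_append, rep_length]
  rw [List.take_of_length_le (by rw [rep_length]; omega), Nat.add_sub_cancel_left, rep_succ,
    List.take_append_of_le_length hj]

/-- values of prefixes of a power of a word with value `1` -/
theorem val_rep_take (f : α → G) {w : List α} (hw : val f w = 1) (n i : ℕ)
    (hi : i ≤ n * w.length) : val f ((rep n w).take i) = val f (w.take (i % w.length)) := by
  rcases Nat.eq_zero_or_pos w.length with h0 | hpos
  · have : w = [] := List.length_eq_zero_iff.1 h0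
    subst this
    simp at hi
    subst hi
    simp
  · rcases Nat.lt_or_ge i (n * w.length) with h | h
    · have hk : i / w.length < n := Nat.div_lt_of_lt_mul (by rwa [Nat.mul_comm] at h)
      have hj : i % w.length ≤ w.length := (Nat.mod_lt _ hpos).le
      have h1 := rep_take n w (i / w.length) (i % w.length) hk hj
      rw [show i / w.length * w.length + i % w.length = i by
        rw [Nat.mul_comm]; exact Nat.div_add_mod i w.length] at h1
      rw [h1, val_append, val_rep, hw, one_pow, one_mul]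
    · have hi' : i = n * w.length := le_antisymm hi h
      rw [List.take_of_length_le (by rw [rep_length]; omega), val_rep, hw, one_pow, hi',
        Nat.mul_mod_left, List.take_zero, val_nil]

end Words

/-! ## paths and noise -/

section Paths

variable {α G T : Type} [Group G]

theorem IsPath.val_snd {f : α → G} {v : List α × List α} (h : IsPath f v) :
    val f v.2 = (val f v.1)⁻¹ := by
  unfold IsPath at h
  exact (inv_eq_of_mul_eq_one_right h).symm

theorem mem_epos_fst {f : α → G} {v : List α × List α} (i : ℕ) :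
    val f (v.1.take i) ∈ epos f v := by
  unfold epos
  rw [List.mem_append]
  left
  rw [List.mem_map]
  exact ⟨v.1.take i, by rw [List.mem_inits]; exact List.take_prefix _ _, rfl⟩

theorem mem_epos_snd {f : α → G} {v : List α × List α} (i : ℕ) :
    val f v.1 * val f (v.2.take i) ∈ epos f v := by
  unfold epos
  rw [List.mem_append]
  right
  rw [List.mem_map]
  exact ⟨v.2.take i, by rw [List.mem_inits]; exact List.take_prefix _ _, rfl⟩

theorem mem_epos_iff {f : α → G} {v : List α × List α} {g : G} :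
    g ∈ epos f v ↔ (∃ p, p <+: v.1 ∧ g = val f p) ∨ (∃ p, p <+: v.2 ∧ g = val f v.1 * val f p) := by
  unfold epos
  simp only [List.mem_append, List.mem_map, List.mem_inits]
  constructor
  · rintro (⟨p, hp, rfl⟩ | ⟨p, hp, rfl⟩)
    · exact Or.inl ⟨p, hp, rfl⟩
    · exact Or.inr ⟨p, hp, rfl⟩
  · rintro (⟨p, hp, rfl⟩ | ⟨p, hp, rfl⟩)
    · exact Or.inl ⟨p, hp, rfl⟩
    · exact Or.inr ⟨p, hp, rfl⟩

theorem Good.mono {f : α → G} {K : Finset G} {P0 : List G} {A : T → Subgroup G} (Ω : Noise α) :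
    ∀ {B B' : Subgroup G}, B ≤ B' → Good f K P0 A B Ω → Good f K P0 A B' Ω := by
  induction Ω with
  | blob =>
    rintro B B' h ⟨k, hk, hkB⟩
    exact ⟨k, hk, h hkB⟩
  | sub W ih =>
    rintro B B' h ⟨τ, r, hr, hle, hg⟩
    exact ⟨τ, r, hr, hle.trans h, hg⟩
  | app W₁ W₂ ih₁ ih₂ =>
    rintro B B' h ⟨h₁, h₂⟩
    exact ⟨ih₁ h h₁, ih₂ h h₂⟩
  | tr v W ih =>
    intro B B' h hg
    exact ih (cj_mono h) hg

theorem Good.mono_K {f : α → G} {K K' : Finset G} (hK : K ⊆ K') {P0 : List G}
    {A : T → Subgroup G} (Ω : Noise α) :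
    ∀ {B : Subgroup G}, Good f K P0 A B Ω → Good f K' P0 A B Ω := by
  induction Ω with
  | blob =>
    rintro B ⟨k, hk, hkB⟩
    exact ⟨k, hK hk, hkB⟩
  | sub W ih =>
    rintro B ⟨τ, r, hr, hle, hg⟩
    exact ⟨τ, r, hr, hle, ih hg⟩
  | app W₁ W₂ ih₁ ih₂ =>
    rintro B ⟨h₁, h₂⟩
    exact ⟨ih₁ h₁, ih₂ h₂⟩
  | tr v W ih =>
    intro B hg
    exact ih hg

end Paths

/-! ## positions -/

section Pos

variable {α G : Type} [Group G]

@[simp] theorem pos_zero (f : α → G) (W : List α) : pos f W 0 = 1 := by simp [pos]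

theorem pos_length (f : α → G) (W : List α) (i : ℕ) (hi : W.length ≤ i) :
    pos f W i = val f W := by
  unfold pos
  rw [List.take_of_length_le hi]

/-- the factor `W[i, i + k)` -/
theorem pos_add (f : α → G) (W : List α) (i k : ℕ) :
    pos f W (i + k) = pos f W i * val f ((W.drop i).take k) := by
  unfold pos
  rw [← val_append]
  congr 1
  rw [List.take_add]

/-- positions inside an occurrence of a word -/
theorem At.pos_add {f : α → G} {W F : List α} {i : ℕ} (h : At W i F) (k : ℕ)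
    (hk : k ≤ F.length) : pos f W (i + k) = pos f W i * val f (F.take k) := by
  obtain ⟨W₁, W₂, rfl, rfl⟩ := h
  rw [MPab.pos_add]
  congr 2
  rw [List.append_assoc, List.drop_left', List.take_append_of_le_length hk]
  rfl

theorem At.pos_end {f : α → G} {W F : List α} {i : ℕ} (h : At W i F) :
    pos f W (i + F.length) = pos f W i * val f F := by
  rw [h.pos_add F.length le_rfl, List.take_length]

theorem At.le_length {W F : List α} {i : ℕ} (h : At W i F) : i + F.length ≤ W.length := by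
  obtain ⟨W₁, W₂, rfl, rfl⟩ := h
  simp only [List.length_append]
  omega

theorem At.drop_take {W F : List α} {i : ℕ} (h : At W i F) : (W.drop i).take F.length = F := by
  obtain ⟨W₁, W₂, rfl, rfl⟩ := h
  rw [List.append_assoc, List.drop_left' rfl, List.take_left' rfl]

theorem At.of_drop_take {W F : List α} {i : ℕ} (hi : i ≤ W.length)
    (h : (W.drop i).take F.length = F) : At W i F := by
  refine ⟨W.take i, (W.drop i).drop F.length, ?_, ?_⟩
  · conv_lhs => rw [← List.take_append_drop i W]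
    rw [List.append_assoc]
    congr 1
    conv_lhs => rw [← List.take_append_drop F.length (W.drop i), h]
  · rw [List.length_take]; omega

/-- an occurrence inside an occurrence -/
theorem At.trans {W F E : List α} {i j : ℕ} (h : At W i F) (h' : At F j E) : At W (i + j) E := by
  obtain ⟨W₁, W₂, rfl, rfl⟩ := h
  obtain ⟨F₁, F₂, rfl, rfl⟩ := h'
  exact ⟨W₁ ++ F₁, F₂ ++ W₂, by simp [List.append_assoc], by simp⟩

theorem At.left {W F E : List α} {i : ℕ} (h : At W i (F ++ E)) : At W i F := by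
  have := h.trans (j := 0) (E := F) ⟨[], E, by simp, rfl⟩
  simpa using this

theorem At.right {W F E : List α} {i : ℕ} (h : At W i (F ++ E)) : At W (i + F.length) E :=
  h.trans ⟨F, [], by simp, rfl⟩

theorem At.refl (W : List α) : At W 0 W := ⟨[], [], by simp, rfl⟩

/-- the `k`-th copy in a power -/
theorem At.rep_copy {W u : List α} {i n : ℕ} (h : At W i (rep n u)) {k : ℕ} (hk : k < n) :
    At W (i + k * u.length) u := by
  obtain ⟨m, rfl⟩ : ∃ m, n = k + (m + 1) := ⟨n - k - 1, by omega⟩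
  rw [rep_add, rep_succ, ← List.append_assoc] at h
  have := h.left.right
  rwa [rep_length] at this

end Pos

/-! ## trees and nodes -/

section Nodes

variable {α Q : Type}

theorem Tr.yd_length_pos (T : Tr Q α) : 0 < T.yd.length := by
  induction T with
  | leaf q a => simp [Tr.yd]
  | node q l r ihl ihr => simp only [Tr.yd, List.length_append]; omega

theorem Nd.st_lt_en (E : Nd Q α) : E.st < E.en := by
  have := E.tr.yd_length_pos
  unfold Nd.en
  omega

@[simp] theorem Nd.en_mk (i : ℕ) (T : Tr Q α) : Nd.en ⟨i, T⟩ = i + T.yd.length := rfl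

@[simp] theorem Nd.lab_mk (i : ℕ) (T : Tr Q α) : Nd.lab ⟨i, T⟩ = T.lab := rfl

theorem Child.st_le {E F : Nd Q α} (h : Child E F) : E.st ≤ F.st := by
  cases h <;> simp

theorem Child.en_le {E F : Nd Q α} (h : Child E F) : F.en ≤ E.en := by
  cases h <;> simp only [Nd.en_mk, Tr.yd, List.length_append] <;> omega

/-- a step of an arm: either it cuts off a left piece or a right piece -/
theorem Child.cases' {E F : Nd Q α} (h : Child E F) :
    (F.st = E.st ∧ F.en < E.en ∧ ∃ D : Nd Q α, Child E D ∧ D.st = F.en ∧ D.en = E.en) ∨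
    (F.en = E.en ∧ E.st < F.st ∧ ∃ D : Nd Q α, Child E D ∧ D.st = E.st ∧ D.en = F.st) := by
  cases h with
  | left i q l r =>
    left
    have := r.yd_length_pos
    refine ⟨rfl, ?_, ⟨i + l.yd.length, r⟩, Child.right i q l r, rfl, ?_⟩
    · simp only [Nd.en_mk, Tr.yd, List.length_append]; omega
    · simp only [Nd.en_mk, Tr.yd, List.length_append]; omega
  | right i q l r =>
    right
    have := l.yd_length_pos
    refine ⟨?_, ?_, ⟨i, l⟩, Child.left i q l r, rfl, rfl⟩
    · simp only [Nd.en_mk, Tr.yd, List.length_append]; omega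
    · simp only; omega

theorem Child.lt {E F : Nd Q α} (h : Child E F) : F.en - F.st < E.en - E.st := by
  have h1 := F.st_lt_en
  rcases h.cases' with ⟨h2, h3, _⟩ | ⟨h2, h3, _⟩ <;> omega

theorem Below.refl (E : Nd Q α) : Below E E := Relation.ReflTransGen.refl

theorem Below.trans {E F D : Nd Q α} (h : Below E F) (h' : Below F D) : Below E D :=
  Relation.ReflTransGen.trans h h'

theorem Child.below {E F : Nd Q α} (h : Child E F) : Below E F := Relation.ReflTransGen.single h

theorem Below.st_le {E F : Nd Q α} (h : Below E F) : E.st ≤ F.st := by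
  induction h with
  | refl => exact le_rfl
  | tail _ h2 ih => exact ih.trans h2.st_le

theorem Below.en_le {E F : Nd Q α} (h : Below E F) : F.en ≤ E.en := by
  induction h with
  | refl => exact le_rfl
  | tail _ h2 ih => exact h2.en_le.trans ih

theorem Chain.below {c : ℕ → Nd Q α} {t : ℕ} (h : Chain c t) {i j : ℕ} (hij : i ≤ j)
    (hj : j ≤ t) : Below (c i) (c j) := by
  induction j, hij using Nat.le_induction with
  | base => exact Below.refl _
  | succ j hij ih => exact (ih (by omega)).trans (h j (by omega)).below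

/-- the yield of a node occurs in the yield of the tree -/
theorem Below.at {E F : Nd Q α} (h : Below E F) :
    ∃ y z : List α, E.tr.yd = y ++ F.tr.yd ++ z ∧ F.st = E.st + y.length ∧
      E.en = F.en + z.length := by
  induction h with
  | refl => exact ⟨[], [], by simp, by simp, by simp⟩
  | @tail F D h1 h2 ih =>
    obtain ⟨y, z, h3, h4, h5⟩ := ih
    cases h2 with
    | left i q l r =>
      refine ⟨y, r.yd ++ z, ?_, ?_, ?_⟩
      · rw [h3]; simp [Tr.yd, List.append_assoc]
      · exact h4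
      · rw [h5]
        simp only [Nd.en_mk, Tr.yd, List.length_append]
        omega
    | right i q l r =>
      refine ⟨y ++ l.yd, z, ?_, ?_, ?_⟩
      · rw [h3]; simp [Tr.yd, List.append_assoc]
      · simp only [List.length_append] at h4 ⊢
        omega
      · rw [h5]
        simp only [Nd.en_mk, Tr.yd, List.length_append]
        omega

theorem Below.at_yd {T : Tr Q α} {E : Nd Q α} (h : Below ⟨0, T⟩ E) : At T.yd E.st E.tr.yd := by
  obtain ⟨y, z, h1, h2, _⟩ := h.at
  exact ⟨y, z, h1, by simpa using h2.symm⟩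

theorem Below.valid {L : Q → Set (List α)} {E F : Nd Q α} (h : Below E F)
    (hE : E.tr.Valid L) : F.tr.Valid L := by
  induction h with
  | refl => exact hE
  | tail _ h2 ih =>
    cases h2 with
    | left i q l r => exact ih.2.1
    | right i q l r => exact ih.2.2

theorem Below.en_le_length {T : Tr Q α} {E : Nd Q α} (h : Below ⟨0, T⟩ E) :
    E.en ≤ T.yd.length := by
  have := h.en_le
  simpa using this

/-- two nodes below a common node are nested or disjoint -/
theorem Below.nested_or_disjoint {R E F : Nd Q α} (hE : Below R E) (hF : Below R F) :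
    Below E F ∨ Below F E ∨ E.en ≤ F.st ∨ F.en ≤ E.st := by
  induction hE using Relation.ReflTransGen.head_induction_on with
  | refl => exact Or.inl hF
  | @head R R' h1 h2 ih =>
    rcases Relation.ReflTransGen.cases_head hF with rfl | ⟨R'', h3, h4⟩
    · exact Or.inr (Or.inl (Relation.ReflTransGen.head h1 h2))
    · have key : R' = R'' ∨ R'.en ≤ R''.st ∨ R''.en ≤ R'.st := by
        cases h1 with
        | left i q l r =>
          cases h3 with
          | left => exact Or.inl rfl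
          | right => exact Or.inr (Or.inl (by simp))
        | right i q l r =>
          cases h3 with
          | left => exact Or.inr (Or.inr (by simp))
          | right => exact Or.inl rfl
      rcases key with rfl | h5 | h5
      · exact ih h4
      · right; right; left
        exact (Below.en_le h2).trans (h5.trans (Below.st_le h4))
      · right; right; right
        exact (Below.en_le h4).trans (h5.trans (Below.st_le h2))

/-- the path from a node to a letter below it -/
theorem exists_chain_to_letter (E : Nd Q α) (p : ℕ) (h1 : E.st ≤ p) (h2 : p < E.en) :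
    ∃ (c : ℕ → Nd Q α) (t : ℕ), Chain c t ∧ c 0 = E ∧ (c t).st = p ∧ (c t).en = p + 1 := by
  obtain ⟨i, T⟩ := E
  induction T generalizing i with
  | leaf q a =>
    refine ⟨fun _ => ⟨i, .leaf q a⟩, 0, fun j hj => by omega, rfl, ?_, ?_⟩
    · simp only [Nd.en_mk, Tr.yd, List.length_singleton] at h1 h2 ⊢; omega
    · simp only [Nd.en_mk, Tr.yd, List.length_singleton] at h1 h2 ⊢; omega
  | node q l r ihl ihr =>
    have key : ∀ (F : Nd Q α), Child ⟨i, .node q l r⟩ F →
        (∃ (c : ℕ → Nd Q α) (t : ℕ), Chain c t ∧ c 0 = F ∧ (c t).st = p ∧ (c t).en = p + 1) →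
        ∃ (c : ℕ → Nd Q α) (t : ℕ), Chain c t ∧ c 0 = ⟨i, .node q l r⟩ ∧ (c t).st = p ∧
          (c t).en = p + 1 := by
      rintro F hF ⟨c, t, hc, hc0, hst, hen⟩
      refine ⟨fun j => if j = 0 then ⟨i, .node q l r⟩ else c (j - 1), t + 1, ?_, by simp, ?_, ?_⟩
      · intro j hj
        rcases Nat.eq_zero_or_pos j with rfl | hpos
        · simp only [if_true, Nat.zero_add, Nat.one_ne_zero, if_false, Nat.sub_self]
          rw [hc0]; exact hF
        · simp only [if_neg (show j ≠ 0 by omega), if_neg (show j + 1 ≠ 0 by omega)]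
          have := hc (j - 1) (by omega)
          rwa [show j - 1 + 1 = j + 1 - 1 by omega] at this
      · simpa using hst
      · simpa using hen
    by_cases hp : p < i + l.yd.length
    · exact key _ (Child.left i q l r) (ihl i h1 (by simpa using hp))
    · refine key _ (Child.right i q l r) (ihr (i + l.yd.length) ?_ ?_)
      · simp only; omega
      · simp only [Nd.en_mk, Tr.yd, List.length_append] at h2 ⊢; omega

/-- a `Below` relation is a chain -/
theorem Below.exists_chain {E F : Nd Q α} (h : Below E F) :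
    ∃ (c : ℕ → Nd Q α) (t : ℕ), Chain c t ∧ c 0 = E ∧ c t = F := by
  induction h with
  | refl => exact ⟨fun _ => E, 0, fun j hj => by omega, rfl, rfl⟩
  | @tail F D h1 h2 ih =>
    obtain ⟨c, t, hc, h0, ht⟩ := ih
    refine ⟨fun j => if j ≤ t then c j else D, t + 1, ?_, by simp [h0], by simp⟩
    intro j hj
    rcases Nat.lt_or_ge j t with h | h
    · simp only [if_pos h.le, if_pos (show j + 1 ≤ t by omega)]
      exact hc j h
    · have : j = t := by omega
      subst this
      simp only [le_refl, if_true, if_neg (show ¬ j + 1 ≤ j by omega)]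
      rw [ht]; exact h2

/-- yields of valid trees -/
theorem Tr.Valid.mem {L : Q → Set (List α)} {T : Tr Q α} (h : T.Valid L) : T.yd ∈ L T.lab := by
  induction T with
  | leaf q a => exact h
  | node q l r ihl ihr => exact h.1 _ (ihl h.2.1) _ (ihr h.2.2)

/-- replacement at a node: the context of `F` in `E` preserves languages -/
theorem Below.replace {L : Q → Set (List α)} {E F : Nd Q α} (h : Below E F)
    (hE : E.tr.Valid L) :
    ∃ y z : List α, E.tr.yd = y ++ F.tr.yd ++ z ∧ F.st = E.st + y.length ∧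
      E.en = F.en + z.length ∧ ∀ w ∈ L F.lab, y ++ w ++ z ∈ L E.lab := by
  induction h with
  | refl => exact ⟨[], [], by simp, by simp, by simp, fun w hw => by simpa using hw⟩
  | @tail F D h1 h2 ih =>
    obtain ⟨y, z, h3, h4, h5, h6⟩ := ih
    have hF : F.tr.Valid L := Below.valid h1 hE
    cases h2 with
    | left i q l r =>
      refine ⟨y, r.yd ++ z, ?_, h4, ?_, ?_⟩
      · rw [h3]; simp [Tr.yd, List.append_assoc]
      · rw [h5]
        simp only [Nd.en_mk, Tr.yd, List.length_append]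
        omega
      · intro w hw
        have := h6 (w ++ r.yd) (hF.1 _ hw _ hF.2.2.mem)
        simpa [List.append_assoc] using this
    | right i q l r =>
      refine ⟨y ++ l.yd, z, ?_, ?_, ?_, ?_⟩
      · rw [h3]; simp [Tr.yd, List.append_assoc]
      · simp only [List.length_append] at h4 ⊢
        omega
      · rw [h5]
        simp only [Nd.en_mk, Tr.yd, List.length_append]
        omega
      · intro w hw
        have := h6 (l.yd ++ w) (hF.1 _ hF.2.1.mem _ hw)
        simpa [List.append_assoc] using this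

end Nodes

end MPab
end

section
/-!
Problem MP_ab497f_al, module PLAN: facts on planar words.
-/
set_option autoImplicit false

namespace MPab

namespace PLAN

variable {α G : Type} [Group G]

/-- the first `M` runs -/
def runs (s : ZMod 10 → List α) (x M : ℕ) : List α :=
  (List.range M).flatMap fun k : ℕ => rep x (s (k : ZMod 10))

lemma PiW_eq (s : ZMod 10 → List α) (x : ℕ) : PiW s x = runs s x 10 := rfl

lemma runs_succ (s : ZMod 10 → List α) (x M : ℕ) :
    runs s x (M + 1) = runs s x M ++ rep x (s (M : ZMod 10)) := by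
  unfold runs
  rw [List.range_succ, List.flatMap_append]
  simp

lemma runs_zero (s : ZMod 10 → List α) (x : ℕ) : runs s x 0 = [] := rfl

lemma runs_add_ten (s : ZMod 10 → List α) (x n : ℕ) (M : ℕ) :
    runs s x (10 * n + M) = runs s x (10 * n) ++ runs s x M := by
  induction M with
  | zero => simp [runs_zero]
  | succ M ih =>
    rw [← add_assoc, runs_succ, ih, runs_succ, List.append_assoc]
    congr 3
    push_cast
    rw [show (10 : ZMod 10) = 0 by decide]
    ring_nf

lemma rep_PiW (s : ZMod 10 → List α) (x n : ℕ) : rep n (PiW s x) = runs s x (10 * n) := by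
  induction n with
  | zero => rfl
  | succ n ih =>
    rw [rep_succ', ih, mul_add, mul_one, runs_add_ten]
    rfl

lemma length_runs (s : ZMod 10 → List α) (x M : ℕ) :
    (runs s x M).length = rs (fun k => (s k).length) x M := by
  induction M with
  | zero => rfl
  | succ M ih =>
    rw [runs_succ, List.length_append, ih, rep_length]
    unfold rs
    rw [Finset.sum_range_succ]

lemma rs_ten (len : ZMod 10 → ℕ) (x : ℕ) : rs len x 10 = x * ell len := by
  unfold rs ell
  rw [Finset.mul_sum]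
  rw [← Fin.sum_univ_eq_sum_range (fun i => x * len (i : ZMod 10)) 10]
  apply Finset.sum_congr rfl
  intro k _
  congr 2
  exact ZMod.natCast_zmod_val (n := 10) k

lemma prefix_runs (s : ZMod 10 → List α) (x : ℕ) {M M' : ℕ} (h : M ≤ M') :
    runs s x M <+: runs s x M' := by
  induction M', h using Nat.le_induction with
  | base => exact List.prefix_refl _
  | succ M' _ ih =>
    rw [runs_succ]
    exact ih.trans (List.prefix_append _ _)

lemma take_runs (s : ZMod 10 → List α) (x : ℕ) {M m a φ : ℕ} (hm : m < M) (ha : a < x)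
    (hφ : φ ≤ (s (m : ZMod 10)).length) :
    (runs s x M).take (rs (fun k => (s k).length) x m + a * (s (m : ZMod 10)).length + φ) =
      runs s x m ++ rep a (s (m : ZMod 10)) ++ (s (m : ZMod 10)).take φ := by
  have hpre := prefix_runs s x (show m + 1 ≤ M by omega)
  obtain ⟨r, hr⟩ := hpre
  obtain ⟨b, rfl⟩ : ∃ b, x = a + (b + 1) := ⟨x - a - 1, by omega⟩
  rw [← hr, runs_succ]
  have hlen := length_runs s (a + (b + 1)) m
  have e : rep (a + (b + 1)) (s (m : ZMod 10)) = rep a (s (m : ZMod 10)) ++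
      ((s (m : ZMod 10)) ++ rep b (s (m : ZMod 10))) := by
    rw [rep_add, rep_succ]
  rw [e]
  have e2 : runs s (a + (b + 1)) m ++ (rep a (s (m : ZMod 10)) ++
      ((s (m : ZMod 10)) ++ rep b (s (m : ZMod 10)))) ++ r =
      (runs s (a + (b + 1)) m ++ rep a (s (m : ZMod 10))) ++ ((s (m : ZMod 10)) ++
        (rep b (s (m : ZMod 10)) ++ r)) := by
    simp only [List.append_assoc]
  rw [e2]
  have e3 : rs (fun k => (s k).length) (a + (b + 1)) m + a * (s (m : ZMod 10)).length + φ =
      (runs s (a + (b + 1)) m ++ rep a (s (m : ZMod 10))).length + φ := by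
    rw [List.length_append, hlen, rep_length]
  rw [e3, List.take_length_add_append, List.take_append_of_le_length hφ]

lemma val_runs {f : α → G} {ι : Z2 →* G} (D : PD f ι) (x M : ℕ) :
    val f (runs D.s x M) =
      ι (Multiplicative.ofAdd (∑ i ∈ Finset.range M, (x : ℤ) • D.d (i : ZMod 10))) := by
  induction M with
  | zero =>
    simp only [runs_zero, val_nil, Finset.range_zero, Finset.sum_empty]
    rw [ofAdd_zero, map_one]
  | succ M ih =>
    rw [runs_succ, val_append, ih, val_rep, D.val_s, Finset.sum_range_succ, ofAdd_add, map_mul,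
      ← map_pow, ← ofAdd_nsmul, natCast_zsmul]

lemma val_take {f : α → G} {ι : Z2 →* G} (D : PD f ι) {x n i m a φ : ℕ} (ha : a < x)
    (hφ : φ ≤ (D.s (m : ZMod 10)).length)
    (hi : i = rs (fun k => (D.s k).length) x m + a * (D.s (m : ZMod 10)).length + φ)
    (hn : i ≤ n * (PiW D.s x).length) :
    val f ((rep n (PiW D.s x)).take i) =
      ι (Multiplicative.ofAdd (pl D.d x m a)) * val f ((D.s (m : ZMod 10)).take φ) := by
  have h1 : (rep n (PiW D.s x)).take i = (runs D.s x (max (10 * n) (m + 1))).take i := by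
    obtain ⟨r, hr⟩ := prefix_runs D.s x (le_max_left (10 * n) (m + 1))
    rw [← hr, rep_PiW, List.take_append_of_le_length]
    rw [← rep_PiW, rep_length]
    exact hn
  rw [h1, hi, take_runs D.s x (lt_of_lt_of_le (Nat.lt_succ_self m) (le_max_right _ _)) ha hφ,
    val_append, val_append, val_runs, val_rep, D.val_s]
  unfold pl
  rw [ofAdd_add, map_mul, ← map_pow, ← ofAdd_nsmul, natCast_zsmul]

lemma rs_mono (len : ZMod 10 → ℕ) (x : ℕ) {m m' : ℕ} (h : m ≤ m') :
    rs len x m ≤ rs len x m' := by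
  unfold rs
  exact Finset.sum_le_sum_of_subset (Finset.range_mono h)

lemma rs_succ (len : ZMod 10 → ℕ) (x m : ℕ) :
    rs len x (m + 1) = rs len x m + x * len (m : ZMod 10) := by
  unfold rs
  rw [Finset.sum_range_succ]

lemma le_rs (len : ZMod 10 → ℕ) (hlen : ∀ k, 1 ≤ len k) {x : ℕ} (hx : 0 < x) (m : ℕ) :
    m ≤ rs len x m := by
  induction m with
  | zero => exact Nat.zero_le _
  | succ m ih =>
    rw [rs_succ]
    have := Nat.mul_pos hx (hlen (m : ZMod 10))
    omega

lemma loc_lt {len : ZMod 10 → ℕ} {x i m a φ : ℕ} (h : Loc len x i m a φ) :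
    rs len x m ≤ i ∧ i < rs len x (m + 1) := by
  obtain ⟨h1, h2, h3⟩ := h
  rw [rs_succ]
  refine ⟨by omega, ?_⟩
  have : (a + 1) * len (m : ZMod 10) ≤ x * len (m : ZMod 10) := Nat.mul_le_mul_right _ h1
  rw [add_mul, one_mul] at this
  omega

lemma loc_exists (len : ZMod 10 → ℕ) (hlen : ∀ k, 1 ≤ len k) {x : ℕ} (hx : 0 < x) (i : ℕ) :
    ∃ m a φ : ℕ, Loc len x i m a φ := by
  have hex : ∃ m, i < rs len x (m + 1) := ⟨i, by
    have := le_rs len hlen hx (i + 1)
    omega⟩
  classical
  let m := Nat.find hex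
  have hm : i < rs len x (m + 1) := Nat.find_spec hex
  have hm2 : rs len x m ≤ i := by
    rcases Nat.eq_zero_or_pos m with h | h
    · rw [h]
      simp [rs]
    · have := Nat.find_min hex (show m - 1 < m by omega)
      rw [show m - 1 + 1 = m by omega] at this
      omega
  have hl := hlen (m : ZMod 10)
  refine ⟨m, (i - rs len x m) / len (m : ZMod 10), (i - rs len x m) % len (m : ZMod 10), ?_, ?_, ?_⟩
  · rw [Nat.div_lt_iff_lt_mul (by omega)]
    rw [rs_succ] at hm
    omega
  · exact Nat.mod_lt _ (by omega)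
  · have := Nat.div_add_mod (i - rs len x m) (len (m : ZMod 10))
    rw [mul_comm] at this
    omega

lemma loc_unique {len : ZMod 10 → ℕ} {x i m a φ m' a' φ' : ℕ}
    (h : Loc len x i m a φ) (h' : Loc len x i m' a' φ') : m = m' ∧ a = a' ∧ φ = φ' := by
  have h1 := loc_lt h
  have h2 := loc_lt h'
  have hm : m = m' := by
    rcases lt_trichotomy m m' with h3 | h3 | h3
    · have := rs_mono len x (show m + 1 ≤ m' by omega)
      omega
    · exact h3
    · have := rs_mono len x (show m' + 1 ≤ m by omega)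
      omega
  subst hm
  obtain ⟨-, h4, h5⟩ := h
  obtain ⟨-, h6, h7⟩ := h'
  have h8 : a * len (m : ZMod 10) + φ = a' * len (m : ZMod 10) + φ' := by omega
  have hφ : φ = φ' := by
    have := congrArg (· % len (m : ZMod 10)) h8
    simpa [Nat.add_mod, Nat.mod_eq_of_lt h4, Nat.mod_eq_of_lt h6] using this
  subst hφ
  refine ⟨rfl, ?_, rfl⟩
  have h9 : a * len (m : ZMod 10) = a' * len (m : ZMod 10) := by omega
  exact Nat.eq_of_mul_eq_mul_right (by omega) h9

lemma sum_ten {f : α → G} {ι : Z2 →* G} (D : PD f ι) (x : ℕ) :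
    ∑ i ∈ Finset.range 10, (x : ℤ) • D.d (i : ZMod 10) = 0 := by
  rw [← Finset.smul_sum]
  have h5 : ∀ k : ZMod 10, D.d (k + 5) = - D.d k := D.opp
  have e : ∑ i ∈ Finset.range 10, D.d ((i : ℕ) : ZMod 10) = 0 := by
    simp only [Finset.sum_range_succ, Finset.sum_range_zero]
    have a0 := h5 0
    have a1 := h5 1
    have a2 := h5 2
    have a3 := h5 3
    have a4 := h5 4
    rw [show (0 : ZMod 10) + 5 = ((5 : ℕ) : ZMod 10) by decide] at a0
    rw [show (1 : ZMod 10) + 5 = ((6 : ℕ) : ZMod 10) by decide] at a1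
    rw [show (2 : ZMod 10) + 5 = ((7 : ℕ) : ZMod 10) by decide] at a2
    rw [show (3 : ZMod 10) + 5 = ((8 : ℕ) : ZMod 10) by decide] at a3
    rw [show (4 : ZMod 10) + 5 = ((9 : ℕ) : ZMod 10) by decide] at a4
    rw [a0, a1, a2, a3, a4]
    rw [show ((0 : ℕ) : ZMod 10) = 0 by decide, show ((1 : ℕ) : ZMod 10) = 1 by decide,
      show ((2 : ℕ) : ZMod 10) = 2 by decide, show ((3 : ℕ) : ZMod 10) = 3 by decide,
      show ((4 : ℕ) : ZMod 10) = 4 by decide]
    abel
  rw [e, smul_zero]

end PLAN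

open PLAN in
theorem specPLAN : SpecPLAN := by
  intro α G _ f ι D x hx
  have hlen : ∀ k : ZMod 10, 1 ≤ (D.s k).length := by
    intro k
    exact List.length_pos_iff.mpr (D.ne k)
  refine ⟨?_, ?_, ?_, ?_, ?_, ?_⟩
  · rw [← rs_ten, ← length_runs]
    rfl
  · have h1 := val_runs D x 10
    rw [sum_ten, ofAdd_zero, map_one] at h1
    exact h1
  · intro i
    exact loc_exists (fun k => (D.s k).length) hlen hx i
  · intro i m a φ m' a' φ' h h'
    exact loc_unique h h'
  · rintro n i m a φ hi ⟨h1, h2, h3⟩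
    exact val_take D h1 h2.le h3 hi
  · rintro n i m a φ hi ⟨h1, h2, h3⟩
    exact val_take D h1 h2 (by rw [h3]; ring) hi

end MPab
end

section
/-!
Problem MP_ab497f_al, module BLR: the blob lemma for `R`-arms, assembled from PUMPINT, PORT, STAIR0,
STAIR, CONT.
-/
set_option autoImplicit false

namespace MPab

namespace BLR

variable {α Q G : Type} [Group G]

/-- the homomorphism `z ↦ g⁻¹ ι(z) g` -/
def cjh (ι : Z2 →* G) (g : G) : Z2 →* G where
  toFun z := g⁻¹ * ι z * g
  map_one' := by simp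
  map_mul' a b := by
    rw [map_mul]
    group

lemma cjh_apply (ι : Z2 →* G) (g : G) (z : Z2) : cjh ι g z = g⁻¹ * ι z * g := rfl

/-- the group of displacements -/
def UU (f : α → G) (L : Q → Set (List α)) (q : Q) (φ₁ φ₂ : Z2 →* G) :
    AddSubgroup ((ℤ × ℤ) × (ℤ × ℤ)) where
  carrier := {p | (φ₁ (Multiplicative.ofAdd p.1), φ₂ (Multiplicative.ofAdd p.2)) ∈ Ctx f L q ∧
    ((φ₁ (Multiplicative.ofAdd p.1))⁻¹, (φ₂ (Multiplicative.ofAdd p.2))⁻¹) ∈ Ctx f L q}
  zero_mem' := by
    refine ⟨?_, ?_⟩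
    · simp only [Prod.fst_zero, Prod.snd_zero, ofAdd_zero, map_one]
      exact Ctx.one f L q
    · simp only [Prod.fst_zero, Prod.snd_zero, ofAdd_zero, map_one, inv_one]
      exact Ctx.one f L q
  add_mem' := by
    rintro a b ⟨ha, ha'⟩ ⟨hb, hb'⟩
    refine ⟨?_, ?_⟩
    · have h := Ctx.mul ha hb
      simp only [Prod.fst_add, Prod.snd_add, ofAdd_add, map_mul]
      rw [← map_mul φ₂, mul_comm (Multiplicative.ofAdd a.2), map_mul]
      exact h
    · have h := Ctx.mul ha' hb'
      simp only [Prod.fst_add, Prod.snd_add, ofAdd_add, map_mul, mul_inv_rev]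
      rw [← mul_inv_rev, ← map_mul φ₁, mul_comm (Multiplicative.ofAdd a.1), map_mul, mul_inv_rev]
      exact h
  neg_mem' := by
    rintro a ⟨ha, ha'⟩
    refine ⟨?_, ?_⟩
    · simp only [Prod.fst_neg, Prod.snd_neg, ofAdd_neg, map_inv]
      exact ha'
    · simp only [Prod.fst_neg, Prod.snd_neg, ofAdd_neg, map_inv, inv_inv]
      exact ha

lemma mem_UU {f : α → G} {L : Q → Set (List α)} {q : Q} {φ₁ φ₂ : Z2 →* G}
    {l r : ℤ × ℤ} : (l, r) ∈ UU f L q φ₁ φ₂ ↔
      (φ₁ (Multiplicative.ofAdd l), φ₂ (Multiplicative.ofAdd r)) ∈ Ctx f L q ∧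
    ((φ₁ (Multiplicative.ofAdd l))⁻¹, (φ₂ (Multiplicative.ofAdd r))⁻¹) ∈ Ctx f L q := Iff.rfl

lemma hh_pos (Q : Type) (len : ZMod 10 → ℕ) : 1 ≤ hh Q len := Nat.one_le_two_pow

lemma len_le_ell (len : ZMod 10 → ℕ) (k : ZMod 10) : len k ≤ ell len :=
  Finset.single_le_sum (f := len) (fun _ _ => Nat.zero_le _) (Finset.mem_univ k)

/-- the finite set `K` -/
noncomputable def KK [Finite Q] (f : α → G) (ι : Z2 →* G) (D : PD f ι) (L : Q → Set (List α))
    (h : ℤ) : Finset G := by
  classical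
  haveI : Fintype Q := Fintype.ofFinite Q
  exact (((Finset.Icc (-h) h) ×ˢ (Finset.Icc (-h) h)).filter
      (fun e : ℤ × ℤ => e ≠ 0)).image (fun e => ι (Multiplicative.ofAdd e)) ∪
    ((Finset.univ : Finset Q) ×ˢ ((Finset.univ : Finset (ZMod 10)) ×ˢ
      Finset.range (ell (fun k => (D.s k).length) + 1))).image (fun p =>
        if hz : ∃ z : Z2, z ≠ 1 ∧ (val f ((D.s p.2.1).take p.2.2))⁻¹ * ι z *
          val f ((D.s p.2.1).take p.2.2) ∈ AL f L p.1 then ι hz.choose
        else ι (Multiplicative.ofAdd ((1, 0) : ℤ × ℤ)))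

lemma KK_planar [Finite Q] (f : α → G) (ι : Z2 →* G) (D : PD f ι) (L : Q → Set (List α))
    (h : ℤ) : ∀ k ∈ KK f ι D L h, ∃ z : Z2, z ≠ 1 ∧ ι z = k := by
  classical
  intro k hk
  unfold KK at hk
  rw [Finset.mem_union] at hk
  rcases hk with hk | hk
  · rw [Finset.mem_image] at hk
    obtain ⟨e, he, rfl⟩ := hk
    rw [Finset.mem_filter] at he
    exact ⟨Multiplicative.ofAdd e, fun h1 => he.2 h1, rfl⟩
  · rw [Finset.mem_image] at hk
    obtain ⟨p, -, rfl⟩ := hk
    split_ifs with hz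
    · exact ⟨_, hz.choose_spec.1, rfl⟩
    · refine ⟨_, ?_, rfl⟩
      intro h1
      have h2 : ((1, 0) : ℤ × ℤ) = 0 := h1
      exact absurd h2 (by decide)

lemma mem_KK_int [Finite Q] (f : α → G) (ι : Z2 →* G) (D : PD f ι) (L : Q → Set (List α))
    (h : ℤ) (e : ℤ × ℤ) (he : e ≠ 0) (h1 : |e.1| ≤ h) (h2 : |e.2| ≤ h) :
    ι (Multiplicative.ofAdd e) ∈ KK f ι D L h := by
  classical
  unfold KK
  rw [Finset.mem_union]
  left
  rw [Finset.mem_image]
  refine ⟨e, ?_, rfl⟩
  rw [Finset.mem_filter, Finset.mem_product, Finset.mem_Icc, Finset.mem_Icc]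
  exact ⟨⟨abs_le.mp h1, abs_le.mp h2⟩, he⟩

lemma mem_KK_L [Finite Q] (f : α → G) (ι : Z2 →* G) (D : PD f ι) (L : Q → Set (List α))
    (h : ℤ) (q : Q) (k : ZMod 10) (φ : ℕ) (hφ : φ ≤ (D.s k).length) (z : Z2) (hz : z ≠ 1)
    (hm : (val f ((D.s k).take φ))⁻¹ * ι z * val f ((D.s k).take φ) ∈ AL f L q) :
    ∃ κ ∈ KK f ι D L h, (val f ((D.s k).take φ))⁻¹ * κ * val f ((D.s k).take φ) ∈ AL f L q := by
  classical
  have hex : ∃ z : Z2, z ≠ 1 ∧ (val f ((D.s k).take φ))⁻¹ * ι z *
      val f ((D.s k).take φ) ∈ AL f L q := ⟨z, hz, hm⟩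
  refine ⟨ι hex.choose, ?_, hex.choose_spec.2⟩
  unfold KK
  rw [Finset.mem_union]
  right
  rw [Finset.mem_image]
  refine ⟨(q, k, φ), ?_, ?_⟩
  · simp only [Finset.mem_product, Finset.mem_univ, true_and, Finset.mem_range]
    have := len_le_ell (fun k => (D.s k).length) k
    exact Nat.lt_succ_of_le (hφ.trans this)
  · exact dif_pos hex

lemma ne1 : ∀ k : ZMod 10, k + 1 ≠ k := by decide

lemma ne2 : ∀ k : ZMod 10, k + 1 ≠ k + 5 := by decide

/-- positions in a block at a start cut -/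
lemma pos_st {f : α → G} {ι : Z2 →* G} (D : PD f ι) {x : ℕ} (hx : 0 < x) {W : List α}
    {b n i m a φ : ℕ} {P : List α} (hAt : At W b (rep n P)) (hi : b ≤ i)
    (hi2 : i ≤ b + n * P.length) (hP : P = PiW D.s x) {len : ZMod 10 → ℕ}
    (hlen : len = fun k => (D.s k).length)
    (hl : Loc len x (i - b) m a φ) :
    pos f W i = pos f W b * ι (Multiplicative.ofAdd (pl D.d x m a)) *
      val f ((D.s (m : ZMod 10)).take φ) := by
  subst hlen hP
  have h1 := hAt.pos_add (f := f) (i - b) (by rw [rep_length]; omega)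
  rw [show b + (i - b) = i by omega] at h1
  rw [h1, (specPLAN f ι D x hx).2.2.2.2.1 n (i - b) m a φ (by omega) hl, mul_assoc]

/-- positions in a block at an end cut -/
lemma pos_en {f : α → G} {ι : Z2 →* G} (D : PD f ι) {x : ℕ} (hx : 0 < x) {W : List α}
    {b n i m a φ : ℕ} {P : List α} (hAt : At W b (rep n P)) (hi : b < i)
    (hi2 : i ≤ b + n * P.length) (hP : P = PiW D.s x) {len : ZMod 10 → ℕ}
    (hlen : len = fun k => (D.s k).length)
    (hl : Loc len x (i - 1 - b) m a φ) :
    pos f W i = pos f W b * ι (Multiplicative.ofAdd (pl D.d x m a)) *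
      val f ((D.s (m : ZMod 10)).take (φ + 1)) := by
  subst hlen hP
  have h1 := hAt.pos_add (f := f) (i - 1 - b + 1) (by rw [rep_length]; omega)
  rw [show b + (i - 1 - b + 1) = i by omega] at h1
  rw [h1, (specPLAN f ι D x hx).2.2.2.2.2 n (i - 1 - b) m a φ (by omega) hl, mul_assoc]

/-- displacement of two positions with the same offset -/
lemma disp {ι : Z2 →* G} {p q w g : G} {u v : ℤ × ℤ}
    (hp : p = w * ι (Multiplicative.ofAdd u) * g) (hq : q = w * ι (Multiplicative.ofAdd v) * g) :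
    p * q⁻¹ = w * ι (Multiplicative.ofAdd (u - v)) * w⁻¹ := by
  rw [hp, hq, ofAdd_sub, div_eq_mul_inv, map_mul, map_inv]
  group

/-- equal positions from congruent indices: starts -/
lemma pos_eq_st {f : α → G} {P W : List α} (hP : val f P = 1) {b n i j : ℕ}
    (hAt : At W b (rep n P)) (hi : b ≤ i) (hi2 : i ≤ b + n * P.length) (hj : b ≤ j)
    (hj2 : j ≤ b + n * P.length) (h : (i - b) % P.length = (j - b) % P.length) :
    pos f W i = pos f W j := by
  have h1 := hAt.pos_add (f := f) (i - b) (by rw [rep_length]; omega)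
  have h2 := hAt.pos_add (f := f) (j - b) (by rw [rep_length]; omega)
  rw [show b + (i - b) = i by omega] at h1
  rw [show b + (j - b) = j by omega] at h2
  rw [h1, h2, val_rep_take f hP n _ (by omega), val_rep_take f hP n _ (by omega), h]

end BLR

open BLR in
theorem specBLR (hPI : SpecPUMPINT) (hPO : SpecPORT) (hS0 : SpecSTAIR0) (hS : SpecSTAIR)
    (hC : SpecCONT) : SpecBLR := by
  intro α Q G _ _ f ι hι D L
  obtain ⟨len, hlen_def⟩ : ∃ len : ZMod 10 → ℕ, len = fun k => (D.s k).length := ⟨_, rfl⟩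
  have hlen : ∀ k, 1 ≤ len k := by
    intro k
    rw [hlen_def]
    exact List.length_pos_iff.mpr (D.ne k)
  refine ⟨hh Q len * (3 * C1 Q len + 4), ?_⟩
  intro x hx₀
  have hh1 := hh_pos Q len
  have hx4 : 4 * hh Q len ≤ x := by
    have : hh Q len * 4 ≤ hh Q len * (3 * C1 Q len + 4) := Nat.mul_le_mul_left _ (by omega)
    omega
  have hx : 0 < x := by omega
  obtain ⟨hPlen, hPval, hLex, -, -, -⟩ := specPLAN f ι D x hx
  rw [← hlen_def] at hPlen hLex
  obtain ⟨M, hPI⟩ := hPI f ι D L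
  have hPI := hPI x (by rw [← hlen_def]; omega)
  rw [← hlen_def] at hPI
  have hell : 1 ≤ ell len := (hlen 0).trans (len_le_ell len 0)
  have hPge : x ≤ (PiW D.s x).length := by
    rw [hPlen]
    exact Nat.le_mul_of_pos_right x hell
  obtain ⟨h, hh_def⟩ : ∃ h : ℕ, h = hh Q len := ⟨_, rfl⟩
  obtain ⟨P, hP⟩ : ∃ P : List α, P = PiW D.s x := ⟨_, rfl⟩
  rw [← hP] at hPlen hPval hPge
  rw [← hh_def] at hh1 hx4
  rw [← hP, ← hh_def] at hPI
  refine ⟨KK f ι D L M, 3 * P.length * (Nat.card Q * P.length ^ 2 + 2), KK_planar f ι D L M, ?_⟩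
  rw [← hP]
  intro T hT B hB c t f₀ n hc0 hAt hArm hmain
  obtain ⟨hch, ha1, ha2, ha3⟩ := hArm
  obtain ⟨W, hW⟩ : ∃ W : List α, W = T.yd := ⟨_, rfl⟩
  rw [← hW] at hB hAt ⊢
  have hPI := hPI T hT
  rw [← hW] at hPI
  have hC := hC f L T hT
  rw [← hW] at hC
  have hbel : ∀ i ≤ t, Below (c 0) (c i) := fun i hi => hch.below (Nat.zero_le _) hi
  have hst_lo : ∀ i ≤ t, f₀ ≤ (c i).st := fun i hi => ha1.trans (hbel i hi).st_le
  have hst_hi : ∀ i ≤ t, (c i).st ≤ f₀ + n * P.length := fun i hi =>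
    (hch.below hi le_rfl).st_le.trans ha2
  -- (a) long left pieces
  by_cases hlong : ∃ i < t, (c i).st + h ≤ (c (i + 1)).st
  · obtain ⟨i, hi, hi2⟩ := hlong
    rcases (hch i hi).cases' with ⟨h1, -, -⟩ | ⟨-, -, E, hE1, hE2, hE3⟩
    · omega
    · have hE4 : Below (c 0) E := (hbel i hi.le).trans hE1.below
      obtain ⟨e, he0, he1, he2, he3⟩ := hPI E f₀ n (hc0.trans hE4) hAt
        (by rw [hE2]; exact hst_lo i hi.le)
        (by rw [hE3]; exact hst_hi (i + 1) (by omega))
        (by rw [hE2, hE3]; exact Nat.le_sub_of_add_le (by omega))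
      refine ⟨ι (Multiplicative.ofAdd e), mem_KK_int f ι D L M e he0 he1 he2, Or.inr ⟨E, hE4, ?_,
        he3⟩⟩
      rw [hE3]
      exact (hch.below (show i + 1 ≤ t by omega) le_rfl).st_le
  push Not at hlong
  have hPne : P ≠ [] := by
    intro h0
    rw [h0] at hPge
    simp at hPge
    omega
  obtain ⟨i0, j0, hij, hjt, hlab, hdist, hph, hends⟩ := hPO P W B c t f₀ h hPne
    (by omega) hB (by rw [hW]; exact hc0.en_le_length) hch hlong ha1 hmain
  obtain ⟨O, hO⟩ : ∃ O, O = c i0 := ⟨_, rfl⟩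
  obtain ⟨I, hI⟩ : ∃ I, I = c j0 := ⟨_, rfl⟩
  rw [← hO, ← hI] at hlab hdist hph hends
  have hOI : Below O I := by
    rw [hO, hI]
    exact hch.below hij.le hjt
  have hTO : Below ⟨0, T⟩ O := by
    rw [hO]
    exact hc0.trans (hbel i0 (by omega))
  have hO_lo : f₀ ≤ O.st := by
    rw [hO]
    exact hst_lo _ (by omega)
  have hO_hi : O.st ≤ f₀ + n * P.length := by
    rw [hO]
    exact hst_hi _ (by omega)
  have hI_lo : f₀ ≤ I.st := by
    rw [hI]
    exact hst_lo _ hjt
  have hI_hi : I.st ≤ f₀ + n * P.length := by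
    rw [hI]
    exact hst_hi _ hjt
  have hpst : pos f W O.st = pos f W I.st :=
    pos_eq_st hPval hAt hO_lo hO_hi hI_lo hI_hi hph
  have hOB : ∀ i ≤ j0 - i0, Below O (c (i0 + i)) := by
    intro i hi
    rw [hO]
    exact hch.below (by omega) (by omega)
  have hBI : ∀ i ≤ j0 - i0, Below (c (i0 + i)) I := by
    intro i hi
    rw [hI]
    exact hch.below (by omega) hjt
  -- the location of the start of `O`
  obtain ⟨m₀, a₀, φ₀, hl₀⟩ := hLex (O.st - f₀)
  have hposO := pos_st (f := f) D hx hAt hO_lo hO_hi hP hlen_def hl₀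
  -- final step
  have fin : ∀ φ₂ : Z2 →* G, (∃ l : ℤ × ℤ, l ≠ 0 ∧ (l, (0 : ℤ × ℤ)) ∈
      UU f L O.lab (cjh ι ((pos f W f₀)⁻¹ * pos f W O.st)) φ₂) →
      ∃ k ∈ KK f ι D L M,
        (∃ i ≤ t, pos f W f₀ * k * (pos f W f₀)⁻¹ ∈ LG f L W (c i)) ∨
      (∃ E : Nd Q α, Below (c 0) E ∧ E.en ≤ (c t).st ∧
        ShiftBy f L W E (pos f W f₀ * k * (pos f W f₀)⁻¹)) := by
    rintro φ₂ ⟨l, hl0, hl⟩
    rw [mem_UU] at hl
    rw [ofAdd_zero, map_one, inv_one, cjh_apply] at hl
    have hmem : ((pos f W f₀)⁻¹ * pos f W O.st)⁻¹ * ι (Multiplicative.ofAdd l) *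
        ((pos f W f₀)⁻¹ * pos f W O.st) ∈ AL f L O.lab := hl
    set g := val f ((D.s (m₀ : ZMod 10)).take φ₀) with hg
    have e1 : (pos f W f₀)⁻¹ * pos f W O.st =
        ι (Multiplicative.ofAdd (pl D.d x m₀ a₀)) * g := by
      rw [hposO]
      group
    have e2 : ∀ z : Z2, ((pos f W f₀)⁻¹ * pos f W O.st)⁻¹ * ι z *
        ((pos f W f₀)⁻¹ * pos f W O.st) = g⁻¹ * ι z * g := by
      intro z
      rw [e1, mul_inv_rev]
      have h3 : (ι (Multiplicative.ofAdd (pl D.d x m₀ a₀)))⁻¹ * ι z *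
          ι (Multiplicative.ofAdd (pl D.d x m₀ a₀)) = ι z := by
        rw [← map_inv, ← map_mul, ← map_mul, mul_comm (Multiplicative.ofAdd (pl D.d x m₀ a₀))⁻¹ z,
          mul_assoc, inv_mul_cancel, mul_one]
      calc _ = g⁻¹ * ((ι (Multiplicative.ofAdd (pl D.d x m₀ a₀)))⁻¹ * ι z *
          ι (Multiplicative.ofAdd (pl D.d x m₀ a₀))) * g := by group
        _ = _ := by rw [h3]
    rw [e2] at hmem
    obtain ⟨κ, hκ1, hκ2⟩ := mem_KK_L f ι D L M O.lab (m₀ : ZMod 10) φ₀
      (by have := hl₀.2.1.le; rw [hlen_def] at this; exact this)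
      (Multiplicative.ofAdd l) (fun h => hl0 h) hmem
    refine ⟨κ, hκ1, Or.inl ⟨i0, by omega, ?_⟩⟩
    rw [← hO]
    obtain ⟨z, -, rfl⟩ := KK_planar f ι D L _ κ hκ1
    show (pos f W O.st)⁻¹ * (pos f W f₀ * ι z * (pos f W f₀)⁻¹) * pos f W O.st ∈ AL f L O.lab
    have e3 : (pos f W O.st)⁻¹ * (pos f W f₀ * ι z * (pos f W f₀)⁻¹) * pos f W O.st =
        ((pos f W f₀)⁻¹ * pos f W O.st)⁻¹ * ι z * ((pos f W f₀)⁻¹ * pos f W O.st) := by group
    rw [e3, e2]
    exact hκ2
  -- data for the staircase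
  have hxell : x * ell len = P.length := hPlen.symm
  have hsteps : ∀ i < j0 - i0, (c (i0 + i)).st - f₀ ≤ (c (i0 + (i + 1))).st - f₀ ∧
      (c (i0 + (i + 1))).st - f₀ < (c (i0 + i)).st - f₀ + h := by
    intro i hi
    have h1 := (hch (i0 + i) (by omega)).st_le
    have h2 := hlong (i0 + i) (by omega)
    have h3 := hst_lo (i0 + i) (by omega)
    rw [← add_assoc]
    omega
  have hspan : (c (i0 + 0)).st - f₀ + 2 * (x * ell len) ≤ (c (i0 + (j0 - i0))).st - f₀ := by
    rw [add_zero, show i0 + (j0 - i0) = j0 by omega, hxell, ← hO, ← hI]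
    omega
  have hne : Nonempty Q := ⟨O.lab⟩
  -- left displacement
  have hleft : ∀ i j : ℕ, i ≤ j0 - i0 → j ≤ j0 - i0 → ∀ m a φ m' a' : ℕ,
      Loc len x ((c (i0 + i)).st - f₀) m a φ → Loc len x ((c (i0 + j)).st - f₀) m' a' φ →
      (m : ZMod 10) = (m' : ZMod 10) →
      (pos f W O.st)⁻¹ * (pos f W (c (i0 + j)).st * (pos f W (c (i0 + i)).st)⁻¹) * pos f W O.st =
        cjh ι ((pos f W f₀)⁻¹ * pos f W O.st)
          (Multiplicative.ofAdd (pl D.d x m' a' - pl D.d x m a)) := by
    intro i j hi hj m a φ m' a' h1 h2 hmm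
    have p1 := pos_st (f := f) D hx hAt (hst_lo (i0 + i) (by omega)) (hst_hi (i0 + i) (by omega))
      hP hlen_def h1
    have p2 := pos_st (f := f) D hx hAt (hst_lo (i0 + j) (by omega)) (hst_hi (i0 + j) (by omega))
      hP hlen_def h2
    rw [hmm] at p1
    rw [disp p2 p1, cjh_apply]
    group
  rcases hends with hconst | ⟨b, m, hAtb, hb1, hb2, hb3⟩
  · -- constant end
    have henc : ∀ i ≤ j0 - i0, (c (i0 + i)).en = O.en := by
      intro i hi
      have h1 := (hOB i hi).en_le
      have h2 := (hBI i hi).en_le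
      apply le_antisymm h1
      rw [hconst]
      exact h2
    have hRec : Rec f W O I := ⟨hOI, hlab, hpst, by rw [hconst]⟩
    apply fin 1
    refine hS0 D.d len x (j0 - i0) (fun i => (c (i0 + i)).st - f₀) (fun i => (c (i0 + i)).lab)
      _ hlen ?_ hx₀ (by rw [← hh_def]; exact hsteps) hspan ?_
    · intro k hk
      have := D.nonpar k (k + 1) (ne1 k) (ne2 k)
      rw [hk] at this
      simp at this
    · intro i j hij' hj hlab' m a φ m' a' h1 h2 hmm
      have hB1 : Below O (c (i0 + i)) := hOB i (by omega)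
      have hB2 : Below (c (i0 + i)) (c (i0 + j)) := hch.below (by omega) (by omega)
      have hB3 : Below (c (i0 + j)) I := hBI j (by omega)
      have hcon := (hC O I (c (i0 + i)) hTO hRec).2.2.2 (c (i0 + j)) hB1 hB2 hB3 hlab'
      have hl := hleft i j (by omega) hj m a φ m' a' h1 h2 hmm
      have hr : pos f W (c (i0 + i)).en * (pos f W (c (i0 + j)).en)⁻¹ = 1 := by
        rw [henc i (by omega), henc j hj, mul_inv_cancel]
      have hl' : (pos f W O.st)⁻¹ * (pos f W (c (i0 + j)).st * (pos f W (c (i0 + i)).st)⁻¹)⁻¹ *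
          pos f W O.st = ((pos f W O.st)⁻¹ * (pos f W (c (i0 + j)).st *
            (pos f W (c (i0 + i)).st)⁻¹) * pos f W O.st)⁻¹ := by group
      rw [hl', hl, hr, inv_one, mul_one, inv_mul_cancel] at hcon
      rw [mem_UU]
      refine ⟨?_, ?_⟩
      · simpa using hcon.1
      · simpa using hcon.2
  · -- moving end
    have hen_lo : ∀ i ≤ j0 - i0, b < (c (i0 + i)).en := by
      intro i hi
      exact lt_of_lt_of_le hb1 (hBI i hi).en_le
    have hen_hi : ∀ i ≤ j0 - i0, (c (i0 + i)).en ≤ b + m * P.length := by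
      intro i hi
      exact (hOB i hi).en_le.trans hb2
    have hpen : pos f W O.en = pos f W I.en := by
      apply pos_eq_st hPval hAtb
      · exact hb1.le.trans hOI.en_le
      · exact hb2
      · exact hb1.le
      · exact hOI.en_le.trans hb2
      · have h1 := hOI.en_le
        have e1 : O.en - b = (O.en - 1 - b) + 1 := by
          omega
        have e2 : I.en - b = (I.en - 1 - b) + 1 := by
          omega
        rw [e1, e2, Nat.add_mod, hb3, ← Nat.add_mod]
    have hRec : Rec f W O I := ⟨hOI, hlab, hpst, hpen⟩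
    apply fin (cjh ι ((pos f W b)⁻¹ * pos f W O.en))
    refine hS f ι D len x (j0 - i0) (fun i => (c (i0 + i)).st - f₀)
      (fun i => (c (i0 + i)).en - 1 - b) (fun i => (c (i0 + i)).lab) _ hlen hx₀ (by rw [← hh_def]; exact hsteps) ?_ ?_
      hspan ?_
    · intro i hi
      have := (hch (i0 + i) (by omega)).en_le
      show (c (i0 + (i + 1))).en - 1 - b ≤ (c (i0 + i)).en - 1 - b
      rw [← add_assoc]
      omega
    · rw [← hh_def]
      intro i hi
      by_cases hshort : (c (i0 + i)).en - 1 - b < (c (i0 + (i + 1))).en - 1 - b + h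
      · exact Or.inl hshort
      · right
        rw [← add_assoc] at hshort
        have hlo := hen_lo (i + 1) (by omega)
        rw [← add_assoc] at hlo
        rcases (hch (i0 + i) (by omega)).cases' with ⟨-, -, E, hE1, hE2, hE3⟩ | ⟨h1, -, -⟩
        · have hE4 : Below O E := (hOB i hi.le).trans hE1.below
          obtain ⟨e, he0, he1, he2, he3⟩ := hPI E b m (hTO.trans hE4)
            hAtb (by rw [hE2]; exact hlo.le) (by rw [hE3]; exact hen_hi i hi.le)
            (by rw [hE2, hE3]; omega)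
          refine ⟨e, he0, ?_⟩
          have hIE : I.en ≤ E.st := by
            rw [hE2]
            exact (hBI (i + 1) (by omega)).en_le
          have hcon := ((hC O I E hTO hRec).2.2.1 hE4 hIE).2.2 _ he3
          have hmem : (pos f W O.en)⁻¹ * (pos f W b * ι (Multiplicative.ofAdd e) *
              (pos f W b)⁻¹) * pos f W O.en ∈ AR f L O.lab := hcon
          have e3 : (pos f W O.en)⁻¹ * (pos f W b * ι (Multiplicative.ofAdd e) *
              (pos f W b)⁻¹) * pos f W O.en =
              cjh ι ((pos f W b)⁻¹ * pos f W O.en) (Multiplicative.ofAdd e) := by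
            rw [cjh_apply]
            group
          rw [e3] at hmem
          rw [mem_UU, ofAdd_zero, map_one, inv_one]
          exact hmem
        · omega
    · intro i j hij' hj hlab' m1 a1 φ1 m1' a1' n1 b1 ψ n1' b1' h1 h2 hmm h3 h4 hnn
      have hB1 : Below O (c (i0 + i)) := hOB i (by omega)
      have hB2 : Below (c (i0 + i)) (c (i0 + j)) := hch.below (by omega) (by omega)
      have hB3 : Below (c (i0 + j)) I := hBI j (by omega)
      have hcon := (hC O I (c (i0 + i)) hTO hRec).2.2.2 (c (i0 + j)) hB1 hB2 hB3 hlab'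
      have hl := hleft i j (by omega) hj m1 a1 φ1 m1' a1' h1 h2 hmm
      have hl' : (pos f W O.st)⁻¹ * (pos f W (c (i0 + j)).st * (pos f W (c (i0 + i)).st)⁻¹)⁻¹ *
          pos f W O.st = ((pos f W O.st)⁻¹ * (pos f W (c (i0 + j)).st *
            (pos f W (c (i0 + i)).st)⁻¹) * pos f W O.st)⁻¹ := by group
      have p1 := pos_en (f := f) D hx hAtb (hen_lo i (by omega)) (hen_hi i (by omega))
        hP hlen_def h3
      have p2 := pos_en (f := f) D hx hAtb (hen_lo j hj) (hen_hi j hj) hP hlen_def h4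
      rw [← hnn] at p2
      have hr : (pos f W O.en)⁻¹ * (pos f W (c (i0 + i)).en * (pos f W (c (i0 + j)).en)⁻¹) *
          pos f W O.en = cjh ι ((pos f W b)⁻¹ * pos f W O.en)
            (Multiplicative.ofAdd (pl D.d x n1 b1 - pl D.d x n1' b1')) := by
        rw [disp p1 p2, cjh_apply]
        group
      have hr' : (pos f W O.en)⁻¹ * (pos f W (c (i0 + i)).en * (pos f W (c (i0 + j)).en)⁻¹)⁻¹ *
          pos f W O.en = ((pos f W O.en)⁻¹ * (pos f W (c (i0 + i)).en *
            (pos f W (c (i0 + j)).en)⁻¹) * pos f W O.en)⁻¹ := by group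
      rw [hl', hr', hl, hr] at hcon
      exact hcon

end MPab
end

section
/-!
# MP_ab497f_al, module NP1: the cluster lemma (1.1) of helper16's proof
-/
set_option autoImplicit false

namespace MPab

/-! ### general facts on paths, noises and good subgroups -/

namespace NoiseM

section
variable {α G : Type} [Group G] {f : α → G}

theorem cj_le {g : G} {B C : Subgroup G} : cj g B ≤ C ↔ B ≤ cj g⁻¹ C := by
  constructor
  · intro h
    have := cj_mono (g := g⁻¹) h
    rwa [← cj_mul, inv_mul_cancel, cj_one] at this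
  · intro h
    have := cj_mono (g := g) h
    rwa [← cj_mul, mul_inv_cancel, cj_one] at this

theorem cj_of_mem {g : G} {B : Subgroup G} (h : g ∈ B) : cj g B = B := by
  ext x
  rw [mem_cj, mul_mem_cancel_right h, mul_mem_cancel_left (inv_mem h)]

theorem prefix_split {x u v : List α} (h : x <+: u ++ v) :
    x <+: u ∨ ∃ y, y <+: v ∧ u ++ y = x := by
  rcases List.prefix_or_prefix_of_prefix h (List.prefix_append u v) with h1 | ⟨y, rfl⟩
  · exact Or.inl h1
  · exact Or.inr ⟨y, (List.prefix_append_right_inj u).1 h, rfl⟩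

theorem val_app (u v : List α) : val f (u ++ v) = val f u * val f v := by
  simp [val]

theorem mem_epos {v : List α × List α} {x : G} : x ∈ epos f v ↔
    (∃ p, p <+: v.1 ∧ val f p = x) ∨ ∃ p, p <+: v.2 ∧ val f v.1 * val f p = x := by
  simp only [epos, List.mem_append, List.mem_map, List.mem_inits]

theorem one_mem_epos (v : List α × List α) : (1 : G) ∈ epos f v :=
  mem_epos.2 (Or.inl ⟨[], List.nil_prefix, rfl⟩)

theorem val_mem_epos (v : List α × List α) : val f v.1 ∈ epos f v :=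
  mem_epos.2 (Or.inl ⟨v.1, List.prefix_rfl, rfl⟩)

theorem val_snd {v : List α × List α} (h : IsPath f v) : val f v.2 = (val f v.1)⁻¹ :=
  (inv_eq_of_mul_eq_one_right h).symm

/-- composition of paths -/
def pmul (p q : List α × List α) : List α × List α := (p.1 ++ q.1, q.2 ++ p.2)

/-- inverse path -/
def pinv (p : List α × List α) : List α × List α := (p.2, p.1)

/-- powers of a path -/
def ppow (p : List α × List α) : ℕ → List α × List α
  | 0 => ([], [])
  | n + 1 => pmul (ppow p n) p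

theorem val_pmul (p q : List α × List α) : val f (pmul p q).1 = val f p.1 * val f q.1 :=
  val_app _ _

theorem isPath_pmul {p q : List α × List α} (hp : IsPath f p) (hq : IsPath f q) :
    IsPath f (pmul p q) := by
  show val f (p.1 ++ q.1) * val f (q.2 ++ p.2) = 1
  rw [val_app, val_app, val_snd hp, val_snd hq]
  group

theorem isPath_pinv {p : List α × List α} (hp : IsPath f p) : IsPath f (pinv p) := by
  show val f p.2 * val f p.1 = 1
  rw [val_snd hp]
  group

theorem val_pinv {p : List α × List α} (hp : IsPath f p) : val f (pinv p).1 = (val f p.1)⁻¹ :=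
  val_snd hp

theorem isPath_ppow {p : List α × List α} (hp : IsPath f p) (n : ℕ) : IsPath f (ppow p n) := by
  induction n with
  | zero => simp [IsPath, ppow, val]
  | succ n ih => exact isPath_pmul ih hp

theorem val_ppow (p : List α × List α) (n : ℕ) : val f (ppow p n).1 = val f p.1 ^ n := by
  induction n with
  | zero => simp [ppow, val]
  | succ n ih => rw [ppow, val_pmul, ih, pow_succ]

theorem exists_path (hf : ∀ g : G, ∃ w : List α, val f w = g) (g : G) :
    ∃ p : List α × List α, IsPath f p ∧ val f p.1 = g := by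
  obtain ⟨w, hw⟩ := hf g
  obtain ⟨w', hw'⟩ := hf g⁻¹
  exact ⟨(w, w'), by rw [IsPath, hw, hw', mul_inv_cancel], hw⟩

theorem epos_pmul {p q : List α × List α} (hq : IsPath f q) {x : G}
    (hx : x ∈ epos f (pmul p q)) : x ∈ epos f p ∨ ∃ y ∈ epos f q, x = val f p.1 * y := by
  rcases mem_epos.1 hx with ⟨t, ht, rfl⟩ | ⟨t, ht, rfl⟩
  · rcases prefix_split ht with h | ⟨y, hy, rfl⟩
    · exact Or.inl (mem_epos.2 (Or.inl ⟨t, h, rfl⟩))
    · exact Or.inr ⟨val f y, mem_epos.2 (Or.inl ⟨y, hy, rfl⟩), val_app _ _⟩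
  · rcases prefix_split ht with h | ⟨y, hy, rfl⟩
    · refine Or.inr ⟨val f q.1 * val f t, mem_epos.2 (Or.inr ⟨t, h, rfl⟩), ?_⟩
      rw [val_pmul, mul_assoc]
    · refine Or.inl (mem_epos.2 (Or.inr ⟨y, hy, ?_⟩))
      rw [val_pmul, val_app, val_snd hq]
      group

theorem epos_pinv {p : List α × List α} (hp : IsPath f p) {x : G} (hx : x ∈ epos f (pinv p)) :
    ∃ y ∈ epos f p, x = (val f p.1)⁻¹ * y := by
  rcases mem_epos.1 hx with ⟨t, ht, rfl⟩ | ⟨t, ht, rfl⟩
  · exact ⟨val f p.1 * val f t, mem_epos.2 (Or.inr ⟨t, ht, rfl⟩), by group⟩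
  · exact ⟨val f t, mem_epos.2 (Or.inl ⟨t, ht, rfl⟩), by rw [val_pinv hp]⟩

/-- concatenation of a list of noises -/
def appL (W : Noise α) : List (Noise α) → Noise α
  | [] => W
  | V :: l => .app V (appL W l)

theorem ok_appL {W : Noise α} {l : List (Noise α)} (hW : W.Ok f) (hl : ∀ V ∈ l, V.Ok f) :
    (appL W l).Ok f := by
  induction l with
  | nil => exact hW
  | cons V l ih =>
    exact ⟨hl V (by simp), ih fun V' h => hl V' (List.mem_cons_of_mem _ h)⟩

theorem mem_posL_appL {P0 : List G} {W : Noise α} {l : List (Noise α)} {x : G} :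
    x ∈ posL f P0 (appL W l) ↔ x ∈ posL f P0 W ∨ ∃ V ∈ l, x ∈ posL f P0 V := by
  induction l with
  | nil => simp [appL]
  | cons V l ih =>
    rw [appL, posL, List.mem_append, ih]
    simp only [List.mem_cons, exists_eq_or_imp]
    tauto

theorem mem_posL_tr {P0 : List G} {v : List α × List α} {W : Noise α} {x : G} :
    x ∈ posL f P0 (.tr v W) ↔ x ∈ epos f v ∨ ∃ y ∈ posL f P0 W, val f v.1 * y = x := by
  rw [posL, List.mem_append, List.mem_map]

variable {T : Type} {K : Finset G} {P0 : List G} {A : T → Subgroup G}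

theorem good_appL {W : Noise α} {l : List (Noise α)} {B : Subgroup G} :
    Good f K P0 A B (appL W l) ↔ Good f K P0 A B W ∧ ∀ V ∈ l, Good f K P0 A B V := by
  induction l with
  | nil => simp [appL]
  | cons V l ih =>
    rw [appL, Good, ih]
    simp only [List.forall_mem_cons]
    tauto

/-- good is monotone -/
theorem good_mono {W : Noise α} {B C : Subgroup G} (h : B ≤ C) (hB : Good f K P0 A B W) :
    Good f K P0 A C W := by
  induction W generalizing B C with
  | blob =>
    obtain ⟨κ, hκ, hm⟩ := hB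
    exact ⟨κ, hκ, h hm⟩
  | sub W ih =>
    obtain ⟨τ, r, hr, hm, hg⟩ := hB
    exact ⟨τ, r, hr, hm.trans h, hg⟩
  | app W₁ W₂ h1 h2 => exact ⟨h1 h hB.1, h2 h hB.2⟩
  | tr v W ih => exact ih (cj_mono h) hB

end

end NoiseM

namespace NP1M

open NoiseM

section
variable {α G T : Type} [Group G] {f : α → G} {K : Finset G} {P0 : List G} {A : T → Subgroup G}

/-- the cluster `Θ_d` -/
def Th (pe pc : List α × List α) (W : Noise α) : ℕ → Noise α
  | 0 => .tr pc W
  | d + 1 => appL (.app (.sub (Th pe pc W d)) (.tr (ppow pe (2 ^ d)) (.sub (Th pe pc W d))))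
      ((List.range (2 ^ (d + 1))).map fun k => .tr (ppow pe k) (.tr pc W))

theorem ok_Th {pe pc : List α × List α} {W : Noise α} (he : IsPath f pe) (hc : IsPath f pc)
    (hW : W.Ok f) (d : ℕ) : (Th pe pc W d).Ok f := by
  induction d with
  | zero => exact ⟨hc, hW⟩
  | succ d ih =>
    refine ok_appL ⟨ih, isPath_ppow he _, ih⟩ ?_
    intro V hV
    obtain ⟨k, _, rfl⟩ := List.mem_map.1 hV
    exact ⟨isPath_ppow he _, hc, hW⟩

/-- the local roots -/
def WW (f : α → G) (P0 : List G) (pe pc : List α × List α) (W : Noise α) : List G :=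
  epos f pe ++ posL f P0 (.tr pc W)

theorem one_mem_WW (pe pc : List α × List α) (W : Noise α) : (1 : G) ∈ WW f P0 pe pc W :=
  List.mem_append_left _ (one_mem_epos pe)

theorem epos_ppow {pe : List α × List α} (he : IsPath f pe) (pc : List α × List α) (W : Noise α)
    (k : ℕ) {x : G} (hx : x ∈ epos f (ppow pe k)) :
    ∃ j ≤ k, ∃ w ∈ WW f P0 pe pc W, x = val f pe.1 ^ j * w := by
  induction k generalizing x with
  | zero =>
    refine ⟨0, le_rfl, 1, one_mem_WW _ _ _, ?_⟩
    rcases mem_epos.1 hx with ⟨p, hp, rfl⟩ | ⟨p, hp, rfl⟩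
    · have : p = [] := List.prefix_nil.1 hp
      simp [this, val]
    · have : p = [] := List.prefix_nil.1 hp
      simp [this, val, ppow]
  | succ k ih =>
    rcases epos_pmul he hx with h | ⟨y, hy, rfl⟩
    · obtain ⟨j, hj, w, hw, rfl⟩ := ih h
      exact ⟨j, by omega, w, hw, rfl⟩
    · exact ⟨k, by omega, y, List.mem_append_left _ hy, by rw [val_ppow]⟩

theorem pos_Th {pe : List α × List α} (he : IsPath f pe) (pc : List α × List α) (W : Noise α)
    (d : ℕ) {x : G} (hx : x ∈ posL f P0 (Th pe pc W d)) :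
    ∃ k < 2 ^ d, ∃ w ∈ WW f P0 pe pc W, x = val f pe.1 ^ k * w := by
  induction d generalizing x with
  | zero => exact ⟨0, by norm_num, x, List.mem_append_right _ hx, by simp⟩
  | succ d ih =>
    have h2 : 2 ^ d < 2 ^ (d + 1) := by
      rw [pow_succ]
      have : 0 < 2 ^ d := by positivity
      omega
    rw [Th, mem_posL_appL] at hx
    rcases hx with h | ⟨V, hV, hx⟩
    · rw [posL, List.mem_append] at h
      rcases h with h | h
      · obtain ⟨k, hk, w, hw, rfl⟩ := ih h
        exact ⟨k, by omega, w, hw, rfl⟩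
      · rcases mem_posL_tr.1 h with h | ⟨y, hy, rfl⟩
        · obtain ⟨j, hj, w, hw, rfl⟩ := epos_ppow (P0 := P0) he pc W _ h
          exact ⟨j, by omega, w, hw, rfl⟩
        · obtain ⟨k, hk, w, hw, rfl⟩ := ih hy
          refine ⟨2 ^ d + k, by rw [pow_succ]; omega, w, hw, ?_⟩
          rw [val_ppow, pow_add, mul_assoc]
    · obtain ⟨k, hk, rfl⟩ := List.mem_map.1 hV
      rw [List.mem_range] at hk
      rcases mem_posL_tr.1 hx with h | ⟨y, hy, rfl⟩
      · obtain ⟨j, hj, w, hw, rfl⟩ := epos_ppow (P0 := P0) he pc W _ h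
        exact ⟨j, by omega, w, hw, rfl⟩
      · exact ⟨k, hk, y, List.mem_append_right _ hy, by rw [val_ppow]⟩

theorem good_Th (pe pc : List α × List α) (W : Noise α) (d : ℕ) {B : Subgroup G}
    (hB : Good f K P0 A B (Th pe pc W d)) (k : ℕ) (hk : k < 2 ^ d) :
    Good f K P0 A (cj (val f pe.1 ^ k * val f pc.1)⁻¹ B) W := by
  cases d with
  | zero =>
    obtain rfl : k = 0 := by simpa using hk
    rw [pow_zero, one_mul]
    exact hB
  | succ d =>
    rw [Th, good_appL] at hB
    have := hB.2 _ (List.mem_map.2 ⟨k, List.mem_range.2 hk, rfl⟩)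
    rw [Good, Good, val_ppow, ← cj_mul, ← mul_inv_rev] at this
    exact this

/-- the conclusion of NP1 -/
def Concl (f : α → G) (K : Finset G) (P0 : List G) (A : T → Subgroup G) (E c : G) (W : Noise α)
    (M : ℤ) (B : Subgroup G) : Prop :=
  ∃ C : Subgroup G, C ≤ B ∧ ∃ k0 m : ℤ, 0 ≤ k0 ∧ k0 < M ∧ m ≠ 0 ∧ |m| < M ∧ cj (E ^ m) C ≤ C ∧
    ∀ l : ℤ, 0 ≤ (l - k0) * m → Good f K P0 A (cj (E ^ l * c)⁻¹ C) W

theorem step_good {E c : G} {W : Noise α} {C : Subgroup G} {m : ℤ}
    (hm : cj (E ^ m) C ≤ C) (l : ℤ) (h : Good f K P0 A (cj (E ^ (l - m) * c)⁻¹ C) W) :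
    Good f K P0 A (cj (E ^ l * c)⁻¹ C) W := by
  refine good_mono ?_ h
  have e1 : (E ^ l * c)⁻¹ = (E ^ (l - m) * c)⁻¹ * (E ^ m)⁻¹ := by
    rw [← mul_inv_rev]
    congr 1
    rw [← mul_assoc, ← zpow_add]
    congr 2
    ring
  rw [e1, cj_mul]
  exact cj_mono (cj_le.1 hm)

theorem fin_step {E c : G} {W : Noise α} {M : ℤ} {B : Subgroup G} {τ : T} {w : G}
    {k0 k1 lo hi : ℤ} (hB : cj (E ^ k0 * w) (A τ) ≤ B)
    (h01 : cj (E ^ k1 * w) (A τ) ≤ cj (E ^ k0 * w) (A τ)) (hne : k0 ≠ k1)
    (h0 : 0 ≤ k0) (h0M : k0 < M) (h1 : 0 ≤ k1) (h1M : k1 < M)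
    (hl0 : lo ≤ k0) (hl1 : lo ≤ k1) (hh0 : k0 < hi) (hh1 : k1 < hi)
    (hg : ∀ l, lo ≤ l → l < hi → Good f K P0 A (cj (E ^ l * c)⁻¹ (cj (E ^ k0 * w) (A τ))) W) :
    Concl f K P0 A E c W M B := by
  set C := cj (E ^ k0 * w) (A τ) with hC
  have hm : cj (E ^ (k1 - k0)) C ≤ C := by
    rw [hC, ← cj_mul, ← mul_assoc, ← zpow_add]
    have : k1 - k0 + k0 = k1 := by ring
    rw [this]
    exact h01
  refine ⟨C, hB, k0, k1 - k0, h0, h0M, sub_ne_zero.2 hne.symm, ?_, hm, ?_⟩
  · rw [abs_lt]
    constructor <;> linarith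
  have main : ∀ n : ℕ, ∀ l : ℤ, (l - k0).natAbs ≤ n → 0 ≤ (l - k0) * (k1 - k0) →
      Good f K P0 A (cj (E ^ l * c)⁻¹ C) W := by
    intro n
    induction n with
    | zero =>
      intro l hl _
      have : l = k0 := by omega
      rw [this]
      exact hg k0 hl0 hh0
    | succ n ih =>
      intro l hl hs
      rcases lt_or_gt_of_ne hne with hlt | hlt
      · have hs' : 0 ≤ l - k0 := nonneg_of_mul_nonneg_left hs (by linarith)
        by_cases hc : l - k0 < k1 - k0
        · exact hg l (by linarith) (by linarith)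
        · refine step_good hm l (ih _ (by omega) (mul_nonneg (by linarith) (by linarith)))
      · have hs' : l - k0 ≤ 0 := by
          by_contra hcon
          push Not at hcon
          have : (l - k0) * (k1 - k0) < 0 := mul_neg_of_pos_of_neg hcon (by linarith)
          linarith
        by_cases hc : k1 - k0 < l - k0
        · exact hg l (by linarith) (by linarith)
        · refine step_good hm l (ih _ (by omega)
            (mul_nonneg_of_nonpos_of_nonpos (by linarith) (by linarith)))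
  intro l hl
  exact main _ l le_rfl hl

/-- NP1, the induction -/
theorem nest [Fintype T] {pe : List α × List α} (he : IsPath f pe) (pc : List α × List α)
    (W : Noise α) [Fintype {x // x ∈ WW f P0 pe pc W}] (M : ℤ)
    (B : Subgroup G) : ∀ (d : ℕ) (S : Finset (T × {x // x ∈ WW f P0 pe pc W})) (a : ℤ) (τ' : T)
      (w' : {x // x ∈ WW f P0 pe pc W}) (k' : ℤ),
    Fintype.card (T × {x // x ∈ WW f P0 pe pc W}) ≤ d + S.card → (τ', w') ∉ S →
    a ≤ k' → k' < a + 2 ^ d → 0 ≤ a → a + 2 ^ d ≤ M →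
    Good f K P0 A (cj (val f pe.1 ^ a)⁻¹ (cj (val f pe.1 ^ k' * (w' : G)) (A τ')))
      (Th pe pc W d) →
    cj (val f pe.1 ^ k' * (w' : G)) (A τ') ≤ B →
    (∀ x ∈ S, ∃ k : ℤ,
      cj (val f pe.1 ^ k' * (w' : G)) (A τ') ≤ cj (val f pe.1 ^ k * (x.2 : G)) (A x.1) ∧
      cj (val f pe.1 ^ k * (x.2 : G)) (A x.1) ≤ B ∧ 0 ≤ k ∧ k < M ∧ (k < a ∨ a + 2 ^ d ≤ k) ∧
      ∃ lo hi : ℤ, lo ≤ k ∧ k < hi ∧ lo ≤ a ∧ a + 2 ^ d ≤ hi ∧ ∀ l, lo ≤ l → l < hi →
        Good f K P0 A (cj (val f pe.1 ^ l * val f pc.1)⁻¹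
          (cj (val f pe.1 ^ k * (x.2 : G)) (A x.1))) W) →
    Concl f K P0 A (val f pe.1) (val f pc.1) W M B := by
  classical
  intro d
  induction d with
  | zero =>
    intro S a τ' w' k' hcard hnot
    exfalso
    have := Finset.card_lt_univ_of_notMem hnot
    omega
  | succ d ih =>
    intro S a τ' w' k' hcard hnot hak hka ha0 haM hgood hBle hS
    have h2 : (2 : ℤ) ^ (d + 1) = 2 ^ d + 2 ^ d := by rw [pow_succ]; ring
    have h2' : (0 : ℤ) < 2 ^ d := by positivity
    -- covering by the present group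
    have hcov : ∀ l, a ≤ l → l < a + 2 ^ (d + 1) →
        Good f K P0 A (cj (val f pe.1 ^ l * val f pc.1)⁻¹
          (cj (val f pe.1 ^ k' * (w' : G)) (A τ'))) W := by
      intro l hl1 hl2
      obtain ⟨k, hk⟩ : ∃ k : ℕ, l = a + k := ⟨(l - a).toNat, by omega⟩
      have hk2 : k < 2 ^ (d + 1) := by
        have : (k : ℤ) < 2 ^ (d + 1) := by linarith
        exact_mod_cast this
      have := good_Th pe pc W (d + 1) hgood k hk2
      rw [← cj_mul, ← mul_inv_rev] at this
      have e1 : val f pe.1 ^ a * (val f pe.1 ^ k * val f pc.1) = val f pe.1 ^ l * val f pc.1 := by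
        rw [← mul_assoc, ← zpow_natCast, ← zpow_add, hk]
      rwa [e1] at this
    -- choice of the half
    obtain ⟨a', ha', hk'out, τ, r, hr, hrB, hrg⟩ : ∃ a' : ℤ, (a' = a ∨ a' = a + 2 ^ d) ∧
        (k' < a' ∨ a' + 2 ^ d ≤ k') ∧ ∃ τ, ∃ r ∈ posL f P0 (Th pe pc W d),
          cj (val f pe.1 ^ a' * r) (A τ) ≤ cj (val f pe.1 ^ k' * (w' : G)) (A τ') ∧
          Good f K P0 A (cj r (A τ)) (Th pe pc W d) := by
      rw [Th, good_appL] at hgood
      obtain ⟨⟨h1, h1'⟩, -⟩ := hgood
      by_cases hside : k' < a + 2 ^ d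
      · obtain ⟨τ, r, hr, hle, hg⟩ := h1'
        refine ⟨a + 2 ^ d, Or.inr rfl, Or.inl hside, τ, r, hr, ?_, hg⟩
        rw [val_ppow, ← cj_mul, ← mul_inv_rev] at hle
        have h3 := cj_mono (g := val f pe.1 ^ a * val f pe.1 ^ (2 ^ d)) hle
        rw [← cj_mul, ← cj_mul, mul_inv_cancel, cj_one, ← zpow_natCast, ← zpow_add] at h3
        push_cast at h3
        exact h3
      · obtain ⟨τ, r, hr, hle, hg⟩ := h1
        refine ⟨a, Or.inl rfl, Or.inr (by linarith), τ, r, hr, ?_, hg⟩
        have h3 := cj_mono (g := val f pe.1 ^ a) hle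
        rw [← cj_mul, ← cj_mul, mul_inv_cancel, cj_one] at h3
        exact h3
    obtain ⟨j, hj, w, hw, rfl⟩ := pos_Th he pc W d hr
    have hj' : (j : ℤ) < 2 ^ d := by exact_mod_cast hj
    have ha'1 : a ≤ a' := by rcases ha' with h | h <;> linarith
    have ha'2 : a' + 2 ^ d ≤ a + 2 ^ (d + 1) := by rcases ha' with h | h <;> linarith
    have e1 : val f pe.1 ^ a' * (val f pe.1 ^ j * w) = val f pe.1 ^ (a' + j) * w := by
      rw [← mul_assoc, ← zpow_natCast, ← zpow_add]
    rw [e1] at hrB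
    have hgood' : Good f K P0 A (cj (val f pe.1 ^ a')⁻¹ (cj (val f pe.1 ^ (a' + j) * w) (A τ)))
        (Th pe pc W d) := by
      rw [← cj_mul, ← e1, inv_mul_cancel_left]
      exact hrg
    by_cases hin : (τ, (⟨w, hw⟩ : {x // x ∈ WW f P0 pe pc W})) ∈ S
    · obtain ⟨k, hle, hleB, hk0, hkM, hout, lo, hi, hlo, hhi, hloa, hahi, hcv⟩ := hS _ hin
      refine fin_step (τ := τ) (w := w) (k0 := k) (k1 := a' + j) (lo := lo) (hi := hi) hleB
        (hrB.trans hle) ?_ hk0 hkM ?_ ?_ hlo ?_ hhi ?_ hcv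
      · rintro rfl
        rcases hout with h | h <;> linarith [Int.natCast_nonneg j]
      · linarith [Int.natCast_nonneg j]
      · linarith
      · linarith [Int.natCast_nonneg j]
      · linarith
    by_cases hsame : (τ, (⟨w, hw⟩ : {x // x ∈ WW f P0 pe pc W})) = (τ', w')
    · obtain ⟨rfl, rfl⟩ := Prod.mk.inj hsame
      refine fin_step (τ := τ) (w := w) (k0 := k') (k1 := a' + j) (lo := a)
        (hi := a + 2 ^ (d + 1)) hBle hrB ?_ (by linarith) (by linarith) ?_ ?_ hak ?_ hka ?_ hcov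
      · rintro rfl
        rcases hk'out with h | h <;> linarith [Int.natCast_nonneg j]
      · linarith [Int.natCast_nonneg j]
      · linarith
      · linarith [Int.natCast_nonneg j]
      · linarith
    refine ih (insert (τ', w') S) a' τ ⟨w, hw⟩ (a' + j) ?_ ?_ ?_ ?_ ?_ ?_ hgood'
      (hrB.trans hBle) ?_
    · rw [Finset.card_insert_of_notMem hnot]
      omega
    · rw [Finset.mem_insert]
      rintro (h | h)
      · exact hsame h
      · exact hin h
    · linarith [Int.natCast_nonneg j]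
    · linarith
    · linarith
    · linarith
    · intro x hx
      rcases Finset.mem_insert.1 hx with rfl | hx
      · exact ⟨k', hrB, hBle, by linarith, by linarith, hk'out, a, a + 2 ^ (d + 1), hak, hka,
          ha'1, ha'2, hcov⟩
      · obtain ⟨k, hle, hleB, hk0, hkM, hout, lo, hi, hlo, hhi, hloa, hahi, hcv⟩ := hS x hx
        refine ⟨k, hrB.trans hle, hleB, hk0, hkM, ?_, lo, hi, hlo, hhi, by linarith,
          by linarith, hcv⟩
        rcases hout with h | h
        · exact Or.inl (by linarith)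
        · exact Or.inr (by linarith)

end

end NP1M

open NoiseM NP1M in
/-- NP1 -/
theorem specNP1 : SpecNP1 := by
  intro α G T _ _ f K P0 A pe pc W he hc hW
  classical
  have : Fintype T := Fintype.ofFinite T
  have : Fintype {x // x ∈ WW f P0 pe pc W} := Fintype.ofFinite _
  set n := Fintype.card (T × {x // x ∈ WW f P0 pe pc W}) with hn
  refine ⟨Th pe pc W (n + 1), 2 ^ (n + 1), ok_Th he hc hW _, by positivity, ?_⟩
  intro B hB
  rw [Th, good_appL] at hB
  obtain ⟨⟨⟨τ, r, hr, hle, hg⟩, -⟩, -⟩ := hB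
  obtain ⟨j, hj, w, hw, rfl⟩ := pos_Th he pc W n hr
  have hj' : (j : ℤ) < 2 ^ n := by exact_mod_cast hj
  have h2 : (2 : ℤ) ^ (n + 1) = 2 ^ n + 2 ^ n := by rw [pow_succ]; ring
  have h2' : (0 : ℤ) < 2 ^ n := by positivity
  push_cast
  refine nest he pc W (2 ^ (n + 1)) B n ∅ 0 τ ⟨w, hw⟩ j ?_ (by simp) (Int.natCast_nonneg j)
    (by linarith) le_rfl (by linarith) ?_ ?_ (by simp)
  · simp [← hn]
  · rw [zpow_zero, inv_one, cj_one, zpow_natCast]
    exact hg
  · rw [zpow_natCast]
    exact hle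

end MPab
end

section
/-!
# MP_ab497f_al, modules BOOST (1.3) and ITER (1.0), (1.4)
-/
set_option autoImplicit false

namespace MPab.BoostM

open NoiseM

section count

open Classical in
theorem ncard_eq {X : Type} [Fintype X] (P : X → Prop) :
    {x : X | P x}.ncard = (Finset.univ.filter P).card := by
  rw [Set.ncard_eq_toFinset_card']
  congr 1
  ext x
  simp

open Classical in
theorem count {X S : Type} [Fintype X] [Fintype S] (P : X × S → Prop) (E : X → Prop)
    (h1 : ∀ x, E x → ∀ s, P (x, s)) (h2 : ∀ x, ∃ s, P (x, s)) :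
    (Fintype.card X : ℚ) + ((Fintype.card S : ℚ) - 1) * ({x : X | E x}.ncard : ℚ) ≤
      ({x : X × S | P x}.ncard : ℚ) := by
  rw [ncard_eq, ncard_eq]
  have e1 : (Finset.univ.filter P).card =
      ∑ x : X, (Finset.univ.filter fun s => P (x, s)).card := by
    simp only [Finset.card_filter]
    rw [Fintype.sum_prod_type]
  have e2 : (Fintype.card X : ℚ) + ((Fintype.card S : ℚ) - 1) *
      ((Finset.univ.filter E).card : ℚ) =
      ∑ x : X, (1 + ((Fintype.card S : ℚ) - 1) * (if E x then 1 else 0)) := by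
    rw [Finset.sum_add_distrib, ← Finset.mul_sum, Finset.card_filter]
    simp
  rw [e1, e2]
  push_cast
  refine Finset.sum_le_sum fun x _ => ?_
  by_cases hx : E x
  · have : (Finset.univ.filter fun s => P (x, s)) = Finset.univ := by
      ext s; simp [h1 x hx s]
    rw [this, if_pos hx, Finset.card_univ]
    linarith
  · rw [if_neg hx, mul_zero, add_zero]
    obtain ⟨s, hs⟩ := h2 x
    have : 0 < (Finset.univ.filter fun s => P (x, s)).card :=
      Finset.card_pos.2 ⟨s, by simp [hs]⟩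
    exact_mod_cast this

end count

/-- pairs `n₁ < n₂ ≤ k` -/
abbrev Prs (k : ℕ) : Type := {q : Fin (k + 1) × Fin (k + 1) // q.1 < q.2}

theorem card_prs (k : ℕ) : Fintype.card (Prs k) ≤ k * k := by
  have h : Function.Injective (fun q : Prs k =>
      ((⟨q.1.1, by have := q.2; have := q.1.2.2; omega⟩ : Fin k),
        (⟨q.1.2 - 1, by have := q.2; have := q.1.2.2; omega⟩ : Fin k))) := by
    rintro ⟨⟨a, b⟩, h1⟩ ⟨⟨a', b'⟩, h2⟩ h
    simp only [Prod.mk.injEq, Fin.mk.injEq] at h
    simp only [Fin.lt_def] at h1 h2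
    ext <;> simp only <;> omega
  have := Fintype.card_le_of_injective _ h
  simpa using this

variable {G : Type} [Group G]

theorem conj_pow (f κ : G) (m J : ℕ) : f ^ m * κ ^ J * (f ^ m)⁻¹ = (f ^ m * κ * (f ^ m)⁻¹) ^ J :=
  (_root_.conj_pow).symm

theorem event_mem {B : Subgroup G} {f h : G} (hf : f ∈ B) (hh : h * f * h⁻¹ ∈ B) {n₁ n₂ : ℕ}
    (hn : n₁ < n₂) :
    (f ^ n₂ * h * (f ^ n₂)⁻¹) * (f ^ n₁ * h⁻¹ * (f ^ n₁)⁻¹) ∈ B := by
  obtain ⟨d, rfl⟩ : ∃ d, n₂ = n₁ + d := ⟨n₂ - n₁, by omega⟩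
  have e : (f ^ (n₁ + d) * h * (f ^ (n₁ + d))⁻¹) * (f ^ n₁ * h⁻¹ * (f ^ n₁)⁻¹) =
      f ^ (n₁ + d) * ((h * f * h⁻¹) ^ d)⁻¹ * (f ^ n₁)⁻¹ := by
    rw [_root_.conj_pow, show n₁ + d = d + n₁ by ring, pow_add]
    group
  rw [e]
  exact B.mul_mem (B.mul_mem (B.pow_mem hf _) (B.inv_mem (B.pow_mem hh _)))
    (B.inv_mem (B.pow_mem hf _))

theorem same_mem {B : Subgroup G} {f κ : G} {n₁ n₂ J : ℕ} (h1 : f ^ n₁ * κ * (f ^ n₁)⁻¹ ∈ B)
    (h2 : f ^ n₂ * κ * (f ^ n₂)⁻¹ ∈ B) :
    (f ^ n₂ * κ ^ J * (f ^ n₂)⁻¹) * (f ^ n₁ * (κ ^ J)⁻¹ * (f ^ n₁)⁻¹) ∈ B := by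
  have e1 := B.pow_mem h2 J
  rw [← conj_pow] at e1
  have e2 := B.inv_mem (B.pow_mem h1 J)
  rw [← conj_pow] at e2
  have e3 : (f ^ n₁ * κ ^ J * (f ^ n₁)⁻¹)⁻¹ = f ^ n₁ * (κ ^ J)⁻¹ * (f ^ n₁)⁻¹ := by group
  rw [e3] at e2
  exact B.mul_mem e1 e2

theorem pow_ne_one_Z2 {z : Z2} (hz : z ≠ 1) {J : ℕ} (hJ : 0 < J) : z ^ J ≠ 1 := by
  intro h
  apply hz
  have h1 : (J : ℤ) • (Multiplicative.toAdd z) = 0 := by
    have := congrArg Multiplicative.toAdd h
    simpa using this
  have h2 : Multiplicative.toAdd z = 0 := by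
    have hJ' : (J : ℤ) ≠ 0 := by exact_mod_cast hJ.ne'
    exact (smul_eq_zero.1 h1).resolve_left hJ'
  exact congrArg Multiplicative.ofAdd h2

end MPab.BoostM

namespace MPab

open NoiseM BoostM

theorem specBOOST (hNP2 : SpecNP2) : SpecBOOST := by
  classical
  intro α G T _ f K P0 A ι c Pr hS p L hp hF
  obtain ⟨I, hI, hIne, u, Ω, hok, hPr, hgood⟩ := hF
  set k : ℕ := K.card with hk
  have hk0 : 0 < k := Finset.card_pos.2 hS.hKne
  have hkq : (0 : ℚ) < (k : ℚ) ^ 3 := by positivity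
  set ε : ℚ := (1 - p) / (2 * (k : ℚ) ^ 3) with hε
  have hε0 : 0 < ε := div_pos (by linarith) (by positivity)
  obtain ⟨y, N, J, Λ, hN, hJ, hΛ, hcount⟩ := hNP2 f K P0 A ι c Pr hS I u Ω p hok hgood ε hε0
  -- data
  choose pth hpth hpv using exists_path hS.surj
  choose! zz hzz hzι using hS.hK
  let F : Fin N × I → G := fun x =>
    ι (y ^ (x.1 : ℕ)) * c * u x.2 * c⁻¹ * (ι (y ^ (x.1 : ℕ)))⁻¹
  let X : Type := Fin N × I
  let S : Type := {κ // κ ∈ K} × Prs k
  let uu : X × S → G := fun q =>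
    (F q.1 ^ (q.2.2.1.2 : ℕ) * (q.2.1.1 ^ J) * (F q.1 ^ (q.2.2.1.2 : ℕ))⁻¹) *
      (F q.1 ^ (q.2.2.1.1 : ℕ) * (q.2.1.1 ^ J)⁻¹ * (F q.1 ^ (q.2.2.1.1 : ℕ))⁻¹)
  let lst : List (Noise α) := (Finset.univ : Finset (X × Fin (k + 1))).toList.map
    fun q => .tr (pth (F q.1 ^ (q.2 : ℕ))) .blob
  have hNe : Nonempty (Fin N) := ⟨⟨0, hN⟩⟩
  obtain ⟨κ₀, hκ₀⟩ := hS.hKne
  have hSne : Nonempty S :=
    ⟨(⟨κ₀, hκ₀⟩, ⟨(⟨0, by omega⟩, ⟨1, by omega⟩), by simp [Fin.lt_def]⟩)⟩
  refine ⟨X × S, inferInstance, inferInstance, uu, appL Λ lst, ?_, ?_, ?_⟩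
  · refine ok_appL hΛ fun V hV => ?_
    obtain ⟨q, _, rfl⟩ := List.mem_map.1 hV
    exact ⟨hpth _, trivial⟩
  · rintro ⟨x, κ, q⟩
    have h1 := hS.free.boost L (u x.2) (hPr x.2) (zz κ.1 ^ J)
      (pow_ne_one_Z2 (hzz _ κ.2) hJ) (y ^ (x.1 : ℕ)) q.1.1 q.1.2 q.2
    rw [show ι (zz κ.1 ^ J) = κ.1 ^ J by rw [map_pow, hzι _ κ.2]] at h1
    exact h1
  · intro B hB
    rw [good_appL] at hB
    have hE := hcount B hB.1
    -- the pigeonhole
    have hpig : ∀ x : X, ∃ s : S, uu (x, s) ∈ B := by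
      intro x
      have h1 : ∀ m : Fin (k + 1), ∃ κ ∈ K, F x ^ (m : ℕ) * κ * (F x ^ (m : ℕ))⁻¹ ∈ B := by
        intro m
        have h2 := hB.2 (.tr (pth (F x ^ (m : ℕ))) .blob)
          (List.mem_map.2 ⟨(x, m), by simp, rfl⟩)
        obtain ⟨κ, hκ, h3⟩ := h2
        refine ⟨κ, hκ, ?_⟩
        rw [mem_cj, hpv, inv_inv] at h3
        exact h3
      choose κ hκ hm using h1
      obtain ⟨m, m', hne, heq⟩ := Fintype.exists_ne_map_eq_of_card_lt
        (fun m : Fin (k + 1) => (⟨κ m, hκ m⟩ : {κ // κ ∈ K})) (by simp [hk])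
      have heq' : κ m = κ m' := congrArg Subtype.val heq
      rcases lt_or_gt_of_ne hne with h | h
      · refine ⟨(⟨κ m, hκ m⟩, ⟨(m, m'), h⟩), ?_⟩
        have h3 : F x ^ (m' : ℕ) * κ m * (F x ^ (m' : ℕ))⁻¹ ∈ B := by rw [heq']; exact hm m'
        exact same_mem (hm m) h3
      · refine ⟨(⟨κ m, hκ m⟩, ⟨(m', m), h⟩), ?_⟩
        have h3 : F x ^ (m' : ℕ) * κ m * (F x ^ (m' : ℕ))⁻¹ ∈ B := by rw [heq']; exact hm m'
        exact same_mem h3 (hm m)
    have hev : ∀ x : X, (F x ∈ B ∧ ∀ κ ∈ K, κ ^ J * F x * (κ ^ J)⁻¹ ∈ B) →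
        ∀ s : S, uu (x, s) ∈ B := by
      rintro x ⟨h1, h2⟩ ⟨κ, q⟩
      exact event_mem h1 (h2 _ κ.2) q.2
    have hc := count (fun q : X × S => uu q ∈ B)
      (fun x => F x ∈ B ∧ ∀ κ ∈ K, κ ^ J * F x * (κ ^ J)⁻¹ ∈ B) hev hpig
    have hcS1 : 1 ≤ Fintype.card S := Fintype.card_pos
    have hcS : Fintype.card S ≤ k ^ 3 := by
      have h1 : Fintype.card S = k * Fintype.card (Prs k) := by
        simp only [S, Fintype.card_prod, Fintype.card_coe, hk]
      rw [h1]
      have := card_prs k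
      nlinarith
    have hcX : (Fintype.card X : ℚ) = (N : ℚ) * (Fintype.card I : ℚ) := by
      simp only [X, Fintype.card_prod, Fintype.card_fin]
      push_cast; ring
    have hcX0 : (0 : ℚ) < Fintype.card X := by exact_mod_cast Fintype.card_pos
    have hcXS : (Fintype.card (X × S) : ℚ) = Fintype.card X * Fintype.card S := by
      rw [Fintype.card_prod]; push_cast; ring
    rw [← hcX] at hE
    refine le_trans ?_ hc
    rw [hcXS]
    set Z : ℚ := (Fintype.card S : ℚ) with hZ
    set t : ℚ := (Fintype.card X : ℚ) with ht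
    have hZ1 : (1 : ℚ) ≤ Z := by rw [hZ]; exact_mod_cast hcS1
    have hZ3 : Z ≤ (k : ℚ) ^ 3 := by rw [hZ]; exact_mod_cast hcS
    have h1 := mul_le_mul_of_nonneg_left hE (show (0 : ℚ) ≤ Z - 1 by linarith)
    have h2 : Z * ε ≤ (1 - p) / 2 := by
      rw [hε, ← mul_div_assoc, div_le_iff₀ (by positivity)]
      have : Z * (1 - p) ≤ (k : ℚ) ^ 3 * (1 - p) := mul_le_mul_of_nonneg_right hZ3 (by linarith)
      linarith
    have h3 : (p + ε) * (t * Z) ≤ t + (Z - 1) * ((p - ε) * t) := by
      have h4 : 0 ≤ t * ((1 - p) - 2 * (Z * ε) + ε) := by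
        refine mul_nonneg hcX0.le ?_
        linarith
      nlinarith
    refine h3.trans ?_
    have h5 : (Z - 1) * ((p - ε) * t) ≤ (Z - 1) *
        (({x : Fin N × I | (ι (y ^ (x.1 : ℕ)) * c * u x.2 * c⁻¹ * (ι (y ^ (x.1 : ℕ)))⁻¹) ∈ B ∧
            ∀ κ ∈ K, κ ^ J * (ι (y ^ (x.1 : ℕ)) * c * u x.2 * c⁻¹ * (ι (y ^ (x.1 : ℕ)))⁻¹) *
              (κ ^ J)⁻¹ ∈ B}.ncard : ℚ)) := h1
    linarith

/-- module ITER -/
theorem specITER (hB : SpecBOOST) : SpecITER := by
  classical
  intro α G T _ f K P0 A ι c Pr hS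
  have hk0 : 0 < K.card := Finset.card_pos.2 hS.hKne
  set k : ℚ := (K.card : ℚ) with hk
  have hk1 : 1 ≤ k := by rw [hk]; exact_mod_cast hk0
  have hk3 : (1 : ℚ) ≤ k ^ 3 := one_le_pow₀ hk1
  have hmono : ∀ {p q : ℚ} {L : ℕ}, q ≤ p → Fam f K P0 A Pr p L → Fam f K P0 A Pr q L := by
    rintro p q L hqp ⟨I, hI, hIne, u, Ω, hok, hPr, hg⟩
    exact ⟨I, hI, hIne, u, Ω, hok, hPr, fun B hB =>
      (mul_le_mul_of_nonneg_right hqp (by positivity)).trans (hg B hB)⟩
  set δ : ℚ := 1 / (2 * k ^ 3) with hδ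
  have hδ0 : 0 < δ := by positivity
  have hδ1 : δ < 1 := by rw [hδ, div_lt_one (by positivity)]; linarith
  have key : ∀ n : ℕ, ∃ L : ℕ, Fam f K P0 A Pr (1 - (1 - δ) ^ n) L := by
    intro n
    induction n with
    | zero =>
      choose! zz hzz hzι using hS.hK
      refine ⟨1, {κ // κ ∈ K}, inferInstance, hS.hKne.to_subtype, fun κ => κ.1, .blob, trivial,
        fun κ => ?_, fun B _ => ?_⟩
      · have := hS.free.base (zz κ.1) (hzz _ κ.2)
        rwa [hzι _ κ.2] at this
      · simp only [pow_zero, sub_self, zero_mul]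
        positivity
    | succ n ih =>
      obtain ⟨L, hL⟩ := ih
      have h1 := hB f K P0 A ι c Pr hS _ L
        (by have : 0 < (1 - δ) ^ n := pow_pos (by linarith) n
            linarith) hL
      refine ⟨L + 1, hmono (le_of_eq ?_) h1⟩
      rw [pow_succ, ← hk, show ((1 : ℚ) - (1 - (1 - δ) ^ n)) / (2 * k ^ 3) = (1 - δ) ^ n * δ by
        rw [hδ]; ring]
      ring
  obtain ⟨n, hn⟩ := exists_pow_lt_of_lt_one (show (0 : ℚ) < 1 / 24 by norm_num)
    (show 1 - δ < 1 by linarith)
  obtain ⟨L, hL⟩ := key n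
  exact ⟨L, hmono (by linarith) hL⟩

end MPab
end

section
/-!
# MP_ab497f_al : modules CONT and SOUND
-/
set_option autoImplicit false

namespace MPab

namespace Cont

variable {α Q G : Type} [Group G]

/-- the context of a node below another node, with its values -/
theorem ctx {f : α → G} {L : Q → Set (List α)} {T : Tr Q α} (hT : T.Valid L) {E F : Nd Q α}
    (hE : Below ⟨0, T⟩ E) (hF : Below E F) :
    ∃ y z : List α, val f y = (pos f T.yd E.st)⁻¹ * pos f T.yd F.st ∧
      val f z = (pos f T.yd F.en)⁻¹ * pos f T.yd E.en ∧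
      ∀ w ∈ L F.lab, y ++ w ++ z ∈ L E.lab := by
  obtain ⟨y, z, h1, h2, h3, h4⟩ := hF.replace (L := L) (hE.valid (L := L) hT)
  have hat : At T.yd E.st E.tr.yd := hE.at_yd
  have hat' : At T.yd F.st F.tr.yd := (hE.trans hF).at_yd
  rw [h1] at hat
  refine ⟨y, z, ?_, ?_, h4⟩
  · have h5 := hat.left.left.pos_end (f := f)
    rw [h2, h5]
    group
  · have h5 := hat.right.pos_end (f := f)
    have h6 : E.st + (y ++ F.tr.yd).length = F.en := by
      rw [List.length_append, ← Nat.add_assoc, ← h2]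
      rfl
    rw [h6, ← h3] at h5
    rw [h5]
    group

/-- two disjoint nodes can be replaced independently -/
theorem two {L : Q → Set (List α)} {O E I : Nd Q α} (hE : Below O E) :
    Below O I → O.tr.Valid L → E.en ≤ I.st →
    ∃ y m z : List α, O.tr.yd = y ++ E.tr.yd ++ m ++ I.tr.yd ++ z ∧ E.st = O.st + y.length ∧
      I.st = E.en + m.length ∧
      O.en = I.en + z.length ∧
      ∀ w₁ ∈ L E.lab, ∀ w₂ ∈ L I.lab, y ++ w₁ ++ m ++ w₂ ++ z ∈ L O.lab := by
  induction hE using Relation.ReflTransGen.head_induction_on with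
  | refl =>
    intro hI _ h
    have h1 := hI.en_le
    have h2 := I.st_lt_en
    omega
  | @head O O' h1 h2 ih =>
    intro hI hO h
    rcases Relation.ReflTransGen.cases_head hI with rfl | ⟨O'', h3, h4⟩
    · have h5 := (Below.trans h1.below h2).st_le
      have h6 := E.st_lt_en
      omega
    · have e2 := Below.en_le h2
      have s2 := Below.st_le h2
      have e4 := Below.en_le h4
      have s4 := Below.st_le h4
      have := E.st_lt_en
      have := I.st_lt_en
      cases h1 with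
      | left i q l r =>
        cases h3 with
        | left =>
          obtain ⟨y, m, z, k1, k2, k3, k4, k5⟩ := ih h4 hO.2.1 h
          refine ⟨y, m, z ++ r.yd, ?_, k2, k3, ?_, ?_⟩
          · simp only [Tr.yd, k1, List.append_assoc]
          · simp only [Nd.en_mk, Tr.yd, List.length_append] at k4 ⊢
            omega
          · intro w₁ hw₁ w₂ hw₂
            have := hO.1 _ (k5 w₁ hw₁ w₂ hw₂) _ hO.2.2.mem
            simpa only [List.append_assoc, Nd.lab_mk, Tr.lab] using this
        | right =>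
          obtain ⟨y, z, a1, a2, a3, a4⟩ := Below.replace (L := L) h2 hO.2.1
          obtain ⟨y', z', b1, b2, b3, b4⟩ := Below.replace (L := L) h4 hO.2.2
          refine ⟨y, z ++ y', z', ?_, a2, ?_, ?_, ?_⟩
          · simp only [Tr.yd, a1, b1, List.append_assoc]
          · simp only [Nd.en_mk] at a3 b2
            rw [List.length_append]
            omega
          · simp only [Nd.en_mk, Tr.yd, List.length_append] at b3 ⊢
            omega
          · intro w₁ hw₁ w₂ hw₂
            have := hO.1 _ (a4 w₁ hw₁) _ (b4 w₂ hw₂)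
            simpa only [List.append_assoc, Nd.lab_mk, Tr.lab] using this
      | right i q l r =>
        cases h3 with
        | left =>
          simp only [Nd.en_mk] at e4 s2
          omega
        | right =>
          obtain ⟨y, m, z, k1, k2, k3, k4, k5⟩ := ih h4 hO.2.2 h
          refine ⟨l.yd ++ y, m, z, ?_, ?_, k3, ?_, ?_⟩
          · simp only [Tr.yd, k1, List.append_assoc]
          · simp only [List.length_append] at k2 ⊢
            omega
          · simp only [Nd.en_mk, Tr.yd, List.length_append] at k4 ⊢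
            omega
          · intro w₁ hw₁ w₂ hw₂
            have := hO.1 _ hO.2.1.mem _ (k5 w₁ hw₁ w₂ hw₂)
            simpa only [List.append_assoc, Nd.lab_mk, Tr.lab] using this

/-- the value of the yield of a node -/
theorem val_yd {f : α → G} {T : Tr Q α} {E : Nd Q α} (hE : Below ⟨0, T⟩ E) :
    val f E.tr.yd = (pos f T.yd E.st)⁻¹ * pos f T.yd E.en := by
  have := hE.at_yd.pos_end (f := f)
  have h2 : pos f T.yd E.en = pos f T.yd E.st * val f E.tr.yd := this
  rw [h2]
  group

/-- replacement of a node on the left of a recursion -/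
theorem left {f : α → G} {L : Q → Set (List α)} {T : Tr Q α} (hT : T.Valid L) {O I E : Nd Q α}
    (hO : Below ⟨0, T⟩ O) (hrec : Rec f T.yd O I) (hE : Below O E) (hEI : E.en ≤ I.st)
    {w : List α} (hw : w ∈ L E.lab) :
    ((pos f T.yd O.st)⁻¹ * (pos f T.yd E.st * val f w * (pos f T.yd E.en)⁻¹) * pos f T.yd O.st,
      (1 : G)) ∈ Ctx f L O.lab := by
  obtain ⟨hOI, hlab, hst, hen⟩ := hrec
  obtain ⟨y, m, z, k1, k2, k3, k4, k5⟩ := two (L := L) hE hOI (hO.valid (L := L) hT) hEI
  have hat : At T.yd O.st O.tr.yd := hO.at_yd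
  rw [k1] at hat
  have hy := hat.left.left.left.left.pos_end (f := f)
  have hm := hat.left.left.right.pos_end (f := f)
  have hz := hat.right.pos_end (f := f)
  have e1 : O.st + (y ++ E.tr.yd).length = E.en := by
    rw [List.length_append, ← Nat.add_assoc, ← k2]; rfl
  have e2 : O.st + (y ++ E.tr.yd ++ m ++ I.tr.yd).length = I.en := by
    rw [List.length_append, List.length_append, ← Nat.add_assoc, ← Nat.add_assoc, e1, ← k3]; rfl
  rw [← k2] at hy
  rw [e1, ← k3] at hm
  rw [e2, ← k4] at hz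
  refine ⟨y ++ w ++ m, z, ?_, ?_, ?_⟩
  · rw [val_append, val_append]
    simp only
    rw [hst, hm, hy]
    have h3 : pos f T.yd O.st = pos f T.yd E.en * val f m := by rw [hst, hm]
    rw [h3]
    group
  · simp only
    rw [hen] at hz
    exact mul_eq_left.1 hz.symm
  · intro w₂ hw₂
    rw [hlab] at hw₂
    have := k5 w hw w₂ hw₂
    simpa only [List.append_assoc] using this

/-- replacement of a node on the right of a recursion -/
theorem right {f : α → G} {L : Q → Set (List α)} {T : Tr Q α} (hT : T.Valid L) {O I E : Nd Q α}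
    (hO : Below ⟨0, T⟩ O) (hrec : Rec f T.yd O I) (hE : Below O E) (hEI : I.en ≤ E.st)
    {w : List α} (hw : w ∈ L E.lab) :
    ((1 : G), (pos f T.yd O.en)⁻¹ * (pos f T.yd E.st * val f w * (pos f T.yd E.en)⁻¹) *
      pos f T.yd O.en) ∈ Ctx f L O.lab := by
  obtain ⟨hOI, hlab, hst, hen⟩ := hrec
  obtain ⟨y, m, z, k1, k2, k3, k4, k5⟩ := two (L := L) hOI hE (hO.valid (L := L) hT) hEI
  have hat : At T.yd O.st O.tr.yd := hO.at_yd
  rw [k1] at hat
  have hy := hat.left.left.left.left.pos_end (f := f)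
  have hm := hat.left.left.right.pos_end (f := f)
  have hz := hat.right.pos_end (f := f)
  have e1 : O.st + (y ++ I.tr.yd).length = I.en := by
    rw [List.length_append, ← Nat.add_assoc, ← k2]; rfl
  have e2 : O.st + (y ++ I.tr.yd ++ m ++ E.tr.yd).length = E.en := by
    rw [List.length_append, List.length_append, ← Nat.add_assoc, ← Nat.add_assoc, e1, ← k3]; rfl
  rw [← k2] at hy
  rw [e1, ← k3] at hm
  rw [e2, ← k4] at hz
  refine ⟨y, m ++ w ++ z, ?_, ?_, ?_⟩
  · simp only
    rw [hst] at hy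
    exact mul_eq_left.1 hy.symm
  · rw [val_append, val_append]
    simp only
    rw [hz, hm, ← hen]
    have h3 : val f z = (pos f T.yd E.en)⁻¹ * pos f T.yd O.en := by rw [hz]; group
    have h4 : val f m = (pos f T.yd O.en)⁻¹ * pos f T.yd E.st := by rw [hm, ← hen]; group
    rw [hm, ← hen] at h4
    rw [h3, hz]
    group
  · intro w₂ hw₂
    rw [hlab] at hw₂
    have := k5 w₂ hw₂ w hw
    simpa only [List.append_assoc] using this

end Cont

/-- module CONT -/
theorem specCONT : SpecCONT := by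
  intro α Q G _ f L T hT O I E hO hrec
  have hOI := hrec.1
  have hlab := hrec.2.1
  have hst := hrec.2.2.1
  have hen := hrec.2.2.2
  refine ⟨?_, ?_, ?_, ?_⟩
  · -- between
    intro hOE hEI
    obtain ⟨y₁, z₁, a1, a2, a3⟩ := Cont.ctx (f := f) hT hO hOE
    obtain ⟨y₂, z₂, b1, b2, b3⟩ := Cont.ctx (f := f) hT (hO.trans hOE) hEI
    have key : ∀ p q : G, (p, q) ∈ Ctx f L E.lab →
        ((pos f T.yd O.st)⁻¹ * (pos f T.yd E.st * p * (pos f T.yd E.st)⁻¹) * pos f T.yd O.st,
          (pos f T.yd O.en)⁻¹ * (pos f T.yd E.en * q * (pos f T.yd E.en)⁻¹) * pos f T.yd O.en)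
          ∈ Ctx f L O.lab := by
      rintro p q ⟨y, z, hy, hz, H⟩
      simp only at hy hz
      refine ⟨y₁ ++ y ++ y₂, z₂ ++ z ++ z₁, ?_, ?_, ?_⟩
      · rw [val_append, val_append, a1, b1, hy, ← hst]
        group
      · rw [val_append, val_append, a2, b2, hz, ← hen]
        group
      · intro w hw
        rw [hlab] at hw
        have := a3 _ (H _ (b3 w hw))
        simpa only [List.append_assoc] using this
    refine ⟨?_, ?_⟩
    · intro g hg
      obtain ⟨h1, h2⟩ := hg
      refine ⟨?_, ?_⟩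
      · have := key _ _ h1
        have e1 : (pos f T.yd O.st)⁻¹ * (pos f T.yd E.st * ((pos f T.yd E.st)⁻¹ * g *
          pos f T.yd E.st) * (pos f T.yd E.st)⁻¹) * pos f T.yd O.st =
          (pos f T.yd O.st)⁻¹ * g * pos f T.yd O.st := by group
        have e2 : (pos f T.yd O.en)⁻¹ * (pos f T.yd E.en * (1 : G) * (pos f T.yd E.en)⁻¹) *
          pos f T.yd O.en = 1 := by group
        rw [e1, e2] at this
        exact this
      · have := key _ _ h2
        have e1 : (pos f T.yd O.st)⁻¹ * (pos f T.yd E.st * ((pos f T.yd E.st)⁻¹ * g *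
          pos f T.yd E.st)⁻¹ * (pos f T.yd E.st)⁻¹) * pos f T.yd O.st =
          ((pos f T.yd O.st)⁻¹ * g * pos f T.yd O.st)⁻¹ := by group
        have e2 : (pos f T.yd O.en)⁻¹ * (pos f T.yd E.en * (1 : G) * (pos f T.yd E.en)⁻¹) *
          pos f T.yd O.en = 1 := by group
        rw [e1, e2] at this
        exact this
    · intro g hg
      obtain ⟨h1, h2⟩ := hg
      refine ⟨?_, ?_⟩
      · have := key _ _ h1
        have e1 : (pos f T.yd O.en)⁻¹ * (pos f T.yd E.en * ((pos f T.yd E.en)⁻¹ * g *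
          pos f T.yd E.en) * (pos f T.yd E.en)⁻¹) * pos f T.yd O.en =
          (pos f T.yd O.en)⁻¹ * g * pos f T.yd O.en := by group
        have e2 : (pos f T.yd O.st)⁻¹ * (pos f T.yd E.st * (1 : G) * (pos f T.yd E.st)⁻¹) *
          pos f T.yd O.st = 1 := by group
        rw [e1, e2] at this
        exact this
      · have := key _ _ h2
        have e1 : (pos f T.yd O.en)⁻¹ * (pos f T.yd E.en * ((pos f T.yd E.en)⁻¹ * g *
          pos f T.yd E.en)⁻¹ * (pos f T.yd E.en)⁻¹) * pos f T.yd O.en =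
          ((pos f T.yd O.en)⁻¹ * g * pos f T.yd O.en)⁻¹ := by group
        have e2 : (pos f T.yd O.st)⁻¹ * (pos f T.yd E.st * (1 : G) * (pos f T.yd E.st)⁻¹) *
          pos f T.yd O.st = 1 := by group
        rw [e1, e2] at this
        exact this
  · -- left
    intro hOE hEI
    have hE := hO.trans hOE
    have hyd := Cont.val_yd (f := f) hE
    have hmem : E.tr.yd ∈ L E.lab := (hE.valid (L := L) hT).mem
    have key : ∀ w ∈ L E.lab, ∀ g : G, val f w = (pos f T.yd E.st)⁻¹ * g * pos f T.yd E.en →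
        ((pos f T.yd O.st)⁻¹ * g * pos f T.yd O.st, (1 : G)) ∈ Ctx f L O.lab := by
      intro w hw g hg
      have := Cont.left (f := f) hT hO hrec hOE hEI hw
      have e1 : pos f T.yd E.st * val f w * (pos f T.yd E.en)⁻¹ = g := by rw [hg]; group
      rw [e1] at this
      exact this
    have inv : ∀ g : G, ((pos f T.yd O.st)⁻¹ * g⁻¹ * pos f T.yd O.st, (1 : G)) ∈ Ctx f L O.lab →
        (((pos f T.yd O.st)⁻¹ * g * pos f T.yd O.st)⁻¹, (1 : G)) ∈ Ctx f L O.lab := by
      intro g h
      have e1 : ((pos f T.yd O.st)⁻¹ * g * pos f T.yd O.st)⁻¹ =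
        (pos f T.yd O.st)⁻¹ * g⁻¹ * pos f T.yd O.st := by group
      rw [e1]
      exact h
    refine ⟨?_, ?_, ?_⟩
    · intro g hg
      obtain ⟨⟨y, z, hy, hz, H⟩, ⟨y', z', hy', hz', H'⟩⟩ := hg
      simp only at hy hz hy' hz'
      refine ⟨key _ (H _ hmem) g ?_, inv g (key _ (H' _ hmem) g⁻¹ ?_)⟩
      · rw [val_append, val_append, hyd, hy, hz]; group
      · rw [val_append, val_append, hyd, hy', hz']; group
    · intro g hg
      obtain ⟨⟨y, z, hy, hz, H⟩, ⟨y', z', hy', hz', H'⟩⟩ := hg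
      simp only at hy hz hy' hz'
      refine ⟨key _ (H _ hmem) g ?_, inv g (key _ (H' _ hmem) g⁻¹ ?_)⟩
      · rw [val_append, val_append, hyd, hy, hz]; group
      · rw [val_append, val_append, hyd, hy', hz']; group
    · rintro d ⟨⟨w, hw, hv⟩, ⟨w', hw', hv'⟩⟩
      exact ⟨key w hw d hv, inv d (key w' hw' d⁻¹ hv')⟩
  · -- right
    intro hOE hEI
    have hE := hO.trans hOE
    have hyd := Cont.val_yd (f := f) hE
    have hmem : E.tr.yd ∈ L E.lab := (hE.valid (L := L) hT).mem
    have key : ∀ w ∈ L E.lab, ∀ g : G, val f w = (pos f T.yd E.st)⁻¹ * g * pos f T.yd E.en →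
        ((1 : G), (pos f T.yd O.en)⁻¹ * g * pos f T.yd O.en) ∈ Ctx f L O.lab := by
      intro w hw g hg
      have := Cont.right (f := f) hT hO hrec hOE hEI hw
      have e1 : pos f T.yd E.st * val f w * (pos f T.yd E.en)⁻¹ = g := by rw [hg]; group
      rw [e1] at this
      exact this
    have inv : ∀ g : G, ((1 : G), (pos f T.yd O.en)⁻¹ * g⁻¹ * pos f T.yd O.en) ∈ Ctx f L O.lab →
        ((1 : G), ((pos f T.yd O.en)⁻¹ * g * pos f T.yd O.en)⁻¹) ∈ Ctx f L O.lab := by
      intro g h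
      have e1 : ((pos f T.yd O.en)⁻¹ * g * pos f T.yd O.en)⁻¹ =
        (pos f T.yd O.en)⁻¹ * g⁻¹ * pos f T.yd O.en := by group
      rw [e1]
      exact h
    refine ⟨?_, ?_, ?_⟩
    · intro g hg
      obtain ⟨⟨y, z, hy, hz, H⟩, ⟨y', z', hy', hz', H'⟩⟩ := hg
      simp only at hy hz hy' hz'
      refine ⟨key _ (H _ hmem) g ?_, inv g (key _ (H' _ hmem) g⁻¹ ?_)⟩
      · rw [val_append, val_append, hyd, hy, hz]; group
      · rw [val_append, val_append, hyd, hy', hz']; group
    · intro g hg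
      obtain ⟨⟨y, z, hy, hz, H⟩, ⟨y', z', hy', hz', H'⟩⟩ := hg
      simp only at hy hz hy' hz'
      refine ⟨key _ (H _ hmem) g ?_, inv g (key _ (H' _ hmem) g⁻¹ ?_)⟩
      · rw [val_append, val_append, hyd, hy, hz]; group
      · rw [val_append, val_append, hyd, hy', hz']; group
    · rintro d ⟨⟨w, hw, hv⟩, ⟨w', hw', hv'⟩⟩
      exact ⟨key w hw d hv, inv d (key w' hw' d⁻¹ hv')⟩
  · -- two nodes
    intro F hOE hEF hFI hEFlab
    obtain ⟨y₁, z₁, a1, a2, a3⟩ := Cont.ctx (f := f) hT hO hOE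
    obtain ⟨y₂, z₂, b1, b2, b3⟩ := Cont.ctx (f := f) hT (hO.trans hOE) hEF
    obtain ⟨y₃, z₃, c1, c2, c3⟩ := Cont.ctx (f := f) hT ((hO.trans hOE).trans hEF) hFI
    refine ⟨⟨y₁ ++ y₂ ++ y₂ ++ y₃, z₃ ++ z₂ ++ z₂ ++ z₁, ?_, ?_, ?_⟩,
      ⟨y₁ ++ y₃, z₃ ++ z₁, ?_, ?_, ?_⟩⟩
    · simp only [val_append]
      rw [a1, b1, c1, ← hst]
      group
    · simp only [val_append]
      rw [a2, b2, c2, ← hen]
      group
    · intro w hw
      rw [hlab] at hw
      have h1 := c3 w hw
      have h2 := b3 _ h1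
      rw [hEFlab] at h2
      have h3 := a3 _ (b3 _ h2)
      simpa only [List.append_assoc] using h3
    · simp only [val_append]
      rw [a1, c1, ← hst]
      group
    · simp only [val_append]
      rw [a2, c2, ← hen]
      group
    · intro w hw
      rw [hlab] at hw
      have h1 := c3 w hw
      rw [← hEFlab] at h1
      have h3 := a3 _ h1
      simpa only [List.append_assoc] using h3

/-- module SOUND -/
theorem specSOUND : SpecSOUND := by
  intro α Q G _ f L T hT hL E hE
  obtain ⟨Y, Z, a1, a2, a3⟩ := Cont.ctx (f := f) hT (Below.refl _) hE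
  have hyd := Cont.val_yd (f := f) hE
  have hmem : E.tr.yd ∈ L E.lab := (hE.valid (L := L) hT).mem
  have e0 : (⟨0, T⟩ : Nd Q α).st = 0 := rfl
  have e1 : pos f T.yd (⟨0, T⟩ : Nd Q α).en = val f T.yd := by
    apply pos_length
    simp
  rw [e0, pos_zero, inv_one, one_mul] at a1
  rw [e1] at a2
  refine ⟨?_, ?_⟩
  · rintro ⟨_, ⟨y, z, hy, hz, H⟩⟩
    simp only at hy hz
    refine hL _ (a3 _ (H _ hmem)) ?_
    simp only [val_append]
    rw [a1, a2, hyd, hy, hz]
    group
  · rintro ⟨_, ⟨y, z, hy, hz, H⟩⟩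
    simp only at hy hz
    refine hL _ (a3 _ (H _ hmem)) ?_
    simp only [val_append]
    rw [a1, a2, hyd, hy, hz]
    group

end MPab
end

section
/-!
# MP_ab497f_al : module COST, segmentations with few boundaries
-/
set_option autoImplicit false

namespace MPab.Cost

variable {α : Type}

/-- the union of a segmentation of `W₁` (length `m`) and a shifted segmentation of `W₂` -/
def glue (m : ℕ) (B₁ B₂ : Finset ℕ) : Finset ℕ := B₁ ∪ B₂.image (fun b => m + b)

theorem mem_glue {m : ℕ} {B₁ B₂ : Finset ℕ} {b : ℕ} :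
    b ∈ glue m B₁ B₂ ↔ b ∈ B₁ ∨ ∃ b₂ ∈ B₂, b = m + b₂ := by
  unfold glue
  rw [Finset.mem_union, Finset.mem_image]
  constructor
  · rintro (h | ⟨b₂, h, rfl⟩)
    · exact Or.inl h
    · exact Or.inr ⟨b₂, h, rfl⟩
  · rintro (h | ⟨b₂, h, rfl⟩)
    · exact Or.inl h
    · exact Or.inr ⟨b₂, h, rfl⟩

theorem segm_glue {P W₁ W₂ : List α} {B₁ B₂ : Finset ℕ} (h₁ : Segm P W₁ B₁)
    (h₂ : Segm P W₂ B₂) : Segm P (W₁ ++ W₂) (glue W₁.length B₁ B₂) := by
  obtain ⟨a1, a2, a3, a4⟩ := h₁
  obtain ⟨c1, c2, c3, c4⟩ := h₂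
  refine ⟨mem_glue.2 (Or.inl a1), mem_glue.2 (Or.inr ⟨_, c2, by simp⟩), ?_, ?_⟩
  · intro b hb
    rw [List.length_append]
    rcases mem_glue.1 hb with h | ⟨b₂, h, rfl⟩
    · have := a3 b h; omega
    · have := c3 b₂ h; omega
  · intro b hb b' hb' hlt hno
    have hm : W₁.length ∈ glue W₁.length B₁ B₂ := mem_glue.2 (Or.inl a2)
    rcases Nat.lt_or_ge W₁.length b' with h | h
    · -- both in the right part
      have hbm : W₁.length ≤ b := by
        by_contra hcon
        exact hno _ hm ⟨by omega, h⟩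
      obtain ⟨b₂, hb₂, rfl⟩ : ∃ b₂ ∈ B₂, b = W₁.length + b₂ := by
        rcases mem_glue.1 hb with h' | h'
        · have := a3 b h'
          exact ⟨0, c1, by omega⟩
        · exact h'
      obtain ⟨b₂', hb₂', rfl⟩ : ∃ b₂ ∈ B₂, b' = W₁.length + b₂ := by
        rcases mem_glue.1 hb' with h' | h'
        · have := a3 b' h'
          omega
        · exact h'
      rcases c4 b₂ hb₂ b₂' hb₂' (by omega) (fun c hc hcc =>
        hno (W₁.length + c) (mem_glue.2 (Or.inr ⟨c, hc, rfl⟩)) (by omega)) with h' | ⟨m, hm1, hm2⟩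
      · left; omega
      · right
        refine ⟨m, by omega, ?_⟩
        have h3 : At (W₁ ++ W₂) W₁.length W₂ := ⟨W₁, [], by simp, rfl⟩
        exact h3.trans hm2
    · -- both in the left part
      have hb1 : b ∈ B₁ := by
        rcases mem_glue.1 hb with h' | ⟨b₂, _, h'⟩
        · exact h'
        · omega
      have hb1' : b' ∈ B₁ := by
        rcases mem_glue.1 hb' with h' | ⟨b₂, _, h'⟩
        · exact h'
        · have : b' = W₁.length := by omega
          rw [this]; exact a2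
      rcases a4 b hb1 b' hb1' hlt (fun c hc hcc => hno c (mem_glue.2 (Or.inl hc)) hcc) with
        h' | ⟨m, hm1, hm2⟩
      · left; exact h'
      · right
        refine ⟨m, hm1, ?_⟩
        have h3 : At (W₁ ++ W₂) 0 W₁ := ⟨[], W₂, by simp, rfl⟩
        have := h3.trans hm2
        rwa [Nat.zero_add] at this

theorem nb_le_card {B : Finset ℕ} (i j : ℕ) : nb B i j ≤ B.card := Finset.card_filter_le _ _

/-- counting: left of the cut -/
theorem nb_glue_left {m : ℕ} {B₁ B₂ : Finset ℕ} {i j : ℕ} (hj : j < m) :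
    nb (glue m B₁ B₂) i j ≤ nb B₁ i j := by
  unfold nb
  apply Finset.card_le_card
  intro b hb
  rw [Finset.mem_filter] at hb ⊢
  obtain ⟨hb1, hb2⟩ := hb
  rcases mem_glue.1 hb1 with h | ⟨b₂, _, h⟩
  · exact ⟨h, hb2⟩
  · omega

/-- counting: right of the cut -/
theorem nb_glue_right {m : ℕ} {B₁ B₂ : Finset ℕ} {i j : ℕ} (h1 : ∀ b ∈ B₁, b ≤ m) (h0 : 0 ∈ B₂)
    (hi : m ≤ i) : nb (glue m B₁ B₂) i j ≤ nb B₂ (i - m) (j - m) := by
  unfold nb
  have : (glue m B₁ B₂).filter (fun b => i ≤ b ∧ b ≤ j) ⊆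
      (B₂.filter (fun b => i - m ≤ b ∧ b ≤ j - m)).image (fun b => m + b) := by
    intro b hb
    rw [Finset.mem_filter] at hb
    obtain ⟨hb1, hb2, hb3⟩ := hb
    rw [Finset.mem_image]
    rcases mem_glue.1 hb1 with h | ⟨b₂, h, rfl⟩
    · have := h1 b h
      refine ⟨0, ?_, by omega⟩
      rw [Finset.mem_filter]
      exact ⟨h0, by omega, by omega⟩
    · refine ⟨b₂, ?_, rfl⟩
      rw [Finset.mem_filter]
      exact ⟨h, by omega, by omega⟩
  exact (Finset.card_le_card this).trans Finset.card_image_le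

/-- counting: across the cut -/
theorem nb_glue_mid {m : ℕ} {B₁ B₂ : Finset ℕ} {i j : ℕ} (h1 : ∀ b ∈ B₁, b ≤ m) :
    nb (glue m B₁ B₂) i j ≤ nb B₁ i m + nb B₂ 0 (j - m) := by
  unfold nb
  have : (glue m B₁ B₂).filter (fun b => i ≤ b ∧ b ≤ j) ⊆
      B₁.filter (fun b => i ≤ b ∧ b ≤ m) ∪
      (B₂.filter (fun b => 0 ≤ b ∧ b ≤ j - m)).image (fun b => m + b) := by
    intro b hb
    rw [Finset.mem_filter] at hb
    obtain ⟨hb1, hb2, hb3⟩ := hb
    rw [Finset.mem_union, Finset.mem_image]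
    rcases mem_glue.1 hb1 with h | ⟨b₂, h, rfl⟩
    · left
      rw [Finset.mem_filter]
      exact ⟨h, hb2, h1 b h⟩
    · right
      refine ⟨b₂, ?_, rfl⟩
      rw [Finset.mem_filter]
      exact ⟨h, by omega, by omega⟩
  refine (Finset.card_le_card this).trans ((Finset.card_union_le _ _).trans ?_)
  have := Finset.card_image_le (s := B₂.filter (fun b => 0 ≤ b ∧ b ≤ j - m))
    (f := fun b => m + b)
  omega

/-- `W` has a segmentation of density `c₁ / Big` up to `c₂` -/
def Sg (P : List α) (Big c₁ c₂ : ℕ) (W : List α) : Prop :=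
  ∃ B : Finset ℕ, Segm P W B ∧ ∀ i j : ℕ, i ≤ j → nb B i j * Big ≤ c₁ * (j - i) + c₂ * Big

theorem Sg.append {P W₁ W₂ : List α} {Big c₁ c₂ d₁ d₂ : ℕ} (h₁ : Sg P Big c₁ c₂ W₁)
    (h₂ : Sg P Big d₁ d₂ W₂) : Sg P Big (c₁ + d₁) (c₂ + d₂) (W₁ ++ W₂) := by
  obtain ⟨B₁, s₁, n₁⟩ := h₁
  obtain ⟨B₂, s₂, n₂⟩ := h₂
  refine ⟨glue W₁.length B₁ B₂, segm_glue s₁ s₂, ?_⟩
  intro i j hij
  have hle1 : ∀ b ∈ B₁, b ≤ W₁.length := s₁.2.2.1
  generalize W₁.length = m at hle1 ⊢
  rcases Nat.lt_or_ge j m with h | h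
  · have h1 := nb_glue_left (B₁ := B₁) (B₂ := B₂) (i := i) h
    have h2 := n₁ i j hij
    calc nb (glue m B₁ B₂) i j * Big ≤ nb B₁ i j * Big := Nat.mul_le_mul_right _ h1
      _ ≤ c₁ * (j - i) + c₂ * Big := h2
      _ ≤ (c₁ + d₁) * (j - i) + (c₂ + d₂) * Big := by
          rw [Nat.add_mul, Nat.add_mul]; omega
  · rcases Nat.lt_or_ge i m with h' | h'
    · have h1 := nb_glue_mid (B₁ := B₁) (B₂ := B₂) (i := i) (j := j) hle1
      have h2 := n₁ i m h'.le
      have h3 := n₂ 0 (j - m) (Nat.zero_le _)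
      rw [Nat.sub_zero] at h3
      have h4 : (nb B₁ i m + nb B₂ 0 (j - m)) * Big = nb B₁ i m * Big + nb B₂ 0 (j - m) * Big :=
        Nat.add_mul _ _ _
      have h5 : c₁ * (m - i) ≤ c₁ * (j - i) := Nat.mul_le_mul_left _ (by omega)
      have h6 : d₁ * (j - m) ≤ d₁ * (j - i) := Nat.mul_le_mul_left _ (by omega)
      have h7 := Nat.mul_le_mul_right Big h1
      rw [Nat.add_mul, Nat.add_mul]
      omega
    · have h1 := nb_glue_right (B₁ := B₁) (B₂ := B₂) (i := i) (j := j) hle1 s₂.1 h'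
      have h2 := n₂ (i - m) (j - m) (by omega)
      have h5 : d₁ * (j - m - (i - m)) = d₁ * (j - i) := by congr 1; omega
      have h7 := Nat.mul_le_mul_right Big h1
      rw [Nat.add_mul, Nat.add_mul]
      omega

/-- powers of a long word -/
theorem Sg.power {P u : List α} {Big c₁ c₂ : ℕ} (h : Sg P Big c₁ c₂ u) (hu : Big ≤ u.length)
    (hBig : 1 ≤ Big) (n : ℕ) : Sg P Big (c₁ + c₂) (2 * c₂) (rep n u) := by
  obtain ⟨B, s, nB⟩ := h
  have hc2 : 1 ≤ c₂ := by
    by_contra hcon
    have h0 : c₂ = 0 := by omega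
    have h1 := nB 0 0 le_rfl
    rw [h0] at h1
    have h2 : 1 ≤ nb B 0 0 := by
      unfold nb
      rw [Nat.one_le_iff_ne_zero, Finset.card_ne_zero]
      exact ⟨0, by rw [Finset.mem_filter]; exact ⟨s.1, le_rfl, le_rfl⟩⟩
    have h3 : 1 * 1 ≤ nb B 0 0 * Big := Nat.mul_le_mul h2 hBig
    omega
  have hfull : nb B 0 u.length * Big ≤ (c₁ + c₂) * u.length := by
    have h1 := nB 0 u.length (Nat.zero_le _)
    rw [Nat.sub_zero] at h1
    have h2 : c₂ * Big ≤ c₂ * u.length := Nat.mul_le_mul_left _ hu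
    rw [Nat.add_mul]
    omega
  suffices H : ∃ B' : Finset ℕ, Segm P (MPab.rep n u) B' ∧
      (∀ i ≤ n * u.length, nb B' i (n * u.length) * Big ≤
        (c₁ + c₂) * (n * u.length - i) + c₂ * Big) ∧
      ∀ i j : ℕ, i ≤ j → nb B' i j * Big ≤ (c₁ + c₂) * (j - i) + 2 * c₂ * Big by
    obtain ⟨B', h1, _, h3⟩ := H
    exact ⟨B', h1, h3⟩
  induction n with
  | zero =>
    have hle : ∀ i j : ℕ, nb ({0} : Finset ℕ) i j * Big ≤ c₂ * Big := by
      intro i j
      apply Nat.mul_le_mul_right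
      exact (nb_le_card i j).trans (by simpa using hc2)
    refine ⟨{0}, ⟨by simp, by simp, by simp, ?_⟩, ?_, ?_⟩
    · intro b hb b' hb' hlt
      rw [Finset.mem_singleton] at hb hb'
      omega
    · intro i _
      have := hle i (0 * u.length)
      omega
    · intro i j _
      have := hle i j
      rw [Nat.mul_assoc]
      omega
  | succ n ih =>
    obtain ⟨B', s', n1, n2⟩ := ih
    have hlen : (MPab.rep n u).length = n * u.length := rep_length n u
    rw [rep_succ']
    refine ⟨glue (MPab.rep n u).length B' B, segm_glue s' s, ?_, ?_⟩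
    · rw [hlen]
      have hle : ∀ b ∈ B', b ≤ n * u.length := by
        intro b hb; have := s'.2.2.1 b hb; rwa [hlen] at this
      have hs : (n + 1) * u.length - n * u.length = u.length := by
        rw [Nat.add_mul, Nat.one_mul, Nat.add_sub_cancel_left]
      intro i hi
      rcases Nat.lt_or_ge i (n * u.length) with h' | h'
      · have h1 := nb_glue_mid (B₁ := B') (B₂ := B) (i := i) (j := (n + 1) * u.length) hle
        rw [hs] at h1
        have h2 := n1 i h'.le
        have h7 := Nat.mul_le_mul_right Big h1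
        rw [Nat.add_mul (nb B' i (n * u.length))] at h7
        have h8 : (n + 1) * u.length - i = (n * u.length - i) + u.length := by
          rw [Nat.add_mul, Nat.one_mul]; omega
        rw [h8, Nat.mul_add]
        omega
      · have h1 := nb_glue_right (B₁ := B') (B₂ := B) (i := i) (j := (n + 1) * u.length) hle s.1 h'
        have h2 := nB (i - n * u.length) ((n + 1) * u.length - n * u.length) (by omega)
        have h5 : c₁ * ((n + 1) * u.length - n * u.length - (i - n * u.length)) ≤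
            (c₁ + c₂) * ((n + 1) * u.length - i) := by
          apply Nat.mul_le_mul (by omega)
          omega
        have h7 := Nat.mul_le_mul_right Big h1
        omega
    · rw [hlen]
      have hle : ∀ b ∈ B', b ≤ n * u.length := by
        intro b hb; have := s'.2.2.1 b hb; rwa [hlen] at this
      intro i j hij
      rcases Nat.lt_or_ge j (n * u.length) with h | h
      · have h1 := nb_glue_left (B₁ := B') (B₂ := B) (i := i) h
        exact (Nat.mul_le_mul_right Big h1).trans (n2 i j hij)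
      · rcases Nat.lt_or_ge i (n * u.length) with h' | h'
        · have h1 := nb_glue_mid (B₁ := B') (B₂ := B) (i := i) (j := j) hle
          have h2 := n1 i h'.le
          have h3 := nB 0 (j - n * u.length) (Nat.zero_le _)
          rw [Nat.sub_zero] at h3
          have h7 := Nat.mul_le_mul_right Big h1
          rw [Nat.add_mul (nb B' i (n * u.length))] at h7
          have h6 : c₁ * (j - n * u.length) ≤ (c₁ + c₂) * (j - n * u.length) :=
            Nat.mul_le_mul_right _ (by omega)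
          have h8 : (c₁ + c₂) * (j - i) =
              (c₁ + c₂) * (n * u.length - i) + (c₁ + c₂) * (j - n * u.length) := by
            rw [← Nat.mul_add]; congr 1; omega
          rw [h8, Nat.mul_assoc, Nat.two_mul]
          omega
        · have h1 := nb_glue_right (B₁ := B') (B₂ := B) (i := i) (j := j) hle s.1 h'
          have h2 := nB (i - n * u.length) (j - n * u.length) (by omega)
          have h5 : c₁ * (j - n * u.length - (i - n * u.length)) ≤ (c₁ + c₂) * (j - i) := by
            apply Nat.mul_le_mul (by omega)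
            omega
          have h7 := Nat.mul_le_mul_right Big h1
          rw [Nat.mul_assoc, Nat.two_mul]
          omega

/-- all boundaries -/
theorem Sg.letters (P W : List α) (Big : ℕ) : Sg P Big 0 (W.length + 1) W := by
  refine ⟨Finset.range (W.length + 1), ⟨by simp, by simp, ?_, ?_⟩, ?_⟩
  · intro b hb
    rw [Finset.mem_range] at hb
    omega
  · intro b hb b' hb' hlt hno
    rw [Finset.mem_range] at hb hb'
    left
    by_contra hcon
    exact hno (b + 1) (Finset.mem_range.2 (by omega)) (by omega)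
  · intro i j _
    rw [Nat.zero_mul, Nat.zero_add]
    apply Nat.mul_le_mul_right
    exact (nb_le_card i j).trans (by simp)

/-- one block -/
theorem Sg.block (P : List α) (n Big : ℕ) : Sg P Big 0 2 (rep n P) := by
  refine ⟨{0, n * P.length}, ⟨by simp, by simp, ?_, ?_⟩, ?_⟩
  · intro b hb
    rw [Finset.mem_insert, Finset.mem_singleton] at hb
    rw [rep_length]
    omega
  · intro b hb b' hb' hlt _
    rw [Finset.mem_insert, Finset.mem_singleton] at hb hb'
    right
    refine ⟨n, ?_, ?_⟩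
    · rcases hb with rfl | rfl <;> rcases hb' with rfl | rfl <;> omega
    · have hb0 : b = 0 := by
        rcases hb with rfl | rfl <;> rcases hb' with rfl | rfl <;> omega
      rw [hb0]
      exact At.refl _
  · intro i j _
    rw [Nat.zero_mul, Nat.zero_add]
    apply Nat.mul_le_mul_right
    exact (nb_le_card i j).trans Finset.card_le_two

theorem Sg.mono {P W : List α} {Big c₁ c₂ d₁ d₂ : ℕ} (h : Sg P Big c₁ c₂ W) (h1 : c₁ ≤ d₁)
    (h2 : c₂ ≤ d₂) : Sg P Big d₁ d₂ W := by
  obtain ⟨B, s, n⟩ := h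
  refine ⟨B, s, fun i j hij => (n i j hij).trans ?_⟩
  exact Nat.add_le_add (Nat.mul_le_mul_right _ h1) (Nat.mul_le_mul_right _ h2)

/-- noise words are long -/
theorem nw_long {P : List α} {Big : ℕ} (hP : P ≠ []) (hBig : 1 ≤ Big) {S : ℕ} {Ω : Noise α}
    {u : List α} (h : NW P Big S Ω u) : Big ≤ S ∧ S ≤ u.length := by
  have hPl : 1 ≤ P.length := List.length_pos_iff.mpr hP
  induction h with
  | blob S n h1 h2 h3 =>
    refine ⟨?_, by rw [rep_length]; exact h1⟩
    have : Big * 1 ≤ Big * P.length := Nat.mul_le_mul_left _ hPl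
    omega
  | sub S n W S' u h0 h1 h2 h3 ih =>
    refine ⟨?_, by rw [rep_length]; exact h1⟩
    have : Big * 1 ≤ Big * u.length := Nat.mul_le_mul_left _ (by omega)
    omega
  | app S W₁ W₂ u₁ u₂ h1 h2 ih1 ih2 =>
    refine ⟨ih1.1, ?_⟩
    rw [List.length_append]
    omega
  | tr S v W u h ih =>
    refine ⟨ih.1, ?_⟩
    rw [List.length_append, List.length_append]
    omega

theorem nw_sg (P : List α) (hP : P ≠ []) (Ω : Noise α) : ∃ c₁ c₂ : ℕ,
    ∀ (Big S : ℕ) (u : List α), 1 ≤ Big → NW P Big S Ω u → Sg P Big c₁ c₂ u := by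
  induction Ω with
  | blob =>
    refine ⟨0, 2, ?_⟩
    intro Big S u hBig h
    cases h with
    | blob _ n h1 h2 h3 => exact Sg.block P n Big
  | sub W ih =>
    obtain ⟨c₁, c₂, H⟩ := ih
    refine ⟨c₁ + c₂, 2 * c₂, ?_⟩
    intro Big S u hBig h
    cases h with
    | sub _ n _ S' u h0 h1 h2 h3 =>
      have h4 := nw_long hP hBig h0
      exact (H Big S' u hBig h0).power (by omega) hBig n
  | app W₁ W₂ ih₁ ih₂ =>
    obtain ⟨c₁, c₂, H⟩ := ih₁
    obtain ⟨d₁, d₂, H'⟩ := ih₂
    refine ⟨c₁ + d₁, c₂ + d₂, ?_⟩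
    intro Big S u hBig h
    cases h with
    | app _ _ _ u₁ u₂ h1 h2 => exact (H Big S u₁ hBig h1).append (H' Big S u₂ hBig h2)
  | tr v W ih =>
    obtain ⟨c₁, c₂, H⟩ := ih
    refine ⟨0 + c₁ + 0, (v.1.length + 1) + c₂ + (v.2.length + 1), ?_⟩
    intro Big S u hBig h
    cases h with
    | tr _ _ _ u h =>
      exact ((Sg.letters P v.1 Big).append (H Big S u hBig h)).append (Sg.letters P v.2 Big)

end MPab.Cost

namespace MPab

theorem specCOST : SpecCOST := by
  intro α P Ω wg hP
  obtain ⟨c₁, c₂, H⟩ := Cost.nw_sg P hP Ω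
  refine ⟨(c₁ + c₂) + 0, 2 * c₂ + (wg.length + 1), ?_⟩
  intro Big S n u hBig h
  have h4 := Cost.nw_long hP hBig h
  exact ((H Big S u hBig h).power (by omega) hBig n).append (Cost.Sg.letters P wg Big)

end MPab
end

section
/-!
# MP_ab497f_al, modules MAIN and TOP
-/
set_option autoImplicit false

namespace MPab

namespace Main

variable {α Q G : Type} [Group G]

theorem app_case {f : α → G} {L : Q → Set (List α)} {P : List α} {K : Finset G} {P0 : List G}
    (hNW : SpecNWPOS) (hP1 : val f P = 1) (hP0 : ∀ i : ℕ, val f (P.take i) ∈ P0)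
    {W₁ W₂ : Noise α} (hW₁ : W₁.Ok f)
    (h₁ : MainProp f L P K P0 W₁) (h₂ : MainProp f L P K P0 W₂) :
    MainProp f L P K P0 (.app W₁ W₂) := by
  intro mc θ Np c₁ c₂
  obtain ⟨B₁, H₁⟩ := h₁ mc θ Np c₁ c₂
  obtain ⟨B₂, H₂⟩ := h₂ mc θ Np c₁ c₂
  refine ⟨max B₁ B₂, ?_⟩
  intro Big hBig T hT Ps hPs hpos B hB hcost b n S u₁ u₂ u₃ hAt hval hNWu hlen O I hO hrec
  cases hNWu with
  | app _ _ _ ua ub h1 h2 =>
    have e1 : u₁ ++ (ua ++ ub) ++ u₃ = u₁ ++ ua ++ (ub ++ u₃) := by simp [List.append_assoc]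
    have e2 : u₁ ++ (ua ++ ub) ++ u₃ = (u₁ ++ ua) ++ ub ++ u₃ := by simp [List.append_assoc]
    have hua : val f ua = 1 := (hNW f P P0 Big W₁ S ua hP1 hP0 hW₁ h1).1
    have key₁ := H₁ Big (le_trans (le_max_left _ _) hBig) T hT Ps hPs hpos B hB hcost b n S u₁ ua
      (ub ++ u₃) (e1 ▸ hAt) (e1 ▸ hval) h1 (e1 ▸ hlen) O I hO hrec
    have key₂ := H₂ Big (le_trans (le_max_right _ _) hBig) T hT Ps hPs hpos B hB hcost b n S
      (u₁ ++ ua) ub u₃ (e2 ▸ hAt) (e2 ▸ hval) h2 (e2 ▸ hlen) O I hO hrec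
    rw [← e1] at key₁
    rw [← e2] at key₂
    rw [val_append, hua, mul_one] at key₂
    exact ⟨fun a1 a2 a3 a4 => ⟨key₁.1 a1 a2 a3 a4, key₂.1 a1 a2 a3 a4⟩,
      fun a1 a2 a3 a4 => ⟨key₁.2 a1 a2 a3 a4, key₂.2 a1 a2 a3 a4⟩⟩

theorem tr_case {f : α → G} {L : Q → Set (List α)} {P : List α} {K : Finset G} {P0 : List G}
    {v : List α × List α} {W : Noise α}
    (h : MainProp f L P K P0 W) : MainProp f L P K P0 (.tr v W) := by
  intro mc θ Np c₁ c₂
  obtain ⟨B₁, H₁⟩ := h mc θ Np c₁ c₂
  refine ⟨B₁, ?_⟩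
  intro Big hBig T hT Ps hPs hpos B hB hcost b n S u₁ u₂ u₃ hAt hval hNWu hlen O I hO hrec
  cases hNWu with
  | tr _ _ _ ua h1 =>
    have e1 : u₁ ++ (v.1 ++ ua ++ v.2) ++ u₃ = (u₁ ++ v.1) ++ ua ++ (v.2 ++ u₃) := by
      simp [List.append_assoc]
    have key := H₁ Big hBig T hT Ps hPs hpos B hB hcost b n S (u₁ ++ v.1) ua
      (v.2 ++ u₃) (e1 ▸ hAt) (e1 ▸ hval) h1 (e1 ▸ hlen) O I hO hrec
    rw [← e1] at key
    have e2 : ∀ A : Subgroup G, cj (pos f T.yd b * val f (u₁ ++ v.1))⁻¹ A =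
        cj (val f v.1)⁻¹ (cj (pos f T.yd b * val f u₁)⁻¹ A) := by
      intro A
      rw [← cj_mul, val_append]
      congr 1
      group
    rw [e2, e2] at key
    exact key

end Main

theorem specMAIN (hb : SpecMAINBLOB) (hs : SpecMAINSUB) (hNW : SpecNWPOS) : SpecMAIN := by
  intro α Q G _ _ f L P K C P0 hP hP1 hP0 hR hL Ω hΩ
  induction Ω with
  | blob => exact hb f L P K C P0 hP hP1 hP0 hR hL
  | sub W ih => exact hs f L P K P0 hP hP1 hP0 W hΩ (ih hΩ)
  | app W₁ W₂ ih₁ ih₂ => exact Main.app_case hNW hP1 hP0 hΩ.1 (ih₁ hΩ.1) (ih₂ hΩ.2)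
  | tr v W ih => exact Main.tr_case (ih hΩ.2)

end MPab
end

section
/-!
# MP_ab497f_al, module TOP
-/
set_option autoImplicit false

namespace MPab

namespace Top

variable {α G : Type} [Group G]

/-- positions of the top word -/
theorem pos_mem {f : α → G} {P : List α} {P0 : List G} {Big S : ℕ} {Ω : Noise α} {u : List α}
    (hNW : SpecNWPOS) (hP1 : val f P = 1) (hP0 : ∀ i : ℕ, val f (P.take i) ∈ P0)
    (hΩ : Ω.Ok f) (hu : NW P Big S Ω u) (n : ℕ) (wg : List α) (i : ℕ)
    (hi : i ≤ n * u.length) : pos f (rep n u ++ wg) i ∈ posL f P0 Ω := by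
  have h := hNW f P P0 Big Ω S u hP1 hP0 hΩ hu
  have : pos f (rep n u ++ wg) i = val f ((rep n u).take i) := by
    unfold pos
    rw [List.take_append_of_le_length (by rw [rep_length]; exact hi)]
  rw [this, val_rep_take f h.1 n i hi]
  exact h.2 _

end Top

theorem specCF (hCNF : SpecCNF) (hTREE : SpecTREE) (hSOUND : SpecSOUND) (hLL : SpecLL)
    (hDIRS : SpecDIRS) (hPLAN : SpecPLAN) (hBLR : SpecBLR) (hBLL : SpecBLL)
    (hNWLEN : SpecNWLEN) (hNWEX : SpecNWEX) (hNWPOS : SpecNWPOS) (hCOST : SpecCOST)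
    (hMAIN : SpecMAIN) : SpecCF := by
  classical
  intro α G _ _ f ι hι hsurj hcf
  obtain ⟨Q, hQ, L, hL, q₀, hq₀⟩ := hCNF ({w : List α | (w.map f).prod ≠ 1} : Language α) hcf (by
    intro h
    exact h (by simp))
  obtain ⟨D⟩ := hDIRS f ι hι hsurj
  obtain ⟨x₁, hx₁⟩ := hBLR f ι hι D L
  obtain ⟨x₂, hx₂⟩ := hBLL f ι hι D L
  set x : ℕ := max x₁ x₂ + 1 with hx
  obtain ⟨K₁, C₁', hK₁, hR⟩ := hx₁ x (by omega)
  obtain ⟨K₂, C₂', hK₂, hLp⟩ := hx₂ x (by omega)
  obtain ⟨hPlen, hP1, -⟩ := hPLAN f ι D x (by omega)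
  set P : List α := PiW D.s x with hPdef
  have hPne : P ≠ [] := by
    intro h
    rw [h] at hPlen
    simp only [List.length_nil] at hPlen
    have h0 : ell (fun k => (D.s k).length) = 0 := by
      rcases Nat.eq_zero_or_pos (ell (fun k => (D.s k).length)) with h1 | h1
      · exact h1
      · have : 0 < x * ell (fun k => (D.s k).length) := Nat.mul_pos (by omega) h1
        omega
    have h2 : (D.s 0).length ≤ ell (fun k => (D.s k).length) :=
      Finset.single_le_sum (f := fun k : ZMod 10 => (D.s k).length) (fun i _ => Nat.zero_le _)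
        (Finset.mem_univ 0)
    have h3 : 0 < (D.s 0).length := List.length_pos_iff.2 (D.ne 0)
    omega
  have hR' : BLRprop f L P (K₁ ∪ K₂) (max C₁' C₂') := by
    intro T hT B hB c t f₀ n hc hAt harm hmain
    obtain ⟨k, hk, h⟩ := hR T hT B hB c t f₀ n hc hAt harm
      (le_trans (Nat.mul_le_mul_left _ (le_max_left _ _)) hmain)
    exact ⟨k, Finset.mem_union_left _ hk, h⟩
  have hL' : BLLprop f L P (K₁ ∪ K₂) (max C₁' C₂') := by
    intro T hT B hB c t f₀ n hc hAt harm hmain
    obtain ⟨k, hk, h⟩ := hLp T hT B hB c t f₀ n hc hAt harm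
      (le_trans (Nat.mul_le_mul_left _ (le_max_right _ _)) hmain)
    exact ⟨k, Finset.mem_union_right _ hk, h⟩
  set P0 : List G := (List.range (P.length + 1)).map fun i => val f (P.take i) with hP0def
  have hP0 : ∀ i : ℕ, val f (P.take i) ∈ P0 := by
    intro i
    rw [hP0def, List.mem_map]
    rcases Nat.lt_or_ge i (P.length + 1) with h | h
    · exact ⟨i, List.mem_range.2 h, rfl⟩
    · refine ⟨P.length, List.mem_range.2 (by omega), ?_⟩
      rw [List.take_of_length_le (by omega), List.take_of_length_le (by omega)]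
  refine ⟨Q × Bool, inferInstance, AA f L, K₁ ∪ K₂, P0, ?_, ?_⟩
  · intro k hk
    rcases Finset.mem_union.1 hk with h | h
    · exact hK₁ k h
    · exact hK₂ k h
  intro Ω hΩ g hg
  obtain ⟨wg, hwg⟩ := hsurj g
  obtain ⟨mc, hmc⟩ := hNWLEN Ω
  obtain ⟨c₁, c₂, hcost⟩ := hCOST P Ω wg hPne
  obtain ⟨Big₀, hBig₀⟩ := hMAIN f L P (K₁ ∪ K₂) (max C₁' C₂') P0 hPne hP1 hP0 hR' hL' Ω hΩ
    mc (wg.length + 1) ((posL f P0 Ω).length + wg.length + 1) c₁ c₂
  obtain ⟨⟨S₀, hS₀⟩, hSlen⟩ := hNWEX P (Big₀ + 1) Ω hPne (by omega)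
  obtain ⟨u, hu⟩ := hS₀ S₀ le_rfl
  obtain ⟨hBS, hSu⟩ := hSlen S₀ u hu
  have hupos : 1 ≤ u.length := by omega
  have hval_u : val f u = 1 := (hNWPOS f P P0 (Big₀ + 1) Ω S₀ u hP1 hP0 hΩ hu).1
  set Ps : Finset G := (posL f P0 Ω ++ (List.range (wg.length + 1)).map
    fun i => val f (wg.take i)).toFinset with hPs
  have hPscard : Ps.card ≤ (posL f P0 Ω).length + wg.length + 1 := by
    refine (List.toFinset_card_le _).trans ?_
    simp only [List.length_append, List.length_map, List.length_range]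
    omega
  set Cc : ℕ := Nat.card Q * Nat.card Ps ^ 2 with hCc
  set m : ℕ := 3 * u.length with hm
  set n : ℕ := (2 * Cc + 2) * (4 ^ (Cc + 1) * m + 1) + 1 with hn
  set W : List α := rep n u ++ wg with hW
  have hvalW : val f W = g := by
    rw [hW, val_append, val_rep, hval_u, one_pow, one_mul, hwg]
  have hWM : W ∈ L q₀ := by
    rw [hq₀]
    show (W.map f).prod ≠ 1
    have : (W.map f).prod = g := hvalW
    rw [this]
    exact hg
  obtain ⟨T, hT, hTlab, hTyd⟩ := hTREE.1 L hL q₀ W hWM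
  have hposmem : ∀ i : ℕ, pos f T.yd i ∈ Ps := by
    intro i
    rw [hTyd, hPs, List.mem_toFinset, List.mem_append]
    rcases Nat.lt_or_ge (n * u.length) i with h | h
    · right
      rw [List.mem_map]
      have h1 : pos f W i = val f (wg.take (i - n * u.length)) := by
        unfold pos
        rw [hW, List.take_append, rep_length, List.take_of_length_le (by rw [rep_length]; omega),
          val_append, val_rep, hval_u, one_pow, one_mul]
      rw [h1]
      rcases Nat.lt_or_ge (i - n * u.length) (wg.length + 1) with h2 | h2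
      · exact ⟨_, List.mem_range.2 h2, rfl⟩
      · refine ⟨wg.length, List.mem_range.2 (by omega), ?_⟩
        rw [List.take_of_length_le (by omega), List.take_of_length_le (by omega)]
    · left
      exact Top.pos_mem hNWPOS hP1 hP0 hΩ hu n wg i h
  obtain ⟨B, hB, hBcost⟩ := hcost (Big₀ + 1) S₀ n u (by omega) hu
  have hB' : Segm P T.yd B := by rw [hTyd]; exact hB
  have hnu : n ≤ n * u.length := Nat.le_mul_of_pos_right _ (by omega)
  have hWlen : W.length = n * u.length + wg.length := by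
    rw [hW, List.length_append, rep_length]
  obtain ⟨c, t, hc, hc0, hcst, hcen⟩ := exists_chain_to_letter (⟨0, T⟩ : Nd Q α)
    (n * u.length - 1) (by simp) (by simp only [Nd.en_mk, hTyd, hWlen]; omega)
  have hc0st : (c 0).st = 0 := by rw [hc0]
  have hc0en : (c 0).en = W.length := by rw [hc0]; simp [hTyd]
  have harm : RArm c t 0 (n * u.length) := by
    refine ⟨hc, by omega, by omega, by omega⟩
  have : Finite Ps := inferInstance
  obtain ⟨O, I, h0O, hOI, hlab, hcst', hcen', hcase⟩ :=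
    (hLL (fun i => (⟨pos f T.yd i, hposmem i⟩ : Ps)) c t 0 (n * u.length) m Cc hCc
      (by omega)).1 harm (by omega)
  rw [hc0] at h0O
  have hRec : Rec f T.yd O I :=
    ⟨hOI, hlab, congrArg Subtype.val hcst', congrArg Subtype.val hcen'⟩
  have hmain := hBig₀ (Big₀ + 1) (by omega) T hT Ps hPscard hposmem B hB' hBcost 0 n S₀ [] u []
    (by
      rw [hTyd, List.nil_append, List.append_nil]
      exact ⟨[], wg, by simp [hW], rfl⟩)
    (by simpa using hval_u) hu (by simpa using hmc P (Big₀ + 1) S₀ u hPne (by omega) hu)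
    O I h0O hRec
  simp only [List.nil_append, List.append_nil, Nat.zero_add, Nat.zero_le, true_implies,
    pos_zero, val_nil, mul_one, inv_one, cj_one] at hmain
  have hOen : O.en ≤ W.length := by
    have := h0O.en_le_length
    rwa [hTyd] at this
  have hsound := hSOUND f L T hT (by
    intro w hw
    rw [hTlab, hq₀] at hw
    exact hw) O h0O
  rw [show val f T.yd = g by rw [hTyd]; exact hvalW] at hsound
  have caseL : I.st ≤ n * u.length → m ≤ I.st - O.st →
      O.en - I.en ≤ (wg.length + 1) * (I.st - O.st) →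
      ∃ τ : Q × Bool, ∃ r ∈ posL f P0 Ω,
        Good f (K₁ ∪ K₂) P0 (AA f L) (cj r (AA f L τ)) Ω ∧ g ∉ cj r (AA f L τ) := by
    intro h1 h2 h3
    refine ⟨(O.lab, false), pos f T.yd O.st, ?_, ?_, ?_⟩
    · rw [hTyd]
      exact Top.pos_mem hNWPOS hP1 hP0 hΩ hu n wg _ (by omega)
    · exact hmain.1 h1 h2 h3
    · exact hsound.1
  have caseR : O.en ≤ n * u.length → m ≤ O.en - I.en →
      I.st - O.st ≤ (wg.length + 1) * (O.en - I.en) →
      ∃ τ : Q × Bool, ∃ r ∈ posL f P0 Ω,
        Good f (K₁ ∪ K₂) P0 (AA f L) (cj r (AA f L τ)) Ω ∧ g ∉ cj r (AA f L τ) := by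
    intro h1 h2 h3
    refine ⟨(O.lab, true), pos f T.yd O.en, ?_, ?_, ?_⟩
    · rw [hTyd]
      exact Top.pos_mem hNWPOS hP1 hP0 hΩ hu n wg _ h1
    · exact hmain.2 h1 h2 h3
    · exact hsound.2
  rcases hcase with ⟨i, j, hij, hjt, rfl, rfl, h1, -⟩ | ⟨h1, h2 | h2⟩
  · apply caseL
    · have := (hc.below hjt le_rfl).st_le
      omega
    · exact h1
    · have h4 := (hc.below hjt le_rfl).en_le
      have h5 : (c i).en - (c j).en ≤ wg.length := by omega
      have h6 : 1 ≤ (c j).st - (c i).st := by omega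
      calc (c i).en - (c j).en ≤ (wg.length + 1) * 1 := by omega
        _ ≤ (wg.length + 1) * ((c j).st - (c i).st) := Nat.mul_le_mul_left _ h6
  · apply caseL
    · have h3 := hOI.en_le
      have h4 := I.st_lt_en
      omega
    · exact h2.1
    · exact h2.2.trans (Nat.le_mul_of_pos_left _ (by omega))
  · apply caseR
    · omega
    · exact h2.1
    · exact h2.2.trans (Nat.le_mul_of_pos_left _ (by omega))

end MPab
end

section
/-!
# MP_ab497f_al, module FINAL
-/
set_option autoImplicit false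

namespace MPab

theorem surj_of_closure {α G : Type} [Group G] (f : α → G)
    (h : Submonoid.closure (Set.range f) = ⊤) (g : G) : ∃ w : List α, val f w = g := by
  have hg : g ∈ Submonoid.closure (Set.range f) := by rw [h]; trivial
  induction hg using Submonoid.closure_induction with
  | mem x hx =>
    obtain ⟨a, rfl⟩ := hx
    exact ⟨[a], by simp [val]⟩
  | one => exact ⟨[], by simp⟩
  | mul x y _ _ hx hy =>
    obtain ⟨w₁, h₁⟩ := hx
    obtain ⟨w₂, h₂⟩ := hy
    exact ⟨w₁ ++ w₂, by rw [val_append, h₁, h₂]⟩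

theorem final (hFREE : SpecFREE) (hGT : SpecGT) (hCF : SpecCF) :
    ∀ (α : Type) [Fintype α]
      (f : α → Monoid.Coprod (Multiplicative (ℤ × ℤ)) (Multiplicative ℤ)),
      Submonoid.closure (Set.range f) = ⊤ →
      ¬ Language.IsContextFree ({w : List α | (w.map f).prod ≠ 1} : Language α) := by
  intro α _ f hf hcf
  have hs := surj_of_closure f hf
  obtain ⟨Pr, hPr⟩ := hFREE
  obtain ⟨T, hT, A, K, P0, hK, H⟩ := hCF f
    (Monoid.Coprod.inl : Multiplicative (ℤ × ℤ) →* GG) Monoid.Coprod.inl_injective hs hcf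
  obtain ⟨Ω, hΩ, g, hg, hgood⟩ := hGT f K P0 A _ _ Pr hs hK hPr
  obtain ⟨τ, r, hr, h1, h2⟩ := H Ω hΩ g hg
  exact h2 (hgood τ r hr h1)

end MPab
end

section
/-!
# MP_ab497f_al : module LL, the class lemma for arms
-/
set_option autoImplicit false

namespace MPab

namespace LL

theorem pigeon {Y : Type} [Finite Y] {n : ℕ} (h : Nat.card Y ≤ n) (g : ℕ → Y) :
    ∃ a b : ℕ, a < b ∧ b ≤ n ∧ g a = g b := by
  classical
  have := Fintype.ofFinite Y
  obtain ⟨x, y, hne, he⟩ := Fintype.exists_ne_map_eq_of_card_lt (fun i : Fin (n + 1) => g i)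
    (by
      rw [Fintype.card_fin, ← Nat.card_eq_fintype_card]
      exact Nat.lt_succ_of_le h)
  have hne' : (x : ℕ) ≠ y := fun h => hne (Fin.ext h)
  rcases lt_or_gt_of_ne hne' with h1 | h1
  · exact ⟨x, y, h1, by have := y.2; omega, he⟩
  · exact ⟨y, x, h1, by have := x.2; omega, he.symm⟩

theorem sel (s : ℕ → ℕ) (t g : ℕ) (hg : 0 < g) (hstep : ∀ i < t, s (i + 1) < s i + g) (x : ℕ)
    (h0 : s 0 ≤ x) (hx : x ≤ s t) : ∃ i ≤ t, x ≤ s i ∧ s i < x + g := by
  classical
  have hex : ∃ i, x ≤ s i := ⟨t, hx⟩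
  have h1 : Nat.find hex ≤ t := Nat.find_min' hex hx
  refine ⟨Nat.find hex, h1, Nat.find_spec hex, ?_⟩
  rcases Nat.eq_zero_or_pos (Nat.find hex) with h2 | h2
  · rw [h2]; omega
  · have h3 : ¬ x ≤ s (Nat.find hex - 1) := Nat.find_min hex (by omega)
    have h4 := hstep (Nat.find hex - 1) (by omega)
    rw [Nat.sub_add_cancel h2] at h4
    omega

theorem caseA {Y : Type} [Finite Y] (cls : ℕ → Y) (s : ℕ → ℕ) (t g C : ℕ)
    (hC : Nat.card Y ≤ C) (hg : 0 < g) (hmono : ∀ i j, i ≤ j → j ≤ t → s i ≤ s j)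
    (hstep : ∀ i < t, s (i + 1) < s i + g) (hbig : s 0 + 2 * g * C ≤ s t) :
    ∃ i j, i < j ∧ j ≤ t ∧ cls i = cls j ∧ s i + g ≤ s j := by
  classical
  have h1 : ∀ k : ℕ, ∃ i : ℕ, k ≤ C → i ≤ t ∧ s 0 + 2 * g * k ≤ s i ∧ s i < s 0 + 2 * g * k + g := by
    intro k
    by_cases hk : k ≤ C
    · obtain ⟨i, h2, h3, h4⟩ := sel s t g hg hstep (s 0 + 2 * g * k) (by omega)
        (le_trans (by
          have := Nat.mul_le_mul_left (2 * g) hk
          omega) hbig)
      exact ⟨i, fun _ => ⟨h2, h3, h4⟩⟩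
    · exact ⟨0, fun h => absurd h hk⟩
  choose idx hidx using h1
  obtain ⟨a, b, hab, hb, he⟩ := pigeon hC (fun k => cls (idx k))
  obtain ⟨a1, a2, a3⟩ := hidx a (by omega)
  obtain ⟨b1, b2, b3⟩ := hidx b hb
  have h5 : s (idx a) + g ≤ s (idx b) := by
    have h6 : 2 * g * (a + 1) ≤ 2 * g * b := Nat.mul_le_mul_left _ hab
    have h7 : 2 * g * (a + 1) = 2 * g * a + 2 * g := by ring
    omega
  refine ⟨idx a, idx b, ?_, b1, he, h5⟩
  by_contra hcon
  have := hmono (idx b) (idx a) (by omega) a1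
  omega

variable {α Q X : Type}

/-- the path of larger children -/
theorem exists_big (D : Nd Q α) :
    ∃ (c : ℕ → Nd Q α) (t : ℕ), Chain c t ∧ c 0 = D ∧ (c t).en = (c t).st + 1 ∧
      ∀ i < t, (c i).en - (c i).st ≤ 2 * ((c (i + 1)).en - (c (i + 1)).st) := by
  obtain ⟨i, T⟩ := D
  induction T generalizing i with
  | leaf q a =>
    refine ⟨fun _ => ⟨i, .leaf q a⟩, 0, fun j hj => by omega, rfl, ?_, fun j hj => by omega⟩
    simp only [Nd.en_mk, Tr.yd, List.length_singleton]
  | node q l r ihl ihr =>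
    have key : ∀ (F : Nd Q α), Child ⟨i, .node q l r⟩ F →
        (⟨i, .node q l r⟩ : Nd Q α).en - (⟨i, .node q l r⟩ : Nd Q α).st ≤ 2 * (F.en - F.st) →
        (∃ (c : ℕ → Nd Q α) (t : ℕ), Chain c t ∧ c 0 = F ∧ (c t).en = (c t).st + 1 ∧
          ∀ i < t, (c i).en - (c i).st ≤ 2 * ((c (i + 1)).en - (c (i + 1)).st)) →
        ∃ (c : ℕ → Nd Q α) (t : ℕ), Chain c t ∧ c 0 = ⟨i, .node q l r⟩ ∧
          (c t).en = (c t).st + 1 ∧
          ∀ i < t, (c i).en - (c i).st ≤ 2 * ((c (i + 1)).en - (c (i + 1)).st) := by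
      rintro F hF hsz ⟨c, t, hc, hc0, hst, hen⟩
      refine ⟨fun j => if j = 0 then ⟨i, .node q l r⟩ else c (j - 1), t + 1, ?_, by simp, ?_, ?_⟩
      · intro j hj
        rcases Nat.eq_zero_or_pos j with rfl | hpos
        · simp only [if_true, Nat.zero_add, Nat.one_ne_zero, if_false, Nat.sub_self]
          rw [hc0]; exact hF
        · simp only [if_neg (show j ≠ 0 by omega), if_neg (show j + 1 ≠ 0 by omega)]
          have := hc (j - 1) (by omega)
          rwa [show j - 1 + 1 = j + 1 - 1 by omega] at this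
      · simpa using hst
      · intro j hj
        rcases Nat.eq_zero_or_pos j with rfl | hpos
        · simp only [if_true, Nat.zero_add, Nat.one_ne_zero, if_false, Nat.sub_self]
          rw [hc0]; exact hsz
        · simp only [if_neg (show j ≠ 0 by omega), if_neg (show j + 1 ≠ 0 by omega)]
          have := hen (j - 1) (by omega)
          rwa [show j - 1 + 1 = j + 1 - 1 by omega] at this
    by_cases hp : r.yd.length ≤ l.yd.length
    · refine key _ (Child.left i q l r) ?_ (ihl i)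
      simp only [Nd.en_mk, Tr.yd, List.length_append]
      omega
    · refine key _ (Child.right i q l r) ?_ (ihr (i + l.yd.length))
      simp only [Nd.en_mk, Tr.yd, List.length_append]
      omega

theorem caseB [Finite Q] [Finite X] (col : ℕ → X) (m C : ℕ)
    (hC : Nat.card (Q × X × X) ≤ C) (hm : 1 ≤ m) (D : Nd Q α)
    (hD : 4 ^ (C + 1) * m + 1 ≤ D.en - D.st) :
    ∃ O I : Nd Q α, Below D O ∧ Below O I ∧ O.lab = I.lab ∧ col O.st = col I.st ∧
      col O.en = col I.en ∧ 2 * m ≤ (I.st - O.st) + (O.en - I.en) := by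
  classical
  obtain ⟨c, t, hc, hc0, hct, hsz⟩ := exists_big D
  let sz : ℕ → ℕ := fun i => (c i).en - (c i).st
  have hsz' : ∀ i < t, sz i ≤ 2 * sz (i + 1) := hsz
  have hszt : sz t = 1 := by
    show (c t).en - (c t).st = 1
    omega
  have hsz0 : 4 ^ (C + 1) * m + 1 ≤ sz 0 := by
    show _ ≤ (c 0).en - (c 0).st
    rw [hc0]; exact hD
  have h1 : ∀ k : ℕ, ∃ i : ℕ, k ≤ C → i ≤ t ∧ sz i ≤ 4 ^ (C + 1 - k) * m ∧
      4 ^ (C + 1 - k) * m < 2 * sz i := by
    intro k
    by_cases hk : k ≤ C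
    · have hT : 1 ≤ 4 ^ (C + 1 - k) * m := Nat.mul_pos (Nat.pow_pos (by norm_num)) hm
      have hex : ∃ i, sz i ≤ 4 ^ (C + 1 - k) * m := ⟨t, by rw [hszt]; exact hT⟩
      have h2 : Nat.find hex ≤ t := Nat.find_min' hex (by rw [hszt]; exact hT)
      have h3 : Nat.find hex ≠ 0 := by
        intro h0
        have h4 := Nat.find_spec hex
        rw [h0] at h4
        have h5 : 4 ^ (C + 1 - k) * m ≤ 4 ^ (C + 1) * m :=
          Nat.mul_le_mul_right _ (Nat.pow_le_pow_right (by norm_num) (by omega))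
        omega
      have h4 : ¬ sz (Nat.find hex - 1) ≤ 4 ^ (C + 1 - k) * m := Nat.find_min hex (by omega)
      have h5 := hsz' (Nat.find hex - 1) (by omega)
      rw [Nat.sub_add_cancel (by omega)] at h5
      exact ⟨Nat.find hex, fun _ => ⟨h2, Nat.find_spec hex, by omega⟩⟩
    · exact ⟨0, fun h => absurd h hk⟩
  choose idx hidx using h1
  obtain ⟨a, b, hab, hb, he⟩ := pigeon hC
    (fun k => (((c (idx k)).lab, col (c (idx k)).st, col (c (idx k)).en) : Q × X × X))
  obtain ⟨a1, a2, a3⟩ := hidx a (by omega)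
  obtain ⟨b1, b2, b3⟩ := hidx b hb
  simp only [Prod.mk.injEq] at he
  obtain ⟨e1, e2, e3⟩ := he
  have hpow : 4 * (4 ^ (C + 1 - b) * m) ≤ 4 ^ (C + 1 - a) * m := by
    have h5 : 4 ^ (C + 1 - b + 1) ≤ 4 ^ (C + 1 - a) :=
      Nat.pow_le_pow_right (by norm_num) (by omega)
    calc 4 * (4 ^ (C + 1 - b) * m) = 4 ^ (C + 1 - b + 1) * m := by ring
      _ ≤ _ := Nat.mul_le_mul_right _ h5
  have hpow2 : 16 * m ≤ 4 ^ (C + 1 - a) * m := by
    have h5 : 4 ^ 2 ≤ 4 ^ (C + 1 - a) := Nat.pow_le_pow_right (by norm_num) (by omega)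
    exact Nat.mul_le_mul_right _ (by simpa using h5)
  have hlt : idx a ≤ idx b := by
    by_contra hcon
    have hbel := hc.below (show idx b ≤ idx a by omega) a1
    have k1 := hbel.st_le
    have k2 := hbel.en_le
    have k3 : sz (idx a) ≤ sz (idx b) := by
      show (c (idx a)).en - (c (idx a)).st ≤ (c (idx b)).en - (c (idx b)).st
      omega
    omega
  have hbel := hc.below hlt b1
  refine ⟨c (idx a), c (idx b), ?_, hbel, e1, e2, e3, ?_⟩
  · rw [← hc0]
    exact hc.below (Nat.zero_le _) a1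
  · have k1 := hbel.st_le
    have k2 := hbel.en_le
    have k3 := (c (idx b)).st_lt_en
    have k4 : sz (idx a) = (c (idx a)).en - (c (idx a)).st := rfl
    have k5 : sz (idx b) = (c (idx b)).en - (c (idx b)).st := rfl
    omega

end LL

/-- module LL -/
theorem specLL : SpecLL := by
  intro α Q X _ _ col c t f₀ f₁ m C hC hm
  have hC' : Nat.card (Q × X × X) ≤ C := by
    rw [Nat.card_prod, Nat.card_prod, hC, pow_two]
  refine ⟨?_, ?_⟩
  · rintro ⟨hc, -, -, -⟩ hbig
    set S := (c t).st - (c 0).st with hS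
    set g := S / (2 * C + 2) with hg
    have hg1 : 4 ^ (C + 1) * m + 1 ≤ g := by
      rw [hg, Nat.le_div_iff_mul_le (by omega)]
      rw [Nat.mul_comm]; exact hbig
    have hg2 : g * (2 * C + 2) ≤ S := Nat.div_mul_le_self _ _
    have hg3 : S < (2 * C + 2) * (g + 1) := by
      have := Nat.lt_mul_div_succ S (show 0 < 2 * C + 2 by omega)
      exact this
    have hmg : m ≤ g := by
      have : m ≤ 4 ^ (C + 1) * m := Nat.le_mul_of_pos_left _ (Nat.pow_pos (by norm_num))
      omega
    have hpos : 0 < g := by omega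
    by_cases hstep : ∀ i < t, (c (i + 1)).st < (c i).st + g
    · obtain ⟨i, j, hij, hj, hcls, hgap⟩ := LL.caseA
        (fun i => (((c i).lab, col (c i).st, col (c i).en) : Q × X × X))
        (fun i => (c i).st) t g C hC' hpos
        (fun i j hij hj => (hc.below hij hj).st_le) hstep
        (by
          have h1 := (hc.below (Nat.zero_le t) le_rfl).st_le
          have h2 : 2 * g * C ≤ g * (2 * C + 2) := by nlinarith
          have h3 : (c 0).st + S = (c t).st := by omega
          show (c 0).st + 2 * g * C ≤ (c t).st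
          omega)
      simp only [Prod.mk.injEq] at hcls
      obtain ⟨e1, e2, e3⟩ := hcls
      refine ⟨c i, c j, hc.below (Nat.zero_le _) (by omega), hc.below hij.le hj, e1, e2, e3,
        Or.inl ⟨i, j, hij, hj, rfl, rfl, by omega, ?_⟩⟩
      have h5 : g ≤ (c j).st - (c i).st := by omega
      calc S ≤ (2 * C + 2) * (g + 1) := hg3.le
        _ ≤ (2 * C + 2) * (2 * g) := Nat.mul_le_mul_left _ (by omega)
        _ = 4 * (C + 1) * g := by ring
        _ ≤ _ := Nat.mul_le_mul_left _ h5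
    · push Not at hstep
      obtain ⟨i, hi, hstep⟩ := hstep
      rcases (hc i hi).cases' with ⟨h1, _⟩ | ⟨_, _, D, h2, h3, h4⟩
      · omega
      · obtain ⟨O, I, k1, k2, k3, k4, k5, k6⟩ := LL.caseB col m C hC' hm D (by omega)
        refine ⟨O, I, ?_, k2, k3, k4, k5, Or.inr ⟨?_, ?_⟩⟩
        · exact ((hc.below (Nat.zero_le _) hi.le).trans h2.below).trans k1
        · have h5 := k1.en_le
          have h6 := (hc.below (show i + 1 ≤ t from hi) le_rfl).st_le
          omega
        · rcases Nat.le_total (O.en - I.en) (I.st - O.st) with h7 | h7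
          · left; omega
          · right; omega
  · rintro ⟨hc, -, -, -⟩ hbig
    set S := (c 0).en - (c t).en with hS
    set g := S / (2 * C + 2) with hg
    have hg1 : 4 ^ (C + 1) * m + 1 ≤ g := by
      rw [hg, Nat.le_div_iff_mul_le (by omega)]
      rw [Nat.mul_comm]; exact hbig
    have hg2 : g * (2 * C + 2) ≤ S := Nat.div_mul_le_self _ _
    have hg3 : S < (2 * C + 2) * (g + 1) := by
      have := Nat.lt_mul_div_succ S (show 0 < 2 * C + 2 by omega)
      exact this
    have hmg : m ≤ g := by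
      have : m ≤ 4 ^ (C + 1) * m := Nat.le_mul_of_pos_left _ (Nat.pow_pos (by norm_num))
      omega
    have hpos : 0 < g := by omega
    by_cases hstep : ∀ i < t, (c i).en < (c (i + 1)).en + g
    · obtain ⟨i, j, hij, hj, hcls, hgap⟩ := LL.caseA
        (fun i => (((c i).lab, col (c i).st, col (c i).en) : Q × X × X))
        (fun i => (c 0).en - (c i).en) t g C hC' hpos
        (fun i j hij hj => by
          have := (hc.below hij hj).en_le
          show (c 0).en - (c i).en ≤ (c 0).en - (c j).en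
          omega)
        (fun i hi => by
          have h1 := hstep i hi
          have h2 := (hc.below (Nat.zero_le i) hi.le).en_le
          have h3 := (hc.below (Nat.zero_le (i + 1)) hi).en_le
          show (c 0).en - (c (i + 1)).en < (c 0).en - (c i).en + g
          omega)
        (by
          have h1 := (hc.below (Nat.zero_le t) le_rfl).en_le
          have h2 : 2 * g * C ≤ g * (2 * C + 2) := by nlinarith
          show (c 0).en - (c 0).en + 2 * g * C ≤ (c 0).en - (c t).en
          omega)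
      simp only [Prod.mk.injEq] at hcls
      obtain ⟨e1, e2, e3⟩ := hcls
      have b1 := (hc.below (Nat.zero_le i) (by omega)).en_le
      have b2 := (hc.below (Nat.zero_le j) hj).en_le
      refine ⟨c i, c j, hc.below (Nat.zero_le _) (by omega), hc.below hij.le hj, e1, e2, e3,
        Or.inl ⟨i, j, hij, hj, rfl, rfl, by omega, ?_⟩⟩
      have h5 : g ≤ (c i).en - (c j).en := by omega
      calc S ≤ (2 * C + 2) * (g + 1) := hg3.le
        _ ≤ (2 * C + 2) * (2 * g) := Nat.mul_le_mul_left _ (by omega)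
        _ = 4 * (C + 1) * g := by ring
        _ ≤ _ := Nat.mul_le_mul_left _ h5
    · push Not at hstep
      obtain ⟨i, hi, hstep⟩ := hstep
      rcases (hc i hi).cases' with ⟨_, _, D, h2, h3, h4⟩ | ⟨h1, _⟩
      · obtain ⟨O, I, k1, k2, k3, k4, k5, k6⟩ := LL.caseB col m C hC' hm D (by omega)
        refine ⟨O, I, ?_, k2, k3, k4, k5, Or.inr ⟨?_, ?_⟩⟩
        · exact ((hc.below (Nat.zero_le _) hi.le).trans h2.below).trans k1
        · have h5 := k1.st_le
          have h6 := (hc.below (show i + 1 ≤ t from hi) le_rfl).en_le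
          omega
        · rcases Nat.le_total (O.en - I.en) (I.st - O.st) with h7 | h7
          · left; omega
          · right; omega
      · omega

end MPab
end

section
/-!
# MP_ab497f_al, modules NWLEN, NWEX, NWPOS
-/
set_option autoImplicit false

namespace MPab

namespace NWf

variable {α G : Type} [Group G]

theorem long {P : List α} {Big : ℕ} (hP : P ≠ []) (hBig : 1 ≤ Big) {S : ℕ} {Ω : Noise α}
    {u : List α} (h : NW P Big S Ω u) : Big ≤ S ∧ S ≤ u.length := by
  have hPl : 1 ≤ P.length := List.length_pos_iff.2 hP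
  induction h with
  | blob S n h1 h2 h3 =>
    rw [rep_length]
    exact ⟨(Nat.le_mul_of_pos_right _ hPl).trans h3, h1⟩
  | sub S n W S' u h0 h1 h2 h3 ih =>
    rw [rep_length]
    have : 1 ≤ u.length := by omega
    exact ⟨(Nat.le_mul_of_pos_right _ this).trans h3, h1⟩
  | app S W₁ W₂ u₁ u₂ h1 h2 ih1 ih2 =>
    rw [List.length_append]
    exact ⟨ih1.1, by omega⟩
  | tr S v W u h ih =>
    simp only [List.length_append]
    exact ⟨ih.1, by omega⟩

theorem exists_mult {p S : ℕ} (hp : 1 ≤ p) (hS : p ≤ S) : ∃ n : ℕ, S ≤ n * p ∧ n * p ≤ 2 * S := by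
  refine ⟨S / p + 1, ?_, ?_⟩
  · have := Nat.lt_div_mul_add (a := S) (b := p) (by omega)
    rw [Nat.add_mul, Nat.one_mul]
    omega
  · have := Nat.div_mul_le_self S p
    rw [Nat.add_mul, Nat.one_mul]
    omega

end NWf

theorem specNWLEN : SpecNWLEN := by
  intro α Ω
  induction Ω with
  | blob =>
    refine ⟨2, ?_⟩
    intro P Big S u hP hBig h
    cases h with
    | blob _ n h1 h2 h3 => rw [rep_length]; exact h2
  | sub W ih =>
    refine ⟨2, ?_⟩
    intro P Big S u hP hBig h
    cases h with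
    | sub _ n _ S' u h0 h1 h2 h3 => rw [rep_length]; exact h2
  | app W₁ W₂ ih₁ ih₂ =>
    obtain ⟨m₁, h₁⟩ := ih₁
    obtain ⟨m₂, h₂⟩ := ih₂
    refine ⟨m₁ + m₂, ?_⟩
    intro P Big S u hP hBig h
    cases h with
    | app _ _ _ u₁ u₂ h1 h2 =>
      rw [List.length_append, Nat.add_mul]
      exact Nat.add_le_add (h₁ P Big S u₁ hP hBig h1) (h₂ P Big S u₂ hP hBig h2)
  | tr v W ih =>
    obtain ⟨m, hm⟩ := ih
    refine ⟨v.1.length + m + v.2.length, ?_⟩
    intro P Big S u hP hBig h
    have hl := (NWf.long hP hBig h).1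
    cases h with
    | tr _ _ _ u h =>
      have := hm P Big S u hP hBig h
      simp only [List.length_append, Nat.add_mul]
      have h1 : v.1.length ≤ v.1.length * S := Nat.le_mul_of_pos_right _ (by omega)
      have h2 : v.2.length ≤ v.2.length * S := Nat.le_mul_of_pos_right _ (by omega)
      omega

theorem specNWEX : SpecNWEX := by
  intro α P Big Ω hP hBig
  have hPl : 1 ≤ P.length := List.length_pos_iff.2 hP
  refine ⟨?_, fun S u h => NWf.long hP hBig h⟩
  induction Ω with
  | blob =>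
    refine ⟨Big * P.length, fun S hS => ?_⟩
    obtain ⟨n, h1, h2⟩ := NWf.exists_mult hPl
      (le_trans (Nat.le_mul_of_pos_left _ (by omega)) hS)
    exact ⟨_, NW.blob S n h1 h2 hS⟩
  | sub W ih =>
    obtain ⟨S₀, h₀⟩ := ih
    obtain ⟨u, hu⟩ := h₀ S₀ le_rfl
    have hl := NWf.long hP hBig hu
    refine ⟨Big * u.length, fun S hS => ?_⟩
    obtain ⟨n, h1, h2⟩ := NWf.exists_mult (p := u.length) (S := S) (by omega)
      (le_trans (Nat.le_mul_of_pos_left _ (by omega)) hS)
    exact ⟨_, NW.sub S n W S₀ u hu h1 h2 hS⟩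
  | app W₁ W₂ ih₁ ih₂ =>
    obtain ⟨S₁, h₁⟩ := ih₁
    obtain ⟨S₂, h₂⟩ := ih₂
    refine ⟨max S₁ S₂, fun S hS => ?_⟩
    obtain ⟨u₁, hu₁⟩ := h₁ S (le_trans (le_max_left _ _) hS)
    obtain ⟨u₂, hu₂⟩ := h₂ S (le_trans (le_max_right _ _) hS)
    exact ⟨_, NW.app S W₁ W₂ u₁ u₂ hu₁ hu₂⟩
  | tr v W ih =>
    obtain ⟨S₀, h₀⟩ := ih
    refine ⟨S₀, fun S hS => ?_⟩
    obtain ⟨u, hu⟩ := h₀ S hS
    exact ⟨_, NW.tr S v W u hu⟩

theorem specNWPOS : SpecNWPOS := by
  intro α G _ f P P0 Big Ω S u hP1 hP0 hΩ h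
  induction h with
  | blob S n h1 h2 h3 =>
    refine ⟨by rw [val_rep, hP1, one_pow], fun i => ?_⟩
    show val f ((rep n P).take i) ∈ P0
    rcases Nat.lt_or_ge (n * P.length) i with hi | hi
    · rw [List.take_of_length_le (by rw [rep_length]; omega), val_rep, hP1, one_pow]
      simpa using hP0 0
    · rw [val_rep_take f hP1 n i hi]
      exact hP0 _
  | sub S n W S' u h0 h1 h2 h3 ih =>
    obtain ⟨hu1, hu2⟩ := ih hΩ
    refine ⟨by rw [val_rep, hu1, one_pow], fun i => ?_⟩
    show val f ((rep n u).take i) ∈ posL f P0 W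
    rcases Nat.lt_or_ge (n * u.length) i with hi | hi
    · rw [List.take_of_length_le (by rw [rep_length]; omega), val_rep, hu1, one_pow]
      simpa using hu2 0
    · rw [val_rep_take f hu1 n i hi]
      exact hu2 _
  | app S W₁ W₂ u₁ u₂ h1 h2 ih1 ih2 =>
    obtain ⟨a1, a2⟩ := ih1 hΩ.1
    obtain ⟨b1, b2⟩ := ih2 hΩ.2
    refine ⟨by rw [val_append, a1, b1, one_mul], fun i => ?_⟩
    show _ ∈ posL f P0 W₁ ++ posL f P0 W₂
    rw [List.mem_append, List.take_append, val_append]
    rcases Nat.lt_or_ge u₁.length i with hi | hi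
    · right
      rw [List.take_of_length_le (by omega), a1, one_mul]
      exact b2 _
    · left
      rw [show i - u₁.length = 0 by omega, List.take_zero, val_nil, mul_one]
      exact a2 _
  | tr S v W u h ih =>
    obtain ⟨a1, a2⟩ := ih hΩ.2
    have hv : val f v.1 * val f v.2 = 1 := hΩ.1
    refine ⟨by rw [val_append, val_append, a1, mul_one, hv], fun i => ?_⟩
    show _ ∈ epos f v ++ (posL f P0 W).map fun p => val f v.1 * p
    rw [List.mem_append, List.append_assoc, List.take_append, val_append]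
    rcases Nat.lt_or_ge v.1.length i with hi | hi
    · rw [List.take_of_length_le (by omega), List.take_append, val_append]
      rcases Nat.lt_or_ge u.length (i - v.1.length) with hj | hj
      · left
        rw [List.take_of_length_le (l := u) (by omega), a1, one_mul]
        exact mem_epos_snd _
      · right
        rw [show i - v.1.length - u.length = 0 by omega, List.take_zero, val_nil, mul_one,
          List.mem_map]
        exact ⟨_, a2 _, rfl⟩
    · left
      rw [show i - v.1.length = 0 by omega, List.take_zero, val_nil, mul_one]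
      exact mem_epos_fst _

end MPab
end

section
/-!
# MP_ab497f_al : module TREE
-/
set_option autoImplicit false

namespace MPab

theorem specTREE : SpecTREE := by
  refine ⟨?_, ?_⟩
  · intro α Q L hL
    have key : ∀ (n : ℕ) (q : Q), ∀ w ∈ L q, w.length ≤ n →
        ∃ T : Tr Q α, T.Valid L ∧ T.lab = q ∧ T.yd = w := by
      intro n
      induction n with
      | zero =>
        intro q w hw hn
        have h0 : w = [] := List.length_eq_zero_iff.1 (by omega)
        subst h0
        exact absurd hw (hL.1 q)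
      | succ n ih =>
        intro q w hw hn
        rcases Nat.lt_or_ge w.length 2 with h | h
        · rcases w with _ | ⟨a, w⟩
          · exact absurd hw (hL.1 q)
          · rcases w with _ | ⟨b, w⟩
            · exact ⟨.leaf q a, hw, rfl, rfl⟩
            · simp only [List.length_cons] at h
              omega
        · obtain ⟨w₁, w₂, rfl, q₁, q₂, h₁, h₂, h₃⟩ := hL.2 q w hw h
          have hl₁ : 0 < w₁.length := by
            rcases w₁ with _ | ⟨a, w₁⟩
            · exact absurd h₁ (hL.1 q₁)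
            · simp
          have hl₂ : 0 < w₂.length := by
            rcases w₂ with _ | ⟨a, w₂⟩
            · exact absurd h₂ (hL.1 q₂)
            · simp
          rw [List.length_append] at hn
          obtain ⟨T₁, hv₁, hb₁, hy₁⟩ := ih q₁ w₁ h₁ (by omega)
          obtain ⟨T₂, hv₂, hb₂, hy₂⟩ := ih q₂ w₂ h₂ (by omega)
          refine ⟨.node q T₁ T₂, ⟨?_, hv₁, hv₂⟩, rfl, ?_⟩
          · intro u₁ hu₁ u₂ hu₂
            rw [hb₁] at hu₁
            rw [hb₂] at hu₂
            exact h₃ u₁ hu₁ u₂ hu₂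
          · simp only [Tr.yd, hy₁, hy₂]
    intro q w hw
    exact key w.length q w hw le_rfl
  · intro α Q L T hT
    exact hT.mem

end MPab
end
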